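import Mathlib

set_option autoImplicit false

open Set

namespace Pool.Agent.H44.Shore

/-- One-dimensional data of a covering path seen in one direction: `X t` is the projection of the
path, it is `1`-Lipschitz, starts at `0`, and at each time `t > 0` both one-sided records are at
least `t / ρ`. -/
structure LineData (X : ℝ → ℝ) (ρ : ℝ) : Prop where
  zero : X 0 = 0
  lip : ∀ s t : ℝ, 0 ≤ s → 0 ≤ t → |X s - X t| ≤ |s - t|
  pos : ∀ t : ℝ, 0 < t → ∃ s ∈ Icc (0:ℝ) t, t / ρ ≤ X s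
  neg : ∀ t : ℝ, 0 < t → ∃ s ∈ Icc (0:ℝ) t, t / ρ ≤ -X s

theorem LineData.symm {X : ℝ → ℝ} {ρ : ℝ} (h : LineData X ρ) : LineData (fun t => -X t) ρ where
  zero := by simp [h.zero]
  lip := fun s t hs ht => by
    have := h.lip s t hs ht
    rw [show (-X s - -X t) = -(X s - X t) by ring, abs_neg]
    exact this
  pos := h.neg
  neg := fun t ht => by simpa using h.pos t ht

theorem LineData.le_self {X : ℝ → ℝ} {ρ : ℝ} (h : LineData X ρ) {t : ℝ} (ht : 0 ≤ t) :
    X t ≤ t := by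
  have := h.lip t 0 ht le_rfl
  rw [h.zero, sub_zero, sub_zero, abs_of_nonneg ht] at this
  exact (abs_le.mp this).2

theorem LineData.continuousOn {X : ℝ → ℝ} {ρ : ℝ} (h : LineData X ρ) {a b : ℝ} (ha : 0 ≤ a) :
    ContinuousOn X (Icc a b) := by
  have : LipschitzOnWith 1 X (Icc a b) := by
    apply LipschitzOnWith.of_dist_le_mul
    intro x hx y hy
    rw [Real.dist_eq, Real.dist_eq]
    simpa using h.lip x y (ha.trans hx.1) (ha.trans hy.1)
  exact this.continuousOn

/-- State of the alternation: at time `c` the path is at a record in direction `+`, and the record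
in direction `-` is `A`. -/
structure State (X : ℝ → ℝ) (c A : ℝ) : Prop where
  one_le : 1 ≤ c
  rec_ : ∀ s ∈ Icc (0:ℝ) c, X s ≤ X c
  le_A : ∀ s ∈ Icc (0:ℝ) c, -X s ≤ A
  ex_A : ∃ s ∈ Icc (0:ℝ) c, -X s = A

theorem State.A_le {X : ℝ → ℝ} {ρ c A : ℝ} (h : LineData X ρ) (S : State X c A) : A ≤ c := by
  obtain ⟨s, hs, rfl⟩ := S.ex_A
  exact (h.symm.le_self hs.1).trans hs.2

theorem State.le_A' {X : ℝ → ℝ} {ρ c A : ℝ} (h : LineData X ρ) (S : State X c A) : c / ρ ≤ A := by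
  obtain ⟨s, hs, h1⟩ := h.neg c (by linarith [S.one_le])
  exact h1.trans (S.le_A s hs)

theorem State.le_rec {X : ℝ → ℝ} {ρ c A : ℝ} (h : LineData X ρ) (S : State X c A) :
    c / ρ ≤ X c := by
  obtain ⟨s, hs, h1⟩ := h.pos c (by linarith [S.one_le])
  exact h1.trans (S.rec_ s hs)

/-- one step of the alternation -/
theorem State.step {X : ℝ → ℝ} {ρ ρ₀ : ℝ} (hρ : 1 ≤ ρ) (hρ₀ : ρ < ρ₀) (h : LineData X ρ)
    {W : ℝ → ℝ → ℝ} (W0 : ∀ s t, 1 ≤ s → s ≤ t → 0 ≤ W s t)
    (Wadd : ∀ s t u, 1 ≤ s → s ≤ t → t ≤ u → W s u = W s t + W t u)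
    (Q : ∀ m c : ℝ, 1 ≤ m → m ≤ c → m / ρ₀ ≤ X m → c / ρ₀ ≤ -X c →
      Real.log (ρ₀ * X m / c) ≤ W m c)
    {c A : ℝ} (S : State X c A) :
    ∃ c' A', State (fun t => -X t) c' A' ∧ (1 + 2 / ρ) * c ≤ c' ∧ c' ≤ ρ * c ∧
      Real.log A' - Real.log A + Real.log (ρ₀ / ρ) ≤ W c c' := by
  have hρpos : 0 < ρ := by linarith
  have hρ₀pos : 0 < ρ₀ := by linarith
  have hc1 := S.one_le
  have hcpos : 0 < c := by linarith
  have hAle := S.A_le h
  have hleA := S.le_A' h
  have hApos : 0 < A := lt_of_lt_of_le (by positivity) hleA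
  have hrec := S.le_rec h
  have hXc : 0 < X c := lt_of_lt_of_le (by positivity) hrec
  -- a time at which the other side is above `A`
  obtain ⟨t1, ht1c, ht1⟩ : ∃ t1, c ≤ t1 ∧ A ≤ -X t1 := by
    obtain ⟨s, hs, h1⟩ := h.neg (ρ * (A + 1)) (by positivity)
    rw [mul_div_cancel_left₀ _ hρpos.ne'] at h1
    refine ⟨s, ?_, by linarith⟩
    by_contra hlt
    push Not at hlt
    have := S.le_A s ⟨hs.1, hlt.le⟩
    linarith
  -- first time
  have hcl : IsClosed {t | t ∈ Icc c t1 ∧ A ≤ -X t} := by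
    have hcont : ContinuousOn (fun t => -X t) (Icc c t1) :=
      h.symm.continuousOn hcpos.le
    have := hcont.preimage_isClosed_of_isClosed isClosed_Icc (isClosed_Ici (a := A))
    exact this
  have hne : {t | t ∈ Icc c t1 ∧ A ≤ -X t}.Nonempty := ⟨t1, ⟨ht1c, le_rfl⟩, ht1⟩
  have hbdd : BddBelow {t | t ∈ Icc c t1 ∧ A ≤ -X t} := ⟨c, fun t ht => ht.1.1⟩
  set c' := sInf {t | t ∈ Icc c t1 ∧ A ≤ -X t} with hc'
  have hmem : c' ∈ {t | t ∈ Icc c t1 ∧ A ≤ -X t} := hcl.csInf_mem hne hbdd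
  obtain ⟨⟨hcc', hc't1⟩, hAc'⟩ := hmem
  have hlt : ∀ t, c ≤ t → t < c' → -X t < A := by
    intro t ht1' ht2
    by_contra hcon
    push Not at hcon
    have : c' ≤ t := csInf_le hbdd ⟨⟨ht1', ht2.le.trans hc't1⟩, hcon⟩
    linarith
  have hcltc' : c < c' := by
    rcases hcc'.lt_or_eq with h1 | h1
    · exact h1
    · exfalso
      rw [← h1] at hAc'
      linarith
  -- equality at c'
  have hEq : -X c' = A := by
    apply le_antisymm _ hAc'
    -- limit from the left
    by_contra hcon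
    push Not at hcon
    -- by Lipschitz continuity, slightly before c' still above A
    set ε := min (-X c' - A) (c' - c) with hε
    have hεpos : 0 < ε := lt_min (by linarith) (by linarith)
    have h1 := h.lip (c' - ε / 2) c' (by
      have : ε ≤ c' - c := min_le_right _ _
      linarith) (by linarith)
    have h2 : |c' - ε / 2 - c'| = ε / 2 := by
      rw [show c' - ε / 2 - c' = -(ε / 2) by ring, abs_neg, abs_of_pos (by linarith)]
    rw [h2] at h1
    have h3 := (abs_le.mp h1).2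
    have h4 := hlt (c' - ε / 2) (by
      have : ε ≤ c' - c := min_le_right _ _
      linarith) (by linarith)
    have h5 : ε ≤ -X c' - A := min_le_left _ _
    linarith
  have hc'pos : 0 < c' := by linarith
  have hrec' : ∀ s ∈ Icc (0:ℝ) c', -X s ≤ -X c' := by
    intro s hs
    rw [hEq]
    rcases le_or_gt s c with h1 | h1
    · exact S.le_A s ⟨hs.1, h1⟩
    · rcases hs.2.lt_or_eq with h2 | h2
      · exact (hlt s h1.le h2).le
      · rw [h2, hEq]
  have hAc'' : c' / ρ ≤ A := by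
    obtain ⟨s, hs, h1⟩ := h.neg c' hc'pos
    rw [← hEq]
    exact h1.trans (hrec' s hs)
  -- maximum of X on [c, c']
  obtain ⟨m, hm, hmax⟩ := isCompact_Icc.exists_isMaxOn (nonempty_Icc.mpr hcc')
    (h.continuousOn (a := c) (b := c') hcpos.le)
  have hmax' : ∀ s ∈ Icc (0:ℝ) c', X s ≤ X m := by
    intro s hs
    rcases le_or_gt s c with h1 | h1
    · exact (S.rec_ s ⟨hs.1, h1⟩).trans (hmax ⟨le_rfl, hcc'⟩)
    · exact hmax ⟨h1.le, hs.2⟩
  have hXm : c' / ρ ≤ X m := by
    obtain ⟨s, hs, h1⟩ := h.pos c' hc'pos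
    exact h1.trans (hmax' s hs)
  have hXmpos : 0 < X m := lt_of_lt_of_le (by positivity) hXm
  have hdiv : c' / ρ₀ ≤ c' / ρ := by
    apply div_le_div_of_nonneg_left hc'pos.le hρpos hρ₀.le
  refine ⟨c', X m, ⟨by linarith, hrec', fun s hs => by simpa using hmax' s hs,
    ⟨m, ⟨by linarith [hm.1], hm.2⟩, by simp⟩⟩, ?_, ?_, ?_⟩
  · have h1 := h.lip c c' hcpos.le hc'pos.le
    have h2 : |c - c'| = c' - c := by
      rw [abs_sub_comm, abs_of_pos (by linarith)]
    rw [h2] at h1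
    have h3 := (abs_le.mp h1).2
    have h4 : c / ρ ≤ A := hleA
    have h5 : 2 / ρ * c = c / ρ + c / ρ := by ring
    have : X c - X c' = X c + A := by rw [← hEq]; ring
    rw [this] at h3
    linarith [hrec]
  · have h1 : c' ≤ ρ * A := by
      rw [div_le_iff₀ hρpos] at hAc''
      linarith
    exact h1.trans (mul_le_mul_of_nonneg_left hAle hρpos.le)
  · have hQ := Q m c' (by linarith [hm.1]) hm.2
      ((div_le_div_of_nonneg_right hm.2 hρ₀pos.le).trans (hdiv.trans hXm))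
      (by rw [hEq]; exact hdiv.trans hAc'')
    have hW : W m c' ≤ W c c' := by
      rw [Wadd c m c' hc1 hm.1 hm.2]
      linarith [W0 c m hc1 hm.1]
    refine le_trans ?_ (hQ.trans hW)
    have e1 : Real.log (ρ₀ * X m / c') = Real.log ρ₀ + Real.log (X m) - Real.log c' := by
      rw [Real.log_div (by positivity) hc'pos.ne', Real.log_mul hρ₀pos.ne' hXmpos.ne']
    have e2 : Real.log (ρ₀ / ρ) = Real.log ρ₀ - Real.log ρ :=
      Real.log_div hρ₀pos.ne' hρpos.ne'
    have e3 : Real.log c' ≤ Real.log ρ + Real.log A := by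
      rw [← Real.log_mul hρpos.ne' hApos.ne']
      apply Real.log_le_log hc'pos
      rw [div_le_iff₀ hρpos] at hAc''
      linarith
    rw [e1, e2]
    linarith

/-- The lower bound for the total weight over `[1, T]`. -/
theorem line_bound {X : ℝ → ℝ} {ρ ρ₀ : ℝ} (hρ : 1 < ρ) (hρ₀ : ρ < ρ₀) (h : LineData X ρ)
    {W : ℝ → ℝ → ℝ} (W0 : ∀ s t, 1 ≤ s → s ≤ t → 0 ≤ W s t)
    (Wadd : ∀ s t u, 1 ≤ s → s ≤ t → t ≤ u → W s u = W s t + W t u)
    (Qp : ∀ m c : ℝ, 1 ≤ m → m ≤ c → m / ρ₀ ≤ X m → c / ρ₀ ≤ -X c →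
      Real.log (ρ₀ * X m / c) ≤ W m c)
    (Qm : ∀ m c : ℝ, 1 ≤ m → m ≤ c → m / ρ₀ ≤ -X m → c / ρ₀ ≤ X c →
      Real.log (ρ₀ * -X m / c) ≤ W m c)
    {T : ℝ} (hT : ρ ≤ T) :
    Real.log T - 3 * Real.log ρ + (Real.log T / Real.log ρ - 2) * Real.log (ρ₀ / ρ) ≤ W 1 T := by
  have hρpos : 0 < ρ := by linarith
  have hρ₀pos : 0 < ρ₀ := by linarith
  have hlogρ : 0 < Real.log ρ := Real.log_pos hρ
  set δ := Real.log (ρ₀ / ρ) with hδ
  have hδpos : 0 < δ := by
    apply Real.log_pos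
    rw [one_lt_div hρpos]
    exact hρ₀
  have hTpos : 0 < T := by linarith
  -- a state for one of the two signs
  let St : ℝ → ℝ → Prop := fun c A => State X c A ∨ State (fun t => -X t) c A
  have hSt_le : ∀ c A, St c A → 1 ≤ c ∧ A ≤ c ∧ c / ρ ≤ A := by
    rintro c A (S | S)
    · exact ⟨S.one_le, S.A_le h, S.le_A' h⟩
    · exact ⟨S.one_le, S.A_le h.symm, S.le_A' h.symm⟩
  have hstep : ∀ c A, St c A → ∃ c' A', St c' A' ∧ (1 + 2 / ρ) * c ≤ c' ∧ c' ≤ ρ * c ∧
      Real.log A' - Real.log A + δ ≤ W c c' := by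
    rintro c A (S | S)
    · obtain ⟨c', A', S', h1, h2, h3⟩ := S.step hρ.le hρ₀ h W0 Wadd Qp
      exact ⟨c', A', Or.inr S', h1, h2, h3⟩
    · obtain ⟨c', A', S', h1, h2, h3⟩ := S.step hρ.le hρ₀ h.symm W0 Wadd
        (fun m c h1 h2 h3 h4 => Qm m c h1 h2 h3 (by simpa using h4))
      refine ⟨c', A', Or.inl ?_, h1, h2, h3⟩
      simpa using S'
  -- the initial state
  obtain ⟨c₀, A₀, hS₀, hc₀⟩ : ∃ c₀ A₀, St c₀ A₀ ∧ c₀ ≤ ρ := by
    -- record on [0,1]
    obtain ⟨m₀, hm₀, hmax₀⟩ := isCompact_Icc.exists_isMaxOn (nonempty_Icc.mpr zero_le_one)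
      (h.continuousOn (a := 0) (b := 1) le_rfl)
    set R := X m₀ with hR
    have hRle : R ≤ 1 := (h.le_self hm₀.1).trans hm₀.2
    have hRpos : 0 < R := by
      obtain ⟨s, hs, h1⟩ := h.pos 1 one_pos
      have h2 : X s ≤ R := hmax₀ hs
      have : 0 < 1 / ρ := by positivity
      linarith
    obtain ⟨t1, ht1c, ht1⟩ : ∃ t1, 1 ≤ t1 ∧ R ≤ X t1 := by
      obtain ⟨s, hs, h1⟩ := h.pos (ρ * (R + 1)) (by positivity)
      rw [mul_div_cancel_left₀ _ hρpos.ne'] at h1
      refine ⟨s, ?_, by linarith⟩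
      by_contra hlt
      push Not at hlt
      have : X s ≤ R := hmax₀ ⟨hs.1, hlt.le⟩
      linarith
    have hcl : IsClosed {t | t ∈ Icc 1 t1 ∧ R ≤ X t} := by
      have hcont : ContinuousOn X (Icc 1 t1) := h.continuousOn zero_le_one
      exact hcont.preimage_isClosed_of_isClosed isClosed_Icc (isClosed_Ici (a := R))
    have hne : {t | t ∈ Icc 1 t1 ∧ R ≤ X t}.Nonempty := ⟨t1, ⟨ht1c, le_rfl⟩, ht1⟩
    have hbdd : BddBelow {t | t ∈ Icc 1 t1 ∧ R ≤ X t} := ⟨1, fun t ht => ht.1.1⟩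
    set c' := sInf {t | t ∈ Icc 1 t1 ∧ R ≤ X t} with hc'
    have hmem : c' ∈ {t | t ∈ Icc 1 t1 ∧ R ≤ X t} := hcl.csInf_mem hne hbdd
    obtain ⟨⟨hcc', hc't1⟩, hAc'⟩ := hmem
    have hlt : ∀ t, 1 ≤ t → t < c' → X t < R := by
      intro t ht1' ht2
      by_contra hcon
      push Not at hcon
      have : c' ≤ t := csInf_le hbdd ⟨⟨ht1', ht2.le.trans hc't1⟩, hcon⟩
      linarith
    have hrec' : ∀ s ∈ Icc (0:ℝ) c', X s ≤ X c' := by
      intro s hs
      rcases le_or_gt s 1 with h1 | h1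
      · exact (hmax₀ ⟨hs.1, h1⟩).trans hAc'
      · rcases hs.2.lt_or_eq with h2 | h2
        · exact (hlt s h1.le h2).le.trans hAc'
        · rw [h2]
    have hc'pos : 0 < c' := by linarith
    -- X c' = R
    have hEq : X c' ≤ R := by
      by_contra hcon
      push Not at hcon
      have h1c : 1 < c' := by
        rcases hcc'.lt_or_eq with h1 | h1
        · exact h1
        · exfalso
          have : X c' ≤ R := by
            rw [← h1]
            exact hmax₀ ⟨zero_le_one, le_rfl⟩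
          linarith
      set ε := min (X c' - R) (c' - 1) with hε
      have hεpos : 0 < ε := lt_min (by linarith) (by linarith)
      have h1 := h.lip (c' - ε / 2) c' (by
        have : ε ≤ c' - 1 := min_le_right _ _
        linarith) (by linarith)
      have h2 : |c' - ε / 2 - c'| = ε / 2 := by
        rw [show c' - ε / 2 - c' = -(ε / 2) by ring, abs_neg, abs_of_pos (by linarith)]
      rw [h2] at h1
      have h3 := (abs_le.mp h1).1
      have h4 := hlt (c' - ε / 2) (by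
        have : ε ≤ c' - 1 := min_le_right _ _
        linarith) (by linarith)
      have h5 : ε ≤ X c' - R := min_le_left _ _
      linarith
    obtain ⟨m, hm, hmax⟩ := isCompact_Icc.exists_isMaxOn (nonempty_Icc.mpr hc'pos.le)
      (h.symm.continuousOn (a := 0) (b := c') le_rfl)
    refine ⟨c', -X m, Or.inl ⟨hcc', hrec', fun s hs => hmax hs, ⟨m, hm, rfl⟩⟩, ?_⟩
    obtain ⟨s, hs, h1⟩ := h.pos c' hc'pos
    have h2 := h1.trans (hrec' s hs)
    rw [div_le_iff₀ hρpos] at h2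
    nlinarith
  have hmain : ∀ n : ℕ, ∃ (k : ℕ) (c A : ℝ), St c A ∧ c ≤ T ∧ c ≤ ρ ^ (k + 1) ∧
      Real.log A - Real.log ρ + k * δ ≤ W 1 c ∧ (T / ρ < c ∨ (1 + 2 / ρ) ^ n ≤ c) := by
    intro n
    induction n with
    | zero =>
      obtain ⟨h1, h2, h3⟩ := hSt_le _ _ hS₀
      refine ⟨0, c₀, A₀, hS₀, hc₀.trans hT, by simpa using hc₀, ?_, Or.inr (by simpa using h1)⟩
      have hA₀pos : 0 < A₀ := lt_of_lt_of_le (by positivity) h3
      have : Real.log A₀ ≤ Real.log ρ := Real.log_le_log hA₀pos (h2.trans hc₀)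
      have := W0 1 c₀ le_rfl h1
      simp
      linarith
    | succ n ih =>
      obtain ⟨k, c, A, hS, hcT, hck, hW, hor⟩ := ih
      rcases hor with h1 | h1
      · exact ⟨k, c, A, hS, hcT, hck, hW, Or.inl h1⟩
      · rcases lt_or_ge (T / ρ) c with h2 | h2
        · exact ⟨k, c, A, hS, hcT, hck, hW, Or.inl h2⟩
        · obtain ⟨c', A', hS', g1, g2, g3⟩ := hstep c A hS
          obtain ⟨hc1, hAc, hcA⟩ := hSt_le _ _ hS
          have hcpos : 0 < c := by linarith
          have hcc' : c ≤ c' := by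
            have : 0 ≤ 2 / ρ * c := by positivity
            nlinarith
          refine ⟨k + 1, c', A', hS', ?_, ?_, ?_, Or.inr ?_⟩
          · refine g2.trans ?_
            rw [le_div_iff₀ hρpos] at h2
            linarith
          · refine g2.trans ?_
            rw [pow_succ ρ (k + 1), mul_comm]
            exact mul_le_mul_of_nonneg_right hck hρpos.le
          · rw [Wadd 1 c c' le_rfl hc1 hcc']
            push_cast
            linarith
          · rw [pow_succ, mul_comm]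
            refine le_trans ?_ g1
            exact mul_le_mul_of_nonneg_left h1 (by positivity)
  obtain ⟨n, hn⟩ : ∃ n : ℕ, T < (1 + 2 / ρ) ^ n :=
    pow_unbounded_of_one_lt T (by
      have : 0 < 2 / ρ := by positivity
      linarith)
  obtain ⟨k, c, A, hS, hcT, hck, hW, hor⟩ := hmain n
  have hTc : T / ρ < c := by
    rcases hor with h1 | h1
    · exact h1
    · linarith
  obtain ⟨hc1, hAc, hcA⟩ := hSt_le _ _ hS
  have hcpos : 0 < c := by linarith
  have hWT : W 1 c ≤ W 1 T := by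
    rw [Wadd 1 c T le_rfl hc1 hcT]
    linarith [W0 c T hc1 hcT]
  refine le_trans ?_ (hW.trans hWT)
  have e1 : Real.log T - 2 * Real.log ρ ≤ Real.log A := by
    have : T / ρ / ρ ≤ A := (div_le_div_of_nonneg_right hTc.le hρpos.le).trans hcA
    have h2 := Real.log_le_log (by positivity) this
    rw [Real.log_div (by positivity) hρpos.ne', Real.log_div hTpos.ne' hρpos.ne'] at h2
    linarith
  have e2 : Real.log T / Real.log ρ - 2 ≤ k := by
    have h1 : T ≤ ρ ^ (k + 2) := by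
      rw [div_lt_iff₀ hρpos] at hTc
      have : c * ρ ≤ ρ ^ (k + 1) * ρ := mul_le_mul_of_nonneg_right hck hρpos.le
      rw [← pow_succ] at this
      linarith
    have h2 := Real.log_le_log hTpos h1
    rw [Real.log_pow] at h2
    rw [sub_le_iff_le_add, div_le_iff₀ hlogρ]
    push_cast at h2
    exact h2
  have e3 : (Real.log T / Real.log ρ - 2) * δ ≤ k * δ := mul_le_mul_of_nonneg_right e2 hδpos.le
  linarith

end Pool.Agent.H44.Shore
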