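import Mathlib
import Pool.Agent.H44.Shore.Line

set_option autoImplicit false

open Set MeasureTheory Filter Topology
open Complex (I)

namespace Pool.Agent.H44.Shore

/-- A trajectory: starts at the origin, speed at most one. -/
structure IsTraj (g : ℝ → ℂ) : Prop where
  zero : g 0 = 0
  lip : ∀ s t : ℝ, 0 ≤ s → 0 ≤ t → ‖g s - g t‖ ≤ |s - t|

/-- `g` covers with ratio `ρ`: at each time `t > 0` and in each direction the path has already
reached projection `t / ρ`. -/
def Covers (g : ℝ → ℂ) (ρ : ℝ) : Prop :=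
  ∀ a t : ℝ, 0 < t → ∃ s ∈ Icc (0:ℝ) t, t / ρ ≤ (g s * Complex.exp (a * I)).re

/-- Certificate for the lower bound `ρ₀`. -/
structure Cert (ρ₀ : ℝ) (β N : ℂ → ℝ) (Kr : Set ℝ) : Prop where
  countable : Kr.Countable
  lipβ : ∃ K, LipschitzWith K β
  lipN : ∃ K, LipschitzWith K N
  c1 : ∀ z : ℂ, ‖z‖ ≤ 1 → 1 / ρ₀ ≤ z.re → β z ≤ 0
  c2 : ∀ z : ℂ, ‖z‖ ≤ 1 → z.re ≤ -(1 / ρ₀) → Real.log (ρ₀ * |z.re|) ≤ β z
  c3 : ∀ z v : ℂ, z ≠ 0 → ‖z‖ ≤ 1 → ‖v‖ ≤ 1 →
    (‖z‖ ∈ Kr → ((v - z) * (starRingEnd ℂ) z).re = 0) →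
    ∀ n : ℝ, HasDerivAt (fun s : ℝ => N (z + s * (v - z))) n 0 →
    ∃ m : ℝ → ℝ, IntervalIntegrable m volume 0 (2 * Real.pi) ∧
      (∀ᵐ a : ℝ ∂(volume.restrict (Ioc 0 (2 * Real.pi))), ∀ d : ℝ,
        HasDerivAt (fun s : ℝ => β (Complex.exp (a * I) * (z + s * (v - z)))) d 0 →
          max 0 (-1 - d) ≤ m a) ∧
      ∫ a in (0:ℝ)..(2 * Real.pi), m a ≤ Real.pi * (1 + n)

/-- the rescaled path, frozen before time `1` -/
noncomputable def zeta (g : ℝ → ℂ) (t : ℝ) : ℂ := g (max t 1) / ((max t 1 : ℝ) : ℂ)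

theorem IsTraj.norm_le {g : ℝ → ℂ} (h : IsTraj g) {t : ℝ} (ht : 0 ≤ t) : ‖g t‖ ≤ t := by
  have := h.lip t 0 ht le_rfl
  rwa [h.zero, sub_zero, sub_zero, abs_of_nonneg ht] at this

theorem IsTraj.zeta_norm_le {g : ℝ → ℂ} (h : IsTraj g) (t : ℝ) : ‖zeta g t‖ ≤ 1 := by
  have h1 : (1:ℝ) ≤ max t 1 := le_max_right _ _
  rw [zeta, norm_div, Complex.norm_real, Real.norm_eq_abs, abs_of_pos (by linarith)]
  rw [div_le_one (by linarith)]
  exact h.norm_le (by linarith)

theorem IsTraj.zeta_lip {g : ℝ → ℂ} (h : IsTraj g) : LipschitzWith 2 (zeta g) := by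
  apply LipschitzWith.of_dist_le_mul
  intro s t
  rw [dist_eq_norm, Real.dist_eq]
  set s' := max s 1 with hs'
  set t' := max t 1 with ht'
  have hs1 : (1:ℝ) ≤ s' := le_max_right _ _
  have ht1 : (1:ℝ) ≤ t' := le_max_right _ _
  have hst : |s' - t'| ≤ |s - t| := abs_max_sub_max_le_abs s t 1
  have e : zeta g s - zeta g t = (g s' - g t') / (s' : ℂ) + g t' * ((t' - s' : ℝ) : ℂ) / ((s' : ℂ) * t') := by
    rw [zeta, zeta, ← hs', ← ht']
    have : (s' : ℂ) ≠ 0 := by exact_mod_cast (by linarith : s' ≠ 0)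
    have : (t' : ℂ) ≠ 0 := by exact_mod_cast (by linarith : t' ≠ 0)
    push_cast
    field_simp
    ring
  rw [e]
  have h1 : ‖(g s' - g t') / (s' : ℂ)‖ ≤ |s - t| := by
    rw [norm_div, Complex.norm_real, Real.norm_eq_abs, abs_of_pos (by linarith : (0:ℝ) < s')]
    rw [div_le_iff₀ (by linarith)]
    have := h.lip s' t' (by linarith) (by linarith)
    nlinarith [abs_nonneg (s - t)]
  have h2 : ‖g t' * ((t' - s' : ℝ) : ℂ) / ((s' : ℂ) * t')‖ ≤ |s - t| := by
    rw [norm_div, norm_mul, norm_mul, Complex.norm_real, Complex.norm_real, Complex.norm_real,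
      Real.norm_eq_abs, Real.norm_eq_abs, Real.norm_eq_abs, abs_of_pos (by linarith : (0:ℝ) < s'),
      abs_of_pos (by linarith : (0:ℝ) < t')]
    rw [div_le_iff₀ (by positivity)]
    have h3 := h.norm_le (t := t') (by linarith)
    rw [abs_sub_comm t' s']
    calc ‖g t'‖ * |s' - t'| ≤ t' * |s - t| := by
          apply mul_le_mul h3 hst (abs_nonneg _) (by linarith)
      _ = |s - t| * (1 * t') := by ring
      _ ≤ |s - t| * (s' * t') := by
          apply mul_le_mul_of_nonneg_left _ (abs_nonneg _)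
          apply mul_le_mul_of_nonneg_right hs1 (by linarith)
  calc _ ≤ _ := norm_add_le _ _
    _ ≤ |s - t| + |s - t| := add_le_add h1 h2
    _ = ((2 : NNReal) : ℝ) * |s - t| := by push_cast; ring

theorem zeta_of_one_le {g : ℝ → ℂ} {t : ℝ} (ht : 1 ≤ t) : zeta g t = g t / (t : ℂ) := by
  rw [zeta, max_eq_left ht]

/-- chain rule along a curve for a Lipschitz function, from a directional derivative -/
theorem hasDerivAt_comp_of_dir {β : ℂ → ℝ} {K : NNReal} (hβ : LipschitzWith K β)
    {f : ℝ → ℂ} {u : ℂ} {t d : ℝ} (hf : HasDerivAt f u t)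
    (hd : HasDerivAt (fun s : ℝ => β (f t + s * u)) d 0) :
    HasDerivAt (fun x => β (f x)) d t := by
  rw [hasDerivAt_iff_isLittleO] at hf hd ⊢
  have h1 : (fun x => β (f x) - β (f t) - (x - t) • d) =
      (fun x => (β (f x) - β (f t + ((x - t : ℝ) : ℂ) * u)) +
        (β (f t + ((x - t : ℝ) : ℂ) * u) - β (f t) - (x - t) • d)) := by
    funext x
    ring
  rw [h1]
  apply Asymptotics.IsLittleO.add
  · have h2 : (fun x => β (f x) - β (f t + ((x - t : ℝ) : ℂ) * u)) =O[𝓝 t]
        (fun x => f x - f t - (x - t) • u) := by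
      apply Asymptotics.IsBigO.of_bound K
      filter_upwards with x
      have := hβ.dist_le_mul (f x) (f t + ((x - t : ℝ) : ℂ) * u)
      rw [dist_eq_norm, dist_eq_norm] at this
      refine this.trans (le_of_eq ?_)
      congr 2
      rw [Complex.real_smul]
      ring
    exact h2.trans_isLittleO hf
  · have h3 : Tendsto (fun x : ℝ => x - t) (𝓝 t) (𝓝 0) := by
      have : Tendsto (fun x : ℝ => x - t) (𝓝 t) (𝓝 (t - t)) :=
        (continuous_id.sub continuous_const).tendsto t
      simpa using this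
    have h4 := hd.comp_tendsto h3
    refine (h4.congr ?_ ?_)
    · intro x
      simp [Function.comp]
    · intro x
      simp [Function.comp]

/-- converse of the chain rule -/
theorem hasDerivAt_dir_of_comp {β : ℂ → ℝ} {K : NNReal} (hβ : LipschitzWith K β)
    {f : ℝ → ℂ} {u : ℂ} {t d : ℝ} (hf : HasDerivAt f u t)
    (hd : HasDerivAt (fun x => β (f x)) d t) :
    HasDerivAt (fun s : ℝ => β (f t + s * u)) d 0 := by
  rw [hasDerivAt_iff_isLittleO] at hf hd ⊢
  have h3 : Tendsto (fun s : ℝ => t + s) (𝓝 0) (𝓝 t) := by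
    have : Tendsto (fun s : ℝ => t + s) (𝓝 0) (𝓝 (t + 0)) :=
      (continuous_const.add continuous_id).tendsto 0
    simpa using this
  have hf' := hf.comp_tendsto h3
  have hd' := hd.comp_tendsto h3
  have h1 : (fun s : ℝ => β (f t + s * u) - β (f t + ((0:ℝ) : ℂ) * u) - (s - 0) • d) =
      (fun s : ℝ => (β (f t + s * u) - β (f (t + s))) +
        (β (f (t + s)) - β (f t) - (t + s - t) • d)) := by
    funext s
    simp only [Complex.ofReal_zero, zero_mul, add_zero, sub_zero, smul_eq_mul,
      add_sub_cancel_left]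
    ring
  rw [h1]
  apply Asymptotics.IsLittleO.add
  · have h2 : (fun s : ℝ => β (f t + s * u) - β (f (t + s))) =O[𝓝 0]
        (fun s : ℝ => f (t + s) - f t - (t + s - t) • u) := by
      apply Asymptotics.IsBigO.of_bound K
      filter_upwards with s
      have := hβ.dist_le_mul (f t + s * u) (f (t + s))
      rw [dist_eq_norm, dist_comm, dist_eq_norm] at this
      refine this.trans (le_of_eq ?_)
      congr 2
      rw [Complex.real_smul]
      push_cast
      ring
    have h4 := h2.trans_isLittleO hf'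
    refine h4.congr (fun _ => rfl) ?_
    intro s
    simp [Function.comp]
  · refine hd'.congr ?_ ?_
    · intro s
      simp [Function.comp]
    · intro s
      simp [Function.comp]

/-- the function `β` along the rotated path -/
noncomputable def bfun (β : ℂ → ℝ) (g : ℝ → ℂ) (a t : ℝ) : ℝ := β (Complex.exp (a * I) * zeta g t)

theorem norm_exp_mul_I (a : ℝ) : ‖Complex.exp (a * I)‖ = 1 := Complex.norm_exp_ofReal_mul_I a

theorem exp_add_pi (a : ℝ) : Complex.exp (((a + Real.pi : ℝ) : ℂ) * I) = -Complex.exp (a * I) := by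
  push_cast
  rw [add_mul, Complex.exp_add, Complex.exp_pi_mul_I]
  ring

theorem bfun_lip {β : ℂ → ℝ} {K : NNReal} (hβ : LipschitzWith K β) {g : ℝ → ℂ} (h : IsTraj g)
    (a : ℝ) : LipschitzWith (K * 2) (bfun β g a) := by
  apply hβ.comp
  apply LipschitzWith.of_dist_le_mul
  intro s t
  have := h.zeta_lip.dist_le_mul s t
  rw [dist_eq_norm, ← mul_sub, norm_mul, norm_exp_mul_I, one_mul, ← dist_eq_norm]
  exact this

theorem bfun_cont {β : ℂ → ℝ} {K : NNReal} (hβ : LipschitzWith K β) {g : ℝ → ℂ} (h : IsTraj g) :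
    Continuous (Function.uncurry (bfun β g)) := by
  apply hβ.continuous.comp
  apply Continuous.mul
  · exact Complex.continuous_exp.comp
      ((Complex.continuous_ofReal.comp continuous_fst).mul continuous_const)
  · exact h.zeta_lip.continuous.comp continuous_snd

/-- the weight in direction `a` at time `t` -/
noncomputable def Hfun (β : ℂ → ℝ) (g : ℝ → ℂ) (a t : ℝ) : ℝ :=
  max 0 (-t⁻¹ - deriv (bfun β g a) t)

theorem Hfun_meas {β : ℂ → ℝ} {K : NNReal} (hβ : LipschitzWith K β) {g : ℝ → ℂ}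
    (h : IsTraj g) : Measurable (Function.uncurry (Hfun β g)) := by
  have h1 := measurable_deriv_with_param (bfun_cont hβ h)
  exact measurable_const.max ((measurable_snd.inv.neg).sub h1)

theorem Hfun_nonneg (β : ℂ → ℝ) (g : ℝ → ℂ) (a t : ℝ) : 0 ≤ Hfun β g a t := le_max_left _ _

theorem Hfun_le {β : ℂ → ℝ} {K : NNReal} (hβ : LipschitzWith K β) {g : ℝ → ℂ}
    (h : IsTraj g) (a t : ℝ) (ht : 0 < t) : Hfun β g a t ≤ K * 2 := by
  apply max_le (by positivity)
  have h1 : ‖deriv (bfun β g a) t‖ ≤ ((K * 2 : NNReal) : ℝ) :=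
    norm_deriv_le_of_lipschitz (bfun_lip hβ h a)
  rw [Real.norm_eq_abs] at h1
  have h2 := (abs_le.mp h1).1
  have h3 : 0 ≤ t⁻¹ := by positivity
  push_cast at h2
  linarith

theorem Hfun_intervalIntegrable {β : ℂ → ℝ} {K : NNReal} (hβ : LipschitzWith K β) {g : ℝ → ℂ}
    (h : IsTraj g) (a : ℝ) {s t : ℝ} (hs : 0 < s) (hst : s ≤ t) :
    IntervalIntegrable (Hfun β g a) volume s t := by
  rw [intervalIntegrable_iff_integrableOn_Ioc_of_le hst]
  have hm : Measurable (Hfun β g a) := (Hfun_meas hβ h).comp measurable_prodMk_left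
  refine Measure.integrableOn_of_bounded (M := K * 2) measure_Ioc_lt_top.ne
    hm.aestronglyMeasurable ?_
  rw [ae_restrict_iff' measurableSet_Ioc]
  filter_upwards with x hx
  rw [Real.norm_eq_abs, abs_of_nonneg (Hfun_nonneg _ _ _ _)]
  exact Hfun_le hβ h a x (hs.trans hx.1)

theorem ftc_bfun {β : ℂ → ℝ} {K : NNReal} (hβ : LipschitzWith K β) {g : ℝ → ℂ}
    (h : IsTraj g) (a : ℝ) (s t : ℝ) :
    ∫ x in s..t, deriv (bfun β g a) x = bfun β g a t - bfun β g a s :=
  ((bfun_lip hβ h a).lipschitzOnWith (s := uIcc s t)).absolutelyContinuousOnInterval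
    |>.integral_deriv_eq_sub

theorem deriv_bfun_intervalIntegrable {β : ℂ → ℝ} {K : NNReal} (hβ : LipschitzWith K β)
    {g : ℝ → ℂ} (h : IsTraj g) (a : ℝ) (s t : ℝ) :
    IntervalIntegrable (deriv (bfun β g a)) volume s t :=
  ((bfun_lip hβ h a).lipschitzOnWith (s := uIcc s t)).absolutelyContinuousOnInterval
    |>.intervalIntegrable_deriv

/-- lower bound of the weight between two times by the drop of `β` -/
theorem Hfun_lower {β : ℂ → ℝ} {K : NNReal} (hβ : LipschitzWith K β) {g : ℝ → ℂ}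
    (h : IsTraj g) (a : ℝ) {m c : ℝ} (hm : 0 < m) (hmc : m ≤ c) :
    bfun β g a m - bfun β g a c - Real.log (c / m) ≤ ∫ x in m..c, Hfun β g a x := by
  have hi : IntervalIntegrable (fun x : ℝ => -x⁻¹) volume m c := by
    apply IntervalIntegrable.neg
    apply intervalIntegral.intervalIntegrable_inv
    · intro x hx
      rw [uIcc_of_le hmc] at hx
      exact (lt_of_lt_of_le hm hx.1).ne'
    · exact continuousOn_id
  have h1 : ∫ x in m..c, (-x⁻¹ - deriv (bfun β g a) x) =
      bfun β g a m - bfun β g a c - Real.log (c / m) := by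
    rw [intervalIntegral.integral_sub hi (deriv_bfun_intervalIntegrable hβ h a m c),
      intervalIntegral.integral_neg, integral_inv_of_pos hm (lt_of_lt_of_le hm hmc),
      ftc_bfun hβ h a m c]
    ring
  rw [← h1]
  apply intervalIntegral.integral_mono_on hmc
    (hi.sub (deriv_bfun_intervalIntegrable hβ h a m c)) (Hfun_intervalIntegrable hβ h a hm hmc)
  intro x _
  exact le_max_right _ _

/-- the total weight over a pair of opposite directions -/
noncomputable def Wfun (β : ℂ → ℝ) (g : ℝ → ℂ) (a s t : ℝ) : ℝ :=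
  (∫ x in s..t, Hfun β g a x) + ∫ x in s..t, Hfun β g (a + Real.pi) x

theorem IsTraj.lineData {g : ℝ → ℂ} (h : IsTraj g) {ρ : ℝ} (hc : Covers g ρ) (a : ℝ) :
    LineData (fun t => (g t * Complex.exp (a * I)).re) ρ where
  zero := by simp [h.zero]
  lip := by
    intro s t hs ht
    rw [← Complex.sub_re, ← sub_mul]
    refine (Complex.abs_re_le_norm _).trans ?_
    rw [norm_mul, norm_exp_mul_I, mul_one]
    exact h.lip s t hs ht
  pos := fun t ht => hc a t ht
  neg := by
    intro t ht
    obtain ⟨s, hs, h1⟩ := hc (a + Real.pi) t ht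
    refine ⟨s, hs, ?_⟩
    rw [exp_add_pi] at h1
    simpa using h1

theorem re_exp_zeta {g : ℝ → ℂ} {t : ℝ} (ht : 1 ≤ t) (a : ℝ) :
    (Complex.exp (a * I) * zeta g t).re = (g t * Complex.exp (a * I)).re / t := by
  rw [zeta_of_one_le ht]
  have : Complex.exp (a * I) * (g t / (t : ℂ)) = (g t * Complex.exp (a * I)) / (t : ℂ) := by ring
  rw [this, Complex.div_ofReal_re]

/-- key inequality for one crossing -/
theorem crossing {ρ₀ : ℝ} {β N : ℂ → ℝ} {Kr : Set ℝ} (hρ₀ : 1 < ρ₀) (C : Cert ρ₀ β N Kr)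
    {g : ℝ → ℂ} (h : IsTraj g) (a : ℝ) {m c : ℝ} (hm : 1 ≤ m) (hmc : m ≤ c)
    (h1 : m / ρ₀ ≤ (g m * Complex.exp (a * I)).re)
    (h2 : c / ρ₀ ≤ -(g c * Complex.exp (a * I)).re) :
    Real.log (ρ₀ * (g m * Complex.exp (a * I)).re / c) ≤
      ∫ x in m..c, Hfun β g (a + Real.pi) x := by
  obtain ⟨K, hβ⟩ := C.lipβ
  have hmpos : 0 < m := by linarith
  have hcpos : 0 < c := by linarith
  have hρ₀pos : 0 < ρ₀ := by linarith
  have key := Hfun_lower hβ h (a + Real.pi) hmpos hmc
  refine le_trans ?_ key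
  set X := (g m * Complex.exp (a * I)).re with hX
  have hXpos : 0 < X := lt_of_lt_of_le (by positivity) h1
  have hn : ∀ t, ‖Complex.exp (((a + Real.pi : ℝ) : ℂ) * I) * zeta g t‖ ≤ 1 := by
    intro t
    rw [norm_mul, norm_exp_mul_I, one_mul]
    exact h.zeta_norm_le t
  have e1 : (Complex.exp (((a + Real.pi : ℝ) : ℂ) * I) * zeta g m).re = -(X / m) := by
    rw [exp_add_pi, neg_mul, Complex.neg_re, re_exp_zeta hm]
  have e2 : (Complex.exp (((a + Real.pi : ℝ) : ℂ) * I) * zeta g c).re =
      -(g c * Complex.exp (a * I)).re / c := by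
    rw [exp_add_pi, neg_mul, Complex.neg_re, re_exp_zeta (hm.trans hmc)]
    ring
  have b1 : Real.log (ρ₀ * (X / m)) ≤ bfun β g (a + Real.pi) m := by
    have := C.c2 _ (hn m) (by
      rw [e1, neg_le_neg_iff, le_div_iff₀ hmpos]
      calc 1 / ρ₀ * m = m / ρ₀ := by ring
        _ ≤ X := h1)
    rw [e1, abs_neg, abs_of_pos (by positivity)] at this
    exact this
  have b2 : bfun β g (a + Real.pi) c ≤ 0 := by
    apply C.c1 _ (hn c)
    rw [e2, le_div_iff₀ hcpos]
    calc 1 / ρ₀ * c = c / ρ₀ := by ring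
      _ ≤ _ := h2
  have e3 : Real.log (ρ₀ * X / c) = Real.log (ρ₀ * (X / m)) - Real.log (c / m) := by
    rw [← Real.log_div (by positivity) (by positivity)]
    congr 1
    field_simp
  rw [e3]
  linarith

theorem Wfun_lower {ρ₀ : ℝ} {β N : ℂ → ℝ} {Kr : Set ℝ} (C : Cert ρ₀ β N Kr)
    {g : ℝ → ℂ} (h : IsTraj g) {ρ : ℝ} (hρ : 1 < ρ) (hρρ₀ : ρ < ρ₀) (hc : Covers g ρ) (a : ℝ)
    {T : ℝ} (hT : ρ ≤ T) :
    Real.log T - 3 * Real.log ρ + (Real.log T / Real.log ρ - 2) * Real.log (ρ₀ / ρ) ≤
      Wfun β g a 1 T := by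
  obtain ⟨K, hβ⟩ := C.lipβ
  have hρ₀ : 1 < ρ₀ := by linarith
  have hnn : ∀ b s t, 1 ≤ s → s ≤ t → 0 ≤ ∫ x in s..t, Hfun β g b x := by
    intro b s t _ hst
    exact intervalIntegral.integral_nonneg hst fun x _ => Hfun_nonneg _ _ _ _
  have hadd : ∀ b s t u, 1 ≤ s → s ≤ t → t ≤ u → (∫ x in s..u, Hfun β g b x) =
      (∫ x in s..t, Hfun β g b x) + ∫ x in t..u, Hfun β g b x := by
    intro b s t u hs hst htu
    rw [intervalIntegral.integral_add_adjacent_intervals
      (Hfun_intervalIntegrable hβ h b (by linarith) hst)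
      (Hfun_intervalIntegrable hβ h b (by linarith) htu)]
  apply line_bound hρ hρρ₀ (h.lineData hc a) (W := Wfun β g a) (hT := hT)
  · intro s t hs hst
    exact add_nonneg (hnn _ _ _ hs hst) (hnn _ _ _ hs hst)
  · intro s t u hs hst htu
    unfold Wfun
    rw [hadd a s t u hs hst htu, hadd (a + Real.pi) s t u hs hst htu]
    ring
  · intro m c hm hmc h1 h2
    have := crossing hρ₀ C h a hm hmc h1 h2
    have := hnn a m c hm hmc
    unfold Wfun
    linarith
  · intro m c hm hmc h1 h2
    have e : ∀ t, (g t * Complex.exp (((a + Real.pi : ℝ) : ℂ) * I)).re =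
        -(g t * Complex.exp (a * I)).re := by
      intro t
      rw [exp_add_pi]
      simp
    have h3 := crossing hρ₀ C h (a + Real.pi) hm hmc (by rw [e]; exact h1) (by rw [e]; simpa using h2)
    have e4 : ∀ x, Hfun β g (a + Real.pi + Real.pi) x = Hfun β g a x := by
      intro x
      have : bfun β g (a + Real.pi + Real.pi) = bfun β g a := by
        funext y
        unfold bfun
        rw [exp_add_pi, exp_add_pi, neg_neg]
      unfold Hfun
      rw [this]
    rw [e] at h3
    simp only [e4] at h3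
    have := hnn (a + Real.pi) m c hm hmc
    unfold Wfun
    linarith

/-- At almost every time at which the radius is exceptional the radial velocity vanishes. -/
theorem ae_radial {ζ : ℝ → ℂ} {Kr : Set ℝ} (hK : Kr.Countable) :
    ∀ᵐ t : ℝ, DifferentiableAt ℝ ζ t → ‖ζ t‖ ∈ Kr →
      (deriv ζ t * (starRingEnd ℂ) (ζ t)).re = 0 := by
  let S : ℝ → Set ℝ := fun k => {t | ‖ζ t‖ = k}
  have hbad : (⋃ k ∈ Kr, {t ∈ S k | 𝓝[S k ∩ Ioi t] t = ⊥}).Countable :=
    hK.biUnion fun k _ => countable_setOfPred_isolated_right_within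
  filter_upwards [hbad.ae_notMem volume] with t ht hdiff hk
  have h1 : 𝓝[S ‖ζ t‖ ∩ Ioi t] t ≠ ⊥ := by
    intro h2
    apply ht
    simp only [mem_iUnion]
    exact ⟨‖ζ t‖, hk, rfl, h2⟩
  have hacc : AccPt t (𝓟 (S ‖ζ t‖)) := by
    rw [accPt_principal_iff_nhdsWithin]
    have h3 : 𝓝[S ‖ζ t‖ ∩ Ioi t] t ≤ 𝓝[S ‖ζ t‖ \ {t}] t := by
      apply nhdsWithin_mono
      intro x hx
      exact ⟨hx.1, fun h => (ne_of_gt hx.2) h⟩
    rw [neBot_iff]
    intro h4
    exact h1 (le_bot_iff.mp (h4 ▸ h3))
  have huniq : UniqueDiffWithinAt ℝ (S ‖ζ t‖) t := uniqueDiffWithinAt_iff_accPt.mpr hacc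
  have hd : HasDerivAt (fun x => Complex.normSq (ζ x))
      (2 * (deriv ζ t * (starRingEnd ℂ) (ζ t)).re) t := by
    have h5 := hdiff.hasDerivAt
    have hre : HasDerivAt (fun x => (ζ x).re) (deriv ζ t).re t :=
      (Complex.reCLM.hasFDerivAt.comp_hasDerivAt t h5)
    have him : HasDerivAt (fun x => (ζ x).im) (deriv ζ t).im t :=
      (Complex.imCLM.hasFDerivAt.comp_hasDerivAt t h5)
    have h6 := (hre.mul hre).add (him.mul him)
    have e1 : (fun x => Complex.normSq (ζ x)) =
        (fun x => (ζ x).re) * (fun x => (ζ x).re) + (fun x => (ζ x).im) * (fun x => (ζ x).im) := by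
      funext x
      simp [Complex.normSq_apply]
    rw [e1]
    refine h6.congr_deriv ?_
    rw [Complex.mul_re, Complex.conj_re, Complex.conj_im]
    ring
  have hconst : HasDerivWithinAt (fun x => Complex.normSq (ζ x)) 0 (S ‖ζ t‖) t := by
    have h7 : HasDerivWithinAt (fun _ : ℝ => ‖ζ t‖ ^ 2) 0 (S ‖ζ t‖) t := hasDerivWithinAt_const _ _ _
    apply h7.congr
    · intro x hx
      have : ‖ζ x‖ = ‖ζ t‖ := hx
      rw [Complex.normSq_eq_norm_sq, this]
    · rw [Complex.normSq_eq_norm_sq]
  have h8 := huniq.eq_deriv _ hd.hasDerivWithinAt hconst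
  linarith

/-- At almost every time at which the curve is at the origin its velocity vanishes. -/
theorem ae_zero {ζ : ℝ → ℂ} : ∀ᵐ t : ℝ, DifferentiableAt ℝ ζ t → ζ t = 0 → deriv ζ t = 0 := by
  have hbad : {t ∈ {t | ζ t = 0} | 𝓝[{t | ζ t = 0} ∩ Ioi t] t = ⊥}.Countable :=
    countable_setOfPred_isolated_right_within
  filter_upwards [hbad.ae_notMem volume] with t ht hdiff hz
  have h1 : 𝓝[{t | ζ t = 0} ∩ Ioi t] t ≠ ⊥ := fun h2 => ht ⟨hz, h2⟩
  have hacc : AccPt t (𝓟 {t | ζ t = 0}) := by
    rw [accPt_principal_iff_nhdsWithin]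
    have h3 : 𝓝[{t | ζ t = 0} ∩ Ioi t] t ≤ 𝓝[{t | ζ t = 0} \ {t}] t := by
      apply nhdsWithin_mono
      intro x hx
      exact ⟨hx.1, fun h => (ne_of_gt hx.2) h⟩
    rw [neBot_iff]
    intro h4
    exact h1 (le_bot_iff.mp (h4 ▸ h3))
  have huniq : UniqueDiffWithinAt ℝ {t | ζ t = 0} t := uniqueDiffWithinAt_iff_accPt.mpr hacc
  have hconst : HasDerivWithinAt ζ 0 {t | ζ t = 0} t := by
    have h7 : HasDerivWithinAt (fun _ : ℝ => (0:ℂ)) 0 {t | ζ t = 0} t :=
      hasDerivWithinAt_const _ _ _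
    apply h7.congr
    · intro x hx
      exact hx
    · exact hz
  exact huniq.eq_deriv _ hdiff.hasDerivAt.hasDerivWithinAt hconst

/-- For almost every time, almost all rotated copies of `β` are differentiable along the path. -/
theorem ae_ae_diff {β : ℂ → ℝ} {K : NNReal} (hβ : LipschitzWith K β) {g : ℝ → ℂ}
    (h : IsTraj g) : ∀ᵐ t : ℝ, ∀ᵐ a : ℝ, DifferentiableAt ℝ (bfun β g a) t := by
  have hm : MeasurableSet {p : ℝ × ℝ | DifferentiableAt ℝ (bfun β g p.1) p.2} :=
    measurableSet_of_differentiableAt_with_param ℝ (bfun_cont hβ h)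
  have h1 : ∀ᵐ a : ℝ, ∀ᵐ t : ℝ, DifferentiableAt ℝ (bfun β g a) t := by
    filter_upwards with a
    exact (bfun_lip hβ h a).ae_differentiableAt_real
  exact (Measure.ae_ae_comm hm).mp h1

theorem ae_bound {ρ₀ : ℝ} {β N : ℂ → ℝ} {Kr : Set ℝ} (C : Cert ρ₀ β N Kr)
    {g : ℝ → ℂ} (h : IsTraj g) :
    ∀ᵐ t : ℝ, 1 < t → ∫ a in (0:ℝ)..(2 * Real.pi), Hfun β g a t ≤
      Real.pi * (t⁻¹ + deriv (fun x => N (zeta g x)) t) := by
  obtain ⟨K, hβ⟩ := C.lipβ
  obtain ⟨KN, hN⟩ := C.lipN
  have hNlip : LipschitzWith (KN * 2) (fun x => N (zeta g x)) := hN.comp h.zeta_lip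
  filter_upwards [h.zeta_lip.ae_differentiableAt_real, ae_radial (ζ := zeta g) C.countable,
    ae_zero (ζ := zeta g), ae_ae_diff hβ h, hNlip.ae_differentiableAt_real]
    with t hdiff hrad hzero hbd hNdiff ht
  have htpos : 0 < t := by linarith
  have htne : (t : ℂ) ≠ 0 := by exact_mod_cast htpos.ne'
  have hpi : (0:ℝ) ≤ 2 * Real.pi := by positivity
  set z := zeta g t with hz
  set w := deriv (zeta g) t with hw
  have hderiv : HasDerivAt (zeta g) w t := hdiff.hasDerivAt
  by_cases hz0 : z = 0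
  · -- velocity zero
    have hw0 : w = 0 := hzero hdiff hz0
    have hN0 : deriv (fun x => N (zeta g x)) t = 0 := by
      have h1 : HasDerivAt (fun s : ℝ => N (zeta g t + s * w)) 0 0 := by
        rw [hw0]
        simpa using hasDerivAt_const (0:ℝ) (N (zeta g t))
      exact (hasDerivAt_comp_of_dir hN hderiv h1).deriv
    have hH0 : ∀ a, Hfun β g a t = 0 := by
      intro a
      have h1 : HasDerivAt (fun s : ℝ => β (Complex.exp (a * I) * zeta g t +
          s * (Complex.exp (a * I) * w))) 0 0 := by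
        rw [hw0]
        simpa using hasDerivAt_const (0:ℝ) (β (Complex.exp (a * I) * zeta g t))
      have h4 : HasDerivAt (fun x => Complex.exp (a * I) * zeta g x)
          (Complex.exp (a * I) * w) t := hderiv.const_mul _
      have h5 := (hasDerivAt_comp_of_dir hβ h4 h1).deriv
      have h6 : deriv (bfun β g a) t = 0 := h5
      unfold Hfun
      rw [h6]
      apply max_eq_left
      have : 0 ≤ t⁻¹ := by positivity
      linarith
    simp only [hH0, hN0]
    simp only [intervalIntegral.integral_zero, add_zero]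
    positivity
  -- the velocity
  have hv : ‖z + t * w‖ ≤ 1 := by
    have h1 : HasDerivAt (fun x : ℝ => (x : ℂ) * zeta g x) (1 * z + t * w) t := by
      have h2 : HasDerivAt (fun x : ℝ => (x : ℂ)) 1 t := Complex.ofRealCLM.hasDerivAt
      exact h2.mul hderiv
    rw [one_mul] at h1
    apply h1.le_of_lip' zero_le_one
    filter_upwards [Ioi_mem_nhds ht] with x hx
    have hx1 : (1:ℝ) ≤ x := le_of_lt hx
    have hxne : (x : ℂ) ≠ 0 := by exact_mod_cast (by linarith : x ≠ 0)
    rw [zeta_of_one_le hx1, zeta_of_one_le ht.le, mul_div_cancel₀ _ hxne, mul_div_cancel₀ _ htne,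
      one_mul, Real.norm_eq_abs]
    exact h.lip x t (by linarith) (by linarith)
  have hvz : z + t * w - z = t * w := by ring
  -- rescaling of the parameter
  have hscale : HasDerivAt (fun s : ℝ => t * s) t 0 := by
    simpa using (hasDerivAt_id (0:ℝ)).const_mul t
  set n := t * deriv (fun x => N (zeta g x)) t with hn
  have hNn : HasDerivAt (fun s : ℝ => N (z + s * (z + t * w - z))) n 0 := by
    rw [hvz]
    have h1 := hasDerivAt_dir_of_comp hN hderiv hNdiff.hasDerivAt
    have h2 : HasDerivAt (fun s : ℝ => N (zeta g t + s * w))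
        (deriv (fun x => N (zeta g x)) t) (t * 0) := by simpa using h1
    have h3 := HasDerivAt.comp (0:ℝ) h2 hscale
    have e : (fun s : ℝ => N (z + s * (t * w))) =
        (fun s : ℝ => N (zeta g t + s * w)) ∘ fun s : ℝ => t * s := by
      funext s
      simp only [Function.comp]
      congr 2
      push_cast
      ring
    rw [e, hn, mul_comm]
    exact h3
  obtain ⟨m, hmint, hm, hint⟩ := C.c3 z (z + t * w) hz0 (h.zeta_norm_le t) hv (by
    intro hk
    rw [hvz]
    have := hrad hdiff hk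
    have e : (t : ℂ) * w * (starRingEnd ℂ) z = (t : ℂ) * (w * (starRingEnd ℂ) z) := by ring
    rw [e, Complex.re_ofReal_mul, this, mul_zero]) n hNn
  simp only [hvz] at hm
  have hH : ∀ᵐ a : ℝ ∂(volume.restrict (Ioc 0 (2 * Real.pi))),
      Hfun β g a t ≤ t⁻¹ * m a := by
    filter_upwards [hm, ae_restrict_of_ae hbd] with a ha hda
    have h4 : HasDerivAt (fun x => Complex.exp (a * I) * zeta g x) (Complex.exp (a * I) * w) t :=
      hderiv.const_mul _
    have h1 := hasDerivAt_dir_of_comp hβ h4 hda.hasDerivAt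
    have h2 : HasDerivAt (fun s : ℝ => β (Complex.exp (a * I) * zeta g t +
        s * (Complex.exp (a * I) * w))) (deriv (bfun β g a) t) (t * 0) := by simpa using h1
    have h3 := HasDerivAt.comp (0:ℝ) h2 hscale
    have e : (fun s : ℝ => β (Complex.exp (a * I) * (z + s * (t * w)))) =
        (fun s : ℝ => β (Complex.exp (a * I) * zeta g t + s * (Complex.exp (a * I) * w))) ∘
          fun s : ℝ => t * s := by
      funext s
      simp only [Function.comp]
      congr 1
      push_cast
      ring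
    rw [← e] at h3
    have h5 := ha _ h3
    have e2 : Hfun β g a t = t⁻¹ * max 0 (-1 - deriv (bfun β g a) t * t) := by
      unfold Hfun
      rw [mul_max_of_nonneg _ _ (inv_nonneg.mpr htpos.le), mul_zero]
      congr 1
      field_simp
    rw [e2]
    exact mul_le_mul_of_nonneg_left h5 (inv_nonneg.mpr htpos.le)
  have e1 : ∫ a in (0:ℝ)..(2 * Real.pi), Hfun β g a t ≤
      ∫ a in (0:ℝ)..(2 * Real.pi), t⁻¹ * m a := by
    rw [intervalIntegral.integral_of_le hpi, intervalIntegral.integral_of_le hpi]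
    apply integral_mono_ae
    · refine Measure.integrableOn_of_bounded (M := K * 2) measure_Ioc_lt_top.ne
        ((Hfun_meas hβ h).comp measurable_prodMk_right).aestronglyMeasurable ?_
      filter_upwards with a
      show ‖Hfun β g a t‖ ≤ _
      rw [Real.norm_eq_abs, abs_of_nonneg (Hfun_nonneg _ _ _ _)]
      exact Hfun_le hβ h a t htpos
    · exact ((intervalIntegrable_iff_integrableOn_Ioc_of_le hpi).mp hmint).const_mul _
    · exact hH
  refine e1.trans ?_
  rw [intervalIntegral.integral_const_mul]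
  calc t⁻¹ * ∫ a in (0:ℝ)..(2 * Real.pi), m a
      ≤ t⁻¹ * (Real.pi * (1 + n)) := mul_le_mul_of_nonneg_left hint (inv_nonneg.mpr htpos.le)
    _ = Real.pi * (t⁻¹ + deriv (fun x => N (zeta g x)) t) := by
        rw [hn]
        field_simp

/-- **Framework theorem.** A certificate for `ρ₀` excludes every trajectory which covers with a
ratio smaller than `ρ₀`. -/
theorem not_covers {ρ₀ : ℝ} {β N : ℂ → ℝ} {Kr : Set ℝ} (C : Cert ρ₀ β N Kr)
    {ρ : ℝ} (hρ : 1 < ρ) (hρρ₀ : ρ < ρ₀) {g : ℝ → ℂ} (h : IsTraj g) : ¬ Covers g ρ := by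
  intro hc
  obtain ⟨K, hβ⟩ := C.lipβ
  obtain ⟨KN, hN⟩ := C.lipN
  have hpi := Real.pi_pos
  have hlogρ : 0 < Real.log ρ := Real.log_pos hρ
  set δ := Real.log (ρ₀ / ρ) with hδ
  have hδpos : 0 < δ := by
    apply Real.log_pos
    rw [one_lt_div (by linarith)]
    exact hρρ₀
  have hNlip : LipschitzWith (KN * 2) (fun x => N (zeta g x)) := hN.comp h.zeta_lip
  have main : ∀ T : ℝ, ρ ≤ T → Real.pi * (Real.log T - 3 * Real.log ρ +
      (Real.log T / Real.log ρ - 2) * δ) ≤ Real.pi * Real.log T + Real.pi * (KN * 2) := by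
    intro T hT
    have hT1 : 1 ≤ T := by linarith
    have hTpos : 0 < T := by linarith
    -- integrability on the product
    have hprod : IntegrableOn (Function.uncurry (Hfun β g))
        (uIoc 0 (2 * Real.pi) ×ˢ uIoc 1 T) := by
      refine Measure.integrableOn_of_bounded (M := K * 2) ?_
        (Hfun_meas hβ h).aestronglyMeasurable ?_
      · rw [uIoc_of_le (by positivity), uIoc_of_le hT1]
        rw [Measure.volume_eq_prod, Measure.prod_prod]
        exact ENNReal.mul_ne_top measure_Ioc_lt_top.ne measure_Ioc_lt_top.ne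
      · rw [ae_restrict_iff' (measurableSet_uIoc.prod measurableSet_uIoc)]
        filter_upwards with x hx
        rw [uIoc_of_le (by positivity), uIoc_of_le hT1] at hx
        rw [Function.uncurry, Real.norm_eq_abs, abs_of_nonneg (Hfun_nonneg _ _ _ _)]
        exact Hfun_le hβ h x.1 x.2 (by linarith [hx.2.1])
    have hprod' : Integrable (Function.uncurry (Hfun β g))
        ((volume.restrict (Ioc 0 (2 * Real.pi))).prod (volume.restrict (Ioc 1 T))) := by
      rw [uIoc_of_le (by positivity), uIoc_of_le hT1] at hprod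
      rw [Measure.prod_restrict, ← Measure.volume_eq_prod]
      exact hprod
    -- the inner integral over time is integrable in the direction
    let Jf : ℝ → ℝ := fun a => ∫ x in (1:ℝ)..T, Hfun β g a x
    have hJint : ∀ s t : ℝ, IntervalIntegrable Jf volume s t := by
      intro s t
      have hmeas : StronglyMeasurable Jf := by
        have h1 : StronglyMeasurable (fun a : ℝ =>
            ∫ x, Function.uncurry (Hfun β g) (a, x) ∂(volume.restrict (Ioc 1 T))) :=
          (Hfun_meas hβ h).stronglyMeasurable.integral_prod_right'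
        have h2 : Jf = fun a : ℝ =>
            ∫ x, Function.uncurry (Hfun β g) (a, x) ∂(volume.restrict (Ioc 1 T)) := by
          funext a
          simp only [Jf]
          rw [intervalIntegral.integral_of_le hT1]
          rfl
        rw [h2]
        exact h1
      rw [intervalIntegrable_iff]
      refine Measure.integrableOn_of_bounded (M := K * 2 * |T - 1|) (by rw [uIoc]; exact measure_Ioc_lt_top.ne)
        hmeas.aestronglyMeasurable ?_
      filter_upwards with a
      apply intervalIntegral.norm_integral_le_of_norm_le_const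
      intro x hx
      rw [uIoc_of_le hT1] at hx
      rw [Real.norm_eq_abs, abs_of_nonneg (Hfun_nonneg _ _ _ _)]
      exact Hfun_le hβ h a x (by linarith [hx.1])
    have eW : ∫ a in (0:ℝ)..Real.pi, Wfun β g a 1 T = ∫ a in (0:ℝ)..(2 * Real.pi), Jf a := by
      have h1 : ∀ a, Wfun β g a 1 T = Jf a + Jf (a + Real.pi) := fun a => rfl
      simp only [h1]
      rw [intervalIntegral.integral_add (hJint _ _)
        (by simpa using (hJint (0 + Real.pi) (Real.pi + Real.pi)).comp_add_right Real.pi),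
        intervalIntegral.integral_comp_add_right (f := Jf),
        show (0:ℝ) + Real.pi = Real.pi by ring, show Real.pi + Real.pi = 2 * Real.pi by ring]
      exact intervalIntegral.integral_add_adjacent_intervals (hJint _ _) (hJint _ _)
    have lower : Real.pi * (Real.log T - 3 * Real.log ρ + (Real.log T / Real.log ρ - 2) * δ) ≤
        ∫ a in (0:ℝ)..(2 * Real.pi), Jf a := by
      rw [← eW]
      have h1 : ∫ a in (0:ℝ)..Real.pi, (Real.log T - 3 * Real.log ρ +
          (Real.log T / Real.log ρ - 2) * δ) =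
          Real.pi * (Real.log T - 3 * Real.log ρ + (Real.log T / Real.log ρ - 2) * δ) := by
        rw [intervalIntegral.integral_const]
        simp
      rw [← h1]
      apply intervalIntegral.integral_mono_on hpi.le intervalIntegrable_const
      · have h2 : (fun a => Wfun β g a 1 T) = fun a => Jf a + Jf (a + Real.pi) := rfl
        rw [h2]
        exact (hJint _ _).add
          (by simpa using (hJint (0 + Real.pi) (Real.pi + Real.pi)).comp_add_right Real.pi)
      · intro a _
        exact Wfun_lower C h hρ hρρ₀ hc a hT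
    have swap : ∫ a in (0:ℝ)..(2 * Real.pi), Jf a =
        ∫ x in (1:ℝ)..T, ∫ a in (0:ℝ)..(2 * Real.pi), Hfun β g a x :=
      intervalIntegral_intervalIntegral_swap hprod
    have upper : ∫ x in (1:ℝ)..T, ∫ a in (0:ℝ)..(2 * Real.pi), Hfun β g a x ≤
        Real.pi * Real.log T + Real.pi * (KN * 2) := by
      have hi : IntervalIntegrable (fun x : ℝ => x⁻¹) volume 1 T := by
        apply intervalIntegral.intervalIntegrable_inv
        · intro x hx
          rw [uIcc_of_le hT1] at hx
          exact (lt_of_lt_of_le one_pos hx.1).ne'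
        · exact continuousOn_id
      have hac := (hNlip.lipschitzOnWith (s := uIcc 1 T)).absolutelyContinuousOnInterval
      have hi2 := hac.intervalIntegrable_deriv
      have h1 : ∫ x in (1:ℝ)..T, Real.pi * (x⁻¹ + deriv (fun x => N (zeta g x)) x) =
          Real.pi * (Real.log T + (N (zeta g T) - N (zeta g 1))) := by
        rw [intervalIntegral.integral_const_mul, intervalIntegral.integral_add hi hi2,
          integral_inv_of_pos one_pos hTpos, hac.integral_deriv_eq_sub, div_one]
      have h2 : ∫ x in (1:ℝ)..T, (∫ a in (0:ℝ)..(2 * Real.pi), Hfun β g a x) ≤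
          ∫ x in (1:ℝ)..T, Real.pi * (x⁻¹ + deriv (fun x => N (zeta g x)) x) := by
        apply intervalIntegral.integral_mono_ae_restrict hT1
        · rw [intervalIntegrable_iff_integrableOn_Ioc_of_le hT1]
          have h3 := hprod'.integral_prod_right
          refine h3.congr ?_
          filter_upwards with x
          rw [intervalIntegral.integral_of_le (by positivity)]
          rfl
        · exact (hi.add hi2).const_mul _
        · have h4 := ae_bound C h
          have h5 : ∀ᵐ x : ℝ, x ≠ 1 := by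
            simp [ae_iff, measure_singleton]
          rw [EventuallyLE, ae_restrict_iff' measurableSet_Icc]
          filter_upwards [h4, h5] with x hx hx1 hxI
          exact hx (lt_of_le_of_ne hxI.1 (Ne.symm hx1))
      refine h2.trans ?_
      rw [h1, mul_add]
      have h6 : N (zeta g T) - N (zeta g 1) ≤ KN * 2 := by
        have h7 := hN.dist_le_mul (zeta g T) (zeta g 1)
        rw [Real.dist_eq, dist_eq_norm] at h7
        have h8 : ‖zeta g T - zeta g 1‖ ≤ 2 := by
          refine (norm_sub_le _ _).trans ?_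
          linarith [h.zeta_norm_le T, h.zeta_norm_le 1]
        have h9 : (KN : ℝ) * ‖zeta g T - zeta g 1‖ ≤ KN * 2 :=
          mul_le_mul_of_nonneg_left h8 KN.coe_nonneg
        exact (le_abs_self _).trans (h7.trans h9)
      linarith [mul_le_mul_of_nonneg_left h6 hpi.le]
    rw [swap] at lower
    exact lower.trans upper
  -- contradiction for large `T`
  set B := 3 * Real.log ρ + 2 * δ + KN * 2 with hB
  set T := Real.exp (max (Real.log ρ) (Real.log ρ * (B + 1) / δ)) with hTdef
  have hTρ : ρ ≤ T := by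
    rw [hTdef]
    calc ρ = Real.exp (Real.log ρ) := (Real.exp_log (by linarith)).symm
      _ ≤ _ := Real.exp_le_exp.mpr (le_max_left _ _)
  have hlogT : Real.log ρ * (B + 1) / δ ≤ Real.log T := by
    rw [hTdef, Real.log_exp]
    exact le_max_right _ _
  have h1 := main T hTρ
  have h2 : Real.log T - 3 * Real.log ρ + (Real.log T / Real.log ρ - 2) * δ ≤
      Real.log T + KN * 2 := by
    have h3 : Real.pi * (Real.log T - 3 * Real.log ρ + (Real.log T / Real.log ρ - 2) * δ) ≤
        Real.pi * (Real.log T + KN * 2) := by linarith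
    exact le_of_mul_le_mul_left h3 hpi
  have h4 : Real.log T / Real.log ρ * δ ≤ B := by
    rw [hB]
    linarith
  have h5 : B + 1 ≤ Real.log T / Real.log ρ * δ := by
    have h6 : (B + 1) / δ ≤ Real.log T / Real.log ρ := by
      rw [le_div_iff₀ hlogρ]
      calc (B + 1) / δ * Real.log ρ = Real.log ρ * (B + 1) / δ := by ring
        _ ≤ _ := hlogT
    rwa [div_le_iff₀ hδpos] at h6
  linarith

end Pool.Agent.H44.Shore
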