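import Mathlib
import Pool.Agent.H44.Shore.Framework

/-!
Shoreline search: explicit form of the certificate and the polar reduction.

`x1 = 1 / ρ₀`, `xL`, `rB` are reals, `B0 B2 B3 B4` are real polynomials in `x`.  With
`W = max 0 (1 - |z|^2 / rB^2)` the strip function is
`b x W = B0 x + W^2 B2 x + W^3 B3 x + W^4 B4 x`.
-/

open MeasureTheory Set Filter Topology Polynomial
open scoped Interval ENNReal

namespace Pool.Agent.H44.Shore

/-- the data of an explicit certificate -/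
structure Dat where
  ρ : ℝ
  xL : ℝ
  rB : ℝ
  B0 : ℝ[X]
  B2 : ℝ[X]
  B3 : ℝ[X]
  B4 : ℝ[X]

namespace Dat

/-- strip function -/
noncomputable def b (D : Dat) (x w : ℝ) : ℝ :=
  D.B0.eval x + w ^ 2 * D.B2.eval x + w ^ 3 * D.B3.eval x + w ^ 4 * D.B4.eval x

/-- `x`-derivative of the strip function -/
noncomputable def bx (D : Dat) (x w : ℝ) : ℝ :=
  D.B0.derivative.eval x + w ^ 2 * D.B2.derivative.eval x + w ^ 3 * D.B3.derivative.eval x +
    w ^ 4 * D.B4.derivative.eval x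

/-- `w`-derivative of the strip function -/
noncomputable def bw (D : Dat) (x w : ℝ) : ℝ :=
  2 * w * D.B2.eval x + 3 * w ^ 2 * D.B3.eval x + 4 * w ^ 3 * D.B4.eval x

/-- the radial bump -/
noncomputable def W (D : Dat) (r : ℝ) : ℝ := max 0 (1 - r ^ 2 / D.rB ^ 2)

/-- the integrand on the strip; `c = cos θ`, `s = sin θ`, the point is `(-r c, -r s)` -/
noncomputable def gs (D : Dat) (r vr vt c s : ℝ) : ℝ :=
  -1 - D.bx (-(r * c)) (D.W r) * (-(vr * c) + vt * s + r * c) +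
    2 * r / D.rB ^ 2 * (vr - r) * D.bw (-(r * c)) (D.W r)

/-- the integrand -/
noncomputable def g (D : Dat) (r vr vt θ : ℝ) : ℝ :=
  if D.xL < r * Real.cos θ then (-vr + vt * Real.tan θ) / r
  else if -(1 / D.ρ) < r * Real.cos θ then D.gs r vr vt (Real.cos θ) (Real.sin θ)
  else -1

/-- the weight `β` -/
noncomputable def β (D : Dat) (z : ℂ) : ℝ :=
  if z.re < -D.xL then Real.log (D.ρ * (-z.re))
  else if z.re < 1 / D.ρ then D.b z.re (D.W ‖z‖)
  else 0

/-- the potential with radial derivative `m` -/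
noncomputable def Npot (m : ℝ → ℝ) (z : ℂ) : ℝ := ∫ r in (0:ℝ)..‖z‖, m r

/-- the conditions on the data -/
structure Ok (D : Dat) : Prop where
  hρ : 1 < D.ρ
  h1L : 1 / D.ρ < D.xL
  hrB : 0 < D.rB
  e0 : D.B0.eval (1 / D.ρ) = 0
  e2 : D.B2.eval (1 / D.ρ) = 0
  e3 : D.B3.eval (1 / D.ρ) = 0
  e4 : D.B4.eval (1 / D.ρ) = 0
  f0 : D.B0.eval (-D.xL) = Real.log (D.ρ * D.xL)
  f2 : D.B2.eval (-D.xL) = 0
  f3 : D.B3.eval (-D.xL) = 0
  f4 : D.B4.eval (-D.xL) = 0
  c2 : ∀ x w : ℝ, -D.xL ≤ x → x ≤ -(1 / D.ρ) → 0 ≤ w → w ≤ D.W x →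
    Real.log (D.ρ * (-x)) ≤ D.b x w

end Dat

end Pool.Agent.H44.Shore
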