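import Mathlib
import Pool.Agent.H44.Shore.Framework
import Pool.Agent.H44.Shore.Defs

/-!
Shoreline search: the polar reduction of the certificate conditions.
-/

open MeasureTheory Set Filter Topology Polynomial
open scoped Interval ENNReal
open Complex (I)

namespace Pool.Agent.H44.Shore

namespace Dat

variable {D : Dat}

/-! ### Lipschitz continuity of `β` -/

theorem W_eq (hr : 0 < D.rB) {r : ℝ} (h : 0 ≤ r) : D.W r = 1 - (min r D.rB) ^ 2 / D.rB ^ 2 := by
  unfold W
  rcases le_total r D.rB with h1 | h1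
  · rw [min_eq_left h1, max_eq_right]
    rw [sub_nonneg, div_le_one (by positivity)]
    gcongr
  · rw [min_eq_right h1, div_self (by positivity), sub_self, max_eq_left]
    rw [sub_nonpos, one_le_div (by positivity)]
    gcongr

theorem W_nonneg (r : ℝ) : 0 ≤ D.W r := le_max_left _ _

theorem W_le_one (r : ℝ) : D.W r ≤ 1 := by
  unfold W
  apply max_le zero_le_one
  have : 0 ≤ r ^ 2 / D.rB ^ 2 := by positivity
  linarith

theorem W_anti {r s : ℝ} (h : |r| ≤ |s|) : D.W s ≤ D.W r := by
  unfold W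
  apply max_le_max le_rfl
  have : r ^ 2 ≤ s ^ 2 := sq_le_sq.mpr h
  have : r ^ 2 / D.rB ^ 2 ≤ s ^ 2 / D.rB ^ 2 := by gcongr
  linarith

theorem W_lip (hr : 0 < D.rB) : ∃ K, LipschitzWith K (fun z : ℂ => D.W ‖z‖) := by
  have h1 : ContDiffOn ℝ 1 (fun u : ℝ => 1 - u ^ 2 / D.rB ^ 2) (Icc 0 D.rB) := by
    apply ContDiff.contDiffOn
    fun_prop
  obtain ⟨K, hK⟩ := h1.exists_lipschitzOnWith one_ne_zero (convex_Icc _ _) isCompact_Icc
  have h2 : LipschitzWith 1 (fun z : ℂ => min ‖z‖ D.rB) := by
    have := (lipschitzWith_one_norm (E := ℂ)).min_const D.rB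
    exact this
  refine ⟨K * 1, ?_⟩
  have h3 : (fun z : ℂ => D.W ‖z‖) =
      (fun u : ℝ => 1 - u ^ 2 / D.rB ^ 2) ∘ (fun z : ℂ => min ‖z‖ D.rB) := by
    funext z
    exact W_eq hr (norm_nonneg z)
  rw [h3, ← lipschitzOnWith_univ]
  apply hK.comp (lipschitzOnWith_univ.mpr h2)
  intro z _
  exact ⟨le_min (norm_nonneg _) hr.le, min_le_right _ _⟩

theorem log_lip {ρ xL : ℝ} (hρ : 0 < ρ) (hx : 0 < xL) :
    LipschitzOnWith (Real.toNNReal (1 / xL)) (fun u : ℝ => Real.log (ρ * u)) (Ici xL) := by
  have key : ∀ a b : ℝ, xL ≤ a → xL ≤ b →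
      Real.log (ρ * a) - Real.log (ρ * b) ≤ 1 / xL * |a - b| := by
    intro a b ha hb
    have ha' : 0 < a := by linarith
    have hb' : 0 < b := by linarith
    rw [← Real.log_div (by positivity) (by positivity)]
    have e : ρ * a / (ρ * b) = a / b := by
      field_simp
    rw [e]
    have h1 : Real.log (a / b) ≤ a / b - 1 := Real.log_le_sub_one_of_pos (by positivity)
    have h2 : a / b - 1 = (a - b) / b := by
      field_simp
    have h3 : (a - b) / b ≤ |a - b| / b := by
      gcongr
      exact le_abs_self _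
    have h4 : |a - b| / b ≤ |a - b| / xL := by
      gcongr
    have h5 : |a - b| / xL = 1 / xL * |a - b| := by ring
    linarith
  apply LipschitzOnWith.of_dist_le_mul
  intro a ha b hb
  rw [Real.dist_eq, Real.dist_eq, Real.coe_toNNReal _ (by positivity)]
  rw [abs_le]
  constructor
  · have := key b a hb ha
    rw [abs_sub_comm] at this
    linarith
  · exact key a b ha hb

/-- truncation to the strip -/
noncomputable def cl (D : Dat) (x : ℝ) : ℝ := max (-D.xL) (min x (1 / D.ρ))

theorem beta_eq (hD : D.Ok) (z : ℂ) : D.β z =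
    (Real.log (D.ρ * max (-z.re) D.xL) - Real.log (D.ρ * D.xL)) +
      D.b (D.cl z.re) (D.W ‖z‖) := by
  have h1 := hD.h1L
  have hρ := hD.hρ
  have h0 : 0 < 1 / D.ρ := by positivity
  unfold β cl
  split_ifs with h2 h3
  · rw [max_eq_left (by linarith : D.xL ≤ -z.re), min_eq_left (by linarith),
      max_eq_left (by linarith)]
    unfold b
    rw [hD.f0, hD.f2, hD.f3, hD.f4]
    ring
  · rw [max_eq_right (by linarith : -z.re ≤ D.xL), min_eq_left (by linarith),
      max_eq_right (by linarith)]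
    ring
  · rw [max_eq_right (by linarith : -z.re ≤ D.xL), min_eq_right (by linarith),
      max_eq_right (by linarith)]
    unfold b
    rw [hD.e0, hD.e2, hD.e3, hD.e4]
    ring

theorem b_contDiff (D : Dat) : ContDiff ℝ 1 (fun p : ℝ × ℝ => D.b p.1 p.2) := by
  unfold b
  have h : ∀ q : ℝ[X], ContDiff ℝ 1 (fun p : ℝ × ℝ => q.eval p.1) := by
    intro q
    have h0 : ContDiff ℝ 1 (fun x : ℝ => q.eval x) := by
      simpa using q.contDiff_aeval (𝕜 := ℝ) 1
    exact h0.comp contDiff_fst
  have := h D.B0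
  have := h D.B2
  have := h D.B3
  have := h D.B4
  fun_prop

theorem beta_lip (hD : D.Ok) : ∃ K, LipschitzWith K D.β := by
  have h1 := hD.h1L
  have hρ := hD.hρ
  have hρ0 : 0 < D.ρ := by linarith
  have h0 : 0 < 1 / D.ρ := by positivity
  have hx : 0 < D.xL := by linarith
  have hre : LipschitzWith 1 (fun z : ℂ => z.re) := by
    apply LipschitzWith.of_dist_le_mul
    intro z w
    rw [Real.dist_eq, dist_eq_norm, NNReal.coe_one, one_mul, ← Complex.sub_re]
    exact Complex.abs_re_le_norm _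
  -- first part
  have hA : LipschitzWith (Real.toNNReal (1 / D.xL) * 1)
      (fun z : ℂ => Real.log (D.ρ * max (-z.re) D.xL)) := by
    rw [← lipschitzOnWith_univ]
    have h3 : LipschitzWith 1 (fun z : ℂ => max (-z.re) D.xL) :=
      LipschitzWith.max_const (f := fun z : ℂ => -z.re) hre.neg D.xL
    refine LipschitzOnWith.comp (g := fun u : ℝ => Real.log (D.ρ * u))
      (f := fun z : ℂ => max (-z.re) D.xL) (log_lip hρ0 hx) (lipschitzOnWith_univ.mpr h3) ?_
    intro z _
    show D.xL ≤ max (-z.re) D.xL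
    exact le_max_right _ _
  -- second part
  obtain ⟨K1, hK1⟩ := W_lip hD.hrB
  have hcl : LipschitzWith 1 (fun z : ℂ => D.cl z.re) := by
    have := (hre.min_const (1 / D.ρ)).const_max (-D.xL)
    exact this
  have hQ := hcl.prodMk hK1
  have hbox : ContDiffOn ℝ 1 (fun p : ℝ × ℝ => D.b p.1 p.2)
      (Icc (-D.xL) (1 / D.ρ) ×ˢ Icc (0:ℝ) 1) := (b_contDiff D).contDiffOn
  obtain ⟨K2, hK2⟩ := hbox.exists_lipschitzOnWith one_ne_zero
    ((convex_Icc _ _).prod (convex_Icc _ _)) (isCompact_Icc.prod isCompact_Icc)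
  have hB : LipschitzWith (K2 * max 1 K1) (fun z : ℂ => D.b (D.cl z.re) (D.W ‖z‖)) := by
    rw [← lipschitzOnWith_univ]
    refine LipschitzOnWith.comp (g := fun p : ℝ × ℝ => D.b p.1 p.2)
      (f := fun z : ℂ => (D.cl z.re, D.W ‖z‖)) hK2 (lipschitzOnWith_univ.mpr hQ) ?_
    intro z _
    refine ⟨⟨le_max_left _ _, ?_⟩, ⟨W_nonneg _, W_le_one _⟩⟩
    apply max_le
    · show -D.xL ≤ 1 / D.ρ
      linarith
    · exact min_le_right _ _
  have hconst : LipschitzWith 0 (fun _ : ℂ => -Real.log (D.ρ * D.xL)) := LipschitzWith.const _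
  have h5 := (hA.add hconst).add hB
  have e : D.β = fun z : ℂ => Real.log (D.ρ * max (-z.re) D.xL) + -Real.log (D.ρ * D.xL) +
      D.b (D.cl z.re) (D.W ‖z‖) := by
    funext z
    rw [beta_eq hD z]
    ring
  rw [e]
  exact ⟨_, h5⟩

/-! ### The potential -/

theorem m_integrable {m : ℝ → ℝ} {C : ℝ} (hmeas : Measurable m) (hmC : ∀ r, |m r| ≤ C) (a b : ℝ) :
    IntervalIntegrable m volume a b := by
  rw [intervalIntegrable_iff]
  exact Measure.integrableOn_of_bounded (M := C) (by
    rw [uIoc]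
    exact measure_Ioc_lt_top.ne) hmeas.aestronglyMeasurable
    (Eventually.of_forall fun r => by rw [Real.norm_eq_abs]; exact hmC r)

theorem P_lip {m : ℝ → ℝ} {C : ℝ} (hmeas : Measurable m) (hmC : ∀ r, |m r| ≤ C) :
    LipschitzWith (Real.toNNReal C) (fun x : ℝ => ∫ r in (0:ℝ)..x, m r) := by
  have hC : 0 ≤ C := (abs_nonneg _).trans (hmC 0)
  apply LipschitzWith.of_dist_le_mul
  intro x y
  rw [Real.dist_eq, Real.dist_eq, Real.coe_toNNReal _ hC]
  have e : (∫ r in (0:ℝ)..x, m r) - ∫ r in (0:ℝ)..y, m r = ∫ r in y..x, m r := by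
    rw [intervalIntegral.integral_interval_sub_left] <;> exact m_integrable hmeas hmC _ _
  rw [e]
  have := intervalIntegral.norm_integral_le_of_norm_le_const (a := y) (b := x) (f := m) (C := C)
    (fun r _ => by rw [Real.norm_eq_abs]; exact hmC r)
  rwa [Real.norm_eq_abs] at this

theorem Npot_lip {m : ℝ → ℝ} {C : ℝ} (hmeas : Measurable m) (hmC : ∀ r, |m r| ≤ C) :
    ∃ K, LipschitzWith K (Npot m) := by
  refine ⟨Real.toNNReal C * 1, ?_⟩
  exact (P_lip hmeas hmC).comp (lipschitzWith_one_norm (E := ℂ))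

/-! ### Derivatives -/

/-- powers of the positive part are differentiable -/
theorem hasDerivAt_max_pow (k : ℕ) (t : ℝ) :
    HasDerivAt (fun x : ℝ => (max 0 x) ^ (k + 2)) ((k + 2 : ℕ) * (max 0 t) ^ (k + 1)) t := by
  rcases lt_trichotomy t 0 with h | h | h
  · rw [max_eq_left h.le, zero_pow (by omega), mul_zero]
    apply (hasDerivAt_const t (0:ℝ)).congr_of_eventuallyEq
    filter_upwards [Iio_mem_nhds h] with x hx
    rw [max_eq_left (le_of_lt hx), zero_pow (by omega)]
  · subst h
    rw [max_self, zero_pow (by omega), mul_zero, hasDerivAt_iff_isLittleO]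
    simp only [max_self, smul_eq_mul, mul_zero, sub_zero]
    rw [zero_pow (by omega)]
    simp only [sub_zero]
    have h1 : (fun x : ℝ => (max 0 x) ^ (k + 2)) =O[𝓝 0] (fun x : ℝ => x ^ (k + 2)) := by
      apply Asymptotics.IsBigO.of_bound 1
      filter_upwards with x
      rw [one_mul, norm_pow, norm_pow]
      apply pow_le_pow_left₀ (norm_nonneg _)
      rw [Real.norm_eq_abs, Real.norm_eq_abs, abs_of_nonneg (le_max_left _ _)]
      exact max_le (abs_nonneg _) (le_abs_self _)
    apply h1.trans_isLittleO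
    have h2 : (fun x : ℝ => x ^ (k + 2)) =o[𝓝 0] (fun x : ℝ => x ^ 1) :=
      Asymptotics.isLittleO_pow_pow (by omega)
    simpa using h2
  · rw [max_eq_right h.le]
    have h1 := hasDerivAt_pow (k + 2) t
    have e : k + 2 - 1 = k + 1 := by omega
    rw [e] at h1
    apply h1.congr_of_eventuallyEq
    filter_upwards [Ioi_mem_nhds h] with x hx
    rw [max_eq_right (le_of_lt hx)]

/-- the derivative of the strip function along a curve -/
theorem hasDerivAt_b (D : Dat) {x τ : ℝ → ℝ} {x' τ' s : ℝ} (hx : HasDerivAt x x' s)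
    (hτ : HasDerivAt τ τ' s) :
    HasDerivAt (fun s => D.b (x s) (max 0 (τ s)))
      (D.bx (x s) (max 0 (τ s)) * x' + D.bw (x s) (max 0 (τ s)) * τ') s := by
  have hB : ∀ q : ℝ[X], HasDerivAt (fun s => q.eval (x s)) (q.derivative.eval (x s) * x') s :=
    fun q => (q.hasDerivAt (x s)).comp s hx
  have hp : ∀ k : ℕ, HasDerivAt (fun s => (max 0 (τ s)) ^ (k + 2))
      ((k + 2 : ℕ) * (max 0 (τ s)) ^ (k + 1) * τ') s :=
    fun k => (hasDerivAt_max_pow k (τ s)).comp s hτ
  have h0 := hB D.B0
  have h2 := (hp 0).mul (hB D.B2)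
  have h3 := (hp 1).mul (hB D.B3)
  have h4 := (hp 2).mul (hB D.B4)
  have h := ((h0.add h2).add h3).add h4
  have h' : HasDerivAt (fun s => D.b (x s) (max 0 (τ s))) _ s := h
  convert h' using 1
  unfold bx bw
  push_cast
  ring

/-! ### The integrand -/

theorem g_periodic (D : Dat) (r vr vt : ℝ) : Function.Periodic (D.g r vr vt) (2 * Real.pi) := by
  intro θ
  unfold g
  rw [Real.cos_add_two_pi, Real.sin_add_two_pi]
  have : Real.tan (θ + 2 * Real.pi) = Real.tan θ := by
    rw [Real.tan_eq_sin_div_cos, Real.cos_add_two_pi, Real.sin_add_two_pi,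
      ← Real.tan_eq_sin_div_cos]
  rw [this]

theorem g_neg (D : Dat) (r vr vt θ : ℝ) : D.g r vr vt (-θ) = D.g r vr (-vt) θ := by
  unfold g gs
  rw [Real.cos_neg, Real.sin_neg, Real.tan_neg]
  simp only [mul_neg, neg_mul]

theorem gs_continuous (D : Dat) (r vr vt : ℝ) :
    Continuous (fun p : ℝ × ℝ => D.gs r vr vt p.1 p.2) := by
  unfold gs bx bw
  have h : ∀ q : ℝ[X], Continuous (fun p : ℝ × ℝ => q.eval (-(r * p.1))) := by
    intro q
    exact q.continuous.comp (by fun_prop)
  have := h D.B0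
  have := h D.B2
  have := h D.B3
  have := h D.B4
  have := h D.B0.derivative
  have := h D.B2.derivative
  have := h D.B3.derivative
  have := h D.B4.derivative
  fun_prop

theorem g_measurable (D : Dat) (r vr vt : ℝ) : Measurable (D.g r vr vt) := by
  unfold g
  apply Measurable.ite
  · exact measurableSet_lt measurable_const (Real.measurable_cos.const_mul _)
  · have : Real.tan = fun θ => Real.sin θ / Real.cos θ := by
      funext θ
      exact Real.tan_eq_sin_div_cos θ
    rw [this]
    have h1 := Real.measurable_cos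
    have h2 := Real.measurable_sin
    fun_prop
  · apply Measurable.ite
    · exact measurableSet_lt measurable_const (Real.measurable_cos.const_mul _)
    · exact ((gs_continuous D r vr vt).comp
        (Real.continuous_cos.prodMk Real.continuous_sin)).measurable
    · exact measurable_const

theorem g_bounded (D : Dat) (hL : 0 < D.xL) {r : ℝ} (hr : 0 < r) (vr vt : ℝ) :
    ∃ M, ∀ θ, |D.g r vr vt θ| ≤ M := by
  obtain ⟨M, hM⟩ := (isCompact_Icc (a := (-1:ℝ)) (b := 1)).prod
    (isCompact_Icc (a := (-1:ℝ)) (b := 1)) |>.exists_bound_of_continuousOn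
      (gs_continuous D r vr vt).continuousOn
  refine ⟨max M 1 + (|vr| + |vt| * (r / D.xL)) / r, fun θ => ?_⟩
  have h0 : 0 ≤ (|vr| + |vt| * (r / D.xL)) / r := by positivity
  have h1 : (1:ℝ) ≤ max M 1 := le_max_right _ _
  unfold g
  split_ifs with h2 h3
  · have hc : 0 < Real.cos θ := by
      by_contra hcon
      have : r * Real.cos θ ≤ 0 := mul_nonpos_of_nonneg_of_nonpos hr.le (not_lt.mp hcon)
      linarith
    have htan : |Real.tan θ| ≤ r / D.xL := by
      rw [Real.tan_eq_sin_div_cos, abs_div, abs_of_pos hc, div_le_div_iff₀ hc hL]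
      have := Real.abs_sin_le_one θ
      nlinarith [abs_nonneg (Real.sin θ)]
    rw [abs_div, abs_of_pos hr]
    have h4 : |-vr + vt * Real.tan θ| ≤ |vr| + |vt| * (r / D.xL) := by
      refine (abs_add_le _ _).trans ?_
      rw [abs_neg, abs_mul]
      gcongr
    have h5 : |-vr + vt * Real.tan θ| / r ≤ (|vr| + |vt| * (r / D.xL)) / r := by
      gcongr
    linarith
  · have h4 := hM (Real.cos θ, Real.sin θ) ⟨⟨Real.neg_one_le_cos _, Real.cos_le_one _⟩,
      ⟨Real.neg_one_le_sin _, Real.sin_le_one _⟩⟩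
    rw [Real.norm_eq_abs] at h4
    have h5 : M ≤ max M 1 := le_max_left _ _
    simp only at h4
    linarith
  · rw [abs_neg, abs_one]
    linarith

theorem g_affine (D : Dat) (r vr q lam θ : ℝ) :
    D.g r vr (lam * q + (1 - lam) * (-q)) θ = lam * D.g r vr q θ + (1 - lam) * D.g r vr (-q) θ := by
  unfold g gs
  split_ifs with h2 h3
  · ring
  · ring
  · ring

theorem g_pos_integrable (D : Dat) (hL : 0 < D.xL) {r : ℝ} (hr : 0 < r) (vr vt a b : ℝ) :
    IntervalIntegrable (fun θ => max 0 (D.g r vr vt θ)) volume a b := by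
  obtain ⟨M, hM⟩ := g_bounded D hL hr vr vt
  rw [intervalIntegrable_iff]
  refine Measure.integrableOn_of_bounded (M := M) (by
    rw [uIoc]
    exact measure_Ioc_lt_top.ne) (measurable_const.max (g_measurable D r vr vt)).aestronglyMeasurable
    (Eventually.of_forall fun θ => ?_)
  rw [Real.norm_eq_abs, abs_of_nonneg (le_max_left _ _)]
  exact max_le ((abs_nonneg _).trans (hM 0)) ((le_abs_self _).trans (hM θ))

end Dat

/-- polar data of a point and a velocity -/
theorem polar_data (z v : ℂ) : ∃ φ vr vt : ℝ,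
    z = ‖z‖ * Complex.exp (φ * I) ∧
    v = ((vr : ℂ) + vt * I) * Complex.exp (φ * I) ∧ vr ^ 2 + vt ^ 2 = ‖v‖ ^ 2 := by
  refine ⟨z.arg, (v * Complex.exp (-(z.arg * I))).re, (v * Complex.exp (-(z.arg * I))).im,
    (Complex.norm_mul_exp_arg_mul_I z).symm, ?_, ?_⟩
  · rw [Complex.re_add_im, mul_assoc, ← Complex.exp_add]
    simp
  · have h1 : ‖v * Complex.exp (-(z.arg * I))‖ = ‖v‖ := by
      rw [norm_mul, ← neg_mul, ← Complex.ofReal_neg, norm_exp_mul_I, mul_one]
    rw [← h1, Complex.sq_norm, Complex.normSq_apply]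
    ring

theorem re_exp_mul (ψ a b : ℝ) :
    (Complex.exp (ψ * I) * ((a : ℂ) + b * I)).re = a * Real.cos ψ - b * Real.sin ψ := by
  rw [Complex.mul_re, Complex.exp_ofReal_mul_I_re, Complex.exp_ofReal_mul_I_im]
  simp
  ring

theorem norm_exp_mul (ψ a b : ℝ) :
    ‖Complex.exp (ψ * I) * ((a : ℂ) + b * I)‖ ^ 2 = a ^ 2 + b ^ 2 := by
  rw [norm_mul, norm_exp_mul_I, one_mul, Complex.sq_norm, Complex.normSq_apply]
  simp
  ring

theorem beta_deriv {D : Dat} (hD : D.Ok) {r φ vr vt a d : ℝ} (hr : 0 < r) {z v : ℂ}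
    (hz : z = r * Complex.exp (φ * I)) (hv : v = ((vr : ℂ) + vt * I) * Complex.exp (φ * I))
    (hx1 : r * Real.cos (a + φ) ≠ -D.xL) (hx2 : r * Real.cos (a + φ) ≠ 1 / D.ρ)
    (hd : HasDerivAt (fun s : ℝ => D.β (Complex.exp (a * I) * (z + s * (v - z)))) d 0) :
    -1 - d = D.g r vr vt (a + φ - Real.pi) := by
  have hL := hD.h1L
  have hρ := hD.hρ
  have hρ0 : 0 < D.ρ := by linarith
  have h0 : 0 < 1 / D.ρ := by positivity
  set ψ := a + φ with hψ
  -- the moving point
  have hp : ∀ s : ℝ, Complex.exp (a * I) * (z + s * (v - z)) =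
      Complex.exp (ψ * I) * (((r + s * (vr - r) : ℝ) : ℂ) + ((s * vt : ℝ) : ℂ) * I) := by
    intro s
    rw [hz, hv, hψ]
    push_cast
    have e : ((a : ℂ) + φ) * I = a * I + φ * I := by ring
    rw [e, Complex.exp_add]
    ring
  set x : ℝ → ℝ := fun s => (r + s * (vr - r)) * Real.cos ψ - (s * vt) * Real.sin ψ with hxdef
  set τ : ℝ → ℝ := fun s => 1 - ((r + s * (vr - r)) ^ 2 + (s * vt) ^ 2) / D.rB ^ 2 with hτdef
  have hre : ∀ s : ℝ, (Complex.exp (a * I) * (z + s * (v - z))).re = x s := by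
    intro s
    rw [hp s, re_exp_mul]
  have hW : ∀ s : ℝ, D.W ‖Complex.exp (a * I) * (z + s * (v - z))‖ = max 0 (τ s) := by
    intro s
    rw [hp s]
    unfold Dat.W
    rw [norm_exp_mul]
  have hx0 : x 0 = r * Real.cos ψ := by
    simp [hxdef]
  have hτ0 : τ 0 = 1 - r ^ 2 / D.rB ^ 2 := by
    simp [hτdef]
  have hdx : HasDerivAt x ((vr - r) * Real.cos ψ - vt * Real.sin ψ) 0 := by
    have h1 : HasDerivAt (fun s : ℝ => (r + s * (vr - r)) * Real.cos ψ - (s * vt) * Real.sin ψ)
        ((0 + 1 * (vr - r)) * Real.cos ψ - (1 * vt) * Real.sin ψ) 0 :=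
      (((hasDerivAt_const (0:ℝ) r).add ((hasDerivAt_id (0:ℝ)).mul_const _)).mul_const _).sub
        (((hasDerivAt_id (0:ℝ)).mul_const _).mul_const _)
    simpa using h1
  have hdτ : HasDerivAt τ (-(2 * r / D.rB ^ 2 * (vr - r))) 0 := by
    have e1 : HasDerivAt (fun s : ℝ => r + s * (vr - r)) (0 + 1 * (vr - r)) 0 :=
      (hasDerivAt_const (0:ℝ) r).add ((hasDerivAt_id (0:ℝ)).mul_const _)
    have e2 : HasDerivAt (fun s : ℝ => s * vt) (1 * vt) 0 := (hasDerivAt_id (0:ℝ)).mul_const _
    have h1 := (hasDerivAt_const (0:ℝ) (1:ℝ)).sub (((e1.pow 2).add (e2.pow 2)).div_const (D.rB ^ 2))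
    refine h1.congr_deriv ?_
    norm_num
    ring
  have hc : Real.cos (ψ - Real.pi) = -Real.cos ψ := Real.cos_sub_pi ψ
  have hs : Real.sin (ψ - Real.pi) = -Real.sin ψ := Real.sin_sub_pi ψ
  have ht : Real.tan (ψ - Real.pi) = Real.tan ψ := Real.tan_sub_pi ψ
  unfold Dat.g
  rw [hc, hs, ht]
  have hdx' := hdx.continuousAt
  rcases lt_or_gt_of_ne hx1 with h1 | h1
  · -- left part
    rw [if_pos (by linarith : D.xL < r * -Real.cos ψ)]
    have hev : (fun s : ℝ => D.β (Complex.exp (a * I) * (z + s * (v - z)))) =ᶠ[𝓝 0]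
        fun s => Real.log (D.ρ * (-(x s))) := by
      have : ∀ᶠ s in 𝓝 (0:ℝ), x s < -D.xL := by
        apply hdx'.eventually_lt continuousAt_const
        rw [hx0]
        exact h1
      filter_upwards [this] with s hs
      unfold Dat.β
      rw [hre s, if_pos hs]
    have hneg : D.ρ * (-(x 0)) ≠ 0 := by
      rw [hx0]
      have : 0 < -(r * Real.cos ψ) := by linarith
      positivity
    have hd2 := ((hdx.neg.const_mul D.ρ).log hneg)
    have hd3 := hd.unique (hd2.congr_of_eventuallyEq hev)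
    rw [hd3, Pi.neg_apply, hx0]
    have hcos : Real.cos ψ ≠ 0 := by
      intro h
      rw [h] at h1
      linarith
    rw [Real.tan_eq_sin_div_cos]
    field_simp
    ring
  · rw [if_neg (by linarith : ¬ (D.xL < r * -Real.cos ψ))]
    rcases lt_or_gt_of_ne hx2 with h2 | h2
    · rw [if_pos (by linarith : -(1 / D.ρ) < r * -Real.cos ψ)]
      have hev : (fun s : ℝ => D.β (Complex.exp (a * I) * (z + s * (v - z)))) =ᶠ[𝓝 0]
          fun s => D.b (x s) (max 0 (τ s)) := by
        have e1 : ∀ᶠ s in 𝓝 (0:ℝ), x s < 1 / D.ρ := by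
          apply hdx'.eventually_lt continuousAt_const
          rw [hx0]
          exact h2
        have e2 : ∀ᶠ s in 𝓝 (0:ℝ), -D.xL < x s := by
          apply continuousAt_const.eventually_lt hdx'
          rw [hx0]
          exact h1
        filter_upwards [e1, e2] with s hs1 hs2
        unfold Dat.β
        rw [hre s, if_neg (by linarith), if_pos hs1, hW s]
      have hd2 := Dat.hasDerivAt_b D hdx hdτ
      have hd3 := hd.unique (hd2.congr_of_eventuallyEq hev)
      rw [hd3, hx0, hτ0]
      unfold Dat.gs Dat.W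
      have e : -(r * -Real.cos ψ) = r * Real.cos ψ := by ring
      rw [e]
      ring
    · rw [if_neg (by linarith : ¬ (-(1 / D.ρ) < r * -Real.cos ψ))]
      have hev : (fun s : ℝ => D.β (Complex.exp (a * I) * (z + s * (v - z)))) =ᶠ[𝓝 0]
          fun _ => 0 := by
        have e1 : ∀ᶠ s in 𝓝 (0:ℝ), 1 / D.ρ < x s := by
          apply continuousAt_const.eventually_lt hdx'
          rw [hx0]
          exact h2
        filter_upwards [e1] with s hs1
        unfold Dat.β
        rw [hre s, if_neg (by linarith), if_neg (by linarith)]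
      have hd3 := hd.unique ((hasDerivAt_const (0:ℝ) (0:ℝ)).congr_of_eventuallyEq hev)
      rw [hd3]
      ring

/-- the modulus along a segment -/
theorem hasDerivAt_norm {r φ vr vt : ℝ} (hr : 0 < r) {z v : ℂ}
    (hz : z = r * Complex.exp (φ * I)) (hv : v = ((vr : ℂ) + vt * I) * Complex.exp (φ * I)) :
    HasDerivAt (fun s : ℝ => ‖z + s * (v - z)‖) (vr - r) 0 := by
  have hp : ∀ s : ℝ, z + s * (v - z) =
      Complex.exp (φ * I) * (((r + s * (vr - r) : ℝ) : ℂ) + ((s * vt : ℝ) : ℂ) * I) := by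
    intro s
    rw [hz, hv]
    push_cast
    ring
  have hn : (fun s : ℝ => ‖z + s * (v - z)‖) =
      fun s : ℝ => Real.sqrt ((r + s * (vr - r)) ^ 2 + (s * vt) ^ 2) := by
    funext s
    rw [← norm_exp_mul φ (r + s * (vr - r)) (s * vt), Real.sqrt_sq (norm_nonneg _), hp s]
  rw [hn]
  have e1 : HasDerivAt (fun s : ℝ => r + s * (vr - r)) (0 + 1 * (vr - r)) 0 :=
    (hasDerivAt_const (0:ℝ) r).add ((hasDerivAt_id (0:ℝ)).mul_const _)
  have e2 : HasDerivAt (fun s : ℝ => s * vt) (1 * vt) 0 := (hasDerivAt_id (0:ℝ)).mul_const _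
  have h1 := ((e1.pow 2).add (e2.pow 2))
  have h2 : HasDerivAt (fun s : ℝ => (r + s * (vr - r)) ^ 2 + (s * vt) ^ 2)
      (2 * r * (vr - r)) 0 := by
    refine h1.congr_deriv ?_
    norm_num
  have h3 := h2.sqrt (by
    norm_num
    exact hr.ne')
  refine h3.congr_deriv ?_
  norm_num
  rw [Real.sqrt_sq hr.le]
  field_simp

/-- zeros of `r cos (a + φ) - c` are negligible -/
theorem ae_cos_ne {r : ℝ} (hr : 0 < r) (φ c : ℝ) :
    ∀ᵐ a : ℝ, r * Real.cos (a + φ) ≠ c := by
  have hcount : {a : ℝ | r * Real.cos (a + φ) = c}.Countable := by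
    have hsub : {a : ℝ | r * Real.cos (a + φ) = c} ⊆
        (⋃ k : ℤ, {Real.arccos (c / r) - 2 * k * Real.pi - φ}) ∪
          (⋃ k : ℤ, {2 * k * Real.pi - Real.arccos (c / r) - φ}) := by
      intro a ha
      have h1 : Real.cos (a + φ) = c / r := by
        rw [eq_div_iff hr.ne', mul_comm]
        exact ha
      have h2 : Real.cos (a + φ) = Real.cos (Real.arccos (c / r)) := by
        rw [Real.cos_arccos, h1]
        · rw [← h1]
          exact Real.neg_one_le_cos _
        · rw [← h1]
          exact Real.cos_le_one _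
      rw [Real.cos_eq_cos_iff] at h2
      obtain ⟨k, hk | hk⟩ := h2
      · left
        rw [mem_iUnion]
        refine ⟨k, ?_⟩
        rw [mem_singleton_iff]
        linarith
      · right
        rw [mem_iUnion]
        refine ⟨k, ?_⟩
        rw [mem_singleton_iff]
        linarith
    apply Countable.mono hsub
    apply Countable.union <;> exact countable_iUnion fun k => countable_singleton _
  have := hcount.ae_notMem volume
  filter_upwards [this] with a ha
  exact ha

/-- the circle integral in terms of the half circle -/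
theorem circle_integral (D : Dat) (hL : 0 < D.xL) {r : ℝ} (hr : 0 < r) (vr vt φ : ℝ) :
    ∫ a in (0:ℝ)..(2 * Real.pi), max 0 (D.g r vr vt (a + φ - Real.pi)) =
      ∫ θ in (0:ℝ)..Real.pi, (max 0 (D.g r vr vt θ) + max 0 (D.g r vr (-vt) θ)) := by
  set G : ℝ → ℝ := fun θ => max 0 (D.g r vr vt θ) with hG
  have hper : Function.Periodic G (2 * Real.pi) := by
    intro θ
    simp only [hG]
    rw [Dat.g_periodic D r vr vt θ]
  have hint : ∀ a b : ℝ, IntervalIntegrable G volume a b :=
    fun a b => Dat.g_pos_integrable D hL hr vr vt a b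
  have h1 : ∫ a in (0:ℝ)..(2 * Real.pi), G (a + (φ - Real.pi)) =
      ∫ θ in (0 + (φ - Real.pi))..(2 * Real.pi + (φ - Real.pi)), G θ :=
    intervalIntegral.integral_comp_add_right G (φ - Real.pi)
  have h2 : ∫ θ in (0 + (φ - Real.pi))..(2 * Real.pi + (φ - Real.pi)), G θ =
      ∫ θ in (-Real.pi)..Real.pi, G θ := by
    have := hper.intervalIntegral_add_eq (φ - Real.pi) (-Real.pi)
    have e1 : 0 + (φ - Real.pi) = φ - Real.pi := by ring
    have e2 : 2 * Real.pi + (φ - Real.pi) = φ - Real.pi + 2 * Real.pi := by ring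
    have e3 : -Real.pi + 2 * Real.pi = Real.pi := by ring
    rw [e1, e2, this, e3]
  have h3 : ∫ θ in (-Real.pi)..Real.pi, G θ =
      (∫ θ in (-Real.pi)..0, G θ) + ∫ θ in (0:ℝ)..Real.pi, G θ :=
    (intervalIntegral.integral_add_adjacent_intervals (hint _ _) (hint _ _)).symm
  have h4 : ∫ θ in (-Real.pi)..0, G θ = ∫ θ in (0:ℝ)..Real.pi, G (-θ) := by
    rw [intervalIntegral.integral_comp_neg]
    simp
  have h5 : ∀ θ : ℝ, G (-θ) = max 0 (D.g r vr (-vt) θ) := by
    intro θ
    simp only [hG]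
    rw [Dat.g_neg]
  have e0 : ∀ a : ℝ, a + φ - Real.pi = a + (φ - Real.pi) := fun a => by ring
  simp only [e0]
  rw [h1, h2, h3, h4]
  simp only [h5]
  rw [add_comm, ← intervalIntegral.integral_add (hint _ _)
    (Dat.g_pos_integrable D hL hr vr (-vt) _ _)]

/-- reduction to velocities on the unit circle -/
theorem half_integral_mono (D : Dat) (hL : 0 < D.xL) {r : ℝ} (hr : 0 < r) (vr : ℝ) {vt q : ℝ}
    (hq : |vt| ≤ q) :
    ∫ θ in (0:ℝ)..Real.pi, (max 0 (D.g r vr vt θ) + max 0 (D.g r vr (-vt) θ)) ≤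
      ∫ θ in (0:ℝ)..Real.pi, (max 0 (D.g r vr q θ) + max 0 (D.g r vr (-q) θ)) := by
  apply intervalIntegral.integral_mono_on Real.pi_pos.le
  · exact (Dat.g_pos_integrable D hL hr vr vt _ _).add (Dat.g_pos_integrable D hL hr vr (-vt) _ _)
  · exact (Dat.g_pos_integrable D hL hr vr q _ _).add (Dat.g_pos_integrable D hL hr vr (-q) _ _)
  · intro θ _
    have hq0 : 0 ≤ q := (abs_nonneg _).trans hq
    rcases hq0.eq_or_lt with h | h
    · have : vt = 0 := by
        rw [← h] at hq
        exact abs_eq_zero.mp (le_antisymm hq (abs_nonneg _))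
      rw [this, ← h]
    · obtain ⟨lam, hl0, hl1, hl⟩ : ∃ lam : ℝ, 0 ≤ lam ∧ lam ≤ 1 ∧ vt = lam * q + (1 - lam) * (-q) := by
        refine ⟨(vt / q + 1) / 2, ?_, ?_, ?_⟩
        · have : -1 ≤ vt / q := by
            rw [le_div_iff₀ h]
            linarith [neg_abs_le vt]
          linarith
        · have : vt / q ≤ 1 := by
            rw [div_le_iff₀ h]
            linarith [le_abs_self vt]
          linarith
        · field_simp
          ring
      have hl' : -vt = (1 - lam) * q + (1 - (1 - lam)) * (-q) := by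
        rw [hl]
        ring
      have e1 := Dat.g_affine D r vr q lam θ
      have e2 := Dat.g_affine D r vr q (1 - lam) θ
      rw [hl', e2]
      rw [hl, e1]
      set A := D.g r vr q θ
      set B := D.g r vr (-q) θ
      have a1 : max 0 (lam * A + (1 - lam) * B) ≤ lam * max 0 A + (1 - lam) * max 0 B := by
        have hA := le_max_right 0 A
        have hA0 := le_max_left 0 A
        have hB := le_max_right 0 B
        have hB0 := le_max_left 0 B
        apply max_le
        · have : 0 ≤ 1 - lam := by linarith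
          positivity
        · have : 0 ≤ 1 - lam := by linarith
          gcongr
      have a2 : max 0 ((1 - lam) * A + (1 - (1 - lam)) * B) ≤
          (1 - lam) * max 0 A + lam * max 0 B := by
        have hA := le_max_right 0 A
        have hA0 := le_max_left 0 A
        have hB := le_max_right 0 B
        have hB0 := le_max_left 0 B
        have e : 1 - (1 - lam) = lam := by ring
        rw [e]
        apply max_le
        · have : 0 ≤ 1 - lam := by linarith
          positivity
        · have : 0 ≤ 1 - lam := by linarith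
          gcongr
      linarith

/-- **Polar reduction.** -/
theorem cert_of_polar (D : Dat) (hD : D.Ok) (m : ℝ → ℝ) (C : ℝ) (Kr : Set ℝ)
    (hKr : Kr.Countable) (hmeas : Measurable m) (hmC : ∀ r, |m r| ≤ C)
    (hcont : ∀ r, 0 < r → r ≤ 1 → r ∉ Kr → ContinuousAt m r)
    (hmain : ∀ r vr vt : ℝ, 0 < r → r ≤ 1 → 0 ≤ vt → vr ^ 2 + vt ^ 2 = 1 →
      ∫ θ in (0:ℝ)..Real.pi, (max 0 (D.g r vr vt θ) + max 0 (D.g r vr (-vt) θ)) ≤
        Real.pi * (1 + m r * (vr - r))) :
    Cert D.ρ D.β (Dat.Npot m) Kr := by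
  have hL := hD.h1L
  have hρ := hD.hρ
  have hρ0 : 0 < D.ρ := by linarith
  have h0 : 0 < 1 / D.ρ := by positivity
  have hx : 0 < D.xL := by linarith
  refine ⟨hKr, Dat.beta_lip hD, Dat.Npot_lip hmeas hmC, ?_, ?_, ?_⟩
  · intro z _ hz
    unfold Dat.β
    rw [if_neg (by linarith), if_neg (by linarith)]
  · intro z _ hz
    have hneg : z.re < 0 := by linarith
    rw [abs_of_neg hneg]
    unfold Dat.β
    split_ifs with h1 h2
    · exact le_rfl
    · apply hD.c2 z.re _ (by linarith) hz (Dat.W_nonneg _)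
      apply Dat.W_anti
      rw [abs_norm]
      exact Complex.abs_re_le_norm z
    · linarith
  · intro z v hz0 hz1 hv1 hk n hn
    obtain ⟨φ, vr, vt, ez, ev, en⟩ := polar_data z v
    have hr : 0 < ‖z‖ := norm_pos_iff.mpr hz0
    set r := ‖z‖ with hrdef
    -- the derivative of the potential
    have hdn := hasDerivAt_norm hr ez ev
    have hn' : n = m r * (vr - r) := by
      by_cases hkr : r ∈ Kr
      · have h1 := hk hkr
        have h2 : vr - r = 0 := by
          have e1 : ((v - z) * (starRingEnd ℂ) z).re = r * (vr - r) := by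
            have e2 : (v - z) * (starRingEnd ℂ) z =
                (((vr : ℂ) + vt * I) - r) * r * (Complex.exp (φ * I) *
                  (starRingEnd ℂ) (Complex.exp (φ * I))) := by
              conv_lhs => rw [ev, ez]
              rw [map_mul, Complex.conj_ofReal]
              ring
            have e3 : Complex.exp (φ * I) * (starRingEnd ℂ) (Complex.exp (φ * I)) = 1 := by
              rw [Complex.mul_conj, Complex.normSq_eq_norm_sq, norm_exp_mul_I]
              simp
            rw [e2, e3, mul_one]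
            simp
            ring
          rw [e1] at h1
          rcases mul_eq_zero.mp h1 with h | h
          · exact absurd h hr.ne'
          · exact h
        rw [h2, mul_zero]
        rw [h2] at hdn
        have hz' : HasDerivAt (fun s : ℝ => Dat.Npot m (z + s * (v - z))) 0 0 := by
          rw [hasDerivAt_iff_isLittleO] at hdn ⊢
          simp only [smul_zero, sub_zero] at hdn ⊢
          have hbig : (fun s : ℝ => Dat.Npot m (z + s * (v - z)) -
              Dat.Npot m (z + ((0:ℝ) : ℂ) * (v - z))) =O[𝓝 0]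
              (fun s : ℝ => ‖z + s * (v - z)‖ - ‖z + ((0:ℝ) : ℂ) * (v - z)‖) := by
            apply Asymptotics.IsBigO.of_bound (Real.toNNReal C)
            filter_upwards with s
            have := (Dat.P_lip hmeas hmC).dist_le_mul ‖z + s * (v - z)‖
              ‖z + ((0:ℝ) : ℂ) * (v - z)‖
            rw [Real.dist_eq, Real.dist_eq] at this
            exact this
          exact hbig.trans_isLittleO hdn
        exact hn.unique hz'
      · have hP : HasDerivAt (fun x : ℝ => ∫ r in (0:ℝ)..x, m r) (m r) r := by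
          apply intervalIntegral.integral_hasDerivAt_right (Dat.m_integrable hmeas hmC _ _)
          · exact hmeas.stronglyMeasurable.stronglyMeasurableAtFilter
          · exact hcont r hr hz1 hkr
        have e0 : ‖z + ((0:ℝ) : ℂ) * (v - z)‖ = r := by
          simp [hrdef]
        have h3 : HasDerivAt (fun s : ℝ => Dat.Npot m (z + s * (v - z))) (m r * (vr - r)) 0 :=
          HasDerivAt.comp (h₂ := fun x : ℝ => ∫ r in (0:ℝ)..x, m r) (0:ℝ)
            (by rw [e0]; exact hP) hdn
        exact hn.unique h3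
    refine ⟨fun a => max 0 (D.g r vr vt (a + φ - Real.pi)), ?_, ?_, ?_⟩
    · have h1 : IntervalIntegrable (fun θ => max 0 (D.g r vr vt θ)) volume
          (0 + (φ - Real.pi)) (2 * Real.pi + (φ - Real.pi)) :=
        Dat.g_pos_integrable D hx hr vr vt _ _
      have h2 := h1.comp_add_right (φ - Real.pi)
      have e0 : ∀ a : ℝ, a + φ - Real.pi = a + (φ - Real.pi) := fun a => by ring
      simp only [e0]
      simpa using h2
    · filter_upwards [ae_restrict_of_ae (ae_cos_ne hr φ (-D.xL)),
        ae_restrict_of_ae (ae_cos_ne hr φ (1 / D.ρ))] with a ha1 ha2 d hd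
      rw [beta_deriv hD hr ez ev ha1 ha2 hd]
    · rw [circle_integral D hx hr]
      have hvr : vr ^ 2 + vt ^ 2 ≤ 1 := by
        rw [en]
        have := norm_nonneg v
        nlinarith
      have hq0 : 0 ≤ 1 - vr ^ 2 := by nlinarith [sq_nonneg vt]
      have hq : |vt| ≤ Real.sqrt (1 - vr ^ 2) := by
        rw [← Real.sqrt_sq_eq_abs]
        apply Real.sqrt_le_sqrt
        linarith
      refine (half_integral_mono D hx hr vr hq).trans ?_
      rw [hn']
      apply hmain r vr _ hr hz1 (Real.sqrt_nonneg _)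
      rw [Real.sq_sqrt hq0]
      ring

end Pool.Agent.H44.Shore
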