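import Mathlib
import Pool.Agent.H44.Shore.Polar

/-!
Shoreline search: analytic lemmas for the verification engine.
-/

open MeasureTheory Set Filter Topology Polynomial
open scoped Interval ENNReal

namespace Pool.Agent.H44.Shore

/-! ### The cone lemma -/

/-- A convex function which is nonpositive at `0` and at two outer points is nonpositive at every
vector of the unit disc in the cone spanned by the two points. -/
theorem cone_lemma {F : ℝ × ℝ → ℝ} (hF : ConvexOn ℝ univ F) {p q v : ℝ × ℝ}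
    (hc : 0 < p.1 * q.2 - p.2 * q.1)
    (hd : (p.1 - q.1) ^ 2 + (p.2 - q.2) ^ 2 ≤ (p.1 * q.2 - p.2 * q.1) ^ 2)
    (hv : v.1 ^ 2 + v.2 ^ 2 ≤ 1)
    (h1 : 0 ≤ p.1 * v.2 - p.2 * v.1) (h2 : 0 ≤ v.1 * q.2 - v.2 * q.1)
    (F0 : F 0 ≤ 0) (Fp : F p ≤ 0) (Fq : F q ≤ 0) : F v ≤ 0 := by
  obtain ⟨p1, p2⟩ := p
  obtain ⟨q1, q2⟩ := q
  obtain ⟨v1, v2⟩ := v
  simp only at hc hd hv h1 h2
  set c := p1 * q2 - p2 * q1 with hcdef
  set a := (v1 * q2 - v2 * q1) / c with ha
  set b := (p1 * v2 - p2 * v1) / c with hb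
  have ha0 : 0 ≤ a := div_nonneg h2 hc.le
  have hb0 : 0 ≤ b := div_nonneg h1 hc.le
  have hab : a + b ≤ 1 := by
    rw [ha, hb, ← add_div, div_le_one hc]
    have hcs : ((v1 * q2 - v2 * q1) + (p1 * v2 - p2 * v1)) ^ 2 ≤ c ^ 2 := by
      have e1 : (v1 * q2 - v2 * q1) + (p1 * v2 - p2 * v1) =
          v1 * (q2 - p2) + v2 * (p1 - q1) := by ring
      rw [e1]
      have e2 : (v1 * (q2 - p2) + v2 * (p1 - q1)) ^ 2 ≤
          (v1 ^ 2 + v2 ^ 2) * ((p1 - q1) ^ 2 + (p2 - q2) ^ 2) := by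
        nlinarith [sq_nonneg (v1 * (p1 - q1) - v2 * (q2 - p2))]
      have e3 : (v1 ^ 2 + v2 ^ 2) * ((p1 - q1) ^ 2 + (p2 - q2) ^ 2) ≤
          1 * ((p1 - q1) ^ 2 + (p2 - q2) ^ 2) := by
        gcongr
      linarith
    exact (abs_le.mp (abs_le_of_sq_le_sq hcs hc.le)).2
  have hvec : ((v1, v2) : ℝ × ℝ) = (1 - a - b) • (0 : ℝ × ℝ) + (a • (p1, p2) + b • (q1, q2)) := by
    ext
    · simp only [smul_zero, zero_add, Prod.fst_add, Prod.smul_mk, smul_eq_mul]
      rw [ha, hb]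
      field_simp
      rw [hcdef]
      ring
    · simp only [smul_zero, zero_add, Prod.snd_add, Prod.smul_mk, smul_eq_mul]
      rw [ha, hb]
      field_simp
      rw [hcdef]
      ring
  have h3 := hF.2 (mem_univ (0 : ℝ × ℝ)) (mem_univ ((p1, p2) : ℝ × ℝ))
  rcases eq_or_lt_of_le (add_nonneg ha0 hb0) with h0 | h0
  · have ha' : a = 0 := by linarith
    have hb' : b = 0 := by linarith
    rw [hvec, ha', hb']
    simpa using F0
  · -- combination of the two outer points first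
    have hs : 0 < a + b := h0
    set w : ℝ × ℝ := (a / (a + b)) • (p1, p2) + (b / (a + b)) • (q1, q2) with hw
    have hFw : F w ≤ 0 := by
      have := hF.2 (mem_univ ((p1, p2) : ℝ × ℝ)) (mem_univ ((q1, q2) : ℝ × ℝ))
        (div_nonneg ha0 hs.le) (div_nonneg hb0 hs.le) (by rw [← add_div, div_self hs.ne'])
      refine this.trans ?_
      have e1 : (a / (a + b)) • F (p1, p2) ≤ 0 :=
        mul_nonpos_of_nonneg_of_nonpos (div_nonneg ha0 hs.le) Fp
      have e2 : (b / (a + b)) • F (q1, q2) ≤ 0 :=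
        mul_nonpos_of_nonneg_of_nonpos (div_nonneg hb0 hs.le) Fq
      linarith
    have hvec2 : ((v1, v2) : ℝ × ℝ) = (1 - (a + b)) • (0 : ℝ × ℝ) + (a + b) • w := by
      rw [hvec, hw, smul_add, smul_smul, smul_smul, mul_div_cancel₀ _ hs.ne',
        mul_div_cancel₀ _ hs.ne', smul_zero, smul_zero]
    have := hF.2 (mem_univ (0 : ℝ × ℝ)) (mem_univ w) (show 0 ≤ 1 - (a + b) by linarith)
      hs.le (by ring)
    rw [← hvec2] at this
    refine this.trans ?_
    have e1 : (1 - (a + b)) • F 0 ≤ 0 :=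
      mul_nonpos_of_nonneg_of_nonpos (by linarith) F0
    have e2 : (a + b) • F w ≤ 0 := mul_nonpos_of_nonneg_of_nonpos hs.le hFw
    linarith

/-- the function of the velocity to be bounded -/
noncomputable def FF (D : Dat) (r mr : ℝ) (v : ℝ × ℝ) : ℝ :=
  (∫ θ in (0:ℝ)..Real.pi, (max 0 (D.g r v.1 v.2 θ) + max 0 (D.g r v.1 (-v.2) θ))) -
    Real.pi * (1 + mr * (v.1 - r))

theorem g_comb (D : Dat) (r a b v1 v2 w1 w2 θ : ℝ) (hab : a + b = 1) :
    D.g r (a * v1 + b * w1) (a * v2 + b * w2) θ = a * D.g r v1 v2 θ + b * D.g r w1 w2 θ := by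
  have hb : b = 1 - a := by linarith
  subst hb
  unfold Dat.g Dat.gs
  split_ifs with h2 h3
  · ring
  · ring
  · ring

theorem FF_convex (D : Dat) (hL : 0 < D.xL) {r : ℝ} (hr : 0 < r) (mr : ℝ) :
    ConvexOn ℝ univ (FF D r mr) := by
  refine ⟨convex_univ, ?_⟩
  rintro ⟨v1, v2⟩ - ⟨w1, w2⟩ - a b ha hb hab
  have i1 := fun c d => Dat.g_pos_integrable D hL hr c d 0 Real.pi
  have key : ∀ c d e f θ : ℝ, max 0 (D.g r (a * c + b * e) (a * d + b * f) θ) ≤
      a * max 0 (D.g r c d θ) + b * max 0 (D.g r e f θ) := by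
    intro c d e f θ
    rw [g_comb D r a b _ _ _ _ θ hab]
    have hA := le_max_right 0 (D.g r c d θ)
    have hA0 := le_max_left 0 (D.g r c d θ)
    have hB := le_max_right 0 (D.g r e f θ)
    have hB0 := le_max_left 0 (D.g r e f θ)
    apply max_le
    · positivity
    · gcongr
  unfold FF
  simp only [Prod.smul_mk, smul_eq_mul, Prod.mk_add_mk]
  have h1 : ∫ θ in (0:ℝ)..Real.pi, (max 0 (D.g r (a * v1 + b * w1) (a * v2 + b * w2) θ) +
        max 0 (D.g r (a * v1 + b * w1) (-(a * v2 + b * w2)) θ)) ≤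
      ∫ θ in (0:ℝ)..Real.pi, (a * (max 0 (D.g r v1 v2 θ) + max 0 (D.g r v1 (-v2) θ)) +
        b * (max 0 (D.g r w1 w2 θ) + max 0 (D.g r w1 (-w2) θ))) := by
    apply intervalIntegral.integral_mono_on Real.pi_pos.le
    · exact (i1 _ _).add (i1 _ _)
    · exact (((i1 _ _).add (i1 _ _)).const_mul a).add (((i1 _ _).add (i1 _ _)).const_mul b)
    · intro θ _
      have k1 := key v1 v2 w1 w2 θ
      have k2 := key v1 (-v2) w1 (-w2) θ
      have e : a * -v2 + b * -w2 = -(a * v2 + b * w2) := by ring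
      rw [e] at k2
      linarith
  have h2 : ∫ θ in (0:ℝ)..Real.pi, (a * (max 0 (D.g r v1 v2 θ) + max 0 (D.g r v1 (-v2) θ)) +
        b * (max 0 (D.g r w1 w2 θ) + max 0 (D.g r w1 (-w2) θ))) =
      a * (∫ θ in (0:ℝ)..Real.pi, (max 0 (D.g r v1 v2 θ) + max 0 (D.g r v1 (-v2) θ))) +
      b * ∫ θ in (0:ℝ)..Real.pi, (max 0 (D.g r w1 w2 θ) + max 0 (D.g r w1 (-w2) θ)) := by
    rw [intervalIntegral.integral_add, intervalIntegral.integral_const_mul,
      intervalIntegral.integral_const_mul]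
    · exact ((i1 _ _).add (i1 _ _)).const_mul a
    · exact ((i1 _ _).add (i1 _ _)).const_mul b
  have hb' : b = 1 - a := by linarith
  subst hb'
  nlinarith [h1, h2]

/-! ### The function of the left region -/

/-- integrand of the left region -/
noncomputable def hL (vr vt θ : ℝ) : ℝ :=
  max 0 (-vr + vt * Real.tan θ) + max 0 (-vr - vt * Real.tan θ)

/-- its primitive -/
noncomputable def HL (vr vt T : ℝ) : ℝ := ∫ θ in (0:ℝ)..T, hL vr vt θ

theorem hL_eq {vr vt θ : ℝ} (hvt : 0 ≤ vt) (h0 : 0 ≤ θ) (h1 : θ < Real.pi / 2) :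
    hL vr vt θ = max (max 0 (-vr + vt * Real.tan θ)) (-2 * vr) := by
  have ht : 0 ≤ Real.tan θ := Real.tan_nonneg_of_nonneg_of_le_pi_div_two h0 h1.le
  have hv : 0 ≤ vt * Real.tan θ := mul_nonneg hvt ht
  unfold hL
  rcases le_total 0 (-vr - vt * Real.tan θ) with h2 | h2
  · rw [max_eq_right h2, max_eq_right (by linarith : 0 ≤ -vr + vt * Real.tan θ),
      max_eq_right (by linarith)]
    ring
  · rw [max_eq_left h2, add_zero]
    rcases le_total 0 (-vr + vt * Real.tan θ) with h3 | h3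
    · rw [max_eq_right h3, max_eq_left (by linarith)]
    · rw [max_eq_left h3, max_eq_left (by linarith)]

theorem hL_nonneg (vr vt θ : ℝ) : 0 ≤ hL vr vt θ :=
  add_nonneg (le_max_left _ _) (le_max_left _ _)

theorem tan_mono {x y : ℝ} (h0 : 0 ≤ x) (hxy : x ≤ y) (h1 : y < Real.pi / 2) :
    Real.tan x ≤ Real.tan y := by
  rcases eq_or_lt_of_le hxy with h | h
  · rw [h]
  · exact (Real.tan_lt_tan_of_nonneg_of_lt_pi_div_two h0 h1 h).le

theorem hL_mono {vr vt x y : ℝ} (hvt : 0 ≤ vt) (h0 : 0 ≤ x) (hxy : x ≤ y)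
    (h1 : y < Real.pi / 2) : hL vr vt x ≤ hL vr vt y := by
  rw [hL_eq hvt h0 (by linarith), hL_eq hvt (by linarith) h1]
  have := tan_mono h0 hxy h1
  gcongr

theorem hL_continuousOn (vr vt : ℝ) : ContinuousOn (hL vr vt) (Ico 0 (Real.pi / 2)) := by
  have ht : ContinuousOn Real.tan (Ico 0 (Real.pi / 2)) := by
    intro x hx
    apply (Real.continuousAt_tan.mpr _).continuousWithinAt
    exact (Real.cos_pos_of_mem_Ioo ⟨by linarith [hx.1, Real.pi_pos], hx.2⟩).ne'
  unfold hL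
  apply ContinuousOn.add
  · exact ContinuousOn.sup continuousOn_const (continuousOn_const.add (continuousOn_const.mul ht))
  · exact ContinuousOn.sup continuousOn_const (continuousOn_const.sub (continuousOn_const.mul ht))

theorem hL_integrable (vr vt : ℝ) {a b : ℝ} (ha : 0 ≤ a) (hab : a ≤ b) (hb : b < Real.pi / 2) :
    IntervalIntegrable (hL vr vt) volume a b := by
  apply ContinuousOn.intervalIntegrable
  rw [uIcc_of_le hab]
  apply (hL_continuousOn vr vt).mono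
  intro x hx
  exact ⟨ha.trans hx.1, lt_of_le_of_lt hx.2 hb⟩

theorem HL_sub (vr vt : ℝ) {a b : ℝ} (ha : 0 ≤ a) (hab : a ≤ b) (hb : b < Real.pi / 2) :
    HL vr vt b - HL vr vt a = ∫ θ in a..b, hL vr vt θ := by
  unfold HL
  rw [← intervalIntegral.integral_add_adjacent_intervals
    (hL_integrable vr vt le_rfl ha (by linarith)) (hL_integrable vr vt ha hab hb)]
  ring

/-- convexity of the primitive -/
theorem HL_convex {vr vt : ℝ} (hvt : 0 ≤ vt) {T0 T1 lam : ℝ} (h0 : 0 ≤ T0) (h01 : T0 ≤ T1)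
    (h1 : T1 < Real.pi / 2) (hl0 : 0 ≤ lam) (hl1 : lam ≤ 1) :
    HL vr vt ((1 - lam) * T0 + lam * T1) ≤ (1 - lam) * HL vr vt T0 + lam * HL vr vt T1 := by
  set T := (1 - lam) * T0 + lam * T1 with hT
  have e0 : T0 ≤ T := by
    rw [hT]
    nlinarith
  have e1 : T ≤ T1 := by
    rw [hT]
    nlinarith
  have a1 := HL_sub vr vt h0 e0 (by linarith)
  have a2 := HL_sub vr vt (h0.trans e0) e1 h1
  have b1 : ∫ θ in T0..T, hL vr vt θ ≤ (T - T0) * hL vr vt T := by
    have : ∫ θ in T0..T, hL vr vt θ ≤ ∫ _θ in T0..T, hL vr vt T := by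
      apply intervalIntegral.integral_mono_on e0 (hL_integrable vr vt h0 e0 (by linarith))
        (by simp)
      intro x hx
      exact hL_mono hvt (h0.trans hx.1) hx.2 (by linarith)
    simpa using this
  have b2 : (T1 - T) * hL vr vt T ≤ ∫ θ in T..T1, hL vr vt θ := by
    have : ∫ _θ in T..T1, hL vr vt T ≤ ∫ θ in T..T1, hL vr vt θ := by
      apply intervalIntegral.integral_mono_on e1 (by simp)
        (hL_integrable vr vt (h0.trans e0) e1 h1)
      intro x hx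
      exact hL_mono hvt (h0.trans e0) hx.1 (by linarith [hx.2])
    simpa using this
  have c1 : T - T0 = lam * (T1 - T0) := by rw [hT]; ring
  have c2 : T1 - T = (1 - lam) * (T1 - T0) := by rw [hT]; ring
  rw [c1] at b1
  rw [c2] at b2
  have d1 : (1 - lam) * (HL vr vt T - HL vr vt T0) ≤ (1 - lam) * (lam * (T1 - T0) * hL vr vt T) := by
    apply mul_le_mul_of_nonneg_left _ (by linarith)
    rw [a1]
    exact b1
  have d2 : lam * ((1 - lam) * (T1 - T0) * hL vr vt T) ≤ lam * (HL vr vt T1 - HL vr vt T) := by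
    apply mul_le_mul_of_nonneg_left _ hl0
    rw [a2]
    exact b2
  linarith

/-- chord bound for a convex function on an interval -/
theorem chord_bound {f : ℝ → ℝ} {a b : ℝ} (hab : a < b) (hf : ConvexOn ℝ (Icc a b) f) {x : ℝ}
    (hx : x ∈ Icc a b) : f x ≤ ((b - x) * f a + (x - a) * f b) / (b - a) := by
  have hba : 0 < b - a := by linarith
  have h := hf.2 (left_mem_Icc.mpr hab.le) (right_mem_Icc.mpr hab.le)
    (div_nonneg (sub_nonneg.mpr hx.2) hba.le) (div_nonneg (sub_nonneg.mpr hx.1) hba.le) (by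
      field_simp
      ring)
  have e : ((b - x) / (b - a)) • a + ((x - a) / (b - a)) • b = x := by
    simp only [smul_eq_mul]
    field_simp
    ring
  rw [e] at h
  refine h.trans (le_of_eq ?_)
  simp only [smul_eq_mul]
  ring

/-- trapezoidal rule for the positive part of a function whose second derivative is at least
`-K` -/
theorem trapezoid {f : ℝ → ℝ} {a b K : ℝ} (hab : a ≤ b) (hK : 0 ≤ K)
    (hc : ContinuousOn f (Icc a b)) (hf : ConvexOn ℝ (Icc a b) (fun x => f x + K * x ^ 2 / 2)) :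
    ∫ x in a..b, max 0 (f x) ≤ (b - a) / 2 * (max 0 (f a) + max 0 (f b)) + K * (b - a) ^ 3 / 12 := by
  rcases eq_or_lt_of_le hab with h | h
  · subst h
    rw [intervalIntegral.integral_same]
    have := le_max_left 0 (f a)
    simp
  · have hba : 0 < b - a := by linarith
    set A := max 0 (f a) with hA
    set B := max 0 (f b) with hB
    have hA0 : 0 ≤ A := le_max_left _ _
    have hB0 : 0 ≤ B := le_max_left _ _
    have key : ∀ x ∈ Icc a b, max 0 (f x) ≤
        (A + (B - A) / (b - a) * (x - a)) + K / 2 * ((x - a) * (b - x)) := by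
      intro x hx
      have hx1 : 0 ≤ x - a := sub_nonneg.mpr hx.1
      have hx2 : 0 ≤ b - x := sub_nonneg.mpr hx.2
      have e : A + (B - A) / (b - a) * (x - a) = ((b - x) * A + (x - a) * B) / (b - a) := by
        field_simp
        ring
      rw [e]
      apply max_le
      · positivity
      · have h1 := chord_bound h hf hx
        have h2 : ((b - x) * (f a + K * a ^ 2 / 2) + (x - a) * (f b + K * b ^ 2 / 2)) / (b - a) =
            ((b - x) * f a + (x - a) * f b) / (b - a) + K * x ^ 2 / 2 +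
              K / 2 * ((x - a) * (b - x)) := by
          field_simp
          ring
        have h3 : ((b - x) * f a + (x - a) * f b) / (b - a) ≤
            ((b - x) * A + (x - a) * B) / (b - a) := by
          have := le_max_right 0 (f a)
          have := le_max_right 0 (f b)
          gcongr
        linarith
    have hint : IntervalIntegrable (fun x => max 0 (f x)) volume a b := by
      apply ContinuousOn.intervalIntegrable
      rw [uIcc_of_le hab]
      exact ContinuousOn.sup continuousOn_const hc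
    have h1 : ∫ x in a..b, max 0 (f x) ≤
        ∫ x in a..b, ((A + (B - A) / (b - a) * (x - a)) + K / 2 * ((x - a) * (b - x))) := by
      apply intervalIntegral.integral_mono_on hab hint
      · apply Continuous.intervalIntegrable
        fun_prop
      · exact key
    refine h1.trans (le_of_eq ?_)
    have hder : ∀ x ∈ uIcc a b, HasDerivAt (fun x => A * x + (B - A) / (b - a) * ((x - a) ^ 2 / 2) +
        K / 2 * ((x - a) ^ 2 / 2 * (b - a) - (x - a) ^ 3 / 3))
        ((A + (B - A) / (b - a) * (x - a)) + K / 2 * ((x - a) * (b - x))) x := by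
      intro x _
      have e1 : HasDerivAt (fun x : ℝ => x - a) 1 x := (hasDerivAt_id x).sub_const a
      have e2 := ((hasDerivAt_id x).const_mul A).add
        (((e1.pow 2).div_const 2).const_mul ((B - A) / (b - a))) |>.add
        (((((e1.pow 2).div_const 2).mul_const (b - a)).sub ((e1.pow 3).div_const 3)).const_mul
          (K / 2))
      refine e2.congr_deriv ?_
      push_cast
      ring
    rw [intervalIntegral.integral_eq_sub_of_hasDerivAt hder
      (by apply Continuous.intervalIntegrable; fun_prop)]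
    field_simp
    ring

/-- trapezoidal rule with `J` equal cells -/
theorem trapezoid_sum {f : ℝ → ℝ} {a b K : ℝ} {J : ℕ} (hJ : 0 < J) (hab : a ≤ b) (hK : 0 ≤ K)
    (hc : ContinuousOn f (Icc a b)) (hf : ConvexOn ℝ (Icc a b) (fun x => f x + K * x ^ 2 / 2)) :
    ∫ x in a..b, max 0 (f x) ≤ (b - a) / J * ∑ j ∈ Finset.range J,
        (max 0 (f (a + j * ((b - a) / J))) + max 0 (f (a + (j + 1) * ((b - a) / J)))) / 2 +
      (b - a) * (K * ((b - a) / J) ^ 2 / 12) := by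
  have hJ' : (0:ℝ) < J := by exact_mod_cast hJ
  set δ := (b - a) / J with hδ
  have hδ0 : 0 ≤ δ := div_nonneg (by linarith) hJ'.le
  have hJδ : J * δ = b - a := by
    rw [hδ]
    field_simp
  have key : ∀ n : ℕ, n ≤ J → ∫ x in a..(a + n * δ), max 0 (f x) ≤
      δ * ∑ j ∈ Finset.range n, (max 0 (f (a + j * δ)) + max 0 (f (a + (j + 1) * δ))) / 2 +
      n * (K * δ ^ 3 / 12) := by
    intro n
    induction n with
    | zero =>
      intro _
      simp
    | succ n ih =>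
      intro hn
      have hn' : (n:ℝ) + 1 ≤ J := by exact_mod_cast hn
      have hn0 : (0:ℝ) ≤ n := Nat.cast_nonneg n
      have h1 := ih (by omega)
      have l1 : a ≤ a + n * δ := by nlinarith
      have l2 : a + n * δ ≤ a + (n + 1) * δ := by nlinarith
      have l3 : a + (n + 1) * δ ≤ b := by nlinarith
      have hsub : Icc (a + n * δ) (a + (n + 1) * δ) ⊆ Icc a b := Icc_subset_Icc l1 l3
      have h2 := trapezoid l2 hK (hc.mono hsub) (hf.subset hsub (convex_Icc _ _))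
      have hi1 : IntervalIntegrable (fun x => max 0 (f x)) volume a (a + n * δ) := by
        apply ContinuousOn.intervalIntegrable
        rw [uIcc_of_le l1]
        exact ContinuousOn.sup continuousOn_const (hc.mono (Icc_subset_Icc le_rfl (l2.trans l3)))
      have hi2 : IntervalIntegrable (fun x => max 0 (f x)) volume (a + n * δ)
          (a + (n + 1) * δ) := by
        apply ContinuousOn.intervalIntegrable
        rw [uIcc_of_le l2]
        exact ContinuousOn.sup continuousOn_const (hc.mono hsub)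
      have h3 := intervalIntegral.integral_add_adjacent_intervals hi1 hi2
      push_cast
      rw [← h3, Finset.sum_range_succ]
      have e1 : a + (n + 1) * δ - (a + n * δ) = δ := by ring
      rw [e1] at h2
      linarith
  have h := key J le_rfl
  rw [hJδ] at h
  have e : a + (b - a) = b := by ring
  rw [e] at h
  refine h.trans (le_of_eq ?_)
  have e2 : (J:ℝ) * (K * δ ^ 3 / 12) = (J * δ) * (K * δ ^ 2 / 12) := by ring
  rw [e2, hJδ]

/-- `tan` is convex on `[0, π / 2)` -/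
theorem tan_convex : ConvexOn ℝ (Ico 0 (Real.pi / 2)) Real.tan := by
  have hcos : ∀ x ∈ Ico 0 (Real.pi / 2), 0 < Real.cos x := fun x hx =>
    Real.cos_pos_of_mem_Ioo ⟨by linarith [hx.1, Real.pi_pos], hx.2⟩
  apply MonotoneOn.convexOn_of_deriv (convex_Ico _ _)
  · intro x hx
    exact (Real.continuousAt_tan.mpr (hcos x hx).ne').continuousWithinAt
  · intro x hx
    have hx' := interior_subset hx
    exact (Real.hasDerivAt_tan (hcos x hx').ne').differentiableAt.differentiableWithinAt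
  · intro x hx y hy hxy
    have hx' := interior_subset hx
    have hy' := interior_subset hy
    rw [(Real.hasDerivAt_tan (hcos x hx').ne').deriv, (Real.hasDerivAt_tan (hcos y hy').ne').deriv]
    have h1 : Real.cos y ≤ Real.cos x :=
      Real.cos_le_cos_of_nonneg_of_le_pi hx'.1 (by linarith [hy'.2, Real.pi_pos]) hxy
    have h2 := hcos y hy'
    have h3 := hcos x hx'
    gcongr

theorem hL_convex {vr vt : ℝ} (hvt : 0 ≤ vt) : ConvexOn ℝ (Ico 0 (Real.pi / 2)) (hL vr vt) := by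
  have h1 : ConvexOn ℝ (Ico 0 (Real.pi / 2))
      (fun θ => max (max 0 (-vr + vt * Real.tan θ)) (-2 * vr)) := by
    have hc : Convex ℝ (Ico (0:ℝ) (Real.pi / 2)) := convex_Ico _ _
    have a0 : ConvexOn ℝ (Ico 0 (Real.pi / 2)) (fun _ : ℝ => (0:ℝ)) := convexOn_const _ hc
    have a1 : ConvexOn ℝ (Ico 0 (Real.pi / 2)) (fun _ : ℝ => -2 * vr) := convexOn_const _ hc
    have a2 : ConvexOn ℝ (Ico 0 (Real.pi / 2)) (fun θ : ℝ => -vr + vt * Real.tan θ) := by
      have := (convexOn_const (-vr) hc).add (tan_convex.smul hvt)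
      exact this
    exact (a0.sup a2).sup a1
  refine h1.congr ?_
  intro x hx
  exact (hL_eq hvt hx.1 hx.2).symm

/-- one step of the summation of `HL` -/
theorem HL_step {vr vt : ℝ} (hvt : 0 ≤ vt) {T0 T1 : ℝ} (h0 : 0 ≤ T0) (h01 : T0 ≤ T1)
    (h1 : T1 < Real.pi / 2) :
    HL vr vt T1 ≤ HL vr vt T0 + (T1 - T0) / 2 * (hL vr vt T0 + hL vr vt T1) := by
  have hsub : Icc T0 T1 ⊆ Ico 0 (Real.pi / 2) := by
    intro x hx
    exact ⟨h0.trans hx.1, lt_of_le_of_lt hx.2 h1⟩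
  have h2 := HL_sub vr vt h0 h01 h1
  have h3 : ConvexOn ℝ (Icc T0 T1) (fun x => hL vr vt x + 0 * x ^ 2 / 2) := by
    have := (hL_convex (vr := vr) hvt).subset hsub (convex_Icc _ _)
    refine this.congr ?_
    intro x _
    simp
  have h4 := trapezoid h01 le_rfl ((hL_continuousOn vr vt).mono hsub) h3
  have h5 : ∀ x, max 0 (hL vr vt x) = hL vr vt x := fun x => max_eq_right (hL_nonneg vr vt x)
  simp only [h5] at h4
  have e : HL vr vt T1 = HL vr vt T0 + ∫ θ in T0..T1, hL vr vt θ := by linarith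
  rw [e]
  linarith

/-! ### The row theorem -/

/-- strip part of the integral, one sign of the tangential velocity -/
theorem strip_one (D : Dat) {r vr w Th Ps K : ℝ} {J : ℕ} (hJ : 0 < J) (hr : 0 ≤ r)
    (h0 : 0 ≤ Th) (hTh : Th ≤ Real.pi) (hPs : Th ≤ Ps) (hK : 0 ≤ K)
    (ha : r * Real.cos Th ≤ D.xL) (hρ : 0 < D.ρ) (hxL : 0 < D.xL)
    (hb : Real.pi ≤ Ps ∨ r * Real.cos Ps ≤ -(1 / D.ρ))
    (hd : ConvexOn ℝ (Icc Th Ps)
      (fun θ => D.gs r vr w (Real.cos θ) (Real.sin θ) + K * θ ^ 2 / 2)) :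
    ∫ θ in Th..Real.pi, max 0 (D.g r vr w θ) ≤
      (Ps - Th) / J * ∑ j ∈ Finset.range J,
        (max 0 (D.gs r vr w (Real.cos (Th + j * ((Ps - Th) / J)))
            (Real.sin (Th + j * ((Ps - Th) / J)))) +
          max 0 (D.gs r vr w (Real.cos (Th + (j + 1) * ((Ps - Th) / J)))
            (Real.sin (Th + (j + 1) * ((Ps - Th) / J))))) / 2 +
      (Ps - Th) * (K * ((Ps - Th) / J) ^ 2 / 12) := by
  have hcont : Continuous (fun θ => D.gs r vr w (Real.cos θ) (Real.sin θ)) :=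
    (Dat.gs_continuous D r vr w).comp (Real.continuous_cos.prodMk Real.continuous_sin)
  have h1 := trapezoid_sum hJ hPs hK hcont.continuousOn hd
  refine le_trans ?_ h1
  -- the integrand beyond `Th`
  have hxρ : 0 < 1 / D.ρ := by positivity
  have hg : ∀ θ ∈ Icc Th Real.pi, max 0 (D.g r vr w θ) ≤
      max 0 (D.gs r vr w (Real.cos θ) (Real.sin θ)) := by
    intro θ hθ
    have hcos : Real.cos θ ≤ Real.cos Th := Real.cos_le_cos_of_nonneg_of_le_pi h0 hθ.2 hθ.1
    have h3 : r * Real.cos θ ≤ r * Real.cos Th := by gcongr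
    unfold Dat.g
    rw [if_neg (by linarith)]
    split_ifs with h4
    · exact le_rfl
    · rw [max_eq_left (by norm_num : (-1:ℝ) ≤ 0)]
      exact le_max_left _ _
  have hcont' : Continuous (fun θ => max 0 (D.gs r vr w (Real.cos θ) (Real.sin θ))) :=
    continuous_const.max hcont
  have hgint : ∀ a b : ℝ, Th ≤ a → a ≤ b → b ≤ Real.pi →
      IntervalIntegrable (fun θ => max 0 (D.g r vr w θ)) volume a b := by
    intro a b h2 h3 h4
    rw [intervalIntegrable_iff_integrableOn_Icc_of_le h3]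
    apply Integrable.mono' (hcont'.integrableOn_Icc)
    · exact (measurable_const.max (Dat.g_measurable D r vr w)).aestronglyMeasurable
    · apply ae_restrict_of_forall_mem measurableSet_Icc
      intro θ hθ
      rw [Real.norm_eq_abs, abs_of_nonneg (le_max_left _ _)]
      exact hg θ ⟨h2.trans hθ.1, hθ.2.trans h4⟩
  rcases le_or_gt Real.pi Ps with hPs2 | hPs2
  · have h2 : ∫ θ in Th..Real.pi, max 0 (D.g r vr w θ) ≤
        ∫ θ in Th..Real.pi, max 0 (D.gs r vr w (Real.cos θ) (Real.sin θ)) :=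
      intervalIntegral.integral_mono_on hTh (hgint _ _ le_rfl hTh le_rfl)
        (hcont'.intervalIntegrable _ _) hg
    have h3 := intervalIntegral.integral_add_adjacent_intervals
      (hcont'.intervalIntegrable (μ := volume) Th Real.pi)
      (hcont'.intervalIntegrable (μ := volume) Real.pi Ps)
    have h4 : 0 ≤ ∫ θ in Real.pi..Ps, max 0 (D.gs r vr w (Real.cos θ) (Real.sin θ)) :=
      intervalIntegral.integral_nonneg hPs2 (fun θ _ => le_max_left _ _)
    linarith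
  · have hb' : r * Real.cos Ps ≤ -(1 / D.ρ) := by
      rcases hb with h | h
      · linarith
      · exact h
    have hg0 : ∀ θ ∈ Icc Ps Real.pi, max 0 (D.g r vr w θ) = 0 := by
      intro θ hθ
      have hcos : Real.cos θ ≤ Real.cos Ps :=
        Real.cos_le_cos_of_nonneg_of_le_pi (by linarith) hθ.2 hθ.1
      have h3 : r * Real.cos θ ≤ r * Real.cos Ps := by gcongr
      unfold Dat.g
      rw [if_neg (by linarith), if_neg (by linarith)]
      exact max_eq_left (by norm_num)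
    have h2 : ∫ θ in Th..Ps, max 0 (D.g r vr w θ) ≤
        ∫ θ in Th..Ps, max 0 (D.gs r vr w (Real.cos θ) (Real.sin θ)) :=
      intervalIntegral.integral_mono_on hPs (hgint _ _ le_rfl hPs hPs2.le)
        (hcont'.intervalIntegrable _ _) (fun θ hθ => hg θ ⟨hθ.1, hθ.2.trans hPs2.le⟩)
    have h3 := intervalIntegral.integral_add_adjacent_intervals
      (hgint Th Ps le_rfl hPs hPs2.le) (hgint Ps Real.pi hPs hPs2.le le_rfl)
    have h4 : ∫ θ in Ps..Real.pi, max 0 (D.g r vr w θ) = ∫ θ in Ps..Real.pi, (0:ℝ) := by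
      apply intervalIntegral.integral_congr
      intro θ hθ
      rw [uIcc_of_le hPs2.le] at hθ
      exact hg0 θ hθ
    rw [intervalIntegral.integral_zero] at h4
    linarith

/-- linear interpolation -/
def lin (a b lam : ℝ) : ℝ := (1 - lam) * a + lam * b

/-- node number `j` of a row -/
noncomputable def nd (Th Ps : ℝ) (J : ℕ) (x : ℝ) : ℝ := Th + x * ((Ps - Th) / J)

/-- value of the strip integrand at a node -/
noncomputable def gn (D : Dat) (r vr w Th Ps : ℝ) (J : ℕ) (x : ℝ) : ℝ :=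
  D.gs r vr w (Real.cos (nd Th Ps J x)) (Real.sin (nd Th Ps J x))

/-- trapezoidal sum of a row (without the factor given by the step), one sign -/
noncomputable def rowSum (D : Dat) (r vr w Th Ps : ℝ) (J : ℕ) : ℝ :=
  ∑ j ∈ Finset.range J, (max 0 (gn D r vr w Th Ps J j) + max 0 (gn D r vr w Th Ps J (j + 1))) / 2

theorem semiconvex_bound {f : ℝ → ℝ} {K lam : ℝ} (hK : 0 ≤ K)
    (hf : ConvexOn ℝ (Icc (0:ℝ) 1) (fun x => f x + K * x ^ 2 / 2)) (hl : lam ∈ Icc (0:ℝ) 1) :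
    max 0 (f lam) ≤ (1 - lam) * max 0 (f 0) + lam * max 0 (f 1) + K / 8 := by
  have h := chord_bound zero_lt_one hf hl
  simp only [sub_zero, div_one] at h
  have hl0 := hl.1
  have hl1 : 0 ≤ 1 - lam := by linarith [hl.2]
  have a1 := le_max_right 0 (f 0)
  have a2 := le_max_right 0 (f 1)
  have b1 := le_max_left 0 (f 0)
  have b2 := le_max_left 0 (f 1)
  apply max_le
  · positivity
  · have e1 : (1 - lam) * f 0 ≤ (1 - lam) * max 0 (f 0) := by gcongr
    have e2 : lam * f 1 ≤ lam * max 0 (f 1) := by gcongr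
    have e3 : K * (lam * (1 - lam)) ≤ K * (1 / 4) := by
      apply mul_le_mul_of_nonneg_left _ hK
      nlinarith [sq_nonneg (lam - 1 / 2)]
    nlinarith

theorem rowSum_lin (D : Dat) {r0 r1 vr w Th0 Th1 Ps0 Ps1 K1 : ℝ} {J : ℕ} (hK1 : 0 ≤ K1)
    (hc : ∀ j : ℕ, j ≤ J → ConvexOn ℝ (Icc (0:ℝ) 1) (fun lam => gn D (lin r0 r1 lam) vr w
      (lin Th0 Th1 lam) (lin Ps0 Ps1 lam) J j + K1 * lam ^ 2 / 2)) {lam : ℝ}
    (hl : lam ∈ Icc (0:ℝ) 1) :
    rowSum D (lin r0 r1 lam) vr w (lin Th0 Th1 lam) (lin Ps0 Ps1 lam) J ≤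
      (1 - lam) * rowSum D r0 vr w Th0 Ps0 J + lam * rowSum D r1 vr w Th1 Ps1 J + J * (K1 / 8) := by
  have hl0 : ∀ a b : ℝ, lin a b 0 = a := fun a b => by unfold lin; ring
  have hl1 : ∀ a b : ℝ, lin a b 1 = b := fun a b => by unfold lin; ring
  have key : ∀ j : ℕ, j ≤ J → max 0 (gn D (lin r0 r1 lam) vr w
      (lin Th0 Th1 lam) (lin Ps0 Ps1 lam) J j) ≤ (1 - lam) * max 0 (gn D r0 vr w Th0 Ps0 J j) +
        lam * max 0 (gn D r1 vr w Th1 Ps1 J j) + K1 / 8 := by
    intro j hj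
    have h := semiconvex_bound hK1 (hc j hj) hl
    simp only [hl0, hl1] at h
    exact h
  unfold rowSum
  have h1 : ∑ j ∈ Finset.range J, (max 0 (gn D (lin r0 r1 lam) vr w (lin Th0 Th1 lam)
        (lin Ps0 Ps1 lam) J j) + max 0 (gn D (lin r0 r1 lam) vr w (lin Th0 Th1 lam)
        (lin Ps0 Ps1 lam) J (j + 1))) / 2 ≤
      ∑ j ∈ Finset.range J, ((1 - lam) * ((max 0 (gn D r0 vr w Th0 Ps0 J j) +
        max 0 (gn D r0 vr w Th0 Ps0 J (j + 1))) / 2) + lam * ((max 0 (gn D r1 vr w Th1 Ps1 J j) +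
        max 0 (gn D r1 vr w Th1 Ps1 J (j + 1))) / 2) + K1 / 8) := by
    apply Finset.sum_le_sum
    intro j hj
    have hj' := Finset.mem_range.mp hj
    have k1 := key j hj'.le
    have k2 := key (j + 1) hj'
    push_cast at k2
    linarith
  refine h1.trans (le_of_eq ?_)
  rw [Finset.sum_add_distrib, Finset.sum_add_distrib, Finset.mul_sum, Finset.mul_sum]
  simp

/-- hypotheses on the strip part of a pair of rows -/
structure Strip (D : Dat) (r0 r1 vr vt Th0 Th1 Ps0 Ps1 K1 K2 : ℝ) (J : ℕ) : Prop where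
  hJ : 0 < J
  hr0 : 0 ≤ r0
  hr : r0 ≤ r1
  hTh0 : 0 ≤ Th0
  hTh : Th0 ≤ Th1
  hTh1 : Th1 < Real.pi / 2
  hPs0 : Th0 ≤ Ps0
  hPs1 : Th1 ≤ Ps1
  hK1 : 0 ≤ K1
  hK2 : 0 ≤ K2
  ha : ∀ lam ∈ Icc (0:ℝ) 1, lin r0 r1 lam * Real.cos (lin Th0 Th1 lam) ≤ D.xL
  hb : ∀ lam ∈ Icc (0:ℝ) 1, Real.pi ≤ lin Ps0 Ps1 lam ∨
    lin r0 r1 lam * Real.cos (lin Ps0 Ps1 lam) ≤ -(1 / D.ρ)
  hc : ∀ w, (w = vt ∨ w = -vt) → ∀ j : ℕ, j ≤ J → ConvexOn ℝ (Icc (0:ℝ) 1)
    (fun lam => gn D (lin r0 r1 lam) vr w (lin Th0 Th1 lam) (lin Ps0 Ps1 lam) J j +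
      K1 * lam ^ 2 / 2)
  hd : ∀ w, (w = vt ∨ w = -vt) → ∀ lam ∈ Icc (0:ℝ) 1,
    ConvexOn ℝ (Icc (lin Th0 Th1 lam) (lin Ps0 Ps1 lam))
      (fun θ => D.gs (lin r0 r1 lam) vr w (Real.cos θ) (Real.sin θ) + K2 * θ ^ 2 / 2)

theorem lin_nonneg {a b lam : ℝ} (ha : 0 ≤ a) (hb : 0 ≤ b) (hl : lam ∈ Icc (0:ℝ) 1) :
    0 ≤ lin a b lam := by
  unfold lin
  have := hl.1
  have : 0 ≤ 1 - lam := by linarith [hl.2]
  positivity

theorem lin_le {a b c lam : ℝ} (ha : a ≤ c) (hb : b ≤ c) (hl : lam ∈ Icc (0:ℝ) 1) :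
    lin a b lam ≤ c := by
  unfold lin
  have h1 := hl.1
  have h2 : 0 ≤ 1 - lam := by linarith [hl.2]
  nlinarith

theorem lin_lt {a b c lam : ℝ} (ha : a < c) (hb : b < c) (hl : lam ∈ Icc (0:ℝ) 1) :
    lin a b lam < c := by
  have h1 : lin a b lam ≤ max a b := lin_le (le_max_left _ _) (le_max_right _ _) hl
  exact lt_of_le_of_lt h1 (max_lt ha hb)

theorem lin_mono {a b c d lam : ℝ} (h1 : a ≤ c) (h2 : b ≤ d) (hl : lam ∈ Icc (0:ℝ) 1) :
    lin a b lam ≤ lin c d lam := by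
  unfold lin
  have := hl.1
  have : 0 ≤ 1 - lam := by linarith [hl.2]
  gcongr

/-- strip part of a pair of rows -/
theorem strip_pair {D : Dat} {r0 r1 vr vt Th0 Th1 Ps0 Ps1 K1 K2 : ℝ} {J : ℕ}
    (h : Strip D r0 r1 vr vt Th0 Th1 Ps0 Ps1 K1 K2 J) (hρ : 0 < D.ρ) (hxL : 0 < D.xL)
    {S0 S1 : ℝ} (hS0 : rowSum D r0 vr vt Th0 Ps0 J + rowSum D r0 vr (-vt) Th0 Ps0 J ≤ S0)
    (hS1 : rowSum D r1 vr vt Th1 Ps1 J + rowSum D r1 vr (-vt) Th1 Ps1 J ≤ S1)
    {lam : ℝ} (hl : lam ∈ Icc (0:ℝ) 1) :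
    (∫ θ in (lin Th0 Th1 lam)..Real.pi, max 0 (D.g (lin r0 r1 lam) vr vt θ)) +
      (∫ θ in (lin Th0 Th1 lam)..Real.pi, max 0 (D.g (lin r0 r1 lam) vr (-vt) θ)) ≤
      (lin Ps0 Ps1 lam - lin Th0 Th1 lam) / J * ((1 - lam) * S0 + lam * S1) +
      2 * (lin Ps0 Ps1 lam - lin Th0 Th1 lam) *
        (K1 / 8 + K2 * ((lin Ps0 Ps1 lam - lin Th0 Th1 lam) / J) ^ 2 / 12) := by
  have hTh1 := h.hTh1
  have hpi := Real.pi_pos
  have l0 : 0 ≤ lin r0 r1 lam := lin_nonneg h.hr0 (h.hr0.trans h.hr) hl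
  have l1 : 0 ≤ lin Th0 Th1 lam := lin_nonneg h.hTh0 (h.hTh0.trans h.hTh) hl
  have l2 : lin Th0 Th1 lam ≤ Real.pi :=
    lin_le (by linarith [h.hTh]) (by linarith) hl
  have l3 : lin Th0 Th1 lam ≤ lin Ps0 Ps1 lam := lin_mono h.hPs0 h.hPs1 hl
  have hJ' : (0:ℝ) < J := by exact_mod_cast h.hJ
  have one : ∀ w, (w = vt ∨ w = -vt) →
      ∫ θ in (lin Th0 Th1 lam)..Real.pi, max 0 (D.g (lin r0 r1 lam) vr w θ) ≤
      (lin Ps0 Ps1 lam - lin Th0 Th1 lam) / J *
        ((1 - lam) * rowSum D r0 vr w Th0 Ps0 J + lam * rowSum D r1 vr w Th1 Ps1 J +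
          J * (K1 / 8)) +
      (lin Ps0 Ps1 lam - lin Th0 Th1 lam) *
        (K2 * ((lin Ps0 Ps1 lam - lin Th0 Th1 lam) / J) ^ 2 / 12) := by
    intro w hw
    have h1 := strip_one D h.hJ l0 l1 l2 l3 h.hK2 (h.ha lam hl) hρ hxL (h.hb lam hl)
      (h.hd w hw lam hl)
    have h2 := rowSum_lin D h.hK1 (h.hc w hw) hl
    have h3 : 0 ≤ (lin Ps0 Ps1 lam - lin Th0 Th1 lam) / J := div_nonneg (by linarith) hJ'.le
    have h4 := mul_le_mul_of_nonneg_left h2 h3
    refine h1.trans ?_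
    have h5 : (∑ j ∈ Finset.range J,
        (max 0 (D.gs (lin r0 r1 lam) vr w (Real.cos (lin Th0 Th1 lam + j *
            ((lin Ps0 Ps1 lam - lin Th0 Th1 lam) / J)))
            (Real.sin (lin Th0 Th1 lam + j * ((lin Ps0 Ps1 lam - lin Th0 Th1 lam) / J)))) +
          max 0 (D.gs (lin r0 r1 lam) vr w (Real.cos (lin Th0 Th1 lam + (j + 1) *
            ((lin Ps0 Ps1 lam - lin Th0 Th1 lam) / J)))
            (Real.sin (lin Th0 Th1 lam + (j + 1) *
              ((lin Ps0 Ps1 lam - lin Th0 Th1 lam) / J))))) / 2) =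
        rowSum D (lin r0 r1 lam) vr w (lin Th0 Th1 lam) (lin Ps0 Ps1 lam) J := rfl
    rw [h5]
    linarith
  have o1 := one vt (Or.inl rfl)
  have o2 := one (-vt) (Or.inr rfl)
  have h3 : 0 ≤ (lin Ps0 Ps1 lam - lin Th0 Th1 lam) / J := div_nonneg (by linarith) hJ'.le
  have hl0 := hl.1
  have hl1 : 0 ≤ 1 - lam := by linarith [hl.2]
  have h4 : (lin Ps0 Ps1 lam - lin Th0 Th1 lam) / J *
      ((1 - lam) * (rowSum D r0 vr vt Th0 Ps0 J + rowSum D r0 vr (-vt) Th0 Ps0 J) +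
        lam * (rowSum D r1 vr vt Th1 Ps1 J + rowSum D r1 vr (-vt) Th1 Ps1 J)) ≤
      (lin Ps0 Ps1 lam - lin Th0 Th1 lam) / J * ((1 - lam) * S0 + lam * S1) := by
    gcongr
  have h5 : (lin Ps0 Ps1 lam - lin Th0 Th1 lam) / J * (J * (K1 / 8)) =
      (lin Ps0 Ps1 lam - lin Th0 Th1 lam) * (K1 / 8) := by
    field_simp
  nlinarith [o1, o2, h4, h5]

theorem left_aux (D : Dat) {r vr vt a b sl : ℝ} (hr : 0 < r) (ha : 0 ≤ a) (hab : a ≤ b)
    (hb : b < Real.pi / 2) (hxL : 0 < D.xL)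
    (key : ∀ w, (w = vt ∨ w = -vt) → ∀ θ ∈ Icc a b, max 0 (D.g r vr w θ) ≤
      max 0 ((-vr + w * Real.tan θ) / r) + sl) :
    ∫ θ in a..b, (max 0 (D.g r vr vt θ) + max 0 (D.g r vr (-vt) θ)) ≤
      r⁻¹ * (HL vr vt b - HL vr vt a) + 2 * sl * (b - a) := by
  have i1 := fun w => Dat.g_pos_integrable D hxL hr vr w a b
  have h3 : ∫ θ in a..b, (max 0 (D.g r vr vt θ) + max 0 (D.g r vr (-vt) θ)) ≤
      ∫ θ in a..b, (r⁻¹ * hL vr vt θ + 2 * sl) := by
    apply intervalIntegral.integral_mono_on hab ((i1 _).add (i1 _))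
    · exact ((hL_integrable vr vt ha hab hb).const_mul _).add (by simp)
    · intro θ hθ
      have k1 := key vt (Or.inl rfl) θ hθ
      have k2 := key (-vt) (Or.inr rfl) θ hθ
      have e1 : max 0 ((-vr + vt * Real.tan θ) / r) = r⁻¹ * max 0 (-vr + vt * Real.tan θ) := by
        rw [mul_max_of_nonneg _ _ (inv_nonneg.mpr hr.le), mul_zero]
        congr 1
        ring
      have e2 : max 0 ((-vr + -vt * Real.tan θ) / r) = r⁻¹ * max 0 (-vr - vt * Real.tan θ) := by
        rw [mul_max_of_nonneg _ _ (inv_nonneg.mpr hr.le), mul_zero]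
        congr 1
        ring
      rw [e1] at k1
      rw [e2] at k2
      unfold hL
      linarith
  refine h3.trans (le_of_eq ?_)
  rw [intervalIntegral.integral_add ((hL_integrable vr vt ha hab hb).const_mul _) (by simp),
    intervalIntegral.integral_const_mul, HL_sub vr vt ha hab hb]
  simp only [intervalIntegral.integral_const, smul_eq_mul]
  ring

/-- left part of a row; `wd` bounds the width of the sliver between the true interface and the
line of the mesh -/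
theorem left_part (D : Dat) {r vr vt Th sl wd : ℝ} (hr : 0 < r) (h0 : 0 ≤ Th)
    (h1 : Th < Real.pi / 2) (hxL : 0 < D.xL) (hsl : 0 ≤ sl) (hwd : 0 ≤ wd)
    (hw : wd < Th → D.xL < r * Real.cos (Th - wd))
    (hf : ∀ w, (w = vt ∨ w = -vt) → ∀ θ ∈ Icc 0 Th, r * Real.cos θ ≤ D.xL →
      max 0 (D.gs r vr w (Real.cos θ) (Real.sin θ)) ≤
        max 0 ((-vr + w * Real.tan θ) / r) + sl) :
    (∫ θ in (0:ℝ)..Th, max 0 (D.g r vr vt θ)) + (∫ θ in (0:ℝ)..Th, max 0 (D.g r vr (-vt) θ)) ≤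
      HL vr vt Th / r + 2 * sl * wd := by
  have hH0 : HL vr vt 0 = 0 := by unfold HL; simp
  have key : ∀ w, (w = vt ∨ w = -vt) → ∀ θ ∈ Icc 0 Th, max 0 (D.g r vr w θ) ≤
      max 0 ((-vr + w * Real.tan θ) / r) + sl := by
    intro w hw θ hθ
    unfold Dat.g
    split_ifs with h2 h3
    · linarith
    · exact hf w hw θ hθ (not_lt.mp h2)
    · rw [max_eq_left (by norm_num : (-1:ℝ) ≤ 0)]
      have := le_max_left 0 ((-vr + w * Real.tan θ) / r)
      linarith
  have i1 := fun w a b => Dat.g_pos_integrable D hxL hr vr w a b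
  rw [← intervalIntegral.integral_add (i1 _ _ _) (i1 _ _ _)]
  rcases le_or_gt Th wd with hT | hT
  · have h2 := left_aux D hr le_rfl h0 h1 hxL key
    rw [hH0] at h2
    have h3 : 2 * sl * (Th - 0) ≤ 2 * sl * wd := by
      rw [sub_zero]
      gcongr
    have h4 : r⁻¹ * (HL vr vt Th - 0) = HL vr vt Th / r := by
      rw [sub_zero]
      ring
    linarith
  · have hw' := hw hT
    have key2 : ∀ w, (w = vt ∨ w = -vt) → ∀ θ ∈ Icc 0 (Th - wd), max 0 (D.g r vr w θ) ≤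
        max 0 ((-vr + w * Real.tan θ) / r) + 0 := by
      intro w _ θ hθ
      have hcos : Real.cos (Th - wd) ≤ Real.cos θ :=
        Real.cos_le_cos_of_nonneg_of_le_pi hθ.1 (by linarith [Real.pi_pos]) hθ.2
      have h3 : r * Real.cos (Th - wd) ≤ r * Real.cos θ := by gcongr
      unfold Dat.g
      rw [if_pos (by linarith), add_zero]
    have h2 := left_aux D hr le_rfl (by linarith : (0:ℝ) ≤ Th - wd) (by linarith) hxL key2
    have h3 := left_aux D hr (by linarith : (0:ℝ) ≤ Th - wd) (by linarith : Th - wd ≤ Th) h1 hxL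
      (fun w hw θ hθ => key w hw θ ⟨by linarith [hθ.1], hθ.2⟩)
    rw [← intervalIntegral.integral_add_adjacent_intervals
      ((i1 vt 0 (Th - wd)).add (i1 (-vt) 0 (Th - wd)))
      ((i1 vt (Th - wd) Th).add (i1 (-vt) (Th - wd) Th))]
    rw [hH0] at h2
    have e1 : r⁻¹ * (HL vr vt (Th - wd) - 0) + r⁻¹ * (HL vr vt Th - HL vr vt (Th - wd)) =
        HL vr vt Th / r := by ring
    have e2 : 2 * sl * (Th - (Th - wd)) = 2 * sl * wd := by ring
    linarith

/-- **Row pair theorem.** -/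
theorem row_pair {D : Dat} {r0 r1 vr vt Th0 Th1 Ps0 Ps1 K1 K2 : ℝ} {J : ℕ}
    (h : Strip D r0 r1 vr vt Th0 Th1 Ps0 Ps1 K1 K2 J) (hρ : 0 < D.ρ) (hxL : 0 < D.xL)
    (hr0 : 0 < r0) (hvt : 0 ≤ vt)
    {S0 S1 H0 H1 sl wd : ℝ} (hsl : 0 ≤ sl) (hwd : 0 ≤ wd)
    (hw : ∀ lam ∈ Icc (0:ℝ) 1, wd < lin Th0 Th1 lam →
      D.xL < lin r0 r1 lam * Real.cos (lin Th0 Th1 lam - wd))
    (hS0 : rowSum D r0 vr vt Th0 Ps0 J + rowSum D r0 vr (-vt) Th0 Ps0 J ≤ S0)
    (hS1 : rowSum D r1 vr vt Th1 Ps1 J + rowSum D r1 vr (-vt) Th1 Ps1 J ≤ S1)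
    (hH0 : HL vr vt Th0 ≤ H0) (hH1 : HL vr vt Th1 ≤ H1)
    (hf : ∀ lam ∈ Icc (0:ℝ) 1, ∀ w, (w = vt ∨ w = -vt) → ∀ θ ∈ Icc 0 (lin Th0 Th1 lam),
      lin r0 r1 lam * Real.cos θ ≤ D.xL →
      max 0 (D.gs (lin r0 r1 lam) vr w (Real.cos θ) (Real.sin θ)) ≤
        max 0 ((-vr + w * Real.tan θ) / lin r0 r1 lam) + sl)
    {lam : ℝ} (hl : lam ∈ Icc (0:ℝ) 1) :
    ∫ θ in (0:ℝ)..Real.pi, (max 0 (D.g (lin r0 r1 lam) vr vt θ) +
        max 0 (D.g (lin r0 r1 lam) vr (-vt) θ)) ≤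
      ((1 - lam) * H0 + lam * H1) / lin r0 r1 lam + 2 * sl * wd +
      (lin Ps0 Ps1 lam - lin Th0 Th1 lam) / J * ((1 - lam) * S0 + lam * S1) +
      2 * (lin Ps0 Ps1 lam - lin Th0 Th1 lam) *
        (K1 / 8 + K2 * ((lin Ps0 Ps1 lam - lin Th0 Th1 lam) / J) ^ 2 / 12) := by
  have hTh1 := h.hTh1
  have hpi := Real.pi_pos
  have l0 : 0 < lin r0 r1 lam := by
    have h1 := hl.1
    have h2 : 0 ≤ 1 - lam := by linarith [hl.2]
    have h3 := h.hr
    have : lin r0 r1 lam = r0 + lam * (r1 - r0) := by unfold lin; ring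
    rw [this]
    nlinarith
  have l1 : 0 ≤ lin Th0 Th1 lam := lin_nonneg h.hTh0 (h.hTh0.trans h.hTh) hl
  have l2 : lin Th0 Th1 lam < Real.pi / 2 := lin_lt (by linarith [h.hTh]) hTh1 hl
  have i1 := fun w a b => Dat.g_pos_integrable D hxL l0 vr w a b
  rw [intervalIntegral.integral_add (i1 _ _ _) (i1 _ _ _),
    ← intervalIntegral.integral_add_adjacent_intervals (i1 vt 0 (lin Th0 Th1 lam)) (i1 vt _ _),
    ← intervalIntegral.integral_add_adjacent_intervals (i1 (-vt) 0 (lin Th0 Th1 lam))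
      (i1 (-vt) _ _)]
  have a1 := left_part D l0 l1 l2 hxL hsl hwd (hw lam hl) (hf lam hl)
  have a2 := strip_pair h hρ hxL hS0 hS1 hl
  have a3 := HL_convex (vr := vr) hvt h.hTh0 h.hTh hTh1 hl.1 hl.2
  have a4 : HL vr vt (lin Th0 Th1 lam) ≤ (1 - lam) * H0 + lam * H1 := by
    have h1 := hl.1
    have h2 : 0 ≤ 1 - lam := by linarith [hl.2]
    have : (1 - lam) * HL vr vt Th0 + lam * HL vr vt Th1 ≤ (1 - lam) * H0 + lam * H1 := by
      gcongr
    unfold lin
    linarith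
  have a5 : HL vr vt (lin Th0 Th1 lam) / lin r0 r1 lam ≤
      ((1 - lam) * H0 + lam * H1) / lin r0 r1 lam := by
    gcongr
  linarith

/-- Row pair theorem without left region. -/
theorem row_pair_zero {D : Dat} {r0 r1 vr vt Ps0 Ps1 K1 K2 : ℝ} {J : ℕ}
    (h : Strip D r0 r1 vr vt 0 0 Ps0 Ps1 K1 K2 J) (hρ : 0 < D.ρ) (hxL : 0 < D.xL)
    {S0 S1 : ℝ}
    (hS0 : rowSum D r0 vr vt 0 Ps0 J + rowSum D r0 vr (-vt) 0 Ps0 J ≤ S0)
    (hS1 : rowSum D r1 vr vt 0 Ps1 J + rowSum D r1 vr (-vt) 0 Ps1 J ≤ S1)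
    {lam : ℝ} (hl : lam ∈ Icc (0:ℝ) 1) (hr : 0 < lin r0 r1 lam) :
    ∫ θ in (0:ℝ)..Real.pi, (max 0 (D.g (lin r0 r1 lam) vr vt θ) +
        max 0 (D.g (lin r0 r1 lam) vr (-vt) θ)) ≤
      lin Ps0 Ps1 lam / J * ((1 - lam) * S0 + lam * S1) +
      2 * lin Ps0 Ps1 lam * (K1 / 8 + K2 * (lin Ps0 Ps1 lam / J) ^ 2 / 12) := by
  have i1 := fun w a b => Dat.g_pos_integrable D hxL hr vr w a b
  rw [intervalIntegral.integral_add (i1 _ _ _) (i1 _ _ _)]
  have a2 := strip_pair h hρ hxL hS0 hS1 hl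
  have e : lin 0 0 lam = 0 := by unfold lin; ring
  rw [e, sub_zero] at a2
  exact a2

end Pool.Agent.H44.Shore
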