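import Mathlib
import Pool.Agent.H44.Shore.Row

/-!
Shoreline search: second derivative bounds for the strip integrand.
-/

open MeasureTheory Set Filter Topology Polynomial
open scoped Interval ENNReal

namespace Pool.Agent.H44.Shore

/-- a function with its first two derivatives -/
structure C2 (f f1 f2 : ℝ → ℝ) : Prop where
  d1 : ∀ t, HasDerivAt f (f1 t) t
  d2 : ∀ t, HasDerivAt f1 (f2 t) t

namespace C2

variable {f f1 f2 g g1 g2 : ℝ → ℝ}

theorem add (hf : C2 f f1 f2) (hg : C2 g g1 g2) :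
    C2 (fun t => f t + g t) (fun t => f1 t + g1 t) (fun t => f2 t + g2 t) :=
  ⟨fun t => (hf.d1 t).add (hg.d1 t), fun t => (hf.d2 t).add (hg.d2 t)⟩

theorem neg (hf : C2 f f1 f2) : C2 (fun t => -f t) (fun t => -f1 t) (fun t => -f2 t) :=
  ⟨fun t => (hf.d1 t).neg, fun t => (hf.d2 t).neg⟩

theorem const (c : ℝ) : C2 (fun _ => c) (fun _ => 0) (fun _ => 0) :=
  ⟨fun t => hasDerivAt_const t c, fun t => hasDerivAt_const t 0⟩

theorem mul (hf : C2 f f1 f2) (hg : C2 g g1 g2) :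
    C2 (fun t => f t * g t) (fun t => f1 t * g t + f t * g1 t)
      (fun t => f2 t * g t + 2 * (f1 t * g1 t) + f t * g2 t) := by
  refine ⟨fun t => (hf.d1 t).mul (hg.d1 t), fun t => ?_⟩
  have h := ((hf.d2 t).mul (hg.d1 t)).add ((hf.d1 t).mul (hg.d2 t))
  refine h.congr_deriv ?_
  ring

theorem congr' (hf : C2 f f1 f2) (h1 : ∀ t, f1 t = g1 t) (h2 : ∀ t, f2 t = g2 t) : C2 f g1 g2 := by
  have e1 : f1 = g1 := funext h1
  have e2 : f2 = g2 := funext h2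
  rw [← e1, ← e2]
  exact hf

theorem line (a b : ℝ) : C2 (fun t => a + t * b) (fun _ => b) (fun _ => 0) := by
  refine ⟨fun t => ?_, fun t => hasDerivAt_const t b⟩
  have h := ((hasDerivAt_id t).mul_const b).const_add a
  simpa using h

theorem cos_line (a b : ℝ) : C2 (fun t => Real.cos (a + t * b))
    (fun t => -(b * Real.sin (a + t * b))) (fun t => -(b ^ 2 * Real.cos (a + t * b))) := by
  have hl := (line a b).d1
  refine ⟨fun t => ?_, fun t => ?_⟩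
  · have h := (hl t).cos
    refine h.congr_deriv ?_
    ring
  · have h := (((hl t).sin).const_mul b).neg
    refine h.congr_deriv ?_
    ring

theorem sin_line (a b : ℝ) : C2 (fun t => Real.sin (a + t * b))
    (fun t => b * Real.cos (a + t * b)) (fun t => -(b ^ 2 * Real.sin (a + t * b))) := by
  have hl := (line a b).d1
  refine ⟨fun t => ?_, fun t => ?_⟩
  · have h := (hl t).sin
    refine h.congr_deriv ?_
    ring
  · have h := ((hl t).cos).const_mul b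
    refine h.congr_deriv ?_
    ring

/-- a second derivative bound gives semiconvexity -/
theorem semiconvex (hf : C2 f f1 f2) {a b K : ℝ}
    (hK : ∀ t ∈ Icc a b, |f2 t| ≤ K) :
    ConvexOn ℝ (Icc a b) (fun t => f t + K * t ^ 2 / 2) := by
  have hq : ∀ t : ℝ, HasDerivAt (fun t : ℝ => K * t ^ 2 / 2) (K * t) t := by
    intro t
    have h := ((hasDerivAt_pow 2 t).const_mul K).div_const 2
    refine h.congr_deriv ?_
    push_cast
    ring
  have hd1 : ∀ t, HasDerivAt (fun t => f t + K * t ^ 2 / 2) (f1 t + K * t) t :=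
    fun t => (hf.d1 t).add (hq t)
  have hd2 : ∀ t, HasDerivAt (fun t => f1 t + K * t) (f2 t + K) t := by
    intro t
    have h := (hf.d2 t).add ((hasDerivAt_id t).const_mul K)
    refine h.congr_deriv ?_
    ring
  apply convexOn_of_hasDerivWithinAt2_nonneg (convex_Icc a b)
    (f' := fun t => f1 t + K * t) (f'' := fun t => f2 t + K)
  · exact fun t _ => (hd1 t).continuousAt.continuousWithinAt
  · exact fun t _ => (hd1 t).hasDerivWithinAt
  · exact fun t _ => (hd2 t).hasDerivWithinAt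
  · intro t ht
    have := (abs_le.mp (hK t (interior_subset ht))).1
    linarith

end C2

namespace Dat

/-- partial derivatives of the strip function -/
noncomputable def bd (D : Dat) (i j : ℕ) (x w : ℝ) : ℝ :=
  (if j = 0 then (derivative^[i] D.B0).eval x else 0) +
  (Nat.descFactorial 2 j : ℝ) * w ^ (2 - j) * (derivative^[i] D.B2).eval x +
  (Nat.descFactorial 3 j : ℝ) * w ^ (3 - j) * (derivative^[i] D.B3).eval x +
  (Nat.descFactorial 4 j : ℝ) * w ^ (4 - j) * (derivative^[i] D.B4).eval x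

theorem bx_eq (D : Dat) (x w : ℝ) : D.bx x w = D.bd 1 0 x w := by
  unfold bx bd
  simp

theorem bw_eq (D : Dat) (x w : ℝ) : D.bw x w = D.bd 0 1 x w := by
  unfold bw bd
  simp [Nat.descFactorial]

theorem hasDerivAt_bd (D : Dat) (i j : ℕ) {x w : ℝ → ℝ} {x' w' t : ℝ} (hx : HasDerivAt x x' t)
    (hw : HasDerivAt w w' t) :
    HasDerivAt (fun t => D.bd i j (x t) (w t))
      (D.bd (i + 1) j (x t) (w t) * x' + D.bd i (j + 1) (x t) (w t) * w') t := by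
  have hB : ∀ q : ℝ[X], HasDerivAt (fun t => (derivative^[i] q).eval (x t))
      ((derivative^[i + 1] q).eval (x t) * x') t := by
    intro q
    rw [Function.iterate_succ_apply']
    exact ((derivative^[i] q).hasDerivAt (x t)).comp t hx
  have hp : ∀ k : ℕ, HasDerivAt (fun t => (Nat.descFactorial k j : ℝ) * (w t) ^ (k - j))
      ((Nat.descFactorial k (j + 1) : ℝ) * (w t) ^ (k - (j + 1)) * w') t := by
    intro k
    have h := (hw.pow (k - j)).const_mul (Nat.descFactorial k j : ℝ)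
    refine h.congr_deriv ?_
    rw [Nat.descFactorial_succ, ← Nat.sub_sub]
    push_cast
    ring
  have h0 : HasDerivAt (fun t => if j = 0 then (derivative^[i] D.B0).eval (x t) else 0)
      ((if j = 0 then (derivative^[i + 1] D.B0).eval (x t) else 0) * x') t := by
    by_cases hj : j = 0
    · simp only [hj, if_true]
      exact hB D.B0
    · simp only [hj, if_false, zero_mul]
      exact hasDerivAt_const t 0
  have h := ((h0.add ((hp 2).mul (hB D.B2))).add ((hp 3).mul (hB D.B3))).add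
    ((hp 4).mul (hB D.B4))
  have h' : HasDerivAt (fun t => D.bd i j (x t) (w t)) _ t := h
  refine h'.congr_deriv ?_
  unfold bd
  rw [if_neg (Nat.succ_ne_zero j)]
  ring

theorem C2_bd (D : Dat) (i j : ℕ) {x x1 x2 w w1 w2 : ℝ → ℝ} (hx : C2 x x1 x2)
    (hw : C2 w w1 w2) :
    C2 (fun t => D.bd i j (x t) (w t))
      (fun t => D.bd (i + 1) j (x t) (w t) * x1 t + D.bd i (j + 1) (x t) (w t) * w1 t)
      (fun t => D.bd (i + 2) j (x t) (w t) * (x1 t) ^ 2 +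
        2 * (D.bd (i + 1) (j + 1) (x t) (w t) * (x1 t * w1 t)) +
        D.bd i (j + 2) (x t) (w t) * (w1 t) ^ 2 +
        D.bd (i + 1) j (x t) (w t) * x2 t + D.bd i (j + 1) (x t) (w t) * w2 t) := by
  refine ⟨fun t => D.hasDerivAt_bd i j (hx.d1 t) (hw.d1 t), fun t => ?_⟩
  have h := ((D.hasDerivAt_bd (i + 1) j (hx.d1 t) (hw.d1 t)).mul (hx.d2 t)).add
    ((D.hasDerivAt_bd i (j + 1) (hx.d1 t) (hw.d1 t)).mul (hw.d2 t))
  refine h.congr_deriv ?_
  ring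

end Dat

/-- sup norm bounds for the partial derivatives on a box -/
structure MB (D : Dat) (xa xb wa wb M10 M20 M30 M01 M11 M21 M02 M12 M03 : ℝ) : Prop where
  m10 : ∀ x ∈ Icc xa xb, ∀ w ∈ Icc wa wb, |D.bd 1 0 x w| ≤ M10
  m20 : ∀ x ∈ Icc xa xb, ∀ w ∈ Icc wa wb, |D.bd 2 0 x w| ≤ M20
  m30 : ∀ x ∈ Icc xa xb, ∀ w ∈ Icc wa wb, |D.bd 3 0 x w| ≤ M30
  m01 : ∀ x ∈ Icc xa xb, ∀ w ∈ Icc wa wb, |D.bd 0 1 x w| ≤ M01
  m11 : ∀ x ∈ Icc xa xb, ∀ w ∈ Icc wa wb, |D.bd 1 1 x w| ≤ M11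
  m21 : ∀ x ∈ Icc xa xb, ∀ w ∈ Icc wa wb, |D.bd 2 1 x w| ≤ M21
  m02 : ∀ x ∈ Icc xa xb, ∀ w ∈ Icc wa wb, |D.bd 0 2 x w| ≤ M02
  m12 : ∀ x ∈ Icc xa xb, ∀ w ∈ Icc wa wb, |D.bd 1 2 x w| ≤ M12
  m03 : ∀ x ∈ Icc xa xb, ∀ w ∈ Icc wa wb, |D.bd 0 3 x w| ≤ M03

/-- the constant in the second derivative bound; `a`, `e` bound the speeds in `r` and `θ` -/
noncomputable def KB (rB M10 M20 M30 M01 M11 M21 M02 M12 M03 V rb a e : ℝ) : ℝ :=
  let X1 := a + rb * e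
  let X2 := 2 * a * e + rb * e ^ 2
  let W1 := 2 * rb * a / rB ^ 2
  let W2 := 2 * a ^ 2 / rB ^ 2
  let U0 := rb + V
  let U1 := a + (rb + V) * e
  let U2 := 2 * a * e + (rb + V) * e ^ 2
  let Q0 := 2 * rb / rB ^ 2 * (V + rb)
  let Q1 := 2 / rB ^ 2 * (V + 2 * rb) * a
  let Q2 := 4 / rB ^ 2 * a ^ 2
  let p1 := M20 * X1 + M11 * W1
  let p2 := M30 * X1 ^ 2 + 2 * (M21 * (X1 * W1)) + M12 * W1 ^ 2 + M20 * X2 + M11 * W2
  let q1 := M11 * X1 + M02 * W1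
  let q2 := M21 * X1 ^ 2 + 2 * (M12 * (X1 * W1)) + M03 * W1 ^ 2 + M11 * X2 + M02 * W2
  (p2 * U0 + 2 * (p1 * U1) + M10 * U2) + (Q2 * M01 + 2 * (Q1 * q1) + Q0 * q2)

theorem abs_cs (a b θ V : ℝ) (hV : 0 ≤ V) (hab : a ^ 2 + b ^ 2 ≤ V ^ 2) :
    |a * Real.cos θ + b * Real.sin θ| ≤ V := by
  apply abs_le_of_sq_le_sq _ hV
  have h := Real.sin_sq_add_cos_sq θ
  nlinarith [sq_nonneg (a * Real.sin θ - b * Real.cos θ)]

theorem abs_mul_le {a b A B : ℝ} (ha : |a| ≤ A) (hb : |b| ≤ B) : |a * b| ≤ A * B := by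
  rw [abs_mul]
  exact mul_le_mul ha hb (abs_nonneg _) ((abs_nonneg _).trans ha)

theorem abs_add_le' {a b A B : ℝ} (ha : |a| ≤ A) (hb : |b| ≤ B) : |a + b| ≤ A + B :=
  (abs_add_le a b).trans (add_le_add ha hb)

theorem abs_sub_le' {a b A B : ℝ} (ha : |a| ≤ A) (hb : |b| ≤ B) : |a - b| ≤ A + B := by
  rw [sub_eq_add_neg]
  exact abs_add_le' ha (by rwa [abs_neg])

theorem C2_x (r0 dr θ0 dθ : ℝ) :
    C2 (fun t => -((r0 + t * dr) * Real.cos (θ0 + t * dθ)))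
      (fun t => -(dr * Real.cos (θ0 + t * dθ)) + (r0 + t * dr) * (dθ * Real.sin (θ0 + t * dθ)))
      (fun t => 2 * (dr * (dθ * Real.sin (θ0 + t * dθ))) +
        (r0 + t * dr) * (dθ ^ 2 * Real.cos (θ0 + t * dθ))) := by
  refine (((C2.line r0 dr).mul (C2.cos_line θ0 dθ)).neg).congr' ?_ ?_
  · intro t
    ring
  · intro t
    ring

theorem C2_w (r0 dr B : ℝ) :
    C2 (fun t => 1 - (r0 + t * dr) ^ 2 / B) (fun t => -(2 * (r0 + t * dr) * dr / B))
      (fun _ => -(2 * dr ^ 2 / B)) := by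
  have h := (C2.const 1).add (((C2.line r0 dr).mul (C2.line r0 dr)).mul (C2.const (-(1 / B))))
  have e : (fun t => 1 - (r0 + t * dr) ^ 2 / B) =
      fun t => 1 + (r0 + t * dr) * (r0 + t * dr) * -(1 / B) := by
    funext t
    ring
  rw [e]
  refine h.congr' ?_ ?_
  · intro t
    ring
  · intro t
    ring

theorem C2_U (r0 dr θ0 dθ vr u : ℝ) :
    C2 (fun t => -(vr * Real.cos (θ0 + t * dθ)) + u * Real.sin (θ0 + t * dθ) +
        (r0 + t * dr) * Real.cos (θ0 + t * dθ))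
      (fun t => dr * Real.cos (θ0 + t * dθ) + (dθ * (u * Real.cos (θ0 + t * dθ) +
        vr * Real.sin (θ0 + t * dθ)) - (r0 + t * dr) * (dθ * Real.sin (θ0 + t * dθ))))
      (fun t => -(2 * (dr * (dθ * Real.sin (θ0 + t * dθ)))) + (dθ ^ 2 * (vr * Real.cos (θ0 + t * dθ)
        + (-u) * Real.sin (θ0 + t * dθ)) - (r0 + t * dr) * (dθ ^ 2 * Real.cos (θ0 + t * dθ)))) := by
  have h := (((C2.const (-vr)).mul (C2.cos_line θ0 dθ)).add
    ((C2.const u).mul (C2.sin_line θ0 dθ))).add ((C2.line r0 dr).mul (C2.cos_line θ0 dθ))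
  have e : (fun t => -(vr * Real.cos (θ0 + t * dθ)) + u * Real.sin (θ0 + t * dθ) +
        (r0 + t * dr) * Real.cos (θ0 + t * dθ)) =
      fun t => -vr * Real.cos (θ0 + t * dθ) + u * Real.sin (θ0 + t * dθ) +
        (r0 + t * dr) * Real.cos (θ0 + t * dθ) := by
    funext t
    ring
  rw [e]
  refine h.congr' ?_ ?_
  · intro t
    ring
  · intro t
    ring

theorem C2_Q (r0 dr vr B : ℝ) :
    C2 (fun t => 2 * (r0 + t * dr) / B * (vr - (r0 + t * dr)))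
      (fun t => 2 / B * (vr - 2 * (r0 + t * dr)) * dr) (fun _ => -(4 / B * dr ^ 2)) := by
  have h := ((C2.const (2 / B)).mul (C2.line r0 dr)).mul
    ((C2.const vr).add (C2.line r0 dr).neg)
  have e : (fun t => 2 * (r0 + t * dr) / B * (vr - (r0 + t * dr))) =
      fun t => 2 / B * (r0 + t * dr) * (vr + -(r0 + t * dr)) := by
    funext t
    ring
  rw [e]
  refine h.congr' ?_ ?_
  · intro t
    ring
  · intro t
    ring

/-- combination of the pieces -/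
theorem C2_comb {p p1 p2 U U1 U2 Q Q1 Q2 q q1 q2 : ℝ → ℝ} (hp : C2 p p1 p2) (hU : C2 U U1 U2)
    (hQ : C2 Q Q1 Q2) (hq : C2 q q1 q2) :
    C2 (fun t => -1 - p t * U t + Q t * q t)
      (fun t => -(p1 t * U t + p t * U1 t) + (Q1 t * q t + Q t * q1 t))
      (fun t => -(p2 t * U t + 2 * (p1 t * U1 t) + p t * U2 t) +
        (Q2 t * q t + 2 * (Q1 t * q1 t) + Q t * q2 t)) := by
  have h := ((C2.const (-1)).add (hp.mul hU).neg).add (hQ.mul hq)
  have e : (fun t => -1 - p t * U t + Q t * q t) = fun t => -1 + -(p t * U t) + Q t * q t := by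
    funext t
    ring
  rw [e]
  refine h.congr' ?_ ?_
  · intro t
    ring
  · intro t
    ring

theorem comb_bound {p p1 p2 U U1 U2 Q Q1 Q2 q q1 q2 P P1 P2 V0 V1 V2 R0 R1 R2 S0 S1 S2 : ℝ}
    (hp : |p| ≤ P) (hp1 : |p1| ≤ P1) (hp2 : |p2| ≤ P2) (hU : |U| ≤ V0) (hU1 : |U1| ≤ V1)
    (hU2 : |U2| ≤ V2) (hQ : |Q| ≤ R0) (hQ1 : |Q1| ≤ R1) (hQ2 : |Q2| ≤ R2) (hq : |q| ≤ S0)
    (hq1 : |q1| ≤ S1) (hq2 : |q2| ≤ S2) :
    |-(p2 * U + 2 * (p1 * U1) + p * U2) + (Q2 * q + 2 * (Q1 * q1) + Q * q2)| ≤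
      (P2 * V0 + 2 * (P1 * V1) + P * V2) + (R2 * S0 + 2 * (R1 * S1) + R0 * S2) := by
  have h2 : |(2:ℝ)| ≤ 2 := by norm_num
  apply abs_add_le'
  · rw [abs_neg]
    exact abs_add_le' (abs_add_le' (abs_mul_le hp2 hU) (abs_mul_le h2 (abs_mul_le hp1 hU1)))
      (abs_mul_le hp hU2)
  · exact abs_add_le' (abs_add_le' (abs_mul_le hQ2 hq) (abs_mul_le h2 (abs_mul_le hQ1 hq1)))
      (abs_mul_le hQ hq2)

theorem bd_bound1 {A B x1 w1 MA MB' X W : ℝ} (hA : |A| ≤ MA) (hB : |B| ≤ MB') (hx : |x1| ≤ X)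
    (hw : |w1| ≤ W) : |A * x1 + B * w1| ≤ MA * X + MB' * W :=
  abs_add_le' (abs_mul_le hA hx) (abs_mul_le hB hw)

theorem bd_bound2 {A B C E F x1 w1 x2 w2 MA MB' MC ME MF X W X' W' : ℝ} (hA : |A| ≤ MA)
    (hB : |B| ≤ MB') (hC : |C| ≤ MC) (hE : |E| ≤ ME) (hF : |F| ≤ MF) (hx : |x1| ≤ X)
    (hw : |w1| ≤ W) (hx2 : |x2| ≤ X') (hw2 : |w2| ≤ W') :
    |A * x1 ^ 2 + 2 * (B * (x1 * w1)) + C * w1 ^ 2 + E * x2 + F * w2| ≤
      MA * X ^ 2 + 2 * (MB' * (X * W)) + MC * W ^ 2 + ME * X' + MF * W' := by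
  have h2 : |(2:ℝ)| ≤ 2 := by norm_num
  have hxx : |x1 ^ 2| ≤ X ^ 2 := by
    rw [sq, sq]
    exact abs_mul_le hx hx
  have hww : |w1 ^ 2| ≤ W ^ 2 := by
    rw [sq, sq]
    exact abs_mul_le hw hw
  exact abs_add_le' (abs_add_le' (abs_add_le' (abs_add_le' (abs_mul_le hA hxx)
    (abs_mul_le h2 (abs_mul_le hB (abs_mul_le hx hw)))) (abs_mul_le hC hww))
    (abs_mul_le hE hx2)) (abs_mul_le hF hw2)

/-- **Second derivative bound along a line in the `(r, θ)` plane.** -/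
theorem gs_line {D : Dat} {xa xb wa wb M10 M20 M30 M01 M11 M21 M02 M12 M03 : ℝ}
    (hM : MB D xa xb wa wb M10 M20 M30 M01 M11 M21 M02 M12 M03)
    (hrB : 0 < D.rB) {V rb a e : ℝ} (hV : 0 ≤ V) (hrb : rb ≤ D.rB)
    {vr u : ℝ} (hv : vr ^ 2 + u ^ 2 ≤ V ^ 2) {r0 dr θ0 dθ lo hi : ℝ}
    (hdr : |dr| ≤ a) (hdθ : |dθ| ≤ e)
    (hr : ∀ t ∈ Icc lo hi, 0 ≤ r0 + t * dr ∧ r0 + t * dr ≤ rb)
    (hw : ∀ t ∈ Icc lo hi, 1 - (r0 + t * dr) ^ 2 / D.rB ^ 2 ∈ Icc wa wb)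
    (hx : ∀ t ∈ Icc lo hi, -((r0 + t * dr) * Real.cos (θ0 + t * dθ)) ∈ Icc xa xb)
    {K : ℝ} (hK : KB D.rB M10 M20 M30 M01 M11 M21 M02 M12 M03 V rb a e ≤ K) :
    ConvexOn ℝ (Icc lo hi) (fun t => D.gs (r0 + t * dr) vr u (Real.cos (θ0 + t * dθ))
      (Real.sin (θ0 + t * dθ)) + K * t ^ 2 / 2) := by
  have Cx := C2_x r0 dr θ0 dθ
  have Cw := C2_w r0 dr (D.rB ^ 2)
  have Cp := D.C2_bd 1 0 Cx Cw
  have Cq := D.C2_bd 0 1 Cx Cw
  have CU := C2_U r0 dr θ0 dθ vr u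
  have CQ := C2_Q r0 dr vr (D.rB ^ 2)
  have Cf := C2_comb Cp CU CQ Cq
  have hB2 : 0 < D.rB ^ 2 := by positivity
  refine ConvexOn.congr (Cf.semiconvex (a := lo) (b := hi) (K := K) ?_) ?_
  · intro t ht
    obtain ⟨hr1, hr2⟩ := hr t ht
    have hx' := hx t ht
    have hw' := hw t ht
    refine le_trans ?_ hK
    unfold KB
    simp only [Nat.reduceAdd, zero_add]
    clear Cf CQ CU Cq Cp Cw Cx
    set r := r0 + t * dr with hrdef
    set c := Real.cos (θ0 + t * dθ) with hc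
    set s := Real.sin (θ0 + t * dθ) with hs
    have hc1 : |c| ≤ 1 := Real.abs_cos_le_one _
    have hs1 : |s| ≤ 1 := Real.abs_sin_le_one _
    have hrb0 : 0 ≤ rb := hr1.trans hr2
    have hra : |r| ≤ rb := by rwa [abs_of_nonneg hr1]
    have ha0 : 0 ≤ a := (abs_nonneg _).trans hdr
    have he0 : 0 ≤ e := (abs_nonneg _).trans hdθ
    have h2 : |(2:ℝ)| ≤ 2 := by norm_num
    have hdθ2 : |dθ ^ 2| ≤ e ^ 2 := by
      rw [sq, sq]
      exact abs_mul_le hdθ hdθ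
    have hdr2 : |dr ^ 2| ≤ a ^ 2 := by
      rw [sq, sq]
      exact abs_mul_le hdr hdr
    -- the pieces
    have eX1 : |-(dr * c) + r * (dθ * s)| ≤ a + rb * e := by
      refine (abs_add_le' (B := rb * (e * 1)) (A := a * 1) ?_ ?_).trans (le_of_eq (by ring))
      · rw [abs_neg]
        exact abs_mul_le hdr hc1
      · exact abs_mul_le hra (abs_mul_le hdθ hs1)
    have eX2 : |2 * (dr * (dθ * s)) + r * (dθ ^ 2 * c)| ≤ 2 * a * e + rb * e ^ 2 := by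
      refine (abs_add_le' (abs_mul_le h2 (abs_mul_le hdr (abs_mul_le hdθ hs1)))
        (abs_mul_le hra (abs_mul_le hdθ2 hc1))).trans (le_of_eq (by ring))
    have hBi : |(1:ℝ) / D.rB ^ 2| ≤ 1 / D.rB ^ 2 := by
      rw [abs_of_nonneg (by positivity)]
    have eW1 : |-(2 * r * dr / D.rB ^ 2)| ≤ 2 * rb * a / D.rB ^ 2 := by
      rw [abs_neg, show 2 * r * dr / D.rB ^ 2 = 2 * (r * dr) * (1 / D.rB ^ 2) by ring]
      refine (abs_mul_le (abs_mul_le h2 (abs_mul_le hra hdr)) hBi).trans (le_of_eq (by ring))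
    have eW2 : |-(2 * dr ^ 2 / D.rB ^ 2)| ≤ 2 * a ^ 2 / D.rB ^ 2 := by
      rw [abs_neg, show 2 * dr ^ 2 / D.rB ^ 2 = 2 * dr ^ 2 * (1 / D.rB ^ 2) by ring]
      refine (abs_mul_le (abs_mul_le h2 hdr2) hBi).trans (le_of_eq (by ring))
    have eU : |-(vr * c) + u * s + r * c| ≤ rb + V := by
      have h3 : |(-vr) * c + u * s| ≤ V := abs_cs _ _ _ _ hV (by nlinarith)
      have h4 : |r * c| ≤ rb * 1 := abs_mul_le hra hc1
      have h5 : -(vr * c) + u * s + r * c = ((-vr) * c + u * s) + r * c := by ring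
      rw [h5]
      linarith [abs_add_le' h3 h4]
    have eU1 : |dr * c + (dθ * (u * c + vr * s) - r * (dθ * s))| ≤ a + (rb + V) * e := by
      have h3 : |u * c + vr * s| ≤ V := abs_cs _ _ _ _ hV (by nlinarith)
      refine (abs_add_le' (abs_mul_le hdr hc1) (abs_sub_le' (abs_mul_le hdθ h3)
        (abs_mul_le hra (abs_mul_le hdθ hs1)))).trans (le_of_eq (by ring))
    have eU2 : |-(2 * (dr * (dθ * s))) + (dθ ^ 2 * (vr * c + (-u) * s) - r * (dθ ^ 2 * c))| ≤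
        2 * a * e + (rb + V) * e ^ 2 := by
      have h3 : |vr * c + (-u) * s| ≤ V := abs_cs _ _ _ _ hV (by nlinarith)
      refine (abs_add_le' (A := 2 * (a * (e * 1))) ?_ (abs_sub_le' (abs_mul_le hdθ2 h3)
        (abs_mul_le hra (abs_mul_le hdθ2 hc1)))).trans (le_of_eq (by ring))
      rw [abs_neg]
      exact abs_mul_le h2 (abs_mul_le hdr (abs_mul_le hdθ hs1))
    have hvr : |vr| ≤ V := abs_le_of_sq_le_sq (by nlinarith [sq_nonneg u]) hV
    have eQ : |2 * r / D.rB ^ 2 * (vr - r)| ≤ 2 * rb / D.rB ^ 2 * (V + rb) := by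
      rw [show 2 * r / D.rB ^ 2 * (vr - r) = 2 * r * (1 / D.rB ^ 2) * (vr - r) by ring]
      refine (abs_mul_le (abs_mul_le (abs_mul_le h2 hra) hBi)
        (abs_sub_le' hvr hra)).trans (le_of_eq (by ring))
    have eQ1 : |2 / D.rB ^ 2 * (vr - 2 * r) * dr| ≤ 2 / D.rB ^ 2 * (V + 2 * rb) * a := by
      rw [show 2 / D.rB ^ 2 * (vr - 2 * r) * dr = 2 * (1 / D.rB ^ 2) * (vr - 2 * r) * dr by ring]
      refine (abs_mul_le (abs_mul_le (abs_mul_le h2 hBi)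
        (abs_sub_le' hvr (abs_mul_le h2 hra))) hdr).trans (le_of_eq (by ring))
    have eQ2 : |-(4 / D.rB ^ 2 * dr ^ 2)| ≤ 4 / D.rB ^ 2 * a ^ 2 := by
      have h4 : |(4:ℝ)| ≤ 4 := by norm_num
      rw [abs_neg, show 4 / D.rB ^ 2 * dr ^ 2 = 4 * (1 / D.rB ^ 2) * dr ^ 2 by ring]
      refine (abs_mul_le (abs_mul_le h4 hBi) hdr2).trans (le_of_eq (by ring))
    have hx2 : -(r * c) ∈ Icc xa xb := hx'
    exact comb_bound (hM.m10 _ hx2 _ hw')
      (bd_bound1 (hM.m20 _ hx2 _ hw') (hM.m11 _ hx2 _ hw') eX1 eW1)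
      (bd_bound2 (hM.m30 _ hx2 _ hw') (hM.m21 _ hx2 _ hw') (hM.m12 _ hx2 _ hw')
        (hM.m20 _ hx2 _ hw') (hM.m11 _ hx2 _ hw') eX1 eW1 eX2 eW2) eU eU1 eU2 eQ eQ1 eQ2
      (hM.m01 _ hx2 _ hw')
      (bd_bound1 (hM.m11 _ hx2 _ hw') (hM.m02 _ hx2 _ hw') eX1 eW1)
      (bd_bound2 (hM.m21 _ hx2 _ hw') (hM.m12 _ hx2 _ hw') (hM.m03 _ hx2 _ hw')
        (hM.m11 _ hx2 _ hw') (hM.m02 _ hx2 _ hw') eX1 eW1 eX2 eW2)
  · intro t ht
    obtain ⟨hr1, hr2⟩ := hr t ht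
    have hW : D.W (r0 + t * dr) = 1 - (r0 + t * dr) ^ 2 / D.rB ^ 2 := by
      unfold Dat.W
      have h1 : (r0 + t * dr) ^ 2 / D.rB ^ 2 ≤ 1 := by
        rw [div_le_one (by positivity)]
        have := hr2.trans hrb
        gcongr
      rw [max_eq_right (by linarith)]
    simp only
    unfold Dat.gs
    rw [hW, Dat.bx_eq, Dat.bw_eq]

/-- the strip function without its dependence on the radius -/
noncomputable def Dat.flat (D : Dat) (R : ℝ) : Dat :=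
  { D with rB := R, B2 := 0, B3 := 0, B4 := 0 }

theorem flat_bd (D : Dat) (R : ℝ) (i j : ℕ) (x w : ℝ) :
    (D.flat R).bd i j x w = if j = 0 then (derivative^[i] D.B0).eval x else 0 := by
  unfold Dat.bd Dat.flat
  have h : derivative^[i] (0 : ℝ[X]) = 0 := by
    induction i with
    | zero => rfl
    | succ n ih => rw [Function.iterate_succ_apply', ih, derivative_zero]
  simp only [h, eval_zero, mul_zero, add_zero]

theorem bd_zero (D : Dat) (i : ℕ) (x : ℝ) : D.bd i 0 x 0 = (derivative^[i] D.B0).eval x := by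
  unfold Dat.bd
  simp

theorem gs_flat (D : Dat) (R : ℝ) {r : ℝ} (hrB : 0 < D.rB) (hr : D.rB ≤ r) (vr u c s : ℝ) :
    D.gs r vr u c s = (D.flat R).gs r vr u c s := by
  have hW : D.W r = 0 := by
    unfold Dat.W
    apply max_eq_left
    rw [sub_nonpos, one_le_div (by positivity)]
    gcongr
  unfold Dat.gs
  rw [hW, Dat.bx_eq, Dat.bw_eq, Dat.bx_eq, Dat.bw_eq, flat_bd, flat_bd, bd_zero]
  have h0 : D.bd 0 1 (-(r * c)) 0 = 0 := by
    unfold Dat.bd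
    simp
  rw [h0]
  simp

/-- the constant outside the radius `rB` -/
noncomputable def KO (M10 M20 M30 V rb a e : ℝ) : ℝ :=
  (M30 * (a + rb * e) ^ 2 + M20 * (2 * a * e + rb * e ^ 2)) * (rb + V) +
    2 * (M20 * (a + rb * e) * (a + (rb + V) * e)) + M10 * (2 * a * e + (rb + V) * e ^ 2)

theorem gs_line_out {D : Dat} {xa xb M10 M20 M30 : ℝ}
    (m10 : ∀ x ∈ Icc xa xb, |D.bd 1 0 x 0| ≤ M10) (m20 : ∀ x ∈ Icc xa xb, |D.bd 2 0 x 0| ≤ M20)
    (m30 : ∀ x ∈ Icc xa xb, |D.bd 3 0 x 0| ≤ M30)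
    (hrB : 0 < D.rB) {V rb a e : ℝ} (hV : 0 ≤ V) (hrb : 0 < rb)
    {vr u : ℝ} (hv : vr ^ 2 + u ^ 2 ≤ V ^ 2) {r0 dr θ0 dθ lo hi : ℝ}
    (hdr : |dr| ≤ a) (hdθ : |dθ| ≤ e)
    (hr : ∀ t ∈ Icc lo hi, D.rB ≤ r0 + t * dr ∧ r0 + t * dr ≤ rb)
    (hx : ∀ t ∈ Icc lo hi, -((r0 + t * dr) * Real.cos (θ0 + t * dθ)) ∈ Icc xa xb)
    {K : ℝ} (hK : KO M10 M20 M30 V rb a e ≤ K) :
    ConvexOn ℝ (Icc lo hi) (fun t => D.gs (r0 + t * dr) vr u (Real.cos (θ0 + t * dθ))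
      (Real.sin (θ0 + t * dθ)) + K * t ^ 2 / 2) := by
  have hM : MB (D.flat rb) xa xb 0 1 M10 M20 M30 0 0 0 0 0 0 := by
    constructor <;> intro x hx w _ <;> rw [flat_bd]
    · have := m10 x hx
      rwa [bd_zero] at this
    · have := m20 x hx
      rwa [bd_zero] at this
    · have := m30 x hx
      rwa [bd_zero] at this
    all_goals simp
  have hR : (D.flat rb).rB = rb := rfl
  have h := gs_line (D := D.flat rb) hM (by rw [hR]; exact hrb) hV (by rw [hR]) hv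
    (lo := lo) (hi := hi) (r0 := r0) (θ0 := θ0) hdr hdθ
    (fun t ht => ⟨hrB.le.trans (hr t ht).1, (hr t ht).2⟩)
    (by
      intro t ht
      have h1 := (hr t ht).1
      have h2 := (hr t ht).2
      rw [hR]
      have h0 : 0 ≤ r0 + t * dr := hrB.le.trans h1
      constructor
      · rw [sub_nonneg, div_le_one (by positivity)]
        gcongr
      · have : 0 ≤ (r0 + t * dr) ^ 2 / rb ^ 2 := by positivity
        linarith) hx (K := K) (by
      refine le_trans (le_of_eq ?_) hK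
      unfold KB KO
      ring)
  refine h.congr ?_
  intro t ht
  simp only
  rw [gs_flat D rb hrB (hr t ht).1]

/-- semiconvexity of the strip integrand along lines in a region -/
def SemiC (D : Dat) (xa xb ra rb V : ℝ) (Kf : ℝ → ℝ → ℝ) : Prop :=
  ∀ vr u : ℝ, vr ^ 2 + u ^ 2 ≤ V ^ 2 → ∀ r0 dr θ0 dθ lo hi a e K : ℝ, |dr| ≤ a → |dθ| ≤ e →
    (∀ t ∈ Icc lo hi, ra ≤ r0 + t * dr ∧ r0 + t * dr ≤ rb) →
    (∀ t ∈ Icc lo hi, -((r0 + t * dr) * Real.cos (θ0 + t * dθ)) ∈ Icc xa xb) →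
    Kf a e ≤ K →
    ConvexOn ℝ (Icc lo hi) (fun t => D.gs (r0 + t * dr) vr u (Real.cos (θ0 + t * dθ))
      (Real.sin (θ0 + t * dθ)) + K * t ^ 2 / 2)

theorem semiC_in {D : Dat} {xa xb wa wb M10 M20 M30 M01 M11 M21 M02 M12 M03 : ℝ}
    (hM : MB D xa xb wa wb M10 M20 M30 M01 M11 M21 M02 M12 M03)
    (hrB : 0 < D.rB) {V ra rb : ℝ} (hV : 0 ≤ V) (hra : 0 ≤ ra) (hrb : rb ≤ D.rB)
    (hwa : wa ≤ 1 - rb ^ 2 / D.rB ^ 2) (hwb : 1 - ra ^ 2 / D.rB ^ 2 ≤ wb) :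
    SemiC D xa xb ra rb V (KB D.rB M10 M20 M30 M01 M11 M21 M02 M12 M03 V rb) := by
  intro vr u hv r0 dr θ0 dθ lo hi a e K hdr hdθ hr hx hK
  refine gs_line hM hrB hV hrb hv hdr hdθ (fun t ht => ⟨hra.trans (hr t ht).1, (hr t ht).2⟩)
    ?_ hx hK
  intro t ht
  obtain ⟨h1, h2⟩ := hr t ht
  have h0 : 0 ≤ r0 + t * dr := hra.trans h1
  constructor
  · refine hwa.trans ?_
    have : (r0 + t * dr) ^ 2 / D.rB ^ 2 ≤ rb ^ 2 / D.rB ^ 2 := by gcongr
    linarith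
  · refine le_trans ?_ hwb
    have : ra ^ 2 / D.rB ^ 2 ≤ (r0 + t * dr) ^ 2 / D.rB ^ 2 := by gcongr
    linarith

theorem semiC_out {D : Dat} {xa xb M10 M20 M30 : ℝ}
    (m10 : ∀ x ∈ Icc xa xb, |D.bd 1 0 x 0| ≤ M10) (m20 : ∀ x ∈ Icc xa xb, |D.bd 2 0 x 0| ≤ M20)
    (m30 : ∀ x ∈ Icc xa xb, |D.bd 3 0 x 0| ≤ M30)
    (hrB : 0 < D.rB) {V ra rb : ℝ} (hV : 0 ≤ V) (hra : D.rB ≤ ra) (hrb : 0 < rb) :
    SemiC D xa xb ra rb V (KO M10 M20 M30 V rb) := by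
  intro vr u hv r0 dr θ0 dθ lo hi a e K hdr hdθ hr hx hK
  exact gs_line_out m10 m20 m30 hrB hV hrb hv hdr hdθ
    (fun t ht => ⟨hra.trans (hr t ht).1, (hr t ht).2⟩) hx hK

/-- chord bound for a semiconvex function on the unit interval -/
theorem semi_chord {f : ℝ → ℝ} {K lam : ℝ} (hK : 0 ≤ K)
    (hf : ConvexOn ℝ (Icc (0:ℝ) 1) (fun x => f x + K * x ^ 2 / 2)) (hl : lam ∈ Icc (0:ℝ) 1)
    {M : ℝ} (h0 : f 0 ≤ M - K / 8) (h1 : f 1 ≤ M - K / 8) : f lam ≤ M := by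
  have h := chord_bound zero_lt_one hf hl
  simp only [sub_zero, div_one] at h
  have hl0 := hl.1
  have hl1 : 0 ≤ 1 - lam := by linarith [hl.2]
  have e1 : (1 - lam) * f 0 ≤ (1 - lam) * (M - K / 8) := by gcongr
  have e2 : lam * f 1 ≤ lam * (M - K / 8) := by gcongr
  have e3 : K * (lam * (1 - lam)) ≤ K * (1 / 4) := by
    apply mul_le_mul_of_nonneg_left _ hK
    nlinarith [sq_nonneg (lam - 1 / 2)]
  nlinarith

/-- the abscissa along a line -/
theorem x_line {r0 r1 T0 T1 e rb : ℝ} (hr0 : 0 ≤ r0) (hr : r0 ≤ r1) (hrb : r1 ≤ rb)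
    (hT : |T1 - T0| ≤ e) (σ : ℝ) (hσ : σ = 1 ∨ σ = -1) :
    ConvexOn ℝ (Icc (0:ℝ) 1) (fun t => σ * (lin r0 r1 t * Real.cos (lin T0 T1 t)) +
      (2 * (r1 - r0) * e + rb * e ^ 2) * t ^ 2 / 2) := by
  have C := (C2_x r0 (r1 - r0) T0 (T1 - T0)).mul (C2.const (-σ))
  have he : 0 ≤ e := (abs_nonneg _).trans hT
  have hσ1 : |-σ| ≤ 1 := by
    rcases hσ with h | h <;> rw [h] <;> norm_num
  have h := C.semiconvex (a := 0) (b := 1) (K := 2 * (r1 - r0) * e + rb * e ^ 2) (by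
    intro t ht
    have hc1 : |Real.cos (T0 + t * (T1 - T0))| ≤ 1 := Real.abs_cos_le_one _
    have hs1 : |Real.sin (T0 + t * (T1 - T0))| ≤ 1 := Real.abs_sin_le_one _
    have hdr : |r1 - r0| ≤ r1 - r0 := by rw [abs_of_nonneg (by linarith)]
    have hra : |r0 + t * (r1 - r0)| ≤ rb := by
      have h1 := ht.1
      have h2 := ht.2
      rw [abs_of_nonneg (by nlinarith)]
      nlinarith
    have hT2 : |(T1 - T0) ^ 2| ≤ e ^ 2 := by
      rw [sq, sq]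
      exact abs_mul_le hT hT
    have h2 : |(2:ℝ)| ≤ 2 := by norm_num
    have e1 : |2 * ((r1 - r0) * ((T1 - T0) * Real.sin (T0 + t * (T1 - T0)))) +
        (r0 + t * (r1 - r0)) * ((T1 - T0) ^ 2 * Real.cos (T0 + t * (T1 - T0)))| ≤
        2 * (r1 - r0) * e + rb * e ^ 2 := by
      refine (abs_add_le' (abs_mul_le h2 (abs_mul_le hdr (abs_mul_le hT hs1)))
        (abs_mul_le hra (abs_mul_le hT2 hc1))).trans (le_of_eq (by ring))
    have e2 := abs_mul_le e1 hσ1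
    rw [mul_one] at e2
    simpa using e2)
  refine h.congr ?_
  intro t _
  simp only
  have a1 : lin r0 r1 t = r0 + t * (r1 - r0) := by unfold lin; ring
  have a2 : lin T0 T1 t = T0 + t * (T1 - T0) := by unfold lin; ring
  rw [a1, a2]
  ring

theorem C2.convex {f f1 f2 : ℝ → ℝ} (hf : C2 f f1 f2) {a b : ℝ} (h : ∀ t ∈ Icc a b, 0 ≤ f2 t) :
    ConvexOn ℝ (Icc a b) f := by
  apply convexOn_of_hasDerivWithinAt2_nonneg (convex_Icc a b) (f' := f1) (f'' := f2)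
  · exact fun t _ => (hf.d1 t).continuousAt.continuousWithinAt
  · exact fun t _ => (hf.d1 t).hasDerivWithinAt
  · exact fun t _ => (hf.d2 t).hasDerivWithinAt
  · intro t ht
    exact h t (interior_subset ht)

/-- numerical conditions on the outer boundary of the strip -/
def OuterOk (D : Dat) (r0 r1 Ps0 Ps1 rb xb e : ℝ) : Prop :=
  (Real.pi ≤ Ps0 ∧ Ps0 ≤ 4 ∧ Real.pi ≤ Ps1 ∧ Ps1 ≤ 4 ∧ rb ≤ xb) ∨
  (Real.pi / 2 ≤ Ps1 ∧ Ps1 ≤ Ps0 ∧ Ps0 ≤ Real.pi ∧ r0 * Real.cos Ps0 ≤ -(1 / D.ρ) ∧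
    r1 * Real.cos Ps1 ≤ -(1 / D.ρ) ∧
    -(r0 * Real.cos Ps0) ≤ xb - (2 * (r1 - r0) * e + rb * e ^ 2) / 8 ∧
    -(r1 * Real.cos Ps1) ≤ xb - (2 * (r1 - r0) * e + rb * e ^ 2) / 8)

theorem strip_of_num {D : Dat} {xb ra rb V e K1 K2 r0 r1 Th0 Th1 Ps0 Ps1 vr vt : ℝ}
    {Kf : ℝ → ℝ → ℝ} {J : ℕ} (hS : SemiC D (-D.xL) xb ra rb V Kf) (hρ : 0 < D.ρ)
    (hxL : 0 < D.xL) (hv : vr ^ 2 + vt ^ 2 ≤ V ^ 2) (hJ : 0 < J) (h0 : 0 ≤ r0) (hr : r0 ≤ r1)
    (hra : ra ≤ r0) (hrb : r1 ≤ rb) (hTh0 : 0 ≤ Th0) (hTh : Th0 ≤ Th1) (hTh1 : Th1 < Real.pi / 2)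
    (hPs0 : Th0 ≤ Ps0) (hPs1 : Th1 ≤ Ps1)
    (hTe : Th1 - Th0 ≤ e) (hPe : |Ps1 - Ps0| ≤ e)
    (hK1 : Kf (r1 - r0) e ≤ K1) (hK1' : 0 ≤ K1) (hK2 : Kf 0 1 ≤ K2) (hK2' : 0 ≤ K2)
    (ha0 : r0 * Real.cos Th0 ≤ D.xL - (2 * (r1 - r0) * e + rb * e ^ 2) / 8)
    (ha1 : r1 * Real.cos Th1 ≤ D.xL - (2 * (r1 - r0) * e + rb * e ^ 2) / 8)
    (hP : OuterOk D r0 r1 Ps0 Ps1 rb xb e) :
    Strip D r0 r1 vr vt Th0 Th1 Ps0 Ps1 K1 K2 J := by
  have hpi := Real.pi_pos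
  have hpi3 := Real.pi_gt_three
  have hρ' : 0 < 1 / D.ρ := by positivity
  have l0 : ∀ a b : ℝ, lin a b 0 = a := fun a b => by unfold lin; ring
  have l1 : ∀ a b : ℝ, lin a b 1 = b := fun a b => by unfold lin; ring
  have hl : ∀ a b t : ℝ, lin a b t = a + t * (b - a) := fun a b t => by unfold lin; ring
  have hTe' : |Th1 - Th0| ≤ e := by rwa [abs_of_nonneg (by linarith)]
  have he : 0 ≤ e := (abs_nonneg _).trans hTe'
  have hrb0 : 0 ≤ rb := h0.trans (hr.trans hrb)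
  have hX2 : 0 ≤ 2 * (r1 - r0) * e + rb * e ^ 2 := by
    have : 0 ≤ r1 - r0 := by linarith
    positivity
  -- the inner boundary
  have hA : ∀ lam ∈ Icc (0:ℝ) 1, lin r0 r1 lam * Real.cos (lin Th0 Th1 lam) ≤ D.xL := by
    intro lam hlam
    have h := semi_chord (M := D.xL) hX2 (x_line h0 hr hrb hTe' 1 (Or.inl rfl)) hlam
      (by simp only [l0, one_mul]; exact ha0) (by simp only [l1, one_mul]; exact ha1)
    simpa using h
  -- the outer boundary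
  have hB : ∀ lam ∈ Icc (0:ℝ) 1, Real.pi ≤ lin Ps0 Ps1 lam ∨
      lin r0 r1 lam * Real.cos (lin Ps0 Ps1 lam) ≤ -(1 / D.ρ) := by
    intro lam hlam
    rcases hP with ⟨p1, _, p3, _, _⟩ | ⟨p1, p2, p3, p4, p5, _, _⟩
    · left
      have h := lin_mono p1 p3 hlam
      have e1 : lin Real.pi Real.pi lam = Real.pi := by unfold lin; ring
      rwa [e1] at h
    · right
      have C := (C2_x r0 (r1 - r0) Ps0 (Ps1 - Ps0)).neg
      have hcv := C.convex (a := 0) (b := 1) (by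
        intro t ht
        have ht1 := ht.1
        have ht2 := ht.2
        have e1 : Ps0 + t * (Ps1 - Ps0) ≤ Real.pi := by nlinarith
        have e2 : Real.pi / 2 ≤ Ps0 + t * (Ps1 - Ps0) := by nlinarith
        have hs : 0 ≤ Real.sin (Ps0 + t * (Ps1 - Ps0)) :=
          Real.sin_nonneg_of_nonneg_of_le_pi (by linarith) e1
        have hc : Real.cos (Ps0 + t * (Ps1 - Ps0)) ≤ 0 :=
          Real.cos_nonpos_of_pi_div_two_le_of_le e2 (by linarith)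
        have hd : Ps1 - Ps0 ≤ 0 := by linarith
        have hrr : 0 ≤ r1 - r0 := by linarith
        have hrt : 0 ≤ r0 + t * (r1 - r0) := by positivity
        have f1 : (r1 - r0) * ((Ps1 - Ps0) * Real.sin (Ps0 + t * (Ps1 - Ps0))) ≤ 0 :=
          mul_nonpos_of_nonneg_of_nonpos hrr (mul_nonpos_of_nonpos_of_nonneg hd hs)
        have f2 : (r0 + t * (r1 - r0)) * ((Ps1 - Ps0) ^ 2 * Real.cos (Ps0 + t * (Ps1 - Ps0))) ≤
            0 := mul_nonpos_of_nonneg_of_nonpos hrt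
              (mul_nonpos_of_nonneg_of_nonpos (sq_nonneg _) hc)
        linarith)
      have h := chord_bound zero_lt_one hcv hlam
      simp only [zero_mul, add_zero, one_mul, sub_zero, div_one, add_sub_cancel, neg_neg] at h
      rw [hl, hl]
      have hlam0 := hlam.1
      have hlam1 : 0 ≤ 1 - lam := by linarith [hlam.2]
      have g1 : (1 - lam) * (r0 * Real.cos Ps0) ≤ (1 - lam) * (-(1 / D.ρ)) := by gcongr
      have g2 : lam * (r1 * Real.cos Ps1) ≤ lam * (-(1 / D.ρ)) := by gcongr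
      linarith
  -- range of the abscissa
  have hX : ∀ lam ∈ Icc (0:ℝ) 1, ∀ θ ∈ Icc (lin Th0 Th1 lam) (lin Ps0 Ps1 lam),
      -(lin r0 r1 lam * Real.cos θ) ∈ Icc (-D.xL) xb := by
    intro lam hlam θ hθ
    have hr' : 0 ≤ lin r0 r1 lam := lin_nonneg h0 (h0.trans hr) hlam
    have hr2 : lin r0 r1 lam ≤ rb := lin_le (hr.trans hrb) hrb hlam
    have hT0 : 0 ≤ lin Th0 Th1 lam := lin_nonneg hTh0 (hTh0.trans hTh) hlam
    have hθ0 : 0 ≤ θ := hT0.trans hθ.1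
    have lower : θ ≤ 4 → -D.xL ≤ -(lin r0 r1 lam * Real.cos θ) := by
      intro h4
      rcases le_total θ Real.pi with hp | hp
      · have hcos : Real.cos θ ≤ Real.cos (lin Th0 Th1 lam) :=
          Real.cos_le_cos_of_nonneg_of_le_pi hT0 hp hθ.1
        have := hA lam hlam
        have h3 : lin r0 r1 lam * Real.cos θ ≤ lin r0 r1 lam * Real.cos (lin Th0 Th1 lam) := by
          gcongr
        linarith
      · have hcos : Real.cos θ ≤ 0 :=
          Real.cos_nonpos_of_pi_div_two_le_of_le (by linarith) (by linarith)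
        have := mul_nonpos_of_nonneg_of_nonpos hr' hcos
        linarith
    rcases hP with ⟨p1, p2, p3, p4, p5⟩ | ⟨p1, p2, p3, p4, p5, p6, p7⟩
    · have hθ4 : θ ≤ 4 := hθ.2.trans (lin_le p2 p4 hlam)
      refine ⟨lower hθ4, ?_⟩
      have h1 := Real.neg_one_le_cos θ
      nlinarith
    · have hps : lin Ps0 Ps1 lam ≤ Real.pi := lin_le p3 (p2.trans p3) hlam
      have hθ4 : θ ≤ 4 := (hθ.2.trans hps).trans (by linarith [Real.pi_lt_four])
      refine ⟨lower hθ4, ?_⟩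
      have hcos : Real.cos (lin Ps0 Ps1 lam) ≤ Real.cos θ :=
        Real.cos_le_cos_of_nonneg_of_le_pi hθ0 hps hθ.2
      have h3 : lin r0 r1 lam * Real.cos (lin Ps0 Ps1 lam) ≤ lin r0 r1 lam * Real.cos θ := by
        gcongr
      have h := semi_chord (M := xb) hX2 (x_line h0 hr hrb hPe (-1) (Or.inr rfl)) hlam
        (by simp only [l0]; linarith) (by simp only [l1]; linarith)
      linarith
  have hw2 : ∀ w, (w = vt ∨ w = -vt) → vr ^ 2 + w ^ 2 ≤ V ^ 2 := by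
    intro w hw
    rcases hw with rfl | rfl
    · exact hv
    · rwa [neg_sq]
  have hJ' : (0:ℝ) < J := by exact_mod_cast hJ
  refine ⟨hJ, h0, hr, hTh0, hTh, hTh1, hPs0, hPs1, hK1', hK2', hA, hB, ?_, ?_⟩
  · intro w hw j hj
    have hj' : (j:ℝ) ≤ J := by exact_mod_cast hj
    have hj0 : (0:ℝ) ≤ j := Nat.cast_nonneg j
    set κ : ℝ := j / J with hκ
    have hκ0 : 0 ≤ κ := by positivity
    have hκ1 : κ ≤ 1 := by rwa [hκ, div_le_one hJ']
    have hnd : ∀ a b : ℝ, nd a b J j = (1 - κ) * a + κ * b := by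
      intro a b
      unfold nd
      rw [hκ]
      field_simp
      ring
    have hdθ : |nd Th1 Ps1 J j - nd Th0 Ps0 J j| ≤ e := by
      rw [hnd, hnd]
      have e1 : (1 - κ) * Th1 + κ * Ps1 - ((1 - κ) * Th0 + κ * Ps0) =
          (1 - κ) * (Th1 - Th0) + κ * (Ps1 - Ps0) := by ring
      rw [e1]
      have a1 : |(1 - κ) * (Th1 - Th0)| ≤ (1 - κ) * e :=
        abs_mul_le (by rw [abs_of_nonneg (by linarith)]) hTe'
      have a2 : |κ * (Ps1 - Ps0)| ≤ κ * e := abs_mul_le (by rw [abs_of_nonneg hκ0]) hPe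
      exact (abs_add_le' a1 a2).trans (le_of_eq (by ring))
    have hdr : |r1 - r0| ≤ r1 - r0 := by rw [abs_of_nonneg (by linarith)]
    have hline : ∀ t : ℝ, nd (lin Th0 Th1 t) (lin Ps0 Ps1 t) J j =
        nd Th0 Ps0 J j + t * (nd Th1 Ps1 J j - nd Th0 Ps0 J j) := by
      intro t
      rw [hnd, hnd, hnd, hl, hl]
      ring
    have h := hS vr w (hw2 w hw) r0 (r1 - r0) (nd Th0 Ps0 J j)
      (nd Th1 Ps1 J j - nd Th0 Ps0 J j) 0 1 (r1 - r0) e K1 hdr hdθ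
      (by
        intro t ht
        have h1 := ht.1
        have h2 := ht.2
        constructor <;> nlinarith)
      (by
        intro t ht
        rw [← hl, ← hline]
        apply hX t ht
        have hTP : lin Th0 Th1 t ≤ lin Ps0 Ps1 t := lin_mono hPs0 hPs1 ht
        rw [hnd]
        constructor <;> nlinarith) hK1
    refine h.congr ?_
    intro t _
    simp only
    unfold gn
    rw [hline, hl]
  · intro w hw lam hlam
    have hr' : 0 ≤ lin r0 r1 lam := lin_nonneg h0 (h0.trans hr) hlam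
    have hr2 : lin r0 r1 lam ≤ rb := lin_le (hr.trans hrb) hrb hlam
    have hr3 : ra ≤ lin r0 r1 lam := by
      rw [hl]
      have h1 := hlam.1
      nlinarith
    have h := hS vr w (hw2 w hw) (lin r0 r1 lam) 0 0 1 (lin Th0 Th1 lam) (lin Ps0 Ps1 lam) 0 1 K2
      (by simp) (by simp) (by
        intro t _
        rw [mul_zero, add_zero]
        exact ⟨hr3, hr2⟩)
      (by
        intro t ht
        rw [mul_zero, add_zero, zero_add, mul_one]
        exact hX lam hlam t ht) hK2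
    refine h.congr ?_
    intro t _
    simp only [mul_zero, add_zero, zero_add, mul_one]

end Pool.Agent.H44.Shore
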