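import Mathlib
import Pool.Agent.H44.Shore.Kb

/-!
Shoreline search: the sliver between the mesh line and the interface.
-/

open MeasureTheory Set Filter Topology Polynomial
open scoped Interval ENNReal

namespace Pool.Agent.H44.Shore

/-- conditions on the strip function near the interface `x = -xL` -/
structure Sliv (D : Dat) (V eps s0 : ℝ) : Prop where
  heps : eps < D.xL
  hs0 : 0 ≤ s0
  lo : ∀ x ∈ Icc (-D.xL) (-D.xL + eps), ∀ w ∈ Icc (0:ℝ) 1, 1 / x + s0 ≤ D.bx x w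
  hi : ∀ x ∈ Icc (-D.xL) (-D.xL + eps), ∀ w ∈ Icc (0:ℝ) 1, D.bx x w ≤ 0
  q1 : ∀ x ∈ Icc (-D.xL) (-D.xL + eps), ∀ w ∈ Icc (0:ℝ) 1,
    2 * (V + D.rB) / D.rB * |D.bw x w| ≤ s0 * (D.xL - eps)
  q2 : ∀ x ∈ Icc (-D.xL) (-D.xL + eps), ∀ w ∈ Icc (0:ℝ) 1,
    2 * (V + D.rB) / D.rB * |D.bw x w| ≤ 1

theorem bw_zero (D : Dat) (x : ℝ) : D.bw x 0 = 0 := by
  unfold Dat.bw
  ring

theorem sliver {D : Dat} {V eps s0 : ℝ} (hS : Sliv D V eps s0) (hrB : 0 < D.rB) (hV : 0 ≤ V)
    {r θ vr u : ℝ} (hr : 0 < r) (h1 : D.xL - eps ≤ r * Real.cos θ) (h2 : r * Real.cos θ ≤ D.xL)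
    (hv : vr ^ 2 + u ^ 2 ≤ V ^ 2) :
    max 0 (D.gs r vr u (Real.cos θ) (Real.sin θ)) ≤
      max 0 ((-vr + u * Real.tan θ) / r) := by
  have heps := hS.heps
  set c := Real.cos θ with hc
  set s := Real.sin θ with hs
  have hy : 0 < r * c := by linarith
  have hc0 : 0 < c := by
    by_contra hcon
    have := mul_nonpos_of_nonneg_of_nonpos hr.le (not_lt.mp hcon)
    linarith
  set y := r * c with hydef
  have hxm : -y ∈ Icc (-D.xL) (-D.xL + eps) := ⟨by linarith, by linarith⟩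
  have hwm : D.W r ∈ Icc (0:ℝ) 1 := ⟨Dat.W_nonneg _, Dat.W_le_one _⟩
  have a1 := hS.lo _ hxm _ hwm
  have a2 := hS.hi _ hxm _ hwm
  have a3 := hS.q1 _ hxm _ hwm
  have a4 := hS.q2 _ hxm _ hwm
  have hs0 := hS.hs0
  have hvr : |vr| ≤ V := abs_le_of_sq_le_sq (by nlinarith [sq_nonneg u]) hV
  have hQ : |2 * r / D.rB ^ 2 * (vr - r) * D.bw (-y) (D.W r)| ≤
      2 * (V + D.rB) / D.rB * |D.bw (-y) (D.W r)| := by
    rcases le_or_gt r D.rB with h | h
    · rw [abs_mul]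
      apply mul_le_mul_of_nonneg_right _ (abs_nonneg _)
      rw [abs_mul, abs_of_nonneg (by positivity : 0 ≤ 2 * r / D.rB ^ 2)]
      have e1 : |vr - r| ≤ V + D.rB := by
        refine (abs_sub_le' hvr (le_of_eq (abs_of_pos hr))).trans ?_
        linarith
      have e2 : 2 * r / D.rB ^ 2 ≤ 2 * D.rB / D.rB ^ 2 := by gcongr
      have e3 : 2 * D.rB / D.rB ^ 2 * (V + D.rB) = 2 * (V + D.rB) / D.rB := by
        field_simp
      rw [← e3]
      exact mul_le_mul e2 e1 (abs_nonneg _) (by positivity)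
    · have hW : D.W r = 0 := by
        unfold Dat.W
        apply max_eq_left
        rw [sub_nonpos, one_le_div (by positivity)]
        have := h.le
        gcongr
      rw [hW, bw_zero]
      simp
  set Vx := -(vr * c) + u * s with hVx
  have hgs : D.gs r vr u c s = -1 - D.bx (-y) (D.W r) * (Vx + y) +
      2 * r / D.rB ^ 2 * (vr - r) * D.bw (-y) (D.W r) := by
    unfold Dat.gs
    rw [hVx, hydef]
  have hgL : (-vr + u * Real.tan θ) / r = Vx / y := by
    rw [Real.tan_eq_sin_div_cos, ← hc, ← hs, hVx, hydef]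
    field_simp
  rw [hgs, hgL]
  set bxv := D.bx (-y) (D.W r)
  set T := 2 * r / D.rB ^ 2 * (vr - r) * D.bw (-y) (D.W r) with hT
  have hT1 : T ≤ s0 * (D.xL - eps) := (le_abs_self _).trans (hQ.trans a3)
  have hT2 : T ≤ 1 := (le_abs_self _).trans (hQ.trans a4)
  have hlo : -(1 / y) + s0 ≤ bxv := by
    have e1 : (1:ℝ) / -y = -(1 / y) := by
      rw [div_neg]
    rw [e1] at a1
    exact a1
  have hsy : s0 * (D.xL - eps) ≤ s0 * y := by gcongr
  rcases le_or_gt 0 Vx with hpos | hneg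
  · apply max_le_max le_rfl
    have e1 : (-(1 / y) + s0) * (Vx + y) ≤ bxv * (Vx + y) := by
      apply mul_le_mul_of_nonneg_right hlo
      linarith
    have e2 : (-(1 / y) + s0) * (Vx + y) = -(Vx / y) - 1 + s0 * (Vx + y) := by
      field_simp
      ring
    have e3 : s0 * y ≤ s0 * (Vx + y) := by
      apply mul_le_mul_of_nonneg_left _ hs0
      linarith
    linarith
  · have h0 : -1 - bxv * (Vx + y) + T ≤ 0 := by
      rcases le_or_gt 0 (Vx + y) with h3 | h3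
      · have e1 : (-(1 / y) + s0) * (Vx + y) ≤ bxv * (Vx + y) :=
          mul_le_mul_of_nonneg_right hlo h3
        have e2 : 0 ≤ 1 / y - s0 := by linarith
        have e3 : (1 / y - s0) * (Vx + y) ≤ (1 / y - s0) * y := by
          apply mul_le_mul_of_nonneg_left _ e2
          linarith
        have e4 : (1 / y - s0) * y = 1 - s0 * y := by
          field_simp
        nlinarith
      · have e1 : 0 ≤ bxv * (Vx + y) := mul_nonneg_of_nonpos_of_nonpos a2 h3.le
        linarith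
    rw [max_eq_left h0]
    exact le_max_left _ _

/-- the sliver hypothesis of `row_pair`, without loss -/
theorem hf_of_num {D : Dat} {V eps s0 : ℝ} (hS : Sliv D V eps s0) (hrB : 0 < D.rB) (hV : 0 ≤ V)
    {r0 r1 Th0 Th1 vr vt : ℝ} (h0 : 0 < r0) (hr : r0 ≤ r1) (hTh0 : 0 ≤ Th0) (hTh : Th0 ≤ Th1)
    (hTh1 : Th1 < Real.pi / 2) (hv : vr ^ 2 + vt ^ 2 ≤ V ^ 2)
    (e0 : D.xL - eps ≤ r0 * Real.cos Th0) (e1 : D.xL - eps ≤ r1 * Real.cos Th1) :
    ∀ lam ∈ Icc (0:ℝ) 1, ∀ w, (w = vt ∨ w = -vt) → ∀ θ ∈ Icc 0 (lin Th0 Th1 lam),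
      lin r0 r1 lam * Real.cos θ ≤ D.xL →
      max 0 (D.gs (lin r0 r1 lam) vr w (Real.cos θ) (Real.sin θ)) ≤
        max 0 ((-vr + w * Real.tan θ) / lin r0 r1 lam) + 0 := by
  intro lam hlam w hw θ hθ hle
  rw [add_zero]
  have hlam0 := hlam.1
  have hlam1 : 0 ≤ 1 - lam := by linarith [hlam.2]
  have hl : ∀ a b t : ℝ, lin a b t = a + t * (b - a) := fun a b t => by unfold lin; ring
  have hrp : 0 < lin r0 r1 lam := by
    rw [hl]
    nlinarith
  -- concavity of `r cos Th`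
  have C := C2_x r0 (r1 - r0) Th0 (Th1 - Th0)
  have hcv := C.convex (a := 0) (b := 1) (by
    intro t ht
    have ht1 := ht.1
    have ht2 := ht.2
    have f1 : 0 ≤ Th0 + t * (Th1 - Th0) := by nlinarith
    have f2 : Th0 + t * (Th1 - Th0) < Real.pi / 2 := by nlinarith
    have hs : 0 ≤ Real.sin (Th0 + t * (Th1 - Th0)) :=
      Real.sin_nonneg_of_nonneg_of_le_pi f1 (by linarith [Real.pi_pos])
    have hc : 0 ≤ Real.cos (Th0 + t * (Th1 - Th0)) :=
      Real.cos_nonneg_of_mem_Icc ⟨by linarith [Real.pi_pos], f2.le⟩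
    have g1 : 0 ≤ Th1 - Th0 := by linarith
    have g2 : 0 ≤ r1 - r0 := by linarith
    have g3 : 0 ≤ r0 + t * (r1 - r0) := by positivity
    positivity)
  have h := chord_bound zero_lt_one hcv hlam
  simp only [zero_mul, add_zero, one_mul, sub_zero, div_one, add_sub_cancel] at h
  have k1 : D.xL - eps ≤ lin r0 r1 lam * Real.cos (lin Th0 Th1 lam) := by
    rw [hl, hl]
    have g1 : (1 - lam) * (D.xL - eps) ≤ (1 - lam) * (r0 * Real.cos Th0) := by gcongr
    have g2 : lam * (D.xL - eps) ≤ lam * (r1 * Real.cos Th1) := by gcongr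
    linarith
  have hT1 : lin Th0 Th1 lam < Real.pi / 2 := lin_lt (by linarith) hTh1 hlam
  have hcos : Real.cos (lin Th0 Th1 lam) ≤ Real.cos θ :=
    Real.cos_le_cos_of_nonneg_of_le_pi hθ.1 (by linarith [Real.pi_pos]) hθ.2
  have k2 : lin r0 r1 lam * Real.cos (lin Th0 Th1 lam) ≤ lin r0 r1 lam * Real.cos θ := by
    gcongr
  apply sliver hS hrB hV hrp (k1.trans k2) hle
  rcases hw with rfl | rfl
  · exact hv
  · rwa [neg_sq]

end Pool.Agent.H44.Shore
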