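import Mathlib
import Pool.Agent.H44.Shore.Sliver

/-!
Shoreline search: pair of rows with a fixed grid of angles.
-/

open MeasureTheory Set Filter Topology Polynomial
open scoped Interval ENNReal

namespace Pool.Agent.H44.Shore

theorem strip_cut (D : Dat) {r vr w Th Ps : ℝ} (hr : 0 ≤ r)
    (h0 : 0 ≤ Th) (hTh : Th ≤ Real.pi) (hPs : Th ≤ Ps)
    (ha : r * Real.cos Th ≤ D.xL) (hρ : 0 < D.ρ) (hxL : 0 < D.xL)
    (hb : Real.pi ≤ Ps ∨ r * Real.cos Ps ≤ -(1 / D.ρ)) :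
    ∫ θ in Th..Real.pi, max 0 (D.g r vr w θ) ≤
      ∫ θ in Th..Ps, max 0 (D.gs r vr w (Real.cos θ) (Real.sin θ)) := by
  have hcont : Continuous (fun θ => D.gs r vr w (Real.cos θ) (Real.sin θ)) :=
    (Dat.gs_continuous D r vr w).comp (Real.continuous_cos.prodMk Real.continuous_sin)
  have hxρ : 0 < 1 / D.ρ := by positivity
  have hg : ∀ θ ∈ Icc Th Real.pi, max 0 (D.g r vr w θ) ≤
      max 0 (D.gs r vr w (Real.cos θ) (Real.sin θ)) := by
    intro θ hθ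
    have hcos : Real.cos θ ≤ Real.cos Th := Real.cos_le_cos_of_nonneg_of_le_pi h0 hθ.2 hθ.1
    have h3 : r * Real.cos θ ≤ r * Real.cos Th := by gcongr
    unfold Dat.g
    rw [if_neg (by linarith)]
    split_ifs with h4
    · exact le_rfl
    · rw [max_eq_left (by norm_num : (-1:ℝ) ≤ 0)]
      exact le_max_left _ _
  have hcont' : Continuous (fun θ => max 0 (D.gs r vr w (Real.cos θ) (Real.sin θ))) :=
    continuous_const.max hcont
  have hgint : ∀ a b : ℝ, Th ≤ a → a ≤ b → b ≤ Real.pi →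
      IntervalIntegrable (fun θ => max 0 (D.g r vr w θ)) volume a b := by
    intro a b h2 h3 h4
    rw [intervalIntegrable_iff_integrableOn_Icc_of_le h3]
    apply Integrable.mono' (hcont'.integrableOn_Icc)
    · exact (measurable_const.max (Dat.g_measurable D r vr w)).aestronglyMeasurable
    · apply ae_restrict_of_forall_mem measurableSet_Icc
      intro θ hθ
      rw [Real.norm_eq_abs, abs_of_nonneg (le_max_left _ _)]
      exact hg θ ⟨h2.trans hθ.1, hθ.2.trans h4⟩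
  rcases le_or_gt Real.pi Ps with hPs2 | hPs2
  · have h2 : ∫ θ in Th..Real.pi, max 0 (D.g r vr w θ) ≤
        ∫ θ in Th..Real.pi, max 0 (D.gs r vr w (Real.cos θ) (Real.sin θ)) :=
      intervalIntegral.integral_mono_on hTh (hgint _ _ le_rfl hTh le_rfl)
        (hcont'.intervalIntegrable _ _) hg
    have h3 := intervalIntegral.integral_add_adjacent_intervals
      (hcont'.intervalIntegrable (μ := volume) Th Real.pi)
      (hcont'.intervalIntegrable (μ := volume) Real.pi Ps)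
    have h4 : 0 ≤ ∫ θ in Real.pi..Ps, max 0 (D.gs r vr w (Real.cos θ) (Real.sin θ)) :=
      intervalIntegral.integral_nonneg hPs2 (fun θ _ => le_max_left _ _)
    linarith
  · have hb' : r * Real.cos Ps ≤ -(1 / D.ρ) := by
      rcases hb with h | h
      · linarith
      · exact h
    have hg0 : ∀ θ ∈ Icc Ps Real.pi, max 0 (D.g r vr w θ) = 0 := by
      intro θ hθ
      have hcos : Real.cos θ ≤ Real.cos Ps :=
        Real.cos_le_cos_of_nonneg_of_le_pi (by linarith) hθ.2 hθ.1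
      have h3 : r * Real.cos θ ≤ r * Real.cos Ps := by gcongr
      unfold Dat.g
      rw [if_neg (by linarith), if_neg (by linarith)]
      exact max_eq_left (by norm_num)
    have h2 : ∫ θ in Th..Ps, max 0 (D.g r vr w θ) ≤
        ∫ θ in Th..Ps, max 0 (D.gs r vr w (Real.cos θ) (Real.sin θ)) :=
      intervalIntegral.integral_mono_on hPs (hgint _ _ le_rfl hPs hPs2.le)
        (hcont'.intervalIntegrable _ _) (fun θ hθ => hg θ ⟨hθ.1, hθ.2.trans hPs2.le⟩)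
    have h3 := intervalIntegral.integral_add_adjacent_intervals
      (hgint Th Ps le_rfl hPs hPs2.le) (hgint Ps Real.pi hPs hPs2.le le_rfl)
    have h4 : ∫ θ in Ps..Real.pi, max 0 (D.g r vr w θ) = ∫ θ in Ps..Real.pi, (0:ℝ) := by
      apply intervalIntegral.integral_congr
      intro θ hθ
      rw [uIcc_of_le hPs2.le] at hθ
      exact hg0 θ hθ
    rw [intervalIntegral.integral_zero] at h4
    linarith

/-- outer boundary condition from the two rows -/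
theorem hb_of_num {D : Dat} {r0 r1 Ps0 Ps1 : ℝ} (h0 : 0 ≤ r0) (hr : r0 ≤ r1)
    (hP : (Real.pi ≤ Ps0 ∧ Real.pi ≤ Ps1) ∨
      (Real.pi / 2 ≤ Ps1 ∧ Ps1 ≤ Ps0 ∧ Ps0 ≤ Real.pi ∧ r0 * Real.cos Ps0 ≤ -(1 / D.ρ) ∧
        r1 * Real.cos Ps1 ≤ -(1 / D.ρ))) :
    ∀ lam ∈ Icc (0:ℝ) 1, Real.pi ≤ lin Ps0 Ps1 lam ∨
      lin r0 r1 lam * Real.cos (lin Ps0 Ps1 lam) ≤ -(1 / D.ρ) := by
  have hpi := Real.pi_pos
  have hl : ∀ a b t : ℝ, lin a b t = a + t * (b - a) := fun a b t => by unfold lin; ring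
  intro lam hlam
  rcases hP with ⟨p1, p3⟩ | ⟨p1, p2, p3, p4, p5⟩
  · left
    have h := lin_mono p1 p3 hlam
    have e1 : lin Real.pi Real.pi lam = Real.pi := by unfold lin; ring
    rwa [e1] at h
  · right
    have C := (C2_x r0 (r1 - r0) Ps0 (Ps1 - Ps0)).neg
    have hcv := C.convex (a := 0) (b := 1) (by
      intro t ht
      have ht1 := ht.1
      have ht2 := ht.2
      have e1 : Ps0 + t * (Ps1 - Ps0) ≤ Real.pi := by nlinarith
      have e2 : Real.pi / 2 ≤ Ps0 + t * (Ps1 - Ps0) := by nlinarith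
      have hs : 0 ≤ Real.sin (Ps0 + t * (Ps1 - Ps0)) :=
        Real.sin_nonneg_of_nonneg_of_le_pi (by linarith) e1
      have hc : Real.cos (Ps0 + t * (Ps1 - Ps0)) ≤ 0 :=
        Real.cos_nonpos_of_pi_div_two_le_of_le e2 (by linarith)
      have hd : Ps1 - Ps0 ≤ 0 := by linarith
      have hrr : 0 ≤ r1 - r0 := by linarith
      have hrt : 0 ≤ r0 + t * (r1 - r0) := by positivity
      have f1 : (r1 - r0) * ((Ps1 - Ps0) * Real.sin (Ps0 + t * (Ps1 - Ps0))) ≤ 0 :=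
        mul_nonpos_of_nonneg_of_nonpos hrr (mul_nonpos_of_nonpos_of_nonneg hd hs)
      have f2 : (r0 + t * (r1 - r0)) * ((Ps1 - Ps0) ^ 2 * Real.cos (Ps0 + t * (Ps1 - Ps0))) ≤
          0 := mul_nonpos_of_nonneg_of_nonpos hrt
            (mul_nonpos_of_nonneg_of_nonpos (sq_nonneg _) hc)
      linarith)
    have h := chord_bound zero_lt_one hcv hlam
    simp only [zero_mul, add_zero, one_mul, sub_zero, div_one, add_sub_cancel, neg_neg] at h
    rw [hl, hl]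
    have hlam0 := hlam.1
    have hlam1 : 0 ≤ 1 - lam := by linarith [hlam.2]
    have g1 : (1 - lam) * (r0 * Real.cos Ps0) ≤ (1 - lam) * (-(1 / D.ρ)) := by gcongr
    have g2 : lam * (r1 * Real.cos Ps1) ≤ lam * (-(1 / D.ρ)) := by gcongr
    linarith

/-- interpolation bound for the positive part of a semiconvex function -/
theorem semi2 {f : ℝ → ℝ} {S : Set ℝ} {K x y μ : ℝ} (hK : 0 ≤ K)
    (hf : ConvexOn ℝ S (fun x => f x + K * x ^ 2 / 2)) (hx : x ∈ S) (hy : y ∈ S)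
    (h0 : 0 ≤ μ) (h1 : μ ≤ 1) :
    max 0 (f ((1 - μ) * x + μ * y)) ≤ (1 - μ) * max 0 (f x) + μ * max 0 (f y) +
      K * (y - x) ^ 2 / 8 := by
  have h1' : 0 ≤ 1 - μ := by linarith
  have h := hf.2 hx hy h1' h0 (by ring)
  simp only [smul_eq_mul] at h
  have a1 := le_max_right 0 (f x)
  have a2 := le_max_right 0 (f y)
  have b1 := le_max_left 0 (f x)
  have b2 := le_max_left 0 (f y)
  apply max_le
  · positivity
  · have e1 : (1 - μ) * f x ≤ (1 - μ) * max 0 (f x) := by gcongr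
    have e2 : μ * f y ≤ μ * max 0 (f y) := by gcongr
    have e3 : K * (y - x) ^ 2 * (μ * (1 - μ)) ≤ K * (y - x) ^ 2 * (1 / 4) := by
      apply mul_le_mul_of_nonneg_left _ (by positivity)
      nlinarith [sq_nonneg (μ - 1 / 2)]
    nlinarith

theorem cell_int {F : ℝ → ℝ} {x δ A B c w : ℝ} (hδ : 0 < δ) (hw0 : 0 ≤ w)
    (hF : IntervalIntegrable F volume x (x + w))
    (h : ∀ θ ∈ Icc x (x + w), F θ ≤ A + (B - A) * ((θ - x) / δ) + c) :
    ∫ θ in x..(x + w), F θ ≤ (w - w ^ 2 / (2 * δ)) * A + w ^ 2 / (2 * δ) * B + c * w := by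
  have h1 : ∫ θ in x..(x + w), F θ ≤
      ∫ θ in x..(x + w), (A + (B - A) * ((θ - x) / δ) + c) := by
    apply intervalIntegral.integral_mono_on (by linarith) hF
    · apply Continuous.intervalIntegrable
      fun_prop
    · exact h
  refine h1.trans (le_of_eq ?_)
  have hder : ∀ θ ∈ uIcc x (x + w), HasDerivAt
      (fun θ => A * θ + (B - A) * ((θ - x) ^ 2 / 2 / δ) + c * θ)
      (A + (B - A) * ((θ - x) / δ) + c) θ := by
    intro θ _
    have e1 : HasDerivAt (fun θ : ℝ => θ - x) 1 θ := (hasDerivAt_id θ).sub_const x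
    have e2 := (((hasDerivAt_id θ).const_mul A).add
      ((((e1.pow 2).div_const 2).div_const δ).const_mul (B - A))).add
      ((hasDerivAt_id θ).const_mul c)
    refine e2.congr_deriv ?_
    push_cast
    ring
  rw [intervalIntegral.integral_eq_sub_of_hasDerivAt hder
    (by apply Continuous.intervalIntegrable; fun_prop)]
  field_simp
  ring

/-- trapezoidal sum over the cells `a, ..., b - 1` and a part of width `w` of the cell `b` -/
noncomputable def TT (A : ℕ → ℝ) (δ : ℝ) (a b : ℕ) (w : ℝ) : ℝ :=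
  δ * (∑ j ∈ Finset.Icc a b, A j - (A a + A b) / 2) +
    ((w - w ^ 2 / (2 * δ)) * A b + w ^ 2 / (2 * δ) * A (b + 1))

theorem grid_int {F : ℝ → ℝ} (hF : Continuous F) {δ c w : ℝ} {A : ℕ → ℝ} {a b : ℕ}
    (hδ : 0 < δ) (hab : a ≤ b) (hw0 : 0 ≤ w) (hw1 : w ≤ δ)
    (h : ∀ j, a ≤ j → j ≤ b → ∀ θ ∈ Icc ((j:ℝ) * δ) (((j:ℝ) + 1) * δ),
      F θ ≤ A j + (A (j + 1) - A j) * ((θ - j * δ) / δ) + c) :
    ∫ θ in ((a:ℝ) * δ)..((b:ℝ) * δ + w), F θ ≤ TT A δ a b w + c * ((b:ℝ) * δ + w - a * δ) := by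
  have full : ∀ n : ℕ, a ≤ n → n ≤ b → ∫ θ in ((a:ℝ) * δ)..((n:ℝ) * δ), F θ ≤
      δ * (∑ j ∈ Finset.Icc a n, A j - (A a + A n) / 2) + c * ((n:ℝ) * δ - a * δ) := by
    intro n han
    induction n, han using Nat.le_induction with
    | base =>
      intro _
      simp
    | succ n han ih =>
      intro hn
      have h1 := ih (by omega)
      have h2 := cell_int (F := F) (x := n * δ) (A := A n) (B := A (n + 1)) (c := c) hδ hδ.le
        (hF.intervalIntegrable _ _) (by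
          intro θ hθ
          have e : (n:ℝ) * δ + δ = (n + 1) * δ := by ring
          rw [e] at hθ
          exact h n han (by omega) θ hθ)
      have e : (n:ℝ) * δ + δ = ((n + 1 : ℕ) : ℝ) * δ := by push_cast; ring
      rw [e] at h2
      rw [← intervalIntegral.integral_add_adjacent_intervals
        (hF.intervalIntegrable _ ((n:ℝ) * δ)) (hF.intervalIntegrable _ _)]
      have hs : Finset.Icc a (n + 1) = insert (n + 1) (Finset.Icc a n) := by
        ext x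
        simp only [Finset.mem_Icc, Finset.mem_insert]
        omega
      rw [hs, Finset.sum_insert (by simp)]
      have e2 : (δ - δ ^ 2 / (2 * δ)) = δ / 2 := by
        field_simp
        ring
      have e3 : δ ^ 2 / (2 * δ) = δ / 2 := by
        field_simp
      rw [e2, e3] at h2
      push_cast at h2 ⊢
      linarith
  have h1 := full b hab le_rfl
  have h2 := cell_int (F := F) (x := b * δ) (A := A b) (B := A (b + 1)) (c := c) hδ hw0
    (hF.intervalIntegrable _ _) (by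
      intro θ hθ
      exact h b hab le_rfl θ ⟨hθ.1, by nlinarith [hθ.2]⟩)
  rw [← intervalIntegral.integral_add_adjacent_intervals
    (hF.intervalIntegrable _ ((b:ℝ) * δ)) (hF.intervalIntegrable _ _)]
  unfold TT
  linarith

/-- positive parts at a grid point, both signs of the tangential velocity -/
noncomputable def POS (D : Dat) (r vr vt δ : ℝ) (j : ℕ) : ℝ :=
  max 0 (D.gs r vr vt (Real.cos (j * δ)) (Real.sin (j * δ))) +
    max 0 (D.gs r vr (-vt) (Real.cos (j * δ)) (Real.sin (j * δ)))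

/-- hypotheses for a pair of rows on the fixed grid -/
structure Grid (D : Dat) (r0 r1 vr vt δ : ℝ) (a b : ℕ) (Ps0 Ps1 Krr Ktt Lam : ℝ) : Prop where
  hδ : 0 < δ
  hab : a ≤ b
  haδ : (a:ℝ) * δ < Real.pi / 2
  hr0 : 0 ≤ r0
  hr : r0 ≤ r1
  hP : Ps1 ≤ Ps0
  hb1 : (b:ℝ) * δ ≤ Ps1
  hb0 : Ps0 ≤ ((b:ℝ) + 1) * δ
  ha : r1 * Real.cos (a * δ) ≤ D.xL
  hb : ∀ lam ∈ Icc (0:ℝ) 1, Real.pi ≤ lin Ps0 Ps1 lam ∨
    lin r0 r1 lam * Real.cos (lin Ps0 Ps1 lam) ≤ -(1 / D.ρ)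
  hKrr : 0 ≤ Krr
  hKtt : 0 ≤ Ktt
  hLam : 0 ≤ Lam
  hc : ∀ w, (w = vt ∨ w = -vt) → ∀ j : ℕ, a ≤ j → j ≤ b + 1 → ConvexOn ℝ (Icc r0 r1)
    (fun r => D.gs r vr w (Real.cos (j * δ)) (Real.sin (j * δ)) + Krr * r ^ 2 / 2)
  hd : ∀ w, (w = vt ∨ w = -vt) → ∀ r ∈ Icc r0 r1,
    ConvexOn ℝ (Icc ((a:ℝ) * δ) (((b:ℝ) + 1) * δ))
      (fun θ => D.gs r vr w (Real.cos θ) (Real.sin θ) + Ktt * θ ^ 2 / 2)
  hL : ∀ j j' : ℕ, (j = b ∨ j = b + 1) → (j' = b ∨ j' = b + 1) →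
    POS D r1 vr vt δ j - POS D r0 vr vt δ j' ≤ Lam

theorem lin_mem {r0 r1 lam : ℝ} (hr : r0 ≤ r1) (hl : lam ∈ Icc (0:ℝ) 1) :
    lin r0 r1 lam ∈ Icc r0 r1 := by
  have h1 := hl.1
  have h2 := hl.2
  unfold lin
  constructor <;> nlinarith

/-- pointwise interpolation bound on a cell -/
theorem Grid.point {D : Dat} {r0 r1 vr vt δ Ps0 Ps1 Krr Ktt Lam : ℝ} {a b : ℕ}
    (h : Grid D r0 r1 vr vt δ a b Ps0 Ps1 Krr Ktt Lam) {lam : ℝ} (hl : lam ∈ Icc (0:ℝ) 1)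
    {j : ℕ} (hj : a ≤ j) (hj' : j ≤ b) {θ : ℝ} (hθ : θ ∈ Icc ((j:ℝ) * δ) (((j:ℝ) + 1) * δ)) :
    max 0 (D.gs (lin r0 r1 lam) vr vt (Real.cos θ) (Real.sin θ)) +
      max 0 (D.gs (lin r0 r1 lam) vr (-vt) (Real.cos θ) (Real.sin θ)) ≤
      ((1 - lam) * POS D r0 vr vt δ j + lam * POS D r1 vr vt δ j) +
      (((1 - lam) * POS D r0 vr vt δ (j + 1) + lam * POS D r1 vr vt δ (j + 1)) -
        ((1 - lam) * POS D r0 vr vt δ j + lam * POS D r1 vr vt δ j)) * ((θ - j * δ) / δ) +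
      2 * (Krr * (r1 - r0) ^ 2 / 8 + Ktt * δ ^ 2 / 8) := by
  have hδ := h.hδ
  have hlam0 := hl.1
  have hlam1 : lam ≤ 1 := hl.2
  set μ := (θ - j * δ) / δ with hμ
  have hμ0 : 0 ≤ μ := div_nonneg (by linarith [hθ.1]) hδ.le
  have hμ1 : μ ≤ 1 := by
    rw [hμ, div_le_one hδ]
    linarith [hθ.2]
  have hja : (a:ℝ) ≤ j := by exact_mod_cast hj
  have hjb : (j:ℝ) ≤ b := by exact_mod_cast hj'
  have e1 : (1 - μ) * (j * δ) + μ * (((j + 1 : ℕ) : ℝ) * δ) = θ := by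
    rw [hμ]
    push_cast
    field_simp
    ring
  have m1 : (j:ℝ) * δ ∈ Icc ((a:ℝ) * δ) (((b:ℝ) + 1) * δ) := ⟨by nlinarith, by nlinarith⟩
  have m2 : ((j + 1 : ℕ) : ℝ) * δ ∈ Icc ((a:ℝ) * δ) (((b:ℝ) + 1) * δ) := by
    push_cast
    exact ⟨by nlinarith, by nlinarith⟩
  have m3 := lin_mem h.hr hl
  have r0m : r0 ∈ Icc r0 r1 := ⟨le_rfl, h.hr⟩
  have r1m : r1 ∈ Icc r0 r1 := ⟨h.hr, le_rfl⟩
  have one : ∀ w, (w = vt ∨ w = -vt) →
      max 0 (D.gs (lin r0 r1 lam) vr w (Real.cos θ) (Real.sin θ)) ≤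
      (1 - μ) * ((1 - lam) * max 0 (D.gs r0 vr w (Real.cos (j * δ)) (Real.sin (j * δ))) +
        lam * max 0 (D.gs r1 vr w (Real.cos (j * δ)) (Real.sin (j * δ)))) +
      μ * ((1 - lam) * max 0 (D.gs r0 vr w (Real.cos (((j + 1 : ℕ) : ℝ) * δ))
          (Real.sin (((j + 1 : ℕ) : ℝ) * δ))) +
        lam * max 0 (D.gs r1 vr w (Real.cos (((j + 1 : ℕ) : ℝ) * δ))
          (Real.sin (((j + 1 : ℕ) : ℝ) * δ)))) +
      (Krr * (r1 - r0) ^ 2 / 8 + Ktt * δ ^ 2 / 8) := by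
    intro w hw
    have s1 := semi2 h.hKtt (h.hd w hw _ m3) m1 m2 hμ0 hμ1
    rw [e1] at s1
    have s2 := semi2 h.hKrr (h.hc w hw j hj (by omega)) r0m r1m hlam0 hlam1
    have s3 := semi2 h.hKrr (h.hc w hw (j + 1) (by omega) (by omega)) r0m r1m hlam0 hlam1
    have e2 : ((j + 1 : ℕ) : ℝ) * δ - j * δ = δ := by
      push_cast
      ring
    rw [e2] at s1
    have e3 : (1 - lam) * r0 + lam * r1 = lin r0 r1 lam := rfl
    rw [e3] at s2 s3
    have hμ1' : 0 ≤ 1 - μ := by linarith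
    have t2 := mul_le_mul_of_nonneg_left s2 hμ1'
    have t3 := mul_le_mul_of_nonneg_left s3 hμ0
    nlinarith [s1, t2, t3]
  have o1 := one vt (Or.inl rfl)
  have o2 := one (-vt) (Or.inr rfl)
  unfold POS
  nlinarith [o1, o2]

/-- change of the partial cell -/
theorem TT_part (A0 B0 A1 B1 δ w0 w1 lam Lam : ℝ) (hδ : 0 < δ) (hl : lam ∈ Icc (0:ℝ) 1)
    (hw1 : 0 ≤ w1) (hw : w1 ≤ w0) (hw0 : w0 ≤ δ)
    (h1 : A1 - A0 ≤ Lam) (h2 : A1 - B0 ≤ Lam) (h3 : B1 - A0 ≤ Lam) (h4 : B1 - B0 ≤ Lam)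
    (hLam : 0 ≤ Lam) :
    (lin w0 w1 lam - (lin w0 w1 lam) ^ 2 / (2 * δ)) * ((1 - lam) * A0 + lam * A1) +
      (lin w0 w1 lam) ^ 2 / (2 * δ) * ((1 - lam) * B0 + lam * B1) ≤
    (1 - lam) * ((w0 - w0 ^ 2 / (2 * δ)) * A0 + w0 ^ 2 / (2 * δ) * B0) +
      lam * ((w1 - w1 ^ 2 / (2 * δ)) * A1 + w1 ^ 2 / (2 * δ) * B1) + (w0 - w1) * Lam / 4 := by
  have hlam0 := hl.1
  have hlam1 : 0 ≤ 1 - lam := by linarith [hl.2]
  set w := lin w0 w1 lam with hwdef
  have ew0 : w0 - w = lam * (w0 - w1) := by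
    rw [hwdef]
    unfold lin
    ring
  have ew1 : w - w1 = (1 - lam) * (w0 - w1) := by
    rw [hwdef]
    unfold lin
    ring
  have hΔ : 0 ≤ w0 - w1 := by linarith
  have hw_le : w ≤ w0 := by nlinarith
  have hw_ge : w1 ≤ w := by nlinarith
  set u0 := (w + w0) / (2 * δ) with hu0
  set u1 := (w + w1) / (2 * δ) with hu1
  have u00 : 0 ≤ u0 := div_nonneg (by linarith) (by linarith)
  have u01 : u0 ≤ 1 := by
    rw [hu0, div_le_one (by linarith)]
    linarith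
  have u10 : 0 ≤ u1 := div_nonneg (by linarith) (by linarith)
  have u11 : u1 ≤ 1 := by
    rw [hu1, div_le_one (by linarith)]
    linarith
  have id0 : (w - w ^ 2 / (2 * δ)) * A0 + w ^ 2 / (2 * δ) * B0 -
      ((w0 - w0 ^ 2 / (2 * δ)) * A0 + w0 ^ 2 / (2 * δ) * B0) =
      -(w0 - w) * ((1 - u0) * A0 + u0 * B0) := by
    rw [hu0]
    field_simp
    ring
  have id1 : (w - w ^ 2 / (2 * δ)) * A1 + w ^ 2 / (2 * δ) * B1 -
      ((w1 - w1 ^ 2 / (2 * δ)) * A1 + w1 ^ 2 / (2 * δ) * B1) =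
      (w - w1) * ((1 - u1) * A1 + u1 * B1) := by
    rw [hu1]
    field_simp
    ring
  have hdiff : ((1 - u1) * A1 + u1 * B1) - ((1 - u0) * A0 + u0 * B0) ≤ Lam := by
    have v0 : 0 ≤ 1 - u0 := by linarith
    have v1 : 0 ≤ 1 - u1 := by linarith
    have k1 := mul_le_mul_of_nonneg_left h1 (mul_nonneg v1 v0)
    have k2 := mul_le_mul_of_nonneg_left h2 (mul_nonneg v1 u00)
    have k3 := mul_le_mul_of_nonneg_left h3 (mul_nonneg u10 v0)
    have k4 := mul_le_mul_of_nonneg_left h4 (mul_nonneg u10 u00)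
    nlinarith [k1, k2, k3, k4]
  set G0 := (1 - u0) * A0 + u0 * B0
  set G1 := (1 - u1) * A1 + u1 * B1
  rw [ew0] at id0
  rw [ew1] at id1
  have key : lam * (1 - lam) * (w0 - w1) * (G1 - G0) ≤ (w0 - w1) * Lam / 4 := by
    have q : lam * (1 - lam) ≤ 1 / 4 := by nlinarith [sq_nonneg (lam - 1 / 2)]
    have q0 : 0 ≤ lam * (1 - lam) := mul_nonneg hlam0 hlam1
    calc lam * (1 - lam) * (w0 - w1) * (G1 - G0)
        ≤ lam * (1 - lam) * (w0 - w1) * Lam := by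
          apply mul_le_mul_of_nonneg_left hdiff
          positivity
      _ ≤ 1 / 4 * (w0 - w1) * Lam := by gcongr
      _ = (w0 - w1) * Lam / 4 := by ring
  have f0 : (1 - lam) * ((w - w ^ 2 / (2 * δ)) * A0 + w ^ 2 / (2 * δ) * B0) =
      (1 - lam) * ((w0 - w0 ^ 2 / (2 * δ)) * A0 + w0 ^ 2 / (2 * δ) * B0) -
      lam * (1 - lam) * (w0 - w1) * G0 := by
    have := congrArg (fun z => (1 - lam) * z) id0
    linarith
  have f1 : lam * ((w - w ^ 2 / (2 * δ)) * A1 + w ^ 2 / (2 * δ) * B1) =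
      lam * ((w1 - w1 ^ 2 / (2 * δ)) * A1 + w1 ^ 2 / (2 * δ) * B1) +
      lam * (1 - lam) * (w0 - w1) * G1 := by
    have := congrArg (fun z => lam * z) id1
    linarith
  linarith

/-- strip part of a pair of rows on the fixed grid -/
theorem grid_strip {D : Dat} {r0 r1 vr vt δ Ps0 Ps1 Krr Ktt Lam : ℝ} {a b : ℕ}
    (h : Grid D r0 r1 vr vt δ a b Ps0 Ps1 Krr Ktt Lam) (hρ : 0 < D.ρ) (hxL : 0 < D.xL)
    {lam : ℝ} (hl : lam ∈ Icc (0:ℝ) 1) :
    (∫ θ in ((a:ℝ) * δ)..Real.pi, max 0 (D.g (lin r0 r1 lam) vr vt θ)) +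
      (∫ θ in ((a:ℝ) * δ)..Real.pi, max 0 (D.g (lin r0 r1 lam) vr (-vt) θ)) ≤
      (1 - lam) * TT (POS D r0 vr vt δ) δ a b (Ps0 - b * δ) +
      lam * TT (POS D r1 vr vt δ) δ a b (Ps1 - b * δ) +
      2 * (Ps0 - a * δ) * (Krr * (r1 - r0) ^ 2 / 8 + Ktt * δ ^ 2 / 8) + (Ps0 - Ps1) * Lam / 4 := by
  have hδ := h.hδ
  have hpi := Real.pi_pos
  have haδ := h.haδ
  have hr := h.hr
  have hP := h.hP
  have hb1 := h.hb1
  have hb0 := h.hb0
  have ha0 : (0:ℝ) ≤ a * δ := by positivity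
  have hab : (a:ℝ) ≤ b := by exact_mod_cast h.hab
  have habδ : (a:ℝ) * δ ≤ b * δ := by gcongr
  have hrr := lin_mem hr hl
  have hr0 : 0 ≤ lin r0 r1 lam := h.hr0.trans hrr.1
  have hlam0 := hl.1
  have hlam1 : 0 ≤ 1 - lam := by linarith [hl.2]
  have hcos : 0 ≤ Real.cos (a * δ) :=
    Real.cos_nonneg_of_mem_Icc ⟨by linarith, by linarith⟩
  have hA : lin r0 r1 lam * Real.cos (a * δ) ≤ D.xL := by
    have : lin r0 r1 lam * Real.cos (a * δ) ≤ r1 * Real.cos (a * δ) := by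
      have := hrr.2
      gcongr
    exact this.trans h.ha
  set Ps := lin Ps0 Ps1 lam with hPs
  have hPs1 : Ps ≤ Ps0 := by
    rw [hPs]
    unfold lin
    nlinarith
  have hPs2 : Ps1 ≤ Ps := by
    rw [hPs]
    unfold lin
    nlinarith
  have c1 := strip_cut D (vr := vr) (w := vt) hr0 ha0 (by linarith) (by linarith : (a:ℝ) * δ ≤ Ps)
    hA hρ hxL (h.hb lam hl)
  have c2 := strip_cut D (vr := vr) (w := -vt) hr0 ha0 (by linarith)
    (by linarith : (a:ℝ) * δ ≤ Ps) hA hρ hxL (h.hb lam hl)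
  have hcont : ∀ w, Continuous (fun θ => max 0 (D.gs (lin r0 r1 lam) vr w (Real.cos θ)
      (Real.sin θ))) := fun w => continuous_const.max ((Dat.gs_continuous D _ vr w).comp
        (Real.continuous_cos.prodMk Real.continuous_sin))
  have hadd := intervalIntegral.integral_add
    ((hcont vt).intervalIntegrable (μ := volume) ((a:ℝ) * δ) Ps)
    ((hcont (-vt)).intervalIntegrable (μ := volume) ((a:ℝ) * δ) Ps)
  have hF : Continuous (fun θ => max 0 (D.gs (lin r0 r1 lam) vr vt (Real.cos θ) (Real.sin θ)) +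
      max 0 (D.gs (lin r0 r1 lam) vr (-vt) (Real.cos θ) (Real.sin θ))) :=
    (hcont vt).add (hcont (-vt))
  have hgi := grid_int hF (δ := δ) (c := 2 * (Krr * (r1 - r0) ^ 2 / 8 + Ktt * δ ^ 2 / 8))
    (w := Ps - b * δ)
    (A := fun j => (1 - lam) * POS D r0 vr vt δ j + lam * POS D r1 vr vt δ j)
    hδ h.hab (by linarith) (by linarith)
    (fun j hj hj' θ hθ => h.point hl hj hj' hθ)
  have e1 : (b:ℝ) * δ + (Ps - b * δ) = Ps := by ring
  rw [e1] at hgi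
  -- the trapezoidal sum is linear except for the partial cell
  have hpart := TT_part (POS D r0 vr vt δ b) (POS D r0 vr vt δ (b + 1)) (POS D r1 vr vt δ b)
    (POS D r1 vr vt δ (b + 1)) δ (Ps0 - b * δ) (Ps1 - b * δ) lam Lam hδ hl (by linarith)
    (by linarith) (by linarith) (h.hL b b (Or.inl rfl) (Or.inl rfl))
    (h.hL b (b + 1) (Or.inl rfl) (Or.inr rfl)) (h.hL (b + 1) b (Or.inr rfl) (Or.inl rfl))
    (h.hL (b + 1) (b + 1) (Or.inr rfl) (Or.inr rfl)) h.hLam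
  have e2 : lin (Ps0 - b * δ) (Ps1 - b * δ) lam = Ps - b * δ := by
    rw [hPs]
    unfold lin
    ring
  rw [e2] at hpart
  have hTT : TT (fun j => (1 - lam) * POS D r0 vr vt δ j + lam * POS D r1 vr vt δ j) δ a b
      (Ps - b * δ) ≤ (1 - lam) * TT (POS D r0 vr vt δ) δ a b (Ps0 - b * δ) +
      lam * TT (POS D r1 vr vt δ) δ a b (Ps1 - b * δ) + (Ps0 - Ps1) * Lam / 4 := by
    unfold TT
    rw [Finset.sum_add_distrib, ← Finset.mul_sum, ← Finset.mul_sum]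
    nlinarith [hpart]
  have hc0 : 0 ≤ Krr * (r1 - r0) ^ 2 / 8 + Ktt * δ ^ 2 / 8 := by
    have := h.hKrr
    have := h.hKtt
    positivity
  have hlast : 2 * (Krr * (r1 - r0) ^ 2 / 8 + Ktt * δ ^ 2 / 8) * (Ps - a * δ) ≤
      2 * (Ps0 - a * δ) * (Krr * (r1 - r0) ^ 2 / 8 + Ktt * δ ^ 2 / 8) := by
    nlinarith
  linarith

/-- **Pair of rows, fixed grid.** -/
theorem grid_pair {D : Dat} {r0 r1 vr vt δ Ps0 Ps1 Krr Ktt Lam : ℝ} {a b : ℕ}
    (h : Grid D r0 r1 vr vt δ a b Ps0 Ps1 Krr Ktt Lam) (hρ : 0 < D.ρ) (hxL : 0 < D.xL)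
    (hr0 : 0 < r0) {sl wd : ℝ} (hsl : 0 ≤ sl) (hwd : 0 ≤ wd)
    (hw : wd < a * δ → D.xL < r0 * Real.cos (a * δ - wd))
    (hf : ∀ r ∈ Icc r0 r1, ∀ w, (w = vt ∨ w = -vt) → ∀ θ ∈ Icc 0 ((a:ℝ) * δ),
      r * Real.cos θ ≤ D.xL →
      max 0 (D.gs r vr w (Real.cos θ) (Real.sin θ)) ≤
        max 0 ((-vr + w * Real.tan θ) / r) + sl)
    {lam : ℝ} (hl : lam ∈ Icc (0:ℝ) 1) :
    ∫ θ in (0:ℝ)..Real.pi, (max 0 (D.g (lin r0 r1 lam) vr vt θ) +
        max 0 (D.g (lin r0 r1 lam) vr (-vt) θ)) ≤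
      HL vr vt (a * δ) / lin r0 r1 lam + 2 * sl * wd +
      (1 - lam) * TT (POS D r0 vr vt δ) δ a b (Ps0 - b * δ) +
      lam * TT (POS D r1 vr vt δ) δ a b (Ps1 - b * δ) +
      2 * (Ps0 - a * δ) * (Krr * (r1 - r0) ^ 2 / 8 + Ktt * δ ^ 2 / 8) + (Ps0 - Ps1) * Lam / 4 := by
  have hδ := h.hδ
  have haδ := h.haδ
  have hrr := lin_mem h.hr hl
  have hpi := Real.pi_pos
  have l0 : 0 < lin r0 r1 lam := lt_of_lt_of_le hr0 hrr.1
  have ha0 : (0:ℝ) ≤ a * δ := by positivity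
  have i1 := fun w a b => Dat.g_pos_integrable D hxL l0 vr w a b
  rw [intervalIntegral.integral_add (i1 _ _ _) (i1 _ _ _),
    ← intervalIntegral.integral_add_adjacent_intervals (i1 vt 0 ((a:ℝ) * δ)) (i1 vt _ _),
    ← intervalIntegral.integral_add_adjacent_intervals (i1 (-vt) 0 ((a:ℝ) * δ)) (i1 (-vt) _ _)]
  have a1 := left_part D (vr := vr) (vt := vt) l0 ha0 haδ hxL hsl hwd (by
    intro hlt
    have hc : 0 ≤ Real.cos (a * δ - wd) :=
      Real.cos_nonneg_of_mem_Icc ⟨by linarith, by linarith⟩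
    have := hw hlt
    have h2 : r0 * Real.cos (a * δ - wd) ≤ lin r0 r1 lam * Real.cos (a * δ - wd) := by
      have := hrr.1
      gcongr
    linarith) (hf _ hrr)
  have a2 := grid_strip h hρ hxL hl
  linarith

/-- **Chord form.** -/
theorem grid_chord {D : Dat} {r0 r1 vr vt δ Ps0 Ps1 Krr Ktt Lam : ℝ} {a b : ℕ}
    (h : Grid D r0 r1 vr vt δ a b Ps0 Ps1 Krr Ktt Lam) (hρ : 0 < D.ρ) (hxL : 0 < D.xL)
    (hr0 : 0 < r0) {sl wd : ℝ} (hsl : 0 ≤ sl) (hwd : 0 ≤ wd)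
    (hw : wd < a * δ → D.xL < r0 * Real.cos (a * δ - wd))
    (hf : ∀ r ∈ Icc r0 r1, ∀ w, (w = vt ∨ w = -vt) → ∀ θ ∈ Icc 0 ((a:ℝ) * δ),
      r * Real.cos θ ≤ D.xL →
      max 0 (D.gs r vr w (Real.cos θ) (Real.sin θ)) ≤
        max 0 ((-vr + w * Real.tan θ) / r) + sl)
    {H m0 m1 E : ℝ} (hH : HL vr vt (a * δ) ≤ H)
    (hE : 2 * sl * wd + 2 * (Ps0 - a * δ) * (Krr * (r1 - r0) ^ 2 / 8 + Ktt * δ ^ 2 / 8) +
      (Ps0 - Ps1) * Lam / 4 + Real.pi * max 0 (m0 - m1) * (r1 - r0) / 4 ≤ E)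
    (h0 : TT (POS D r0 vr vt δ) δ a b (Ps0 - b * δ) + H / r0 -
      Real.pi * (1 + m0 * (vr - r0)) + E ≤ 0)
    (h1 : TT (POS D r1 vr vt δ) δ a b (Ps1 - b * δ) + H / r1 -
      Real.pi * (1 + m1 * (vr - r1)) + E ≤ 0)
    {lam : ℝ} (hl : lam ∈ Icc (0:ℝ) 1) :
    FF D (lin r0 r1 lam) (lin m0 m1 lam) (vr, vt) ≤ 0 := by
  have hmain := grid_pair h hρ hxL hr0 hsl hwd hw hf hl
  have hrr := lin_mem h.hr hl
  have hr := h.hr
  have hlam0 := hl.1
  have hlam1 : 0 ≤ 1 - lam := by linarith [hl.2]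
  have l0 : 0 < lin r0 r1 lam := lt_of_lt_of_le hr0 hrr.1
  have hr1 : 0 < r1 := lt_of_lt_of_le hr0 hr
  have hδ := h.hδ
  have ha0 : (0:ℝ) ≤ a * δ := by positivity
  have hHL0 : 0 ≤ HL vr vt (a * δ) := by
    unfold HL
    exact intervalIntegral.integral_nonneg ha0 (fun θ _ => hL_nonneg _ _ _)
  have hH0 : 0 ≤ H := hHL0.trans hH
  have e1 : HL vr vt (a * δ) / lin r0 r1 lam ≤ (1 - lam) * (H / r0) + lam * (H / r1) := by
    have f1 : HL vr vt (a * δ) / lin r0 r1 lam ≤ H / lin r0 r1 lam := by gcongr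
    have f2 : 1 / lin r0 r1 lam ≤ (1 - lam) / r0 + lam / r1 := by
      rw [div_add_div _ _ hr0.ne' hr1.ne', div_le_div_iff₀ l0 (by positivity)]
      have e : ((1 - lam) * r1 + r0 * lam) * lin r0 r1 lam - 1 * (r0 * r1) =
          lam * (1 - lam) * (r1 - r0) ^ 2 := by
        unfold lin
        ring
      have : 0 ≤ lam * (1 - lam) * (r1 - r0) ^ 2 := by positivity
      linarith
    have f3 : H / lin r0 r1 lam = H * (1 / lin r0 r1 lam) := by ring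
    have f4 := mul_le_mul_of_nonneg_left f2 hH0
    have f5 : H * ((1 - lam) / r0 + lam / r1) = (1 - lam) * (H / r0) + lam * (H / r1) := by ring
    linarith
  have e2 : -(Real.pi * (1 + lin m0 m1 lam * (vr - lin r0 r1 lam))) ≤
      (1 - lam) * (-(Real.pi * (1 + m0 * (vr - r0)))) +
      lam * (-(Real.pi * (1 + m1 * (vr - r1)))) +
      Real.pi * max 0 (m0 - m1) * (r1 - r0) / 4 := by
    have f1 : -(Real.pi * (1 + lin m0 m1 lam * (vr - lin r0 r1 lam))) =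
      (1 - lam) * (-(Real.pi * (1 + m0 * (vr - r0)))) +
      lam * (-(Real.pi * (1 + m1 * (vr - r1)))) +
      Real.pi * ((m0 - m1) * (r1 - r0)) * (lam * (1 - lam)) := by
      unfold lin
      ring
    rw [f1]
    have f2 : (m0 - m1) * (r1 - r0) ≤ max 0 (m0 - m1) * (r1 - r0) := by
      apply mul_le_mul_of_nonneg_right (le_max_right _ _)
      linarith
    have f3 : 0 ≤ max 0 (m0 - m1) * (r1 - r0) :=
      mul_nonneg (le_max_left _ _) (by linarith)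
    have f4 : lam * (1 - lam) ≤ 1 / 4 := by nlinarith [sq_nonneg (lam - 1 / 2)]
    have f5 : 0 ≤ lam * (1 - lam) := mul_nonneg hlam0 hlam1
    have f6 : Real.pi * ((m0 - m1) * (r1 - r0)) * (lam * (1 - lam)) ≤
        Real.pi * (max 0 (m0 - m1) * (r1 - r0)) * (1 / 4) := by
      have g1 : Real.pi * ((m0 - m1) * (r1 - r0)) ≤ Real.pi * (max 0 (m0 - m1) * (r1 - r0)) :=
        mul_le_mul_of_nonneg_left f2 Real.pi_pos.le
      have g2 : 0 ≤ Real.pi * (max 0 (m0 - m1) * (r1 - r0)) := mul_nonneg Real.pi_pos.le f3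
      calc Real.pi * ((m0 - m1) * (r1 - r0)) * (lam * (1 - lam))
          ≤ Real.pi * (max 0 (m0 - m1) * (r1 - r0)) * (lam * (1 - lam)) :=
            mul_le_mul_of_nonneg_right g1 f5
        _ ≤ _ := mul_le_mul_of_nonneg_left f4 g2
    linarith
  have k0 := mul_le_mul_of_nonneg_left h0 hlam1
  have k1 := mul_le_mul_of_nonneg_left h1 hlam0
  unfold FF
  simp only
  linarith

/-- chord form without left region (`a = 0`); `r0 = 0` is allowed -/
theorem grid_chord_zero {D : Dat} {r0 r1 vr vt δ Ps0 Ps1 Krr Ktt Lam : ℝ} {b : ℕ}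
    (h : Grid D r0 r1 vr vt δ 0 b Ps0 Ps1 Krr Ktt Lam) (hρ : 0 < D.ρ) (hxL : 0 < D.xL)
    {m0 m1 E : ℝ}
    (hE : 2 * Ps0 * (Krr * (r1 - r0) ^ 2 / 8 + Ktt * δ ^ 2 / 8) +
      (Ps0 - Ps1) * Lam / 4 + Real.pi * max 0 (m0 - m1) * (r1 - r0) / 4 ≤ E)
    (h0 : TT (POS D r0 vr vt δ) δ 0 b (Ps0 - b * δ) - Real.pi * (1 + m0 * (vr - r0)) + E ≤ 0)
    (h1 : TT (POS D r1 vr vt δ) δ 0 b (Ps1 - b * δ) - Real.pi * (1 + m1 * (vr - r1)) + E ≤ 0)
    {lam : ℝ} (hl : lam ∈ Icc (0:ℝ) 1) (hpos : 0 < lin r0 r1 lam) :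
    FF D (lin r0 r1 lam) (lin m0 m1 lam) (vr, vt) ≤ 0 := by
  have hstrip := grid_strip h hρ hxL hl
  have hrr := lin_mem h.hr hl
  have hr := h.hr
  have hlam0 := hl.1
  have hlam1 : 0 ≤ 1 - lam := by linarith [hl.2]
  simp only [Nat.cast_zero, zero_mul, sub_zero] at hstrip
  have i1 := fun w a b => Dat.g_pos_integrable D hxL hpos vr w a b
  have hsum := intervalIntegral.integral_add (i1 vt 0 Real.pi) (i1 (-vt) 0 Real.pi)
  have e2 : -(Real.pi * (1 + lin m0 m1 lam * (vr - lin r0 r1 lam))) ≤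
      (1 - lam) * (-(Real.pi * (1 + m0 * (vr - r0)))) +
      lam * (-(Real.pi * (1 + m1 * (vr - r1)))) +
      Real.pi * max 0 (m0 - m1) * (r1 - r0) / 4 := by
    have f1 : -(Real.pi * (1 + lin m0 m1 lam * (vr - lin r0 r1 lam))) =
      (1 - lam) * (-(Real.pi * (1 + m0 * (vr - r0)))) +
      lam * (-(Real.pi * (1 + m1 * (vr - r1)))) +
      Real.pi * ((m0 - m1) * (r1 - r0)) * (lam * (1 - lam)) := by
      unfold lin
      ring
    rw [f1]
    have f2 : (m0 - m1) * (r1 - r0) ≤ max 0 (m0 - m1) * (r1 - r0) := by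
      apply mul_le_mul_of_nonneg_right (le_max_right _ _)
      linarith
    have f3 : 0 ≤ max 0 (m0 - m1) * (r1 - r0) :=
      mul_nonneg (le_max_left _ _) (by linarith)
    have f4 : lam * (1 - lam) ≤ 1 / 4 := by nlinarith [sq_nonneg (lam - 1 / 2)]
    have f5 : 0 ≤ lam * (1 - lam) := mul_nonneg hlam0 hlam1
    have f6 : Real.pi * ((m0 - m1) * (r1 - r0)) * (lam * (1 - lam)) ≤
        Real.pi * (max 0 (m0 - m1) * (r1 - r0)) * (1 / 4) := by
      have g1 : Real.pi * ((m0 - m1) * (r1 - r0)) ≤ Real.pi * (max 0 (m0 - m1) * (r1 - r0)) :=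
        mul_le_mul_of_nonneg_left f2 Real.pi_pos.le
      have g2 : 0 ≤ Real.pi * (max 0 (m0 - m1) * (r1 - r0)) := mul_nonneg Real.pi_pos.le f3
      calc Real.pi * ((m0 - m1) * (r1 - r0)) * (lam * (1 - lam))
          ≤ Real.pi * (max 0 (m0 - m1) * (r1 - r0)) * (lam * (1 - lam)) :=
            mul_le_mul_of_nonneg_right g1 f5
        _ ≤ _ := mul_le_mul_of_nonneg_left f4 g2
    linarith
  have k0 := mul_le_mul_of_nonneg_left h0 hlam1
  have k1 := mul_le_mul_of_nonneg_left h1 hlam0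
  unfold FF
  simp only
  rw [hsum]
  linarith

/-- **`HL` at grid points** -/
theorem HL_grid {vr vt δ : ℝ} (hvt : 0 ≤ vt) (hδ : 0 ≤ δ) (a : ℕ)
    (ha : (a:ℝ) * δ < Real.pi / 2) :
    HL vr vt (a * δ) ≤ δ * (∑ j ∈ Finset.range (a + 1), hL vr vt (j * δ) -
      (hL vr vt 0 + hL vr vt (a * δ)) / 2) := by
  induction a with
  | zero =>
    have : HL vr vt 0 = 0 := by unfold HL; simp
    simp [this]
  | succ n ih =>
    have h1 : (n:ℝ) * δ ≤ ((n + 1 : ℕ) : ℝ) * δ := by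
      push_cast
      nlinarith
    have h2 := ih (lt_of_le_of_lt h1 ha)
    have h3 := HL_step (vr := vr) hvt (show (0:ℝ) ≤ n * δ by positivity) h1 ha
    rw [Finset.sum_range_succ]
    have e : (((n + 1 : ℕ) : ℝ) * δ - n * δ) = δ := by
      push_cast
      ring
    rw [e] at h3
    push_cast at h2 h3 ⊢
    linarith

end Pool.Agent.H44.Shore
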