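import Mathlib
import Pool.Agent.H44.Shore.Grid

/-!
Shoreline search: Lipschitz bounds for the strip integrand and numerical criteria for the
fixed grid theorem.
-/

open MeasureTheory Set Filter Topology Polynomial
open scoped Interval ENNReal

namespace Pool.Agent.H44.Shore

/-- the constant in the first derivative bound -/
noncomputable def LB (rB M10 M20 M01 M11 M02 V rb a e : ℝ) : ℝ :=
  let X1 := a + rb * e
  let W1 := 2 * rb * a / rB ^ 2
  let U0 := rb + V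
  let U1 := a + (rb + V) * e
  let Q0 := 2 * rb / rB ^ 2 * (V + rb)
  let Q1 := 2 / rB ^ 2 * (V + 2 * rb) * a
  ((M20 * X1 + M11 * W1) * U0 + M10 * U1) + (Q1 * M01 + Q0 * (M11 * X1 + M02 * W1))

theorem comb_bound1 {p p1 U U1 Q Q1 q q1 P P1 V0 V1 R0 R1 S0 S1 : ℝ}
    (hp : |p| ≤ P) (hp1 : |p1| ≤ P1) (hU : |U| ≤ V0) (hU1 : |U1| ≤ V1)
    (hQ : |Q| ≤ R0) (hQ1 : |Q1| ≤ R1) (hq : |q| ≤ S0) (hq1 : |q1| ≤ S1) :
    |-(p1 * U + p * U1) + (Q1 * q + Q * q1)| ≤ (P1 * V0 + P * V1) + (R1 * S0 + R0 * S1) := by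
  apply abs_add_le'
  · rw [abs_neg]
    exact abs_add_le' (abs_mul_le hp1 hU) (abs_mul_le hp hU1)
  · exact abs_add_le' (abs_mul_le hQ1 hq) (abs_mul_le hQ hq1)

/-- **First derivative bound along a segment in the `(r, θ)` plane.** -/
theorem gs_lip {D : Dat} {xa xb wa wb M10 M20 M30 M01 M11 M21 M02 M12 M03 : ℝ}
    (hM : MB D xa xb wa wb M10 M20 M30 M01 M11 M21 M02 M12 M03)
    (hrB : 0 < D.rB) {V rb a e : ℝ} (hV : 0 ≤ V) (hrb : rb ≤ D.rB)
    {vr u : ℝ} (hv : vr ^ 2 + u ^ 2 ≤ V ^ 2) {r0 dr θ0 dθ : ℝ}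
    (hdr : |dr| ≤ a) (hdθ : |dθ| ≤ e)
    (hr : ∀ t ∈ Icc (0:ℝ) 1, 0 ≤ r0 + t * dr ∧ r0 + t * dr ≤ rb)
    (hw : ∀ t ∈ Icc (0:ℝ) 1, 1 - (r0 + t * dr) ^ 2 / D.rB ^ 2 ∈ Icc wa wb)
    (hx : ∀ t ∈ Icc (0:ℝ) 1, -((r0 + t * dr) * Real.cos (θ0 + t * dθ)) ∈ Icc xa xb) :
    |D.gs (r0 + dr) vr u (Real.cos (θ0 + dθ)) (Real.sin (θ0 + dθ)) -
      D.gs r0 vr u (Real.cos θ0) (Real.sin θ0)| ≤ LB D.rB M10 M20 M01 M11 M02 V rb a e := by
  have Cx := C2_x r0 dr θ0 dθ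
  have Cw := C2_w r0 dr (D.rB ^ 2)
  have Cp := D.C2_bd 1 0 Cx Cw
  have Cq := D.C2_bd 0 1 Cx Cw
  have CU := C2_U r0 dr θ0 dθ vr u
  have CQ := C2_Q r0 dr vr (D.rB ^ 2)
  have Cf := (C2_comb Cp CU CQ Cq).d1
  have hB2 : 0 < D.rB ^ 2 := by positivity
  -- the smooth function equals the integrand
  have hval : ∀ t ∈ Icc (0:ℝ) 1, D.gs (r0 + t * dr) vr u (Real.cos (θ0 + t * dθ))
      (Real.sin (θ0 + t * dθ)) = -1 - D.bd 1 0 (-((r0 + t * dr) * Real.cos (θ0 + t * dθ)))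
        (1 - (r0 + t * dr) ^ 2 / D.rB ^ 2) * (-(vr * Real.cos (θ0 + t * dθ)) +
        u * Real.sin (θ0 + t * dθ) + (r0 + t * dr) * Real.cos (θ0 + t * dθ)) +
        2 * (r0 + t * dr) / D.rB ^ 2 * (vr - (r0 + t * dr)) *
        D.bd 0 1 (-((r0 + t * dr) * Real.cos (θ0 + t * dθ)))
        (1 - (r0 + t * dr) ^ 2 / D.rB ^ 2) := by
    intro t ht
    obtain ⟨hr1, hr2⟩ := hr t ht
    have hW : D.W (r0 + t * dr) = 1 - (r0 + t * dr) ^ 2 / D.rB ^ 2 := by
      unfold Dat.W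
      have h1 : (r0 + t * dr) ^ 2 / D.rB ^ 2 ≤ 1 := by
        rw [div_le_one (by positivity)]
        have := hr2.trans hrb
        gcongr
      rw [max_eq_right (by linarith)]
    unfold Dat.gs
    rw [hW, Dat.bx_eq, Dat.bw_eq]
  have key := (convex_Icc (0:ℝ) 1).norm_image_sub_le_of_norm_hasDerivWithin_le
    (C := LB D.rB M10 M20 M01 M11 M02 V rb a e) (x := 0) (y := 1)
    (fun t _ => (Cf t).hasDerivWithinAt) (by
    intro t ht
    obtain ⟨hr1, hr2⟩ := hr t ht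
    have hx' := hx t ht
    have hw' := hw t ht
    rw [Real.norm_eq_abs]
    unfold LB
    simp only [Nat.reduceAdd, zero_add]
    clear Cf CQ CU Cq Cp Cw Cx
    set r := r0 + t * dr with hrdef
    set c := Real.cos (θ0 + t * dθ) with hc
    set s := Real.sin (θ0 + t * dθ) with hs
    have hc1 : |c| ≤ 1 := Real.abs_cos_le_one _
    have hs1 : |s| ≤ 1 := Real.abs_sin_le_one _
    have hra : |r| ≤ rb := by rwa [abs_of_nonneg hr1]
    have h2 : |(2:ℝ)| ≤ 2 := by norm_num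
    have eX1 : |-(dr * c) + r * (dθ * s)| ≤ a + rb * e := by
      refine (abs_add_le' (B := rb * (e * 1)) (A := a * 1) ?_ ?_).trans (le_of_eq (by ring))
      · rw [abs_neg]
        exact abs_mul_le hdr hc1
      · exact abs_mul_le hra (abs_mul_le hdθ hs1)
    have hBi : |(1:ℝ) / D.rB ^ 2| ≤ 1 / D.rB ^ 2 := by
      rw [abs_of_nonneg (by positivity)]
    have eW1 : |-(2 * r * dr / D.rB ^ 2)| ≤ 2 * rb * a / D.rB ^ 2 := by
      rw [abs_neg, show 2 * r * dr / D.rB ^ 2 = 2 * (r * dr) * (1 / D.rB ^ 2) by ring]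
      refine (abs_mul_le (abs_mul_le h2 (abs_mul_le hra hdr)) hBi).trans (le_of_eq (by ring))
    have eU : |-(vr * c) + u * s + r * c| ≤ rb + V := by
      have h3 : |(-vr) * c + u * s| ≤ V := abs_cs _ _ _ _ hV (by nlinarith)
      have h4 : |r * c| ≤ rb * 1 := abs_mul_le hra hc1
      have h5 : -(vr * c) + u * s + r * c = ((-vr) * c + u * s) + r * c := by ring
      rw [h5]
      linarith [abs_add_le' h3 h4]
    have eU1 : |dr * c + (dθ * (u * c + vr * s) - r * (dθ * s))| ≤ a + (rb + V) * e := by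
      have h3 : |u * c + vr * s| ≤ V := abs_cs _ _ _ _ hV (by nlinarith)
      refine (abs_add_le' (abs_mul_le hdr hc1) (abs_sub_le' (abs_mul_le hdθ h3)
        (abs_mul_le hra (abs_mul_le hdθ hs1)))).trans (le_of_eq (by ring))
    have hvr : |vr| ≤ V := abs_le_of_sq_le_sq (by nlinarith [sq_nonneg u]) hV
    have eQ : |2 * r / D.rB ^ 2 * (vr - r)| ≤ 2 * rb / D.rB ^ 2 * (V + rb) := by
      rw [show 2 * r / D.rB ^ 2 * (vr - r) = 2 * r * (1 / D.rB ^ 2) * (vr - r) by ring]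
      refine (abs_mul_le (abs_mul_le (abs_mul_le h2 hra) hBi)
        (abs_sub_le' hvr hra)).trans (le_of_eq (by ring))
    have eQ1 : |2 / D.rB ^ 2 * (vr - 2 * r) * dr| ≤ 2 / D.rB ^ 2 * (V + 2 * rb) * a := by
      rw [show 2 / D.rB ^ 2 * (vr - 2 * r) * dr = 2 * (1 / D.rB ^ 2) * (vr - 2 * r) * dr by ring]
      refine (abs_mul_le (abs_mul_le (abs_mul_le h2 hBi)
        (abs_sub_le' hvr (abs_mul_le h2 hra))) hdr).trans (le_of_eq (by ring))
    have hx2 : -(r * c) ∈ Icc xa xb := hx'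
    exact comb_bound1 (hM.m10 _ hx2 _ hw')
      (bd_bound1 (hM.m20 _ hx2 _ hw') (hM.m11 _ hx2 _ hw') eX1 eW1) eU eU1 eQ eQ1
      (hM.m01 _ hx2 _ hw')
      (bd_bound1 (hM.m11 _ hx2 _ hw') (hM.m02 _ hx2 _ hw') eX1 eW1))
    (by simp) (by simp)
  rw [sub_zero, norm_one, mul_one, Real.norm_eq_abs] at key
  have v0 := hval 0 (by simp)
  have v1 := hval 1 (by simp)
  rw [← v0, ← v1] at key
  simpa using key

/-- Lipschitz predicate on a region -/
def LipC (D : Dat) (xa xb ra rb V : ℝ) (Lf : ℝ → ℝ → ℝ) : Prop :=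
  ∀ vr u : ℝ, vr ^ 2 + u ^ 2 ≤ V ^ 2 → ∀ r0 dr θ0 dθ a e : ℝ, |dr| ≤ a → |dθ| ≤ e →
    (∀ t ∈ Icc (0:ℝ) 1, ra ≤ r0 + t * dr ∧ r0 + t * dr ≤ rb) →
    (∀ t ∈ Icc (0:ℝ) 1, -((r0 + t * dr) * Real.cos (θ0 + t * dθ)) ∈ Icc xa xb) →
    |D.gs (r0 + dr) vr u (Real.cos (θ0 + dθ)) (Real.sin (θ0 + dθ)) -
      D.gs r0 vr u (Real.cos θ0) (Real.sin θ0)| ≤ Lf a e

theorem lipC_in {D : Dat} {xa xb wa wb M10 M20 M30 M01 M11 M21 M02 M12 M03 : ℝ}
    (hM : MB D xa xb wa wb M10 M20 M30 M01 M11 M21 M02 M12 M03)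
    (hrB : 0 < D.rB) {V ra rb : ℝ} (hV : 0 ≤ V) (hra : 0 ≤ ra) (hrb : rb ≤ D.rB)
    (hwa : wa ≤ 1 - rb ^ 2 / D.rB ^ 2) (hwb : 1 - ra ^ 2 / D.rB ^ 2 ≤ wb) :
    LipC D xa xb ra rb V (LB D.rB M10 M20 M01 M11 M02 V rb) := by
  intro vr u hv r0 dr θ0 dθ a e hdr hdθ hr hx
  refine gs_lip hM hrB hV hrb hv hdr hdθ (fun t ht => ⟨hra.trans (hr t ht).1, (hr t ht).2⟩)
    ?_ hx
  intro t ht
  obtain ⟨h1, h2⟩ := hr t ht
  have h0 : 0 ≤ r0 + t * dr := hra.trans h1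
  constructor
  · refine hwa.trans ?_
    have : (r0 + t * dr) ^ 2 / D.rB ^ 2 ≤ rb ^ 2 / D.rB ^ 2 := by gcongr
    linarith
  · refine le_trans ?_ hwb
    have : ra ^ 2 / D.rB ^ 2 ≤ (r0 + t * dr) ^ 2 / D.rB ^ 2 := by gcongr
    linarith

/-- the Lipschitz constant outside the radius `rB` -/
noncomputable def LO (M10 M20 V rb a e : ℝ) : ℝ :=
  M20 * (a + rb * e) * (rb + V) + M10 * (a + (rb + V) * e)

theorem lipC_out {D : Dat} {xa xb M10 M20 : ℝ}
    (m10 : ∀ x ∈ Icc xa xb, |D.bd 1 0 x 0| ≤ M10) (m20 : ∀ x ∈ Icc xa xb, |D.bd 2 0 x 0| ≤ M20)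
    {M30 : ℝ} (m30 : ∀ x ∈ Icc xa xb, |D.bd 3 0 x 0| ≤ M30)
    (hrB : 0 < D.rB) {V ra rb : ℝ} (hV : 0 ≤ V) (hra : D.rB ≤ ra) (hrb : 0 < rb) :
    LipC D xa xb ra rb V (LO M10 M20 V rb) := by
  intro vr u hv r0 dr θ0 dθ a e hdr hdθ hr hx
  have hM : MB (D.flat rb) xa xb 0 1 M10 M20 M30 0 0 0 0 0 0 := by
    constructor <;> intro x hx w _ <;> rw [flat_bd]
    · have := m10 x hx
      rwa [bd_zero] at this
    · have := m20 x hx
      rwa [bd_zero] at this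
    · have := m30 x hx
      rwa [bd_zero] at this
    all_goals simp
  have hR : (D.flat rb).rB = rb := rfl
  have hlo : ∀ t ∈ Icc (0:ℝ) 1, D.rB ≤ r0 + t * dr := fun t ht => hra.trans (hr t ht).1
  have h := gs_lip (D := D.flat rb) hM (by rw [hR]; exact hrb) hV (by rw [hR]) hv
    (r0 := r0) (θ0 := θ0) hdr hdθ
    (fun t ht => ⟨hrB.le.trans (hlo t ht), (hr t ht).2⟩)
    (by
      intro t ht
      have h1 := hlo t ht
      have h2 := (hr t ht).2
      rw [hR]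
      have h0 : 0 ≤ r0 + t * dr := hrB.le.trans h1
      constructor
      · rw [sub_nonneg, div_le_one (by positivity)]
        gcongr
      · have : 0 ≤ (r0 + t * dr) ^ 2 / rb ^ 2 := by positivity
        linarith) hx
  have g0 : D.rB ≤ r0 := by simpa using hlo 0 (by simp)
  have g1 : D.rB ≤ r0 + dr := by simpa using hlo 1 (by simp)
  rw [← gs_flat D rb hrB g0, ← gs_flat D rb hrB g1] at h
  refine h.trans (le_of_eq ?_)
  unfold LB LO
  ring

/-- **Numerical criterion for the fixed grid hypotheses.** -/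
theorem grid_of_num {D : Dat} {xb ra rb V r0 r1 vr vt δ Ps0 Ps1 Krr Ktt Lam : ℝ} {a b : ℕ}
    {Kf Lf : ℝ → ℝ → ℝ} (hS : SemiC D (-D.xL) xb ra rb V Kf) (hLp : LipC D (-D.xL) xb ra rb V Lf)
    (hxL : 0 < D.xL) (hxb : 0 ≤ xb) (hv : vr ^ 2 + vt ^ 2 ≤ V ^ 2)
    (hδ : 0 < δ) (hab : a ≤ b) (haδ : (a:ℝ) * δ < Real.pi / 2) (h0 : 0 ≤ r0) (hr : r0 ≤ r1)
    (hra : ra ≤ r0) (hrb : r1 ≤ rb) (hP : Ps1 ≤ Ps0) (hb1 : (b:ℝ) * δ ≤ Ps1)
    (hb0 : Ps0 ≤ ((b:ℝ) + 1) * δ) (ha : r1 * Real.cos (a * δ) ≤ D.xL)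
    (hPs : (Real.pi ≤ Ps0 ∧ Real.pi ≤ Ps1) ∨
      (Real.pi / 2 ≤ Ps1 ∧ Ps1 ≤ Ps0 ∧ Ps0 ≤ Real.pi ∧ r0 * Real.cos Ps0 ≤ -(1 / D.ρ) ∧
        r1 * Real.cos Ps1 ≤ -(1 / D.ρ)))
    (hout : ((b:ℝ) + 1) * δ ≤ 4 ∧ (r1 ≤ xb ∨
      (((b:ℝ) + 1) * δ ≤ Real.pi ∧ -(r1 * Real.cos (((b:ℝ) + 1) * δ)) ≤ xb)))
    (hKrr : Kf 1 0 ≤ Krr) (hKrr' : 0 ≤ Krr) (hKtt : Kf 0 1 ≤ Ktt) (hKtt' : 0 ≤ Ktt)
    (hLam : 2 * Lf (r1 - r0) δ ≤ Lam) (hLam' : 0 ≤ Lam) :
    Grid D r0 r1 vr vt δ a b Ps0 Ps1 Krr Ktt Lam := by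
  have hpi := Real.pi_pos
  have hpi3 := Real.pi_gt_three
  have ha0 : (0:ℝ) ≤ a * δ := by positivity
  -- range of the abscissa
  have hX : ∀ r ∈ Icc r0 r1, ∀ θ ∈ Icc ((a:ℝ) * δ) (((b:ℝ) + 1) * δ),
      -(r * Real.cos θ) ∈ Icc (-D.xL) xb := by
    intro r hrm θ hθ
    have hr' : 0 ≤ r := h0.trans hrm.1
    have hθ0 : 0 ≤ θ := ha0.trans hθ.1
    have hθ4 : θ ≤ 4 := hθ.2.trans hout.1
    constructor
    · rcases le_total θ Real.pi with hp | hp
      · have hcos : Real.cos θ ≤ Real.cos (a * δ) :=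
          Real.cos_le_cos_of_nonneg_of_le_pi ha0 hp hθ.1
        have hca : 0 ≤ Real.cos (a * δ) :=
          Real.cos_nonneg_of_mem_Icc ⟨by linarith, by linarith⟩
        have h3 : r * Real.cos θ ≤ r * Real.cos (a * δ) := by gcongr
        have h4 : r * Real.cos (a * δ) ≤ r1 * Real.cos (a * δ) := by
          have := hrm.2
          gcongr
        linarith
      · have hcos : Real.cos θ ≤ 0 :=
          Real.cos_nonpos_of_pi_div_two_le_of_le (by linarith) (by linarith)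
        have := mul_nonpos_of_nonneg_of_nonpos hr' hcos
        linarith
    · rcases hout.2 with h | ⟨h1, h2⟩
      · have h3 := Real.neg_one_le_cos θ
        have h4 := hrm.2
        nlinarith
      · have hcos : Real.cos (((b:ℝ) + 1) * δ) ≤ Real.cos θ :=
          Real.cos_le_cos_of_nonneg_of_le_pi hθ0 h1 hθ.2
        have h3 : r * Real.cos (((b:ℝ) + 1) * δ) ≤ r * Real.cos θ := by gcongr
        rcases le_total 0 (Real.cos (((b:ℝ) + 1) * δ)) with h5 | h5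
        · have : 0 ≤ r * Real.cos (((b:ℝ) + 1) * δ) := mul_nonneg hr' h5
          linarith
        · have h6 : r1 * Real.cos (((b:ℝ) + 1) * δ) ≤ r * Real.cos (((b:ℝ) + 1) * δ) :=
            mul_le_mul_of_nonpos_right hrm.2 h5
          linarith
  have hw2 : ∀ w, (w = vt ∨ w = -vt) → vr ^ 2 + w ^ 2 ≤ V ^ 2 := by
    intro w hw
    rcases hw with rfl | rfl
    · exact hv
    · rwa [neg_sq]
  have hjm : ∀ j : ℕ, a ≤ j → j ≤ b + 1 → (j:ℝ) * δ ∈ Icc ((a:ℝ) * δ) (((b:ℝ) + 1) * δ) := by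
    intro j hj hj'
    have e1 : (a:ℝ) ≤ j := by exact_mod_cast hj
    have e2 : (j:ℝ) ≤ b + 1 := by exact_mod_cast hj'
    exact ⟨by gcongr, by gcongr⟩
  refine ⟨hδ, hab, haδ, h0, hr, hP, hb1, hb0, ha, hb_of_num h0 hr hPs, hKrr', hKtt', hLam',
    ?_, ?_, ?_⟩
  · intro w hw j hj hj'
    have h := hS vr w (hw2 w hw) 0 1 (j * δ) 0 r0 r1 1 0 Krr (by simp) (by simp) (by
        intro t ht
        rw [mul_one, zero_add]
        exact ⟨hra.trans ht.1, ht.2.trans hrb⟩)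
      (by
        intro t ht
        rw [mul_one, zero_add, mul_zero, add_zero]
        exact hX t ht _ (hjm j hj hj')) hKrr
    refine h.congr ?_
    intro t _
    simp only [mul_one, zero_add, mul_zero, add_zero]
  · intro w hw r hrm
    have h := hS vr w (hw2 w hw) r 0 0 1 ((a:ℝ) * δ) (((b:ℝ) + 1) * δ) 0 1 Ktt
      (by simp) (by simp) (by
        intro t _
        rw [mul_zero, add_zero]
        exact ⟨hra.trans hrm.1, hrm.2.trans hrb⟩)
      (by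
        intro t ht
        rw [mul_zero, add_zero, zero_add, mul_one]
        exact hX r hrm t ht) hKtt
    refine h.congr ?_
    intro t _
    simp only [mul_zero, add_zero, zero_add, mul_one]
  · intro j j' hj hj'
    have hjb : (b:ℝ) ≤ j ∧ (j:ℝ) ≤ b + 1 := by
      rcases hj with rfl | rfl
      · exact ⟨le_rfl, by linarith⟩
      · push_cast
        exact ⟨by linarith, le_rfl⟩
    have hjb' : (b:ℝ) ≤ j' ∧ (j':ℝ) ≤ b + 1 := by
      rcases hj' with rfl | rfl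
      · exact ⟨le_rfl, by linarith⟩
      · push_cast
        exact ⟨by linarith, le_rfl⟩
    have habR : (a:ℝ) ≤ b := by exact_mod_cast hab
    have hdθ : |(j:ℝ) * δ - j' * δ| ≤ δ := by
      rw [← sub_mul, abs_mul, abs_of_pos hδ]
      have : |(j:ℝ) - j'| ≤ 1 := by
        rw [abs_le]
        constructor <;> linarith [hjb.1, hjb.2, hjb'.1, hjb'.2]
      nlinarith
    have hdr : |r1 - r0| ≤ r1 - r0 := by rw [abs_of_nonneg (by linarith)]
    have one : ∀ w, (w = vt ∨ w = -vt) →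
        max 0 (D.gs r1 vr w (Real.cos (j * δ)) (Real.sin (j * δ))) -
        max 0 (D.gs r0 vr w (Real.cos (j' * δ)) (Real.sin (j' * δ))) ≤ Lf (r1 - r0) δ := by
      intro w hw
      have h := hLp vr w (hw2 w hw) r0 (r1 - r0) (j' * δ) (j * δ - j' * δ) (r1 - r0) δ hdr hdθ
        (by
          intro t ht
          have h1 := ht.1
          have h2 := ht.2
          constructor <;> nlinarith)
        (by
          intro t ht
          have h1 := ht.1
          have h2 := ht.2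
          have h3 : 0 ≤ 1 - t := by linarith
          apply hX
          · constructor <;> nlinarith
          · have e1 : (j':ℝ) * δ + t * (j * δ - j' * δ) = ((1 - t) * j' + t * j) * δ := by ring
            rw [e1]
            have e2 : (b:ℝ) ≤ (1 - t) * j' + t * j := by nlinarith [hjb.1, hjb'.1]
            have e3 : (1 - t) * j' + t * j ≤ (b:ℝ) + 1 := by nlinarith [hjb.2, hjb'.2]
            constructor
            · have : (a:ℝ) ≤ (1 - t) * j' + t * j := habR.trans e2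
              gcongr
            · gcongr)
      have e1 : r0 + (r1 - r0) = r1 := by ring
      have e2 : (j':ℝ) * δ + (j * δ - j' * δ) = j * δ := by ring
      rw [e1, e2] at h
      have h2 := abs_max_sub_max_le_abs (D.gs r1 vr w (Real.cos (j * δ)) (Real.sin (j * δ)))
        (D.gs r0 vr w (Real.cos (j' * δ)) (Real.sin (j' * δ))) 0
      rw [max_comm _ 0, max_comm _ 0] at h2
      exact (le_abs_self _).trans (h2.trans h)
    have o1 := one vt (Or.inl rfl)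
    have o2 := one (-vt) (Or.inr rfl)
    unfold POS
    linarith

/-- conditions on the strip function near the interface `x = -xL`, general form -/
structure Sliv' (D : Dat) (V eps s0 q0 : ℝ) : Prop where
  heps : eps < D.xL
  hs0 : 0 ≤ s0
  hq0 : q0 ≤ 1
  lo : ∀ x ∈ Icc (-D.xL) (-D.xL + eps), ∀ w ∈ Icc (0:ℝ) 1, 1 / x + s0 ≤ D.bx x w
  hi : ∀ x ∈ Icc (-D.xL) (-D.xL + eps), ∀ w ∈ Icc (0:ℝ) 1, D.bx x w ≤ 0
  q1 : ∀ x ∈ Icc (-D.xL) (-D.xL + eps), ∀ w ∈ Icc (0:ℝ) 1,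
    2 * (V + D.rB) / D.rB * |D.bw x w| ≤ q0

theorem sliver' {D : Dat} {V eps s0 q0 : ℝ} (hS : Sliv' D V eps s0 q0) (hrB : 0 < D.rB)
    (hV : 0 ≤ V)
    {r θ vr u : ℝ} (hr : 0 < r) (h1 : D.xL - eps ≤ r * Real.cos θ) (h2 : r * Real.cos θ ≤ D.xL)
    (hv : vr ^ 2 + u ^ 2 ≤ V ^ 2) :
    max 0 (D.gs r vr u (Real.cos θ) (Real.sin θ)) ≤
      max 0 ((-vr + u * Real.tan θ) / r) + max 0 (q0 - s0 * (D.xL - eps)) := by
  have heps := hS.heps
  set c := Real.cos θ with hc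
  set s := Real.sin θ with hs
  have hy : 0 < r * c := by linarith
  have hc0 : 0 < c := by
    by_contra hcon
    have := mul_nonpos_of_nonneg_of_nonpos hr.le (not_lt.mp hcon)
    linarith
  set y := r * c with hydef
  have hxm : -y ∈ Icc (-D.xL) (-D.xL + eps) := ⟨by linarith, by linarith⟩
  have hwm : D.W r ∈ Icc (0:ℝ) 1 := ⟨Dat.W_nonneg _, Dat.W_le_one _⟩
  have a1 := hS.lo _ hxm _ hwm
  have a2 := hS.hi _ hxm _ hwm
  have a3 := hS.q1 _ hxm _ hwm
  have a4 := hS.hq0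
  have hs0 := hS.hs0
  have hvr : |vr| ≤ V := abs_le_of_sq_le_sq (by nlinarith [sq_nonneg u]) hV
  have hQ : |2 * r / D.rB ^ 2 * (vr - r) * D.bw (-y) (D.W r)| ≤
      2 * (V + D.rB) / D.rB * |D.bw (-y) (D.W r)| := by
    rcases le_or_gt r D.rB with h | h
    · rw [abs_mul]
      apply mul_le_mul_of_nonneg_right _ (abs_nonneg _)
      rw [abs_mul, abs_of_nonneg (by positivity : 0 ≤ 2 * r / D.rB ^ 2)]
      have e1 : |vr - r| ≤ V + D.rB := by
        refine (abs_sub_le' hvr (le_of_eq (abs_of_pos hr))).trans ?_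
        linarith
      have e2 : 2 * r / D.rB ^ 2 ≤ 2 * D.rB / D.rB ^ 2 := by gcongr
      have e3 : 2 * D.rB / D.rB ^ 2 * (V + D.rB) = 2 * (V + D.rB) / D.rB := by
        field_simp
      rw [← e3]
      exact mul_le_mul e2 e1 (abs_nonneg _) (by positivity)
    · have hW : D.W r = 0 := by
        unfold Dat.W
        apply max_eq_left
        rw [sub_nonpos, one_le_div (by positivity)]
        have := h.le
        gcongr
      rw [hW, bw_zero]
      simp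
  set Vx := -(vr * c) + u * s with hVx
  have hgs : D.gs r vr u c s = -1 - D.bx (-y) (D.W r) * (Vx + y) +
      2 * r / D.rB ^ 2 * (vr - r) * D.bw (-y) (D.W r) := by
    unfold Dat.gs
    rw [hVx, hydef]
  have hgL : (-vr + u * Real.tan θ) / r = Vx / y := by
    rw [Real.tan_eq_sin_div_cos, ← hc, ← hs, hVx, hydef]
    field_simp
  rw [hgs, hgL]
  set bxv := D.bx (-y) (D.W r)
  set T := 2 * r / D.rB ^ 2 * (vr - r) * D.bw (-y) (D.W r) with hT
  have hT1 : T ≤ q0 := (le_abs_self _).trans (hQ.trans a3)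
  have hlo : -(1 / y) + s0 ≤ bxv := by
    have e1 : (1:ℝ) / -y = -(1 / y) := by
      rw [div_neg]
    rw [e1] at a1
    exact a1
  have hsy : s0 * (D.xL - eps) ≤ s0 * y := by gcongr
  have hsl0 := le_max_left 0 (q0 - s0 * (D.xL - eps))
  have hsl1 := le_max_right 0 (q0 - s0 * (D.xL - eps))
  set sl := max 0 (q0 - s0 * (D.xL - eps))
  rcases le_or_gt 0 Vx with hpos | hneg
  · have g0 : 0 ≤ Vx / y := div_nonneg hpos hy.le
    rw [max_eq_right g0]
    apply max_le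
    · linarith
    · have e1 : (-(1 / y) + s0) * (Vx + y) ≤ bxv * (Vx + y) := by
        apply mul_le_mul_of_nonneg_right hlo
        linarith
      have e2 : (-(1 / y) + s0) * (Vx + y) = -(Vx / y) - 1 + s0 * (Vx + y) := by
        field_simp
        ring
      have e3 : s0 * y ≤ s0 * (Vx + y) := by
        apply mul_le_mul_of_nonneg_left _ hs0
        linarith
      linarith
  · have h0 : -1 - bxv * (Vx + y) + T ≤ sl := by
      rcases le_or_gt 0 (Vx + y) with h3 | h3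
      · have e1 : (-(1 / y) + s0) * (Vx + y) ≤ bxv * (Vx + y) :=
          mul_le_mul_of_nonneg_right hlo h3
        have e2 : 0 ≤ 1 / y - s0 := by linarith
        have e3 : (1 / y - s0) * (Vx + y) ≤ (1 / y - s0) * y := by
          apply mul_le_mul_of_nonneg_left _ e2
          linarith
        have e4 : (1 / y - s0) * y = 1 - s0 * y := by
          field_simp
        nlinarith
      · have e1 : 0 ≤ bxv * (Vx + y) := mul_nonneg_of_nonpos_of_nonpos a2 h3.le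
        linarith
    have g1 := le_max_left 0 (Vx / y)
    apply max_le
    · linarith
    · linarith

/-- sliver hypothesis of `grid_pair` -/
theorem hf_grid {D : Dat} {V eps s0 q0 : ℝ} (hS : Sliv' D V eps s0 q0) (hrB : 0 < D.rB)
    (hV : 0 ≤ V) {r0 r1 vr vt A : ℝ} (h0 : 0 < r0) (hA0 : 0 ≤ A) (hA1 : A < Real.pi / 2)
    (hv : vr ^ 2 + vt ^ 2 ≤ V ^ 2) (e0 : D.xL - eps ≤ r0 * Real.cos A) :
    ∀ r ∈ Icc r0 r1, ∀ w, (w = vt ∨ w = -vt) → ∀ θ ∈ Icc 0 A,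
      r * Real.cos θ ≤ D.xL →
      max 0 (D.gs r vr w (Real.cos θ) (Real.sin θ)) ≤
        max 0 ((-vr + w * Real.tan θ) / r) + max 0 (q0 - s0 * (D.xL - eps)) := by
  intro r hrm w hw θ hθ hle
  have hrp : 0 < r := lt_of_lt_of_le h0 hrm.1
  have hcos : Real.cos A ≤ Real.cos θ :=
    Real.cos_le_cos_of_nonneg_of_le_pi hθ.1 (by linarith [Real.pi_pos]) hθ.2
  have hca : 0 ≤ Real.cos A :=
    Real.cos_nonneg_of_mem_Icc ⟨by linarith [Real.pi_pos], hA1.le⟩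
  have k1 : r0 * Real.cos A ≤ r * Real.cos A := by
    have := hrm.1
    gcongr
  have k2 : r * Real.cos A ≤ r * Real.cos θ := by gcongr
  apply sliver' hS hrB hV hrp (by linarith) hle
  rcases hw with rfl | rfl
  · exact hv
  · rwa [neg_sq]

end Pool.Agent.H44.Shore
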