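import Mathlib
import Pool.Agent.H44.Shore.Lip

/-!
Shoreline search: cones spanned by the vertices of a polygon, and rows.
-/

open MeasureTheory Set Filter Topology Polynomial
open scoped Interval ENNReal

namespace Pool.Agent.H44.Shore

/-- cross product -/
def cross (p q : ℝ × ℝ) : ℝ := p.1 * q.2 - p.2 * q.1

theorem discrete_ivt {s : ℕ → ℝ} {N : ℕ} (h0 : 0 ≤ s 0) (hN : s N ≤ 0) (hN0 : 0 < N) :
    ∃ k, k < N ∧ 0 ≤ s k ∧ s (k + 1) ≤ 0 := by
  induction N with
  | zero => omega
  | succ n ih =>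
    rcases le_or_gt 0 (s n) with h | h
    · exact ⟨n, by omega, h, hN⟩
    · rcases Nat.eq_zero_or_pos n with rfl | hn
      · linarith
      · obtain ⟨k, hk, h1, h2⟩ := ih h.le hn
        exact ⟨k, by omega, h1, h2⟩

/-- **Cone lemma for a chain of vertices.** -/
theorem cone_chain {F : ℝ × ℝ → ℝ} (hF : ConvexOn ℝ univ F) {p : ℕ → ℝ × ℝ} {N : ℕ}
    (hN : 0 < N) (hc : ∀ k, k < N → 0 < cross (p k) (p (k + 1)))
    (hd : ∀ k, k < N → ((p k).1 - (p (k + 1)).1) ^ 2 + ((p k).2 - (p (k + 1)).2) ^ 2 ≤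
      (cross (p k) (p (k + 1))) ^ 2)
    (F0 : F 0 ≤ 0) (Fp : ∀ k, k ≤ N → F (p k) ≤ 0) {v : ℝ × ℝ} (hv : v.1 ^ 2 + v.2 ^ 2 ≤ 1)
    (h1 : 0 ≤ cross (p 0) v) (h2 : 0 ≤ cross v (p N)) : F v ≤ 0 := by
  obtain ⟨k, hk, k1, k2⟩ := discrete_ivt (s := fun k => cross (p k) v) h1
    (by
      have : cross (p N) v = -cross v (p N) := by unfold cross; ring
      show cross (p N) v ≤ 0
      rw [this]
      linarith) hN
  have k3 : 0 ≤ cross v (p (k + 1)) := by
    have : cross v (p (k + 1)) = -cross (p (k + 1)) v := by unfold cross; ring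
    rw [this]
    linarith
  exact cone_lemma hF (hc k hk) (hd k hk) hv k1 k3 F0 (Fp k hk.le) (Fp (k + 1) hk)

/-- every point between the first and the last row lies between two consecutive rows -/
theorem exists_row {ρ : ℕ → ℝ} {n : ℕ} (hn : 0 < n) {r : ℝ} (h0 : ρ 0 ≤ r) (h1 : r ≤ ρ n) :
    ∃ i, i < n ∧ ρ i ≤ r ∧ r ≤ ρ (i + 1) := by
  obtain ⟨k, hk, k1, k2⟩ := discrete_ivt (s := fun k => r - ρ k) (N := n) (by simpa using h0)
    (by simpa using h1) hn
  exact ⟨k, hk, by linarith, by linarith⟩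

theorem exists_lin {a b r : ℝ} (hab : a < b) (h0 : a ≤ r) (h1 : r ≤ b) :
    ∃ lam ∈ Icc (0:ℝ) 1, r = lin a b lam := by
  have hba : 0 < b - a := by linarith
  refine ⟨(r - a) / (b - a), ⟨div_nonneg (by linarith) hba.le, ?_⟩, ?_⟩
  · rw [div_le_one hba]
    linarith
  · unfold lin
    field_simp
    ring

/-- piecewise linear function with knots `ρ i`, values `μ i`, starting at the index `i`, with `n`
pieces -/
noncomputable def pl (ρ μ : ℕ → ℝ) : ℕ → ℕ → ℝ → ℝ
  | 0, i, _ => μ i
  | n + 1, i, r => if r ≤ ρ (i + 1) then μ i + (μ (i + 1) - μ i) * ((r - ρ i) / (ρ (i + 1) - ρ i))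
      else pl ρ μ n (i + 1) r

theorem pl_left {ρ μ : ℕ → ℝ} (n i : ℕ) (hρ : ∀ k, ρ k < ρ (k + 1)) :
    pl ρ μ n i (ρ i) = μ i := by
  cases n with
  | zero => rfl
  | succ n =>
    unfold pl
    rw [if_pos (hρ i).le]
    simp

theorem pl_continuous {ρ μ : ℕ → ℝ} (hρ : ∀ k, ρ k < ρ (k + 1)) (n i : ℕ) :
    Continuous (pl ρ μ n i) := by
  induction n generalizing i with
  | zero => exact continuous_const
  | succ n ih =>
    have h : pl ρ μ (n + 1) i = fun r => if r ≤ ρ (i + 1) then
        μ i + (μ (i + 1) - μ i) * ((r - ρ i) / (ρ (i + 1) - ρ i)) else pl ρ μ n (i + 1) r := by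
      funext r
      rfl
    rw [h]
    apply Continuous.if_le
    · fun_prop
    · exact ih (i + 1)
    · exact continuous_id
    · exact continuous_const
    · intro r hr
      rw [hr, pl_left n (i + 1) hρ]
      have : ρ (i + 1) - ρ i ≠ 0 := by
        have := hρ i
        linarith
      rw [div_self this]
      ring

theorem pl_eq {ρ μ : ℕ → ℝ} (hρ : ∀ k, ρ k < ρ (k + 1)) (n i j : ℕ) (hj : j < n) {lam : ℝ}
    (hl : lam ∈ Icc (0:ℝ) 1) :
    pl ρ μ n i (lin (ρ (i + j)) (ρ (i + j + 1)) lam) = lin (μ (i + j)) (μ (i + j + 1)) lam := by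
  induction n generalizing i j with
  | zero => omega
  | succ n ih =>
    have hmono : StrictMono ρ := strictMono_nat_of_lt_succ hρ
    rcases Nat.eq_zero_or_pos j with rfl | hj0
    · rw [add_zero]
      unfold pl
      have h1 := (lin_mem (hρ i).le hl).2
      rw [if_pos h1]
      have : ρ (i + 1) - ρ i ≠ 0 := by
        have := hρ i
        linarith
      unfold lin
      field_simp
      ring
    · have h1 := (lin_mem (hρ (i + j)).le hl).1
      have h2 : ρ (i + 1) ≤ ρ (i + j) := hmono.monotone (by omega)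
      rcases eq_or_lt_of_le (h2.trans h1) with h3 | h3
      · -- boundary: only possible for `j = 1`, `lam = 0`
        have h4 : ρ (i + 1) = ρ (i + j) := le_antisymm h2 (by rw [h3]; exact h1)
        have h5 : i + 1 = i + j := hmono.injective h4
        have h6 : j = 1 := by omega
        subst h6
        unfold pl
        rw [← h3, if_pos le_rfl]
        have hlam : lam = 0 := by
          have e1 : lin (ρ (i + 1)) (ρ (i + 1 + 1)) lam = ρ (i + 1) + lam * (ρ (i + 1 + 1) -
              ρ (i + 1)) := by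
            unfold lin
            ring
          rw [e1] at h3
          have h7 : lam * (ρ (i + 1 + 1) - ρ (i + 1)) = 0 := by linarith
          rcases mul_eq_zero.mp h7 with h | h
          · exact h
          · have := hρ (i + 1)
            linarith
        have : ρ (i + 1) - ρ i ≠ 0 := by
          have := hρ i
          linarith
        rw [hlam, div_self this]
        unfold lin
        ring
      · unfold pl
        rw [if_neg (not_le.mpr h3)]
        have h4 := ih (i + 1) (j - 1) (by omega)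
        have e1 : i + 1 + (j - 1) = i + j := by omega
        rw [e1] at h4
        exact h4

theorem pl_bounded {ρ μ : ℕ → ℝ} {C : ℝ} (hρ : ∀ k, ρ k < ρ (k + 1)) (hμ : ∀ k, |μ k| ≤ C)
    (n i : ℕ) {r : ℝ} (hr : ρ i ≤ r) : |pl ρ μ n i r| ≤ C := by
  induction n generalizing i with
  | zero => exact hμ i
  | succ n ih =>
    unfold pl
    split_ifs with h
    · have h1 : 0 < ρ (i + 1) - ρ i := by linarith [hρ i]
      set u := (r - ρ i) / (ρ (i + 1) - ρ i) with hu
      have hu0 : 0 ≤ u := div_nonneg (by linarith) h1.le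
      have hu1 : u ≤ 1 := by
        rw [hu, div_le_one h1]
        linarith
      have e : μ i + (μ (i + 1) - μ i) * u = (1 - u) * μ i + u * μ (i + 1) := by ring
      rw [e]
      have a1 : |(1 - u) * μ i| ≤ (1 - u) * C :=
        abs_mul_le (by rw [abs_of_nonneg (by linarith)]) (hμ i)
      have a2 : |u * μ (i + 1)| ≤ u * C := abs_mul_le (by rw [abs_of_nonneg hu0]) (hμ (i + 1))
      exact (abs_add_le' a1 a2).trans (le_of_eq (by ring))
    · exact ih (i + 1) (not_le.mp h).le

end Pool.Agent.H44.Shore
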