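import Mathlib
import Pool.Agent.H44.Shore.Kb

/-!
Shoreline search: sup norm bounds for the partial derivatives of the strip function by a kernel
evaluable check (Taylor shift on a grid of boxes, integer arithmetic).
-/

open Set Polynomial

namespace Pool.Agent.H44.Shore.MBC

open Pool.Agent.H44.Shore

/-- Horner evaluation -/
noncomputable def ev : List ℤ → ℝ → ℝ
  | [], _ => 0
  | c :: q, y => (c : ℝ) + y * ev q y

/-- Horner evaluation in two variables -/
noncomputable def ev2 : List (List ℤ) → ℝ → ℝ → ℝ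
  | [], _, _ => 0
  | p :: Q, y, z => ev p y + z * ev2 Q y z

/-- `a • S + T` -/
def axpy (a : ℤ) : List ℤ → List ℤ → List ℤ
  | [], T => T
  | s :: S, [] => Int.mul a s :: axpy a S []
  | s :: S, t :: T => Int.add t (Int.mul a s) :: axpy a S T

theorem ev_axpy (a : ℤ) (S T : List ℤ) (y : ℝ) : ev (axpy a S T) y = a * ev S y + ev T y := by
  induction S generalizing T with
  | nil => simp [axpy, ev]
  | cons s S ih =>
    cases T with
    | nil =>
      have e : Int.mul a s = a * s := rfl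
      simp only [axpy, ev, ih, e]
      push_cast
      ring
    | cons t T =>
      have e : Int.add t (Int.mul a s) = t + a * s := rfl
      simp only [axpy, ev, ih, e]
      push_cast
      ring

def stepS (a c : ℤ) (S : List ℤ) : List ℤ := axpy a S (c :: S)

/-- Taylor shift -/
def shift (a : ℤ) : List ℤ → List ℤ
  | [] => []
  | c :: q => stepS a c (shift a q)

theorem ev_shift (a : ℤ) (p : List ℤ) (y : ℝ) : ev (shift a p) y = ev p (y + a) := by
  induction p with
  | nil => rfl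
  | cons c q ih =>
    simp only [shift, stepS, ev_axpy, ev, ih]
    ring

/-- `a • S + T` for lists of lists -/
def axpy2 (a : ℤ) : List (List ℤ) → List (List ℤ) → List (List ℤ)
  | [], T => T
  | s :: S, [] => axpy a s [] :: axpy2 a S []
  | s :: S, t :: T => axpy a s t :: axpy2 a S T

theorem ev_axpy2 (a : ℤ) (S T : List (List ℤ)) (y z : ℝ) :
    ev2 (axpy2 a S T) y z = a * ev2 S y z + ev2 T y z := by
  induction S generalizing T with
  | nil => simp [axpy2, ev2]
  | cons s S ih =>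
    cases T with
    | nil =>
      simp only [axpy2, ev2, ih, ev_axpy, ev]
      ring
    | cons t T =>
      simp only [axpy2, ev2, ih, ev_axpy]
      ring

def stepZ (b : ℤ) (p : List ℤ) (S : List (List ℤ)) : List (List ℤ) := axpy2 b S (p :: S)

def shiftz (b : ℤ) : List (List ℤ) → List (List ℤ)
  | [] => []
  | p :: Q => stepZ b p (shiftz b Q)

theorem ev_shiftz (b : ℤ) (P : List (List ℤ)) (y z : ℝ) :
    ev2 (shiftz b P) y z = ev2 P y (z + b) := by
  induction P with
  | nil => rfl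
  | cons p Q ih =>
    simp only [shiftz, stepZ, ev_axpy2, ev2, ih]
    ring

def shiftx (a : ℤ) : List (List ℤ) → List (List ℤ)
  | [] => []
  | p :: Q => shift a p :: shiftx a Q

theorem ev_shiftx (a : ℤ) (P : List (List ℤ)) (y z : ℝ) :
    ev2 (shiftx a P) y z = ev2 P (y + a) z := by
  induction P with
  | nil => rfl
  | cons p Q ih =>
    simp only [shiftx, ev2, ih, ev_shift]

/-- bound of a polynomial on `|y| ≤ H` -/
def bnd (H : ℕ) : List ℤ → ℕ
  | [] => 0
  | c :: q => Nat.add c.natAbs (Nat.mul H (bnd H q))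

theorem abs_ev_le (H : ℕ) (p : List ℤ) {y : ℝ} (hy : |y| ≤ H) : |ev p y| ≤ bnd H p := by
  induction p with
  | nil => simp [ev, bnd]
  | cons c q ih =>
    have e : Nat.add c.natAbs (Nat.mul H (bnd H q)) = c.natAbs + H * bnd H q := rfl
    simp only [ev, bnd, e]
    push_cast
    apply abs_add_le'
    · rw [Nat.cast_natAbs]
      push_cast
      exact le_rfl
    · exact abs_mul_le hy ih

def bnd2 (H G : ℕ) : List (List ℤ) → ℕ
  | [] => 0
  | p :: Q => Nat.add (bnd H p) (Nat.mul G (bnd2 H G Q))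

theorem abs_ev2_le (H G : ℕ) (P : List (List ℤ)) {y z : ℝ} (hy : |y| ≤ H) (hz : |z| ≤ G) :
    |ev2 P y z| ≤ bnd2 H G P := by
  induction P with
  | nil => simp [ev2, bnd2]
  | cons p Q ih =>
    have e : Nat.add (bnd H p) (Nat.mul G (bnd2 H G Q)) = bnd H p + G * bnd2 H G Q := rfl
    simp only [ev2, bnd2, e]
    push_cast
    exact abs_add_le' (abs_ev_le H p hy) (abs_mul_le hz ih)

/-- loop over the blocks in the second variable -/
def chkz (H G M : ℕ) (P : List (List ℤ)) (zs : ℤ) : ℕ → Bool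
  | 0 => true
  | l + 1 => Nat.ble (bnd2 H G (shiftz (zs + (((2 * l + 1) * G : ℕ) : ℤ)) P)) M &&
      chkz H G M P zs l

/-- loop over the blocks in the first variable -/
def chkx (H G M : ℕ) (P : List (List ℤ)) (ys zs : ℤ) (Nz : ℕ) : ℕ → Bool
  | 0 => true
  | k + 1 => chkz H G M (shiftx (ys + (((2 * k + 1) * H : ℕ) : ℤ)) P) zs Nz &&
      chkx H G M P ys zs Nz k

theorem block {s : ℤ} {H N : ℕ} (hN : 0 < N) {y : ℝ} (h0 : (s:ℝ) ≤ y)
    (h1 : y ≤ s + 2 * N * H) : ∃ k, k < N ∧ |y - ((s + (((2 * k + 1) * H : ℕ) : ℤ) : ℤ) : ℝ)| ≤ H := by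
  induction N with
  | zero => omega
  | succ n ih =>
    rcases le_or_gt y (s + 2 * n * H) with h | h
    · rcases Nat.eq_zero_or_pos n with rfl | hn
      · refine ⟨0, by omega, ?_⟩
        push_cast at h ⊢
        have hH : (0:ℝ) ≤ H := Nat.cast_nonneg H
        rw [abs_le]
        constructor <;> linarith
      · obtain ⟨k, hk, hk2⟩ := ih hn h
        exact ⟨k, by omega, hk2⟩
    · refine ⟨n, by omega, ?_⟩
      push_cast at h1 ⊢
      rw [abs_le]
      constructor <;> linarith

theorem chkz_sound {H G M : ℕ} {P : List (List ℤ)} {zs : ℤ} {N : ℕ}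
    (h : chkz H G M P zs N = true) :
    ∀ l, l < N → bnd2 H G (shiftz (zs + (((2 * l + 1) * G : ℕ) : ℤ)) P) ≤ M := by
  induction N with
  | zero => intro l hl; omega
  | succ n ih =>
    intro l hl
    rw [chkz, Bool.and_eq_true] at h
    rcases Nat.lt_succ_iff_lt_or_eq.mp hl with h1 | h1
    · exact ih h.2 l h1
    · subst h1
      exact Nat.le_of_ble_eq_true h.1

theorem chkx_sound {H G M : ℕ} {P : List (List ℤ)} {ys zs : ℤ} {Nz N : ℕ}
    (h : chkx H G M P ys zs Nz N = true) :
    ∀ k, k < N → chkz H G M (shiftx (ys + (((2 * k + 1) * H : ℕ) : ℤ)) P) zs Nz = true := by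
  induction N with
  | zero => intro l hl; omega
  | succ n ih =>
    intro l hl
    rw [chkx, Bool.and_eq_true] at h
    rcases Nat.lt_succ_iff_lt_or_eq.mp hl with h1 | h1
    · exact ih h.2 l h1
    · subst h1
      exact h.1

/-- **Bound on a rectangle.** -/
theorem chk_bound {H G M : ℕ} {P : List (List ℤ)} {ys zs : ℤ} {Nx Nz : ℕ}
    (h : chkx H G M P ys zs Nz Nx = true) (hx : 0 < Nx) (hz : 0 < Nz) {y z : ℝ}
    (hy0 : (ys:ℝ) ≤ y) (hy1 : y ≤ ys + 2 * Nx * H) (hz0 : (zs:ℝ) ≤ z)
    (hz1 : z ≤ zs + 2 * Nz * G) : |ev2 P y z| ≤ M := by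
  obtain ⟨k, hk, hk2⟩ := block hx hy0 hy1
  obtain ⟨l, hl, hl2⟩ := block hz hz0 hz1
  have h1 := chkz_sound (chkx_sound h k hk) l hl
  set a : ℤ := ys + (((2 * k + 1) * H : ℕ) : ℤ)
  set b : ℤ := zs + (((2 * l + 1) * G : ℕ) : ℤ)
  have h2 := abs_ev2_le H G (shiftz b (shiftx a P)) hk2 hl2
  rw [ev_shiftz, ev_shiftx] at h2
  have e1 : y - (a:ℝ) + a = y := by ring
  have e2 : z - (b:ℝ) + b = z := by ring
  rw [e1, e2] at h2
  exact h2.trans (by exact_mod_cast h1)

/-! ### The partial derivatives as double sums -/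

/-- coefficient of `w^k x^m` in the strip function -/
noncomputable def cf (D : Dat) : ℕ → ℕ → ℝ
  | 0, m => D.B0.coeff m
  | 1, _ => 0
  | 2, m => D.B2.coeff m
  | 3, m => D.B3.coeff m
  | 4, m => D.B4.coeff m
  | _, _ => 0

theorem eval_der (q : ℝ[X]) (hq : q.natDegree < 8) (i : ℕ) (x : ℝ) :
    (derivative^[i] q).eval x =
      ∑ m ∈ Finset.range 8, ((m + i).descFactorial i : ℝ) * q.coeff (m + i) * x ^ m := by
  rw [Polynomial.eval_eq_sum_range' (n := 8)]
  · apply Finset.sum_congr rfl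
    intro m _
    rw [Polynomial.coeff_iterate_derivative, nsmul_eq_mul]
  · have := Polynomial.natDegree_iterate_derivative q i
    omega

/-- degree condition -/
structure Deg (D : Dat) : Prop where
  d0 : D.B0.natDegree < 8
  d2 : D.B2.natDegree < 8
  d3 : D.B3.natDegree < 8
  d4 : D.B4.natDegree < 8

theorem bd_sum {D : Dat} (h : Deg D) (i j : ℕ) (hj : j ≤ 3) (x w : ℝ) :
    D.bd i j x w = ∑ n ∈ Finset.range 5, w ^ n * (((n + j).descFactorial j : ℝ) *
      ∑ m ∈ Finset.range 8, ((m + i).descFactorial i : ℝ) * cf D (n + j) (m + i) * x ^ m) := by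
  unfold Dat.bd
  rw [eval_der _ h.d0, eval_der _ h.d2, eval_der _ h.d3, eval_der _ h.d4]
  have hz : ∑ m ∈ Finset.range 8, ((m + i).descFactorial i : ℝ) * 0 * x ^ m = 0 := by
    simp
  interval_cases j
  · simp only [Finset.sum_range_succ (n := 4), Finset.sum_range_succ (n := 3),
      Finset.sum_range_succ (n := 2), Finset.sum_range_succ (n := 1),
      Finset.sum_range_succ (n := 0), Finset.sum_range_zero, cf, add_zero, zero_add, hz,
      Nat.descFactorial]
    simp
  · simp only [Finset.sum_range_succ (n := 4), Finset.sum_range_succ (n := 3),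
      Finset.sum_range_succ (n := 2), Finset.sum_range_succ (n := 1),
      Finset.sum_range_succ (n := 0), Finset.sum_range_zero, cf, zero_add, hz,
      Nat.descFactorial, Nat.reduceAdd]
    simp
    ring
  · simp only [Finset.sum_range_succ (n := 4), Finset.sum_range_succ (n := 3),
      Finset.sum_range_succ (n := 2), Finset.sum_range_succ (n := 1),
      Finset.sum_range_succ (n := 0), Finset.sum_range_zero, cf, zero_add, hz,
      Nat.descFactorial, Nat.reduceAdd]
    simp
    ring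
  · simp only [Finset.sum_range_succ (n := 4), Finset.sum_range_succ (n := 3),
      Finset.sum_range_succ (n := 2), Finset.sum_range_succ (n := 1),
      Finset.sum_range_succ (n := 0), Finset.sum_range_zero, cf, zero_add, hz,
      Nat.descFactorial, Nat.reduceAdd]
    simp
    ring

/-! ### Integer coefficient lists -/

/-- list `f a, f (a + 1), ...` of length `N` -/
def mk {α : Type} (f : ℕ → α) : ℕ → ℕ → List α
  | 0, _ => []
  | N + 1, a => f a :: mk f N (a + 1)

theorem ev_mk (f : ℕ → ℤ) (N a : ℕ) (y : ℝ) :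
    ev (mk f N a) y = ∑ m ∈ Finset.range N, (f (a + m) : ℝ) * y ^ m := by
  induction N generalizing a with
  | zero => simp [mk, ev]
  | succ n ih =>
    simp only [mk, ev, ih]
    rw [Finset.sum_range_succ']
    simp only [pow_zero, mul_one, add_zero]
    rw [add_comm, Finset.mul_sum]
    congr 1
    apply Finset.sum_congr rfl
    intro m _
    rw [show a + 1 + m = a + (m + 1) by omega]
    ring

theorem ev2_mk (g : ℕ → List ℤ) (N a : ℕ) (y z : ℝ) :
    ev2 (mk g N a) y z = ∑ n ∈ Finset.range N, z ^ n * ev (g (a + n)) y := by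
  induction N generalizing a with
  | zero => simp [mk, ev2]
  | succ n ih =>
    simp only [mk, ev2, ih]
    rw [Finset.sum_range_succ']
    simp only [pow_zero, one_mul, add_zero]
    rw [add_comm, Finset.mul_sum]
    congr 1
    apply Finset.sum_congr rfl
    intro m _
    rw [show a + 1 + m = a + (m + 1) by omega]
    ring

/-- coefficient `m` of row `k` -/
def gc (L : List (List ℤ)) (k m : ℕ) : ℤ := (L.getD k []).getD m 0

/-- scaled coefficient lists of the partial derivative `(i, j)` -/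
def gen (L : List (List ℤ)) (s q i j : ℕ) : List (List ℤ) :=
  mk (fun n => mk (fun m => Int.mul (Int.mul ((Nat.mul ((n + j).descFactorial j)
    ((m + i).descFactorial i) : ℕ) : ℤ) (gc L (n + j) (m + i)))
    ((Nat.pow 2 (Nat.add (Nat.mul s (Nat.sub 7 m)) (Nat.mul q (Nat.sub 4 n))) : ℕ) : ℤ)) 8 0) 5 0

theorem ev2_gen (L : List (List ℤ)) (s q i j : ℕ) (x w : ℝ) :
    ev2 (gen L s q i j) (2 ^ s * x) (2 ^ q * w) = 2 ^ (7 * s + 4 * q) *
      ∑ n ∈ Finset.range 5, w ^ n * (((n + j).descFactorial j : ℝ) *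
        ∑ m ∈ Finset.range 8, ((m + i).descFactorial i : ℝ) * (gc L (n + j) (m + i) : ℝ) *
          x ^ m) := by
  unfold gen
  rw [ev2_mk, Finset.mul_sum]
  apply Finset.sum_congr rfl
  intro n hn
  rw [ev_mk, Finset.mul_sum, Finset.mul_sum, Finset.mul_sum, Finset.mul_sum]
  apply Finset.sum_congr rfl
  intro m hm
  have hn' : n < 5 := Finset.mem_range.mp hn
  have hm' : m < 8 := Finset.mem_range.mp hm
  have e : ((Int.mul (Int.mul ((Nat.mul ((0 + n + j).descFactorial j)
      ((0 + m + i).descFactorial i) : ℕ) : ℤ) (gc L (0 + n + j) (0 + m + i)))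
      ((Nat.pow 2 (Nat.add (Nat.mul s (Nat.sub 7 (0 + m))) (Nat.mul q (Nat.sub 4 (0 + n)))) : ℕ) :
        ℤ) : ℤ) : ℝ) = ((n + j).descFactorial j : ℝ) * ((m + i).descFactorial i : ℝ) *
      (gc L (n + j) (m + i) : ℝ) * 2 ^ (s * (7 - m) + q * (4 - n)) := by
    simp only [zero_add]
    show (((((n + j).descFactorial j * (m + i).descFactorial i : ℕ) : ℤ) *
      gc L (n + j) (m + i) * ((2 ^ (s * (7 - m) + q * (4 - n)) : ℕ) : ℤ) : ℤ) : ℝ) = _
    push_cast
    ring
  rw [e]
  have hp : (2:ℝ) ^ (7 * s + 4 * q) = 2 ^ (s * (7 - m) + q * (4 - n)) * 2 ^ (s * m) *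
      2 ^ (q * n) := by
    rw [← pow_add, ← pow_add]
    congr 1
    obtain ⟨u, hu⟩ : ∃ u, 7 = m + u := ⟨7 - m, by omega⟩
    obtain ⟨v, hv⟩ : ∃ v, 4 = n + v := ⟨4 - n, by omega⟩
    rw [show 7 - m = u by omega, show 4 - n = v by omega, hu, hv]
    ring
  rw [hp, mul_pow, mul_pow, ← pow_mul, ← pow_mul]
  ring

theorem gc_zero {L : List (List ℤ)} (h5 : L.length ≤ 5) (h8 : ∀ r ∈ L, r.length ≤ 8) {k m : ℕ}
    (h : 5 ≤ k ∨ 8 ≤ m) : gc L k m = 0 := by
  unfold gc
  rcases h with h | h
  · rw [List.getD_eq_default (l := L) _ (by omega)]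
    simp
  · by_cases hk : k < L.length
    · apply List.getD_eq_default
      have : L.getD k [] ∈ L := by
        rw [List.getD_eq_getElem _ _ hk]
        exact List.getElem_mem hk
      have := h8 _ this
      omega
    · rw [List.getD_eq_default (l := L) _ (by omega)]
      simp

theorem cf_zero {D : Dat} (hD : Deg D) {k m : ℕ} (h : 5 ≤ k ∨ 8 ≤ m) : cf D k m = 0 := by
  rcases h with h | h
  · obtain ⟨k', rfl⟩ : ∃ k', k = k' + 5 := ⟨k - 5, by omega⟩
    rfl
  · have hz : ∀ q : ℝ[X], q.natDegree < 8 → q.coeff m = 0 := fun q hq =>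
      Polynomial.coeff_eq_zero_of_natDegree_lt (by omega)
    rcases k with _ | _ | _ | _ | _ | k
    · exact hz _ hD.d0
    · rfl
    · exact hz _ hD.d2
    · exact hz _ hD.d3
    · exact hz _ hD.d4
    · rfl

/-- approximation of the coefficients by integers over `2 ^ C` -/
structure Apx (D : Dat) (L : List (List ℤ)) (C : ℕ) (eps : ℝ) : Prop where
  deg : Deg D
  l5 : L.length ≤ 5
  l8 : ∀ r ∈ L, r.length ≤ 8
  eps0 : 0 ≤ eps
  h : ∀ k, k < 5 → ∀ m, m < 8 → |cf D k m - (gc L k m : ℝ) / 2 ^ C| ≤ eps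

theorem Apx.all {D : Dat} {L : List (List ℤ)} {C : ℕ} {eps : ℝ} (h : Apx D L C eps) (k m : ℕ) :
    |cf D k m - (gc L k m : ℝ) / 2 ^ C| ≤ eps := by
  by_cases hk : k < 5
  · by_cases hm : m < 8
    · exact h.h k hk m hm
    · rw [cf_zero h.deg (Or.inr (by omega)), gc_zero h.l5 h.l8 (Or.inr (by omega))]
      simpa using h.eps0
  · rw [cf_zero h.deg (Or.inl (by omega)), gc_zero h.l5 h.l8 (Or.inl (by omega))]
    simpa using h.eps0

theorem sum_fac {i j : ℕ} (hij : i + j ≤ 3) :
    ∑ n ∈ Finset.range 5, ((n + j).descFactorial j *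
      ∑ m ∈ Finset.range 8, (m + i).descFactorial i) ≤ 10000 := by
  have hi : i ≤ 3 := by omega
  have hj : j ≤ 3 := by omega
  interval_cases i <;> interval_cases j <;> first | omega | decide

/-- **Bound of a partial derivative from the check.** -/
theorem bd_bound {D : Dat} {L : List (List ℤ)} {C : ℕ} {eps : ℝ} (hA : Apx D L C eps)
    {s q i j : ℕ} (hij : i + j ≤ 3) {H G M : ℕ} {ys zs : ℤ} {Nx Nz : ℕ}
    (hchk : chkx H G M (gen L s q i j) ys zs Nz Nx = true) (hNx : 0 < Nx) (hNz : 0 < Nz)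
    {xa xb wa wb : ℝ} (hx0 : (ys:ℝ) ≤ 2 ^ s * xa) (hx1 : 2 ^ s * xb ≤ ys + 2 * Nx * H)
    (hz0 : (zs:ℝ) ≤ 2 ^ q * wa) (hz1 : 2 ^ q * wb ≤ zs + 2 * Nz * G)
    (hxa : -1 ≤ xa) (hxb : xb ≤ 1) (hwa : -1 ≤ wa) (hwb : wb ≤ 1)
    {B : ℝ} (hB : (M:ℝ) / 2 ^ (C + (7 * s + 4 * q)) + 10000 * eps ≤ B) :
    ∀ x ∈ Icc xa xb, ∀ w ∈ Icc wa wb, |D.bd i j x w| ≤ B := by
  intro x hx w hw
  refine le_trans ?_ hB
  have hj : j ≤ 3 := by omega
  have hx1' : |x| ≤ 1 := abs_le.mpr ⟨by linarith [hx.1], by linarith [hx.2]⟩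
  have hw1' : |w| ≤ 1 := abs_le.mpr ⟨by linarith [hw.1], by linarith [hw.2]⟩
  have h2s : (0:ℝ) < 2 ^ s := by positivity
  have h2q : (0:ℝ) < 2 ^ q := by positivity
  have h1 := chk_bound hchk hNx hNz (y := 2 ^ s * x) (z := 2 ^ q * w)
    (hx0.trans (by have := hx.1; gcongr)) (le_trans (by have := hx.2; gcongr) hx1)
    (hz0.trans (by have := hw.1; gcongr)) (le_trans (by have := hw.2; gcongr) hz1)
  rw [ev2_gen] at h1
  set A : ℝ := ∑ n ∈ Finset.range 5, w ^ n * (((n + j).descFactorial j : ℝ) *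
        ∑ m ∈ Finset.range 8, ((m + i).descFactorial i : ℝ) * (gc L (n + j) (m + i) : ℝ) *
          x ^ m) with hAdef
  have hbd := bd_sum hA.deg i j hj x w
  have hdiff : |D.bd i j x w - A / 2 ^ C| ≤ 10000 * eps := by
    have e1 : D.bd i j x w - A / 2 ^ C = ∑ n ∈ Finset.range 5,
        w ^ n * (((n + j).descFactorial j : ℝ) *
        ∑ m ∈ Finset.range 8, ((m + i).descFactorial i : ℝ) *
          (cf D (n + j) (m + i) - (gc L (n + j) (m + i) : ℝ) / 2 ^ C) * x ^ m) := by
      rw [hbd, hAdef, Finset.sum_div, ← Finset.sum_sub_distrib]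
      apply Finset.sum_congr rfl
      intro n _
      rw [show w ^ n * (((n + j).descFactorial j : ℝ) *
        ∑ m ∈ Finset.range 8, ((m + i).descFactorial i : ℝ) * (gc L (n + j) (m + i) : ℝ) *
          x ^ m) / 2 ^ C = w ^ n * (((n + j).descFactorial j : ℝ) *
        ((∑ m ∈ Finset.range 8, ((m + i).descFactorial i : ℝ) * (gc L (n + j) (m + i) : ℝ) *
          x ^ m) / 2 ^ C)) by ring]
      rw [← mul_sub, ← mul_sub, Finset.sum_div, ← Finset.sum_sub_distrib]
      congr 2
      apply Finset.sum_congr rfl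
      intro m _
      ring
    rw [e1]
    have e2 : ∀ n ∈ Finset.range 5, |w ^ n * (((n + j).descFactorial j : ℝ) *
        ∑ m ∈ Finset.range 8, ((m + i).descFactorial i : ℝ) *
          (cf D (n + j) (m + i) - (gc L (n + j) (m + i) : ℝ) / 2 ^ C) * x ^ m)| ≤
        ((n + j).descFactorial j : ℝ) * ((∑ m ∈ Finset.range 8, ((m + i).descFactorial i : ℝ)) *
          eps) := by
      intro n _
      have f1 : |∑ m ∈ Finset.range 8, ((m + i).descFactorial i : ℝ) *
          (cf D (n + j) (m + i) - (gc L (n + j) (m + i) : ℝ) / 2 ^ C) * x ^ m| ≤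
          (∑ m ∈ Finset.range 8, ((m + i).descFactorial i : ℝ)) * eps := by
        refine (Finset.abs_sum_le_sum_abs _ _).trans ?_
        rw [Finset.sum_mul]
        apply Finset.sum_le_sum
        intro m _
        have g1 := hA.all (n + j) (m + i)
        have g2 : |x ^ m| ≤ 1 := by
          rw [abs_pow]
          exact pow_le_one₀ (abs_nonneg _) hx1'
        have g3 : |((m + i).descFactorial i : ℝ)| ≤ ((m + i).descFactorial i : ℝ) := by
          rw [abs_of_nonneg (Nat.cast_nonneg _)]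
        have g4 := abs_mul_le (abs_mul_le g3 g1) g2
        rwa [mul_one] at g4
      have g2 : |w ^ n| ≤ 1 := by
        rw [abs_pow]
        exact pow_le_one₀ (abs_nonneg _) hw1'
      have g3 : |((n + j).descFactorial j : ℝ)| ≤ ((n + j).descFactorial j : ℝ) := by
        rw [abs_of_nonneg (Nat.cast_nonneg _)]
      have g4 := abs_mul_le g2 (abs_mul_le g3 f1)
      rwa [one_mul] at g4
    refine (Finset.abs_sum_le_sum_abs _ _).trans ((Finset.sum_le_sum e2).trans ?_)
    have e3 : ∑ n ∈ Finset.range 5, ((n + j).descFactorial j : ℝ) *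
        ((∑ m ∈ Finset.range 8, ((m + i).descFactorial i : ℝ)) * eps) =
        ((∑ n ∈ Finset.range 5, ((n + j).descFactorial j *
      ∑ m ∈ Finset.range 8, (m + i).descFactorial i) : ℕ) : ℝ) * eps := by
      push_cast
      simp only [Finset.sum_mul, Finset.mul_sum]
      apply Finset.sum_congr rfl
      intro n _
      apply Finset.sum_congr rfl
      intro m _
      ring
    rw [e3]
    have e4 : ((∑ n ∈ Finset.range 5, ((n + j).descFactorial j *
      ∑ m ∈ Finset.range 8, (m + i).descFactorial i) : ℕ) : ℝ) ≤ 10000 := by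
      exact_mod_cast sum_fac hij
    exact mul_le_mul_of_nonneg_right e4 hA.eps0
  have hA' : |A / 2 ^ C| ≤ (M:ℝ) / 2 ^ (C + (7 * s + 4 * q)) := by
    rw [abs_div, abs_of_pos (by positivity : (0:ℝ) < 2 ^ C), pow_add, ← div_div,
      div_le_div_iff₀ (by positivity) (by positivity)]
    rw [abs_mul, abs_of_pos (by positivity : (0:ℝ) < 2 ^ (7 * s + 4 * q))] at h1
    have : (M:ℝ) / 2 ^ C * 2 ^ C = M := by field_simp
    rw [this]
    linarith
  have e : D.bd i j x w = A / 2 ^ C + (D.bd i j x w - A / 2 ^ C) := by ring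
  rw [e]
  exact abs_add_le' hA' hdiff

end Pool.Agent.H44.Shore.MBC
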