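import Mathlib
import Pool.Agent.H44.Shore.Mb

/-!
Shoreline search: kernel evaluable positivity check for a polynomial in two variables on a
staircase region.
-/

open Set

namespace Pool.Agent.H44.Shore.MBC

open Pool.Agent.H44.Shore

/-- constant coefficient -/
def head2 : List (List ℤ) → ℤ
  | (c :: _) :: _ => c
  | _ => 0

theorem ev2_ge (H G : ℕ) (P : List (List ℤ)) {y z : ℝ} (hy : |y| ≤ H) (hz : |z| ≤ G)
    (h0 : 0 ≤ head2 P) : 2 * (head2 P : ℝ) - bnd2 H G P ≤ ev2 P y z := by
  rcases P with _ | ⟨p, Q⟩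
  · simp [head2, ev2, bnd2]
  · rcases p with _ | ⟨c, q⟩
    · have h := abs_ev2_le H G ([] :: Q) hy hz
      have h1 := (abs_le.mp h).1
      simp only [head2]
      push_cast
      linarith
    · have e1 : Nat.add (Nat.add c.natAbs (Nat.mul H (bnd H q))) (Nat.mul G (bnd2 H G Q)) =
          c.natAbs + H * bnd H q + G * bnd2 H G Q := rfl
      have h1 := abs_mul_le hy (abs_ev_le H q hy)
      have h2 := abs_mul_le hz (abs_ev2_le H G Q hy hz)
      simp only [head2, ev2, ev, bnd2, bnd, e1]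
      simp only [head2] at h0
      have hc : ((c.natAbs : ℕ) : ℝ) = c := by
        rw [Nat.cast_natAbs, abs_of_nonneg h0]
      push_cast
      rw [hc]
      linarith [(abs_le.mp h1).1, (abs_le.mp h2).1]

/-- block check -/
def blk (H G M : ℕ) (P : List (List ℤ)) : Bool :=
  Nat.ble (Nat.add M (bnd2 H G P)) (Nat.mul 2 (head2 P).toNat)

theorem blk_sound {H G M : ℕ} {P : List (List ℤ)} (hM : 0 < M) (h : blk H G M P = true) {y z : ℝ}
    (hy : |y| ≤ H) (hz : |z| ≤ G) : (M : ℝ) ≤ ev2 P y z := by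
  have h1 : M + bnd2 H G P ≤ 2 * (head2 P).toNat := Nat.le_of_ble_eq_true h
  have h0 : 0 ≤ head2 P := by
    by_contra hcon
    have : (head2 P).toNat = 0 := Int.toNat_of_nonpos (by omega)
    omega
  have h2 := ev2_ge H G P hy hz h0
  have h3 : ((head2 P).toNat : ℤ) = head2 P := Int.toNat_of_nonneg h0
  have h4 : (((head2 P).toNat : ℕ) : ℝ) = (head2 P : ℝ) := by exact_mod_cast h3
  have h5 : (M : ℝ) + bnd2 H G P ≤ 2 * (head2 P : ℝ) := by
    rw [← h4]
    exact_mod_cast h1
  linarith

/-- loop over the blocks in the second variable -/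
def posz (H G M : ℕ) (P : List (List ℤ)) (zs : ℤ) : ℕ → Bool
  | 0 => true
  | l + 1 => blk H G M (shiftz (zs + (((2 * l + 1) * G : ℕ) : ℤ)) P) && posz H G M P zs l

/-- loop over the blocks in the first variable; the list gives the number of blocks in the second
variable -/
def posx (H G M : ℕ) (P : List (List ℤ)) (zs : ℤ) : ℤ → List ℕ → Bool
  | _, [] => true
  | ys, n :: ns => posz H G M (shiftx (ys + (H : ℤ)) P) zs n &&
      posx H G M P zs (ys + ((2 * H : ℕ) : ℤ)) ns

theorem posz_sound {H G M : ℕ} (hM : 0 < M) {P : List (List ℤ)} {zs : ℤ} {N : ℕ}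
    (h : posz H G M P zs N = true) (hN : 0 < N) {y z : ℝ} (hy : |y| ≤ H) (h0 : (zs:ℝ) ≤ z)
    (h1 : z ≤ zs + 2 * N * G) : (M : ℝ) ≤ ev2 P y z := by
  obtain ⟨l, hl, hl2⟩ := block hN h0 h1
  have key : ∀ n, posz H G M P zs n = true → ∀ l, l < n →
      blk H G M (shiftz (zs + (((2 * l + 1) * G : ℕ) : ℤ)) P) = true := by
    intro n
    induction n with
    | zero => intro _ l hl; omega
    | succ n ih =>
      intro h l hl
      rw [posz, Bool.and_eq_true] at h
      rcases Nat.lt_succ_iff_lt_or_eq.mp hl with h1 | h1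
      · exact ih h.2 l h1
      · subst h1
        exact h.1
  have h2 := blk_sound hM (key N h l hl) hy hl2
  rw [ev_shiftz] at h2
  have e2 : z - ((zs + (((2 * l + 1) * G : ℕ) : ℤ) : ℤ) : ℝ) +
      ((zs + (((2 * l + 1) * G : ℕ) : ℤ) : ℤ) : ℝ) = z := by ring
  rw [e2] at h2
  exact h2

/-- **Positivity on a staircase.** -/
theorem posx_sound {H G M : ℕ} (hM : 0 < M) {P : List (List ℤ)} {zs : ℤ} (ns : List ℕ) :
    ∀ {ys : ℤ}, posx H G M P zs ys ns = true → ∀ {y z : ℝ} {k : ℕ}, k < ns.length →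
      (ys:ℝ) + 2 * k * H ≤ y → y ≤ ys + 2 * (k + 1) * H → (zs:ℝ) ≤ z →
      0 < ns.getD k 0 → z ≤ zs + 2 * (ns.getD k 0 : ℕ) * G → (M : ℝ) ≤ ev2 P y z := by
  induction ns with
  | nil => intro ys _ y z k hk; simp at hk
  | cons n ns ih =>
    intro ys h y z k hk h0 h1 h2 h3 h4
    rw [posx, Bool.and_eq_true] at h
    cases k with
    | zero =>
      simp only [List.getD_cons_zero] at h3 h4
      push_cast at h0 h1
      have hy : |y - ((ys + (H:ℤ) : ℤ) : ℝ)| ≤ H := by
        push_cast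
        rw [abs_le]
        constructor <;> linarith
      have h5 := posz_sound hM h.1 h3 hy h2 h4
      rw [ev_shiftx] at h5
      have e : y - ((ys + (H:ℤ) : ℤ) : ℝ) + ((ys + (H:ℤ) : ℤ) : ℝ) = y := by ring
      rw [e] at h5
      exact h5
    | succ k =>
      apply ih h.2 (k := k) (by simpa using hk)
      · push_cast at h0 ⊢
        linarith
      · push_cast at h1 ⊢
        linarith
      · exact h2
      · simpa using h3
      · simpa using h4

end Pool.Agent.H44.Shore.MBC
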