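import Mathlib
import Pool.Agent.H44.Shore.Pos

/-!
Shoreline search: adaptive positivity check and adaptive bound check with forced evaluation.
-/

open Set

namespace Pool.Agent.H44.Shore.MBC

open Pool.Agent.H44.Shore

/-- force a natural number -/
def seqN {α : Type} (n : ℕ) (k : ℕ → α) : α :=
  match n with
  | 0 => k 0
  | Nat.succ m => k (Nat.succ m)

/-- force an integer -/
def seqI {α : Type} (n : ℤ) (k : ℤ → α) : α :=
  match n with
  | Int.ofNat m => seqN m fun m => k (Int.ofNat m)
  | Int.negSucc m => seqN m fun m => k (Int.negSucc m)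

theorem seqN_eq {α : Type} (n : ℕ) (k : ℕ → α) : seqN n k = k n := by cases n <;> rfl

theorem seqI_eq {α : Type} (n : ℤ) (k : ℤ → α) : seqI n k = k n := by
  cases n with
  | ofNat m => simp only [seqI, seqN_eq]
  | negSucc m => simp only [seqI, seqN_eq]

/-- force a list -/
def seqL {α : Type} : List ℤ → (List ℤ → α) → α
  | [], k => k []
  | c :: q, k => seqI c fun c' => seqL q fun q' => k (c' :: q')

theorem seqL_eq {α : Type} (l : List ℤ) (k : List ℤ → α) : seqL l k = k l := by
  induction l generalizing k with
  | nil => rfl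
  | cons c q ih => simp only [seqL, seqI_eq, ih]

def seqLL {α : Type} : List (List ℤ) → (List (List ℤ) → α) → α
  | [], k => k []
  | c :: q, k => seqL c fun c' => seqLL q fun q' => k (c' :: q')

theorem seqLL_eq {α : Type} (l : List (List ℤ)) (k : List (List ℤ) → α) : seqLL l k = k l := by
  induction l generalizing k with
  | nil => rfl
  | cons c q ih => simp only [seqLL, seqL_eq, ih]

/-- forced Taylor shift -/
def shiftF (a : ℤ) : List ℤ → List ℤ
  | [] => []
  | c :: q => seqL (shiftF a q) fun S => axpy a S (c :: S)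

theorem shiftF_eq (a : ℤ) (p : List ℤ) : shiftF a p = shift a p := by
  induction p with
  | nil => rfl
  | cons c q ih => simp only [shiftF, seqL_eq, ih, shift, stepS]

def shiftxF (a : ℤ) : List (List ℤ) → List (List ℤ)
  | [] => []
  | p :: Q => shiftF a p :: shiftxF a Q

theorem shiftxF_eq (a : ℤ) (P : List (List ℤ)) : shiftxF a P = shiftx a P := by
  induction P with
  | nil => rfl
  | cons c q ih => simp only [shiftxF, shiftF_eq, ih, shiftx]

def shiftzF (b : ℤ) : List (List ℤ) → List (List ℤ)
  | [] => []
  | p :: Q => seqLL (shiftzF b Q) fun S => axpy2 b S (p :: S)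

theorem shiftzF_eq (b : ℤ) (P : List (List ℤ)) : shiftzF b P = shiftz b P := by
  induction P with
  | nil => rfl
  | cons c q ih => simp only [shiftzF, seqLL_eq, ih, shiftz, stepZ]

/-- adaptive block check -/
def ad (M : ℕ) : ℕ → ℕ → ℕ → List (List ℤ) → Bool
  | 0, H, G, P => blk H G M P
  | d + 1, H, G, P =>
    match blk H G M P with
    | true => true
    | false =>
      match Nat.beq (Nat.mul 2 (Nat.div H 2)) H with
      | false => false
      | true =>
        match Nat.beq (Nat.mul 2 (Nat.div G 2)) G with
        | false => false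
        | true =>
          seqN (Nat.div H 2) fun h => seqN (Nat.div G 2) fun g =>
          seqLL (shiftxF (h : ℤ) P) fun P1 =>
          seqLL (shiftxF (Int.neg (h : ℤ)) P) fun P2 =>
          seqLL (shiftzF (g : ℤ) P1) fun P11 =>
          match ad M d h g P11 with
          | false => false
          | true => seqLL (shiftzF (Int.neg (g : ℤ)) P1) fun P12 =>
            match ad M d h g P12 with
            | false => false
            | true => seqLL (shiftzF (g : ℤ) P2) fun P21 =>
              match ad M d h g P21 with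
              | false => false
              | true => seqLL (shiftzF (Int.neg (g : ℤ)) P2) fun P22 => ad M d h g P22

theorem ad_sound {M : ℕ} (hM : 0 < M) (d : ℕ) : ∀ {H G : ℕ} {P : List (List ℤ)},
    ad M d H G P = true → ∀ {y z : ℝ}, |y| ≤ H → |z| ≤ G → (M : ℝ) ≤ ev2 P y z := by
  induction d with
  | zero => intro H G P h y z hy hz; exact blk_sound hM h hy hz
  | succ d ih =>
    intro H G P h y z hy hz
    rw [ad] at h
    cases h1 : blk H G M P with
    | true => exact blk_sound hM h1 hy hz
    | false =>
      rw [h1] at h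
      cases h2 : Nat.beq (Nat.mul 2 (Nat.div H 2)) H with
      | false => rw [h2] at h; exact absurd h (by simp)
      | true =>
      cases h3 : Nat.beq (Nat.mul 2 (Nat.div G 2)) G with
      | false => rw [h2, h3] at h; exact absurd h (by simp)
      | true =>
      rw [h2, h3] at h
      simp only [seqN_eq, seqLL_eq, shiftxF_eq, shiftzF_eq] at h
      have e2 : 2 * (H / 2) = H := Nat.eq_of_beq_eq_true h2
      have e3 : 2 * (G / 2) = G := Nat.eq_of_beq_eq_true h3
      have eh : Nat.div H 2 = H / 2 := rfl
      have eg : Nat.div G 2 = G / 2 := rfl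
      rw [eh, eg] at h
      set a := H / 2 with ha
      set b := G / 2 with hb
      cases k1 : ad M d a b (shiftz (b : ℤ) (shiftx (a : ℤ) P)) with
      | false => rw [k1] at h; exact absurd h (by simp)
      | true =>
      cases k2 : ad M d a b (shiftz (Int.neg (b : ℤ)) (shiftx (a : ℤ) P)) with
      | false => rw [k1, k2] at h; exact absurd h (by simp)
      | true =>
      cases k3 : ad M d a b (shiftz (b : ℤ) (shiftx (Int.neg (a : ℤ)) P)) with
      | false => rw [k1, k2, k3] at h; exact absurd h (by simp)
      | true =>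
      rw [k1, k2, k3] at h
      have e2r : 2 * (a:ℝ) = H := by exact_mod_cast e2
      have e3r : 2 * (b:ℝ) = G := by exact_mod_cast e3
      obtain ⟨hy1, hy2⟩ := abs_le.mp hy
      obtain ⟨hz1, hz2⟩ := abs_le.mp hz
      have key : ∀ (sa sb : ℤ), ad M d a b (shiftz sb (shiftx sa P)) = true →
          |y - sa| ≤ a → |z - sb| ≤ b → (M:ℝ) ≤ ev2 P y z := by
        intro sa sb hh h1 h2
        have := ih hh h1 h2
        rw [ev_shiftz, ev_shiftx] at this
        have e1 : y - (sa:ℝ) + sa = y := by ring
        have e2 : z - (sb:ℝ) + sb = z := by ring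
        rwa [e1, e2] at this
      have en : ∀ n : ℕ, Int.neg (n : ℤ) = -(n : ℤ) := fun n => rfl
      rcases le_total 0 y with c1 | c1 <;> rcases le_total 0 z with c2 | c2
      · refine key _ _ k1 ?_ ?_ <;> · push_cast; rw [abs_le]; constructor <;> linarith
      · refine key _ _ k2 ?_ ?_ <;> · (try simp only [en]); push_cast; rw [abs_le]; constructor <;> linarith
      · refine key _ _ k3 ?_ ?_ <;> · (try simp only [en]); push_cast; rw [abs_le]; constructor <;> linarith
      · refine key _ _ h ?_ ?_ <;> · (try simp only [en]); push_cast; rw [abs_le]; constructor <;> linarith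

/-- loop over the blocks in the second variable -/
def apz (H G M d : ℕ) (P : List (List ℤ)) (zs : ℤ) : ℕ → Bool
  | 0 => true
  | l + 1 =>
    seqLL (shiftzF (Int.add zs ((Nat.mul (Nat.add (Nat.mul 2 l) 1) G : ℕ) : ℤ)) P) fun P' =>
    match ad M d H G P' with
    | false => false
    | true => apz H G M d P zs l

/-- loop over the blocks in the first variable -/
def apx (H G M d : ℕ) (P : List (List ℤ)) (zs : ℤ) : ℤ → List ℕ → Bool
  | _, [] => true
  | ys, n :: ns =>
    seqLL (shiftxF (Int.add ys (H : ℤ)) P) fun P' =>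
    match apz H G M d P' zs n with
    | false => false
    | true => apx H G M d P zs (Int.add ys ((Nat.mul 2 H : ℕ) : ℤ)) ns

theorem apz_sound {H G M d : ℕ} (hM : 0 < M) {P : List (List ℤ)} {zs : ℤ} {N : ℕ}
    (h : apz H G M d P zs N = true) (hN : 0 < N) {y z : ℝ} (hy : |y| ≤ H) (h0 : (zs:ℝ) ≤ z)
    (h1 : z ≤ zs + 2 * N * G) : (M : ℝ) ≤ ev2 P y z := by
  obtain ⟨l, hl, hl2⟩ := block hN h0 h1
  have key : ∀ n, apz H G M d P zs n = true → ∀ l, l < n →
      ad M d H G (shiftz (zs + (((2 * l + 1) * G : ℕ) : ℤ)) P) = true := by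
    intro n
    induction n with
    | zero => intro _ l hl; omega
    | succ n ih =>
      intro h l hl
      rw [apz] at h
      simp only [seqLL_eq, shiftzF_eq] at h
      have e1 : Int.add zs ((Nat.mul (Nat.add (Nat.mul 2 n) 1) G : ℕ) : ℤ) =
        zs + (((2 * n + 1) * G : ℕ) : ℤ) := rfl
      rw [e1] at h
      cases hb : ad M d H G (shiftz (zs + (((2 * n + 1) * G : ℕ) : ℤ)) P) with
      | false => rw [hb] at h; exact absurd h (by simp)
      | true =>
        rw [hb] at h
        rcases Nat.lt_succ_iff_lt_or_eq.mp hl with h1 | h1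
        · exact ih h l h1
        · subst h1
          exact hb
  have h2 := ad_sound hM d (key N h l hl) hy hl2
  rw [ev_shiftz] at h2
  have e2 : z - ((zs + (((2 * l + 1) * G : ℕ) : ℤ) : ℤ) : ℝ) +
      ((zs + (((2 * l + 1) * G : ℕ) : ℤ) : ℤ) : ℝ) = z := by ring
  rw [e2] at h2
  exact h2

/-- **Positivity on a staircase, adaptive version.** -/
theorem apx_sound {H G M d : ℕ} (hM : 0 < M) {P : List (List ℤ)} {zs : ℤ} (ns : List ℕ) :
    ∀ {ys : ℤ}, apx H G M d P zs ys ns = true → ∀ {y z : ℝ} {k : ℕ}, k < ns.length →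
      (ys:ℝ) + 2 * k * H ≤ y → y ≤ ys + 2 * (k + 1) * H → (zs:ℝ) ≤ z →
      0 < ns.getD k 0 → z ≤ zs + 2 * (ns.getD k 0 : ℕ) * G → (M : ℝ) ≤ ev2 P y z := by
  induction ns with
  | nil => intro ys _ y z k hk; simp at hk
  | cons n ns ih =>
    intro ys h y z k hk h0 h1 h2 h3 h4
    rw [apx] at h
    simp only [seqLL_eq, shiftxF_eq] at h
    have e1 : Int.add ys (H : ℤ) = ys + (H : ℤ) := rfl
    have e2 : Int.add ys ((Nat.mul 2 H : ℕ) : ℤ) = ys + ((2 * H : ℕ) : ℤ) := rfl
    rw [e1, e2] at h
    cases hb : apz H G M d (shiftx (ys + (H:ℤ)) P) zs n with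
    | false => rw [hb] at h; exact absurd h (by simp)
    | true =>
    rw [hb] at h
    cases k with
    | zero =>
      simp only [List.getD_cons_zero] at h3 h4
      push_cast at h0 h1
      have hy : |y - ((ys + (H:ℤ) : ℤ) : ℝ)| ≤ H := by
        push_cast
        rw [abs_le]
        constructor <;> linarith
      have h5 := apz_sound hM hb h3 hy h2 h4
      rw [ev_shiftx] at h5
      have e : y - ((ys + (H:ℤ) : ℤ) : ℝ) + ((ys + (H:ℤ) : ℤ) : ℝ) = y := by ring
      rw [e] at h5
      exact h5
    | succ k =>
      apply ih h (k := k) (by simpa using hk)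
      · push_cast at h0 ⊢
        linarith
      · push_cast at h1 ⊢
        linarith
      · exact h2
      · simpa using h3
      · simpa using h4

end Pool.Agent.H44.Shore.MBC
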