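import Mathlib
import Pool.Agent.H44.Shore.Ad

/-!
Shoreline search: certificates given by integer data, condition `c2`, approximation of the
coefficients.
-/

open Set Polynomial

namespace Pool.Agent.H44.Shore

/-- Horner form with scale `N` -/
noncomputable def lp (N : ℕ) : List ℤ → ℝ[X]
  | [] => 0
  | c :: q => C (c:ℝ) + C (N:ℝ) * X * lp N q

theorem lp_eval (N : ℕ) (t : List ℤ) (x : ℝ) : (lp N t).eval x = MBC.ev t (N * x) := by
  induction t with
  | nil => simp [lp, MBC.ev]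
  | cons c q ih => simp [lp, MBC.ev, ih]

theorem lp_coeff (N : ℕ) (t : List ℤ) (m : ℕ) :
    (lp N t).coeff m = (N:ℝ) ^ m * ((t.getD m 0 : ℤ) : ℝ) := by
  induction t generalizing m with
  | nil => simp [lp]
  | cons c q ih =>
    cases m with
    | zero => simp [lp]
    | succ m =>
      rw [lp, coeff_add, mul_assoc, coeff_C_mul, coeff_X_mul, ih, coeff_C_succ,
        List.getD_cons_succ]
      ring

/-- integer data: scale `N`, `xL = nL / N`, `rB = rb / rc`, denominator `Q` -/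
structure Raw where
  N : ℕ
  nL : ℕ
  rb : ℕ
  rc : ℕ
  Q : ℕ
  t0 : List ℤ
  t2 : List ℤ
  t3 : List ℤ
  t4 : List ℤ

namespace Raw

noncomputable def xL (R : Raw) : ℝ := (R.nL : ℝ) / R.N
noncomputable def rB (R : Raw) : ℝ := (R.rb : ℝ) / R.rc
noncomputable def kap (R : Raw) (ρ : ℝ) : ℝ := Real.log (ρ * R.xL) / (1 / ρ + R.xL)

/-- one coefficient polynomial -/
noncomputable def bk (R : Raw) (ρ κ : ℝ) (t : List ℤ) : ℝ[X] :=
  (C (1 / ρ) - X) * (C κ + (X + C R.xL) * (C (1 / (R.Q : ℝ)) * lp R.N t))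

/-- the certificate -/
noncomputable def dat (R : Raw) (ρ : ℝ) : Dat where
  ρ := ρ
  xL := R.xL
  rB := R.rB
  B0 := R.bk ρ (R.kap ρ) R.t0
  B2 := R.bk ρ 0 R.t2
  B3 := R.bk ρ 0 R.t3
  B4 := R.bk ρ 0 R.t4

/-- the matrix of coefficients -/
def T (R : Raw) : List (List ℤ) := [R.t0, [], R.t2, R.t3, R.t4]

theorem bk_eval (R : Raw) (ρ κ : ℝ) (t : List ℤ) (x : ℝ) : (R.bk ρ κ t).eval x =
    (1 / ρ - x) * (κ + (x + R.xL) * (MBC.ev t (R.N * x) / R.Q)) := by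
  simp only [bk, eval_mul, eval_sub, eval_add, eval_C, eval_X, lp_eval]
  ring

theorem dat_b (R : Raw) (ρ x w : ℝ) : (R.dat ρ).b x w = (1 / ρ - x) * (R.kap ρ +
    (x + R.xL) * (MBC.ev2 R.T (R.N * x) w / R.Q)) := by
  simp only [Dat.b, dat, bk_eval, T, MBC.ev2, MBC.ev]
  ring

end Raw

namespace MBC

/-- `(a + b y) p` -/
def mulLin (a b : ℤ) (p : List ℤ) : List ℤ := axpy a p (0 :: axpy b p [])

theorem ev_mulLin (a b : ℤ) (p : List ℤ) (y : ℝ) :
    ev (mulLin a b p) y = (a + b * y) * ev p y := by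
  simp only [mulLin, ev_axpy, ev]
  push_cast
  ring

def mulLin2 (a b : ℤ) : List (List ℤ) → List (List ℤ)
  | [] => []
  | p :: Q => mulLin a b p :: mulLin2 a b Q

theorem ev_mulLin2 (a b : ℤ) (P : List (List ℤ)) (y z : ℝ) :
    ev2 (mulLin2 a b P) y z = (a + b * y) * ev2 P y z := by
  induction P with
  | nil => simp [mulLin2, ev2]
  | cons p Q ih =>
    simp only [mulLin2, ev2, ev_mulLin, ih]
    ring

def addRow (g : List ℤ) : List (List ℤ) → List (List ℤ)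
  | [] => [g]
  | p :: Q => axpy 1 g p :: Q

theorem ev_addRow (g : List ℤ) (P : List (List ℤ)) (y z : ℝ) :
    ev2 (addRow g P) y z = ev g y + ev2 P y z := by
  cases P with
  | nil => simp [addRow, ev2]
  | cons p Q =>
    simp only [addRow, ev2, ev_axpy]
    push_cast
    ring

/-- multiply the coefficient `m` by `2 ^ (s (K - m) + q)` -/
def rs1 (s q : ℕ) : ℕ → List ℤ → List ℤ
  | _, [] => []
  | K, c :: p => Int.mul c ((Nat.pow 2 (Nat.add (Nat.mul s K) q) : ℕ) : ℤ) :: rs1 s q (K - 1) p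

theorem ev_rs1 (s q : ℕ) (K : ℕ) (p : List ℤ) (h : p.length ≤ K + 1) (y : ℝ) :
    ev (rs1 s q K p) (2 ^ s * y) = 2 ^ (s * K + q) * ev p y := by
  induction p generalizing K with
  | nil => simp [rs1, ev]
  | cons c p ih =>
    have e : Int.mul c ((Nat.pow 2 (Nat.add (Nat.mul s K) q) : ℕ) : ℤ) =
        c * ((2 ^ (s * K + q) : ℕ) : ℤ) := rfl
    rw [rs1, ev, ev, e]
    rcases p with _ | ⟨d, p⟩
    · simp only [rs1, ev]
      push_cast
      ring
    · have hK : 1 ≤ K := by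
        simp only [List.length_cons] at h
        omega
      rw [ih (K - 1) (by simp only [List.length_cons] at h ⊢; omega)]
      obtain ⟨k, rfl⟩ : ∃ k, K = k + 1 := ⟨K - 1, by omega⟩
      simp only [Nat.add_sub_cancel]
      push_cast
      have : (2:ℝ) ^ (s * (k + 1) + q) = 2 ^ (s * k + q) * 2 ^ s := by
        rw [← pow_add]
        congr 1
        ring
      rw [this]
      ring

/-- the same for two variables -/
def rs2 (s q K : ℕ) : ℕ → List (List ℤ) → List (List ℤ)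
  | _, [] => []
  | J, p :: P => rs1 s (Nat.mul q J) K p :: rs2 s q K (J - 1) P

theorem ev_rs2 (s q K J : ℕ) (P : List (List ℤ)) (h : P.length ≤ J + 1)
    (hK : ∀ p ∈ P, p.length ≤ K + 1) (y z : ℝ) :
    ev2 (rs2 s q K J P) (2 ^ s * y) (2 ^ q * z) = 2 ^ (s * K + q * J) * ev2 P y z := by
  induction P generalizing J with
  | nil => simp [rs2, ev2]
  | cons p P ih =>
    have e : rs1 s (Nat.mul q J) K p = rs1 s (q * J) K p := rfl
    rw [rs2, ev2, ev2, e, ev_rs1 _ _ _ _ (hK p (by simp))]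
    rcases P with _ | ⟨d, P⟩
    · simp only [rs2, ev2]
      ring
    · have hJ : 1 ≤ J := by
        simp only [List.length_cons] at h
        omega
      rw [ih (J - 1) (by simp only [List.length_cons] at h ⊢; omega)
        (fun p hp => hK p (by simp only [List.mem_cons] at hp ⊢; tauto))]
      obtain ⟨k, rfl⟩ : ∃ k, J = k + 1 := ⟨J - 1, by omega⟩
      simp only [Nat.add_sub_cancel]
      have : (2:ℝ) ^ (s * K + q * (k + 1)) = 2 ^ (s * K + q * k) * 2 ^ q := by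
        rw [← pow_add]
        congr 1
        ring
      rw [this]
      ring

/-- lower bounds for the coefficients of the logarithm -/
def glog (F nL : ℕ) : ℕ → ℕ → List ℤ
  | 0, _ => []
  | n + 1, i => ((Nat.div F (Nat.mul (Nat.add i 1) (Nat.pow nL (Nat.add i 1))) : ℕ) : ℤ) ::
      glog F nL n (i + 1)

theorem ev_glog (F nL : ℕ) (n i : ℕ) {y : ℝ} (hy : 0 ≤ y) :
    ev (glog F nL n i) y ≤ ∑ m ∈ Finset.range n, (F:ℝ) / ((i + m + 1) * (nL:ℝ) ^ (i + m + 1)) *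
      y ^ m := by
  induction n generalizing i with
  | zero => simp [glog, ev]
  | succ n ih =>
    rw [glog, ev, Finset.sum_range_succ']
    have e : Nat.div F (Nat.mul (Nat.add i 1) (Nat.pow nL (Nat.add i 1))) =
      F / ((i + 1) * nL ^ (i + 1)) := rfl
    rw [e]
    have h1 : (((F / ((i + 1) * nL ^ (i + 1)) : ℕ) : ℤ) : ℝ) ≤
        (F:ℝ) / ((i + (0:ℕ) + 1) * (nL:ℝ) ^ (i + 0 + 1)) := by
      have := Nat.cast_div_le (α := ℝ) (m := F) (n := (i + 1) * nL ^ (i + 1))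
      rw [Int.cast_natCast]
      simpa using this
    have h2 : y * ev (glog F nL n (i + 1)) y ≤ y * ∑ m ∈ Finset.range n,
        (F:ℝ) / (((i + 1 : ℕ) + m + 1) * (nL:ℝ) ^ (i + 1 + m + 1)) * y ^ m :=
      mul_le_mul_of_nonneg_left (ih (i + 1)) hy
    have h3 : y * ∑ m ∈ Finset.range n,
        (F:ℝ) / (((i + 1 : ℕ) + m + 1) * (nL:ℝ) ^ (i + 1 + m + 1)) * y ^ m =
        ∑ m ∈ Finset.range n, (F:ℝ) / ((i + ((m + 1 : ℕ) : ℝ) + 1) *
          (nL:ℝ) ^ (i + (m + 1) + 1)) * y ^ (m + 1) := by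
      rw [Finset.mul_sum]
      apply Finset.sum_congr rfl
      intro m _
      rw [show i + 1 + m + 1 = i + (m + 1) + 1 by omega]
      push_cast
      have : (i:ℝ) + 1 + m + 1 = i + (m + 1) + 1 := by ring
      rw [this]
      ring
    rw [h3] at h2
    simp only [pow_zero, mul_one]
    linarith

end MBC

/-- one sided expansion of the logarithm -/
theorem log_ge_sum {u : ℝ} (h0 : 0 ≤ u) (h1 : u < 1) (n : ℕ) :
    ∑ m ∈ Finset.range n, u ^ (m + 1) / (m + 1) ≤ -Real.log (1 - u) := by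
  have h := Real.hasSum_pow_div_log_of_abs_lt_one (x := u) (by rw [abs_of_nonneg h0]; exact h1)
  exact sum_le_hasSum _ (fun m _ => by positivity) h

namespace Raw

/-- the polynomial of the check for `c2` -/
def c2P (R : Raw) (A' n : ℕ) (X1 K1 : ℤ) : List (List ℤ) :=
  MBC.addRow (Int.neg (Int.mul (Int.mul (R.N : ℤ) K1) (R.Q : ℤ)) :: [])
    (MBC.addRow (MBC.glog (Nat.mul (Nat.mul R.Q (Nat.pow 2 A')) (Nat.mul R.N R.N)) R.nL n 0)
      (MBC.mulLin2 (Int.add (Int.mul (R.N : ℤ) X1) ((Nat.mul R.nL (Nat.pow 2 A') : ℕ) : ℤ))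
        (Int.neg ((Nat.pow 2 A' : ℕ) : ℤ)) (MBC.shiftx (Int.neg (R.nL : ℤ)) R.T)))

theorem c2P_ev (R : Raw) (A' n : ℕ) (X1 K1 : ℤ) {y w : ℝ} (hy : 0 ≤ y) :
    MBC.ev2 (R.c2P A' n X1 K1) y w ≤ -((R.N : ℝ) * K1 * R.Q) +
      R.Q * 2 ^ A' * (R.N:ℝ) ^ 2 * ∑ m ∈ Finset.range n, y ^ m / ((m + 1) * (R.nL:ℝ) ^ (m + 1)) +
      ((R.N:ℝ) * X1 + R.nL * 2 ^ A' - 2 ^ A' * y) * MBC.ev2 R.T (y - R.nL) w := by
  have e1 : (Int.neg (Int.mul (Int.mul (R.N : ℤ) K1) (R.Q : ℤ))) =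
      -((R.N : ℤ) * K1 * (R.Q : ℤ)) := rfl
  have e2 : Nat.mul (Nat.mul R.Q (Nat.pow 2 A')) (Nat.mul R.N R.N) =
      R.Q * 2 ^ A' * (R.N * R.N) := rfl
  have e3 : (Int.add (Int.mul (R.N : ℤ) X1) ((Nat.mul R.nL (Nat.pow 2 A') : ℕ) : ℤ)) =
      (R.N : ℤ) * X1 + ((R.nL * 2 ^ A' : ℕ) : ℤ) := rfl
  have e4 : Int.neg ((Nat.pow 2 A' : ℕ) : ℤ) = -((2 ^ A' : ℕ) : ℤ) := rfl
  have e5 : Int.neg (R.nL : ℤ) = -(R.nL : ℤ) := rfl
  rw [c2P, MBC.ev_addRow, MBC.ev_addRow, MBC.ev_mulLin2, MBC.ev_shiftx, e1, e2, e3, e4, e5]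
  have h := MBC.ev_glog (R.Q * 2 ^ A' * (R.N * R.N)) R.nL n 0 hy
  have e6 : ∑ m ∈ Finset.range n, (((R.Q * 2 ^ A' * (R.N * R.N) : ℕ) : ℝ)) /
      (((0:ℕ) + (m:ℝ) + 1) * (R.nL:ℝ) ^ (0 + m + 1)) * y ^ m =
      R.Q * 2 ^ A' * (R.N:ℝ) ^ 2 *
        ∑ m ∈ Finset.range n, y ^ m / ((m + 1) * (R.nL:ℝ) ^ (m + 1)) := by
    rw [Finset.mul_sum]
    apply Finset.sum_congr rfl
    intro m _
    push_cast
    rw [zero_add, zero_add]
    ring
  rw [e6] at h
  simp only [MBC.ev]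
  push_cast
  have e7 : y + -(R.nL:ℝ) = y - R.nL := by ring
  rw [e7]
  linarith

/-- **Condition `c2` from the kernel check.** -/
theorem c2_of_check (R : Raw) {ρ : ℝ} (hρ : 1 < ρ) (hN : 0 < R.N) (hQ : 0 < R.Q)
    (hnL : 0 < R.nL)
    (hrb : 0 < R.rb) (hrc : 0 < R.rc) (h1L : 1 / ρ < R.xL)
    {A' n : ℕ} {X1 K1 : ℤ} {dX : ℕ} (hX : |2 ^ A' * (1 / ρ) - X1| ≤ dX)
    (hK : 2 ^ A' * R.kap ρ ≤ K1)
    {s q K H G M d : ℕ} {ns : List ℕ} (hM : 0 < M)
    (hJ : (R.c2P A' n X1 K1).length ≤ 5)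
    (hlen : ∀ p ∈ R.c2P A' n X1 K1, p.length ≤ K + 1)
    (hchk : MBC.apx H G M d (MBC.rs2 s q K 4 (R.c2P A' n X1 K1)) 0 0 ns = true)
    (hH : 0 < H)
    (hns : (2 ^ s * R.nL : ℝ) ≤ 2 * ns.length * H + 2 ^ s * R.N * (1 / ρ))
    (hst : ∀ k < ns.length, 0 < ns.getD k 0 ∧ (2 * (k + 1) * H : ℝ) ≤ 2 ^ s * R.nL ∧
      (2:ℝ) ^ q * (1 - ((R.nL - 2 * (k + 1) * H / 2 ^ s) / R.N) ^ 2 / R.rB ^ 2) ≤
        2 * (ns.getD k 0 : ℕ) * G)
    (herr : 2 ^ (s * K + q * 4) * (R.N * dX * MBC.bnd2 R.nL 1 R.T) ≤ M) :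
    ∀ x w : ℝ, -R.xL ≤ x → x ≤ -(1 / ρ) → 0 ≤ w → w ≤ (R.dat ρ).W x →
      Real.log (ρ * (-x)) ≤ (R.dat ρ).b x w := by
  intro x w hx0 hx1 hw0 hw1
  have hρ0 : 0 < ρ := by linarith
  have hNr : (0:ℝ) < R.N := by exact_mod_cast hN
  have hnLr : (0:ℝ) < R.nL := by exact_mod_cast hnL
  have hQr : (0:ℝ) < R.Q := by exact_mod_cast hQ
  have hx1p : 0 < 1 / ρ := by positivity
  have hrB : 0 < R.rB := by
    unfold rB
    have : (0:ℝ) < R.rb := by exact_mod_cast hrb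
    have : (0:ℝ) < R.rc := by exact_mod_cast hrc
    positivity
  have hxL : (R.N:ℝ) * R.xL = R.nL := by
    unfold xL
    field_simp
  have hxLp : 0 < R.xL := by linarith
  set x1 := 1 / ρ with hx1def
  set e := x + R.xL with he
  set y := (R.N:ℝ) * e with hy
  have he0 : 0 ≤ e := by linarith
  have hy0 : 0 ≤ y := by positivity
  have hey : e = y / R.N := by
    rw [hy]
    field_simp
  have hyn : y ≤ R.nL - R.N * x1 := by
    have h1 : e ≤ R.xL - x1 := by linarith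
    have h2 := mul_le_mul_of_nonneg_left h1 hNr.le
    rw [hy, ← hxL]
    linarith
  have hNx : (R.N:ℝ) * x = y - R.nL := by
    rw [hy, he, ← hxL]
    ring
  -- the bump
  have hWx : (R.dat ρ).W x = max 0 (1 - x ^ 2 / R.rB ^ 2) := rfl
  have hns0 : 0 < ns.length := by
    by_contra hcon
    have : ns.length = 0 := by omega
    rw [this] at hns
    push_cast at hns
    have h1 : (2:ℝ) ^ s * R.nL ≤ 2 ^ s * (R.N * x1) := by linarith
    have h2 : (R.nL:ℝ) ≤ R.N * x1 := le_of_mul_le_mul_left h1 (by positivity)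
    rw [← hxL] at h2
    have := le_of_mul_le_mul_left h2 hNr
    linarith
  have hHr : (0:ℝ) < H := by exact_mod_cast hH
  have h2s : (0:ℝ) < 2 ^ s := by positivity
  have h2q : (0:ℝ) < 2 ^ q := by positivity
  -- the block
  obtain ⟨k, hk, hk0, hk1⟩ : ∃ k, k < ns.length ∧ (0:ℝ) + 2 * k * H ≤ 2 ^ s * y ∧
      2 ^ s * y ≤ 0 + 2 * (k + 1) * H := by
    have hyt : 2 ^ s * y ≤ 0 + 2 * (ns.length : ℝ) * H := by
      have : 2 ^ s * y ≤ 2 ^ s * (R.nL - R.N * x1) := mul_le_mul_of_nonneg_left hyn h2s.le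
      linarith
    have key : ∀ L : ℕ, 0 < L → 2 ^ s * y ≤ 0 + 2 * (L : ℝ) * H →
        ∃ k, k < L ∧ (0:ℝ) + 2 * k * H ≤ 2 ^ s * y ∧ 2 ^ s * y ≤ 0 + 2 * (k + 1) * H := by
      intro L
      induction L with
      | zero => intro h; omega
      | succ L ih =>
        intro _ h
        by_cases hc : 2 ^ s * y ≤ 0 + 2 * (L : ℝ) * H
        · rcases Nat.eq_zero_or_pos L with h0 | h0
          · subst h0
            refine ⟨0, by omega, ?_, ?_⟩
            · push_cast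
              have : 0 ≤ 2 ^ s * y := by positivity
              linarith
            · push_cast at h ⊢
              linarith
          · obtain ⟨k, a, b, c⟩ := ih h0 hc
            exact ⟨k, by omega, b, c⟩
        · exact ⟨L, by omega, by linarith, by push_cast at h; linarith⟩
    exact key _ hns0 hyt
  obtain ⟨hs1, hs2, hs3⟩ := hst k hk
  -- the bound of w
  have hw2 : 2 ^ q * w ≤ 2 * (ns.getD k 0 : ℕ) * G := by
    rcases le_or_gt w 0 with hw | hw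
    · have : 2 ^ q * w ≤ 0 := mul_nonpos_of_nonneg_of_nonpos h2q.le hw
      have h3 : (0:ℝ) ≤ 2 * (ns.getD k 0 : ℕ) * G := by positivity
      linarith
    · rw [hWx] at hw1
      have h3 : w ≤ 1 - x ^ 2 / R.rB ^ 2 := by
        rcases max_cases (0:ℝ) (1 - x ^ 2 / R.rB ^ 2) with h | h
        · rw [h.1] at hw1
          linarith
        · rw [h.1] at hw1
          exact hw1
      set f := ((R.nL:ℝ) - 2 * (k + 1) * H / 2 ^ s) / R.N with hf
      have hf0 : 0 ≤ f := by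
        rw [hf]
        apply div_nonneg _ hNr.le
        rw [sub_nonneg, div_le_iff₀ h2s]
        linarith
      have hfx : f ≤ -x := by
        rw [hf, div_le_iff₀ hNr]
        have : y ≤ 2 * (k + 1) * H / 2 ^ s := by
          rw [le_div_iff₀ h2s]
          linarith
        have e1 : -x * R.N = R.nL - y := by linarith
        rw [e1]
        linarith
      have hf2 : f ^ 2 ≤ x ^ 2 := by
        have := pow_le_pow_left₀ hf0 hfx 2
        rwa [neg_sq] at this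
      have h4 : 2 ^ q * w ≤ 2 ^ q * (1 - f ^ 2 / R.rB ^ 2) := by
        apply mul_le_mul_of_nonneg_left _ h2q.le
        have : f ^ 2 / R.rB ^ 2 ≤ x ^ 2 / R.rB ^ 2 := by gcongr
        linarith
      exact h4.trans hs3
  have hpos := MBC.apx_sound (z := 2 ^ q * w) (y := 2 ^ s * y) hM ns hchk hk
    (by push_cast; linarith) (by push_cast; linarith) (by push_cast; positivity) hs1
    (by push_cast; linarith)
  rw [MBC.ev_rs2 s q K 4 _ (by omega) hlen] at hpos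
  have hup := c2P_ev R A' n X1 K1 (y := y) (w := w) hy0
  -- size of S
  have hw1' : w ≤ 1 := by
    rw [hWx] at hw1
    refine hw1.trans (max_le (by norm_num) ?_)
    have : 0 ≤ x ^ 2 / R.rB ^ 2 := by positivity
    linarith
  have hNx1 := mul_pos hNr hx1p
  have hS := MBC.abs_ev2_le R.nL 1 R.T (y := y - R.nL) (z := w)
    (by rw [abs_le]; constructor <;> linarith) (by rw [abs_le]; constructor <;> simp <;> linarith)
  set S := MBC.ev2 R.T (y - R.nL) w with hSdef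
  set L := ∑ m ∈ Finset.range n, y ^ m / ((m + 1) * (R.nL:ℝ) ^ (m + 1)) with hLdef
  -- the main inequality
  have hmain : 0 ≤ -((R.N : ℝ) * (2 ^ A' * R.kap ρ) * R.Q) +
      R.Q * 2 ^ A' * (R.N:ℝ) ^ 2 * L + ((R.N:ℝ) * (2 ^ A' * x1) + R.nL * 2 ^ A' - 2 ^ A' * y) *
        S := by
    have h1 : |(R.N:ℝ) * (2 ^ A' * x1 - X1) * S| ≤ R.N * dX * MBC.bnd2 R.nL 1 R.T := by
      apply abs_mul_le _ hS
      apply abs_mul_le _ hX
      rw [abs_of_pos hNr]
    have h2 := (abs_le.mp h1).1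
    have h3 : (R.N:ℝ) * dX * MBC.bnd2 R.nL 1 R.T ≤ MBC.ev2 (R.c2P A' n X1 K1) y w := by
      have hp : (0:ℝ) < 2 ^ (s * K + q * 4) := by positivity
      refine le_of_mul_le_mul_left ?_ hp
      have : (2:ℝ) ^ (s * K + q * 4) * (R.N * dX * MBC.bnd2 R.nL 1 R.T) ≤ M := by
        exact_mod_cast herr
      linarith
    have h4 : (R.N : ℝ) * (2 ^ A' * R.kap ρ) * R.Q ≤ (R.N : ℝ) * K1 * R.Q := by
      gcongr
    have e1 : ((R.N:ℝ) * (2 ^ A' * x1) + R.nL * 2 ^ A' - 2 ^ A' * y) * S =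
        ((R.N:ℝ) * X1 + R.nL * 2 ^ A' - 2 ^ A' * y) * S + (R.N:ℝ) * (2 ^ A' * x1 - X1) * S := by
      ring
    rw [e1]
    linarith
  -- conclusion
  have hu0 : 0 ≤ e / R.xL := by positivity
  have hu1 : e / R.xL < 1 := by
    rw [div_lt_one hxLp]
    linarith
  have hlog := log_ge_sum hu0 hu1 n
  have hLe : e * (R.N ^ 2 * L) / R.N = ∑ m ∈ Finset.range n, (e / R.xL) ^ (m + 1) / (m + 1) := by
    rw [hLdef, Finset.mul_sum, Finset.mul_sum, Finset.sum_div]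
    apply Finset.sum_congr rfl
    intro m _
    have e1 : e / R.xL = y / R.nL := by
      rw [hy, ← hxL]
      field_simp
    rw [e1, div_pow, hey]
    field_simp
    ring
  have hlogx : Real.log (ρ * (-x)) = Real.log (ρ * R.xL) + Real.log (1 - e / R.xL) := by
    rw [← Real.log_mul (by positivity) (by linarith)]
    congr 1
    rw [he]
    field_simp
    ring
  have hkap : Real.log (ρ * R.xL) = R.kap ρ * (x1 + R.xL) := by
    unfold kap
    rw [← hx1def]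
    have : x1 + R.xL ≠ 0 := by positivity
    field_simp
  rw [dat_b, hlogx, hkap, hNx, ← hx1def]
  have hfin : 0 ≤ e * (-R.kap ρ + R.N * L + (x1 + R.xL - e) * (S / R.Q)) := by
    apply mul_nonneg he0
    have hp : (0:ℝ) < R.Q * 2 ^ A' * R.N := by positivity
    refine (mul_nonneg_iff_of_pos_left hp).mp ?_
    refine hmain.trans (le_of_eq ?_)
    have e1 : (x1 + R.xL - e) = (R.N * x1 + R.nL - y) / R.N := by
      rw [hy, ← hxL]
      field_simp
    rw [e1]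
    field_simp
  have e9 : e * (R.N ^ 2 * L) / R.N = e * (R.N * L) := by
    field_simp
  rw [e9] at hLe
  have e10 : x = e - R.xL := by rw [he]; ring
  rw [e10]
  have e11 : e - R.xL + R.xL = e := by ring
  rw [e11]
  have e12 : (x1 - (e - R.xL)) * (R.kap ρ + e * (S / R.Q)) - R.kap ρ * (x1 + R.xL) -
      e * (R.N * L) = e * (-R.kap ρ + R.N * L + (x1 + R.xL - e) * (S / R.Q)) -
        2 * (e * (R.N * L)) := by ring
  linarith

end Raw

/-! ### Approximation of the coefficients -/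

namespace Raw

theorem lp_mulLin (N : ℕ) (a b : ℤ) (t : List ℤ) :
    lp N (MBC.mulLin a b t) = (C (a:ℝ) + C ((b:ℝ) * N) * X) * lp N t := by
  apply Polynomial.funext
  intro x
  simp only [lp_eval, MBC.ev_mulLin, eval_mul, eval_add, eval_C, eval_X]
  ring

/-- coefficient of the product with `1 / ρ - x` -/
theorem coeff_mul_lin (a : ℝ) (P : ℝ[X]) (m : ℕ) :
    ((C a - X) * P).coeff m = a * P.coeff m - (if m = 0 then 0 else P.coeff (m - 1)) := by
  rw [sub_mul, coeff_sub, coeff_C_mul]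
  cases m with
  | zero => simp
  | succ m => rw [coeff_X_mul]; simp

/-- numerators -/
def un (R : Raw) (t : List ℤ) (m : ℕ) : ℤ := (MBC.mulLin (R.nL : ℤ) 1 t).getD m 0

def pn (R : Raw) (A' : ℕ) (K1 : ℤ) (t : List ℤ) (m : ℕ) : ℤ :=
  Int.add (match m with
    | 0 => Int.mul (Int.mul (R.N : ℤ) (R.Q : ℤ)) K1
    | _ + 1 => 0)
    (Int.mul ((Nat.mul (Nat.pow 2 A') (Nat.pow R.N m) : ℕ) : ℤ) (R.un t m))

def qn (R : Raw) (A' : ℕ) (K1 : ℤ) (t : List ℤ) : ℕ → ℤ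
  | 0 => 0
  | m + 1 => R.pn A' K1 t m

def an (R : Raw) (A' C : ℕ) (X1 K1 : ℤ) (t : List ℤ) (m : ℕ) : ℤ :=
  Int.ediv (Int.mul (Int.sub (Int.mul X1 (R.pn A' K1 t m))
    (Int.mul ((Nat.pow 2 A' : ℕ) : ℤ) (R.qn A' K1 t m))) ((Nat.pow 2 C : ℕ) : ℤ))
    ((Nat.mul (Nat.mul R.N R.Q) (Nat.pow 2 (Nat.mul 2 A')) : ℕ) : ℤ)

/-- integer approximation of the coefficients of the certificate, denominator `2 ^ C` -/
def L (R : Raw) (A' C : ℕ) (X1 K1 : ℤ) : List (List ℤ) :=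
  [MBC.mk (R.an A' C X1 K1 R.t0) 8 0, [], MBC.mk (R.an A' C X1 0 R.t2) 8 0,
    MBC.mk (R.an A' C X1 0 R.t3) 8 0, MBC.mk (R.an A' C X1 0 R.t4) 8 0]

theorem mk_getD {α : Type} (f : ℕ → α) (d : α) (n a m : ℕ) (h : m < n) :
    (MBC.mk f n a).getD m d = f (a + m) := by
  induction n generalizing a m with
  | zero => omega
  | succ n ih =>
    cases m with
    | zero => simp [MBC.mk]
    | succ m =>
      rw [MBC.mk, List.getD_cons_succ, ih (a + 1) m (by omega)]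
      congr 1
      omega

theorem mk_length {α : Type} (f : ℕ → α) (n a : ℕ) : (MBC.mk f n a).length = n := by
  induction n generalizing a with
  | zero => rfl
  | succ n ih => simp [MBC.mk, ih]

theorem ediv_err' (a : ℤ) {b : ℕ} (hb : 0 < b) :
    |(a:ℝ) / b - ((a / (b:ℤ) : ℤ) : ℝ)| ≤ 1 := by
  have hb' : (0:ℝ) < (b:ℝ) := by exact_mod_cast hb
  have hbz : (0:ℤ) < (b:ℤ) := by exact_mod_cast hb
  have h1 : (b:ℤ) * (a / (b:ℤ)) + a % (b:ℤ) = a := Int.mul_ediv_add_emod a b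
  have h2 : 0 ≤ a % (b:ℤ) := Int.emod_nonneg _ hbz.ne'
  have h3 : a % (b:ℤ) < b := Int.emod_lt_of_pos _ hbz
  have h1' : (b:ℝ) * ((a / (b:ℤ) : ℤ) : ℝ) + ((a % (b:ℤ) : ℤ) : ℝ) = a := by exact_mod_cast h1
  have h2' : (0:ℝ) ≤ ((a % (b:ℤ) : ℤ) : ℝ) := by exact_mod_cast h2
  have h3' : ((a % (b:ℤ) : ℤ) : ℝ) < b := by exact_mod_cast h3
  have e : (a:ℝ) / b - ((a / (b:ℤ) : ℤ) : ℝ) = ((a % (b:ℤ) : ℤ) : ℝ) / b := by
    field_simp
    linarith
  rw [e, abs_of_nonneg (by positivity), div_le_one hb']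
  exact h3'.le

/-- the coefficients of one polynomial -/
theorem bk_coeff (R : Raw) (hN : 0 < R.N) (hQ : 0 < R.Q) (ρ κ : ℝ) (t : List ℤ) (m : ℕ) :
    (R.bk ρ κ t).coeff m = 1 / ρ * ((if m = 0 then κ else 0) +
      (R.N:ℝ) ^ m * (R.un t m : ℝ) / (R.N * R.Q)) -
      (if m = 0 then 0 else ((if m - 1 = 0 then κ else 0) +
      (R.N:ℝ) ^ (m - 1) * (R.un t (m - 1) : ℝ) / (R.N * R.Q))) := by
  have hNr : (0:ℝ) < R.N := by exact_mod_cast hN
  have hQr : (0:ℝ) < R.Q := by exact_mod_cast hQ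
  have e : (C κ + (X + C R.xL) * (C (1 / (R.Q : ℝ)) * lp R.N t)) =
      C κ + C (1 / ((R.N:ℝ) * R.Q)) * lp R.N (MBC.mulLin (R.nL : ℤ) 1 t) := by
    rw [lp_mulLin]
    apply Polynomial.funext
    intro x
    simp only [eval_add, eval_mul, eval_C, eval_X, xL]
    push_cast
    field_simp
    ring
  have hc : ∀ m, (C κ + (X + C R.xL) * (C (1 / (R.Q : ℝ)) * lp R.N t)).coeff m =
      (if m = 0 then κ else 0) + (R.N:ℝ) ^ m * (R.un t m : ℝ) / (R.N * R.Q) := by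
    intro m
    rw [e, coeff_add, coeff_C_mul, lp_coeff, coeff_C]
    unfold un
    ring
  rw [bk, coeff_mul_lin, hc, hc]

theorem axpy_length (a : ℤ) (S T : List ℤ) :
    (MBC.axpy a S T).length = max S.length T.length := by
  induction S generalizing T with
  | nil => simp [MBC.axpy]
  | cons s S ih =>
    cases T with
    | nil => simp [MBC.axpy, ih]
    | cons t T => simp [MBC.axpy, ih]

theorem mulLin_length (a b : ℤ) (p : List ℤ) :
    (MBC.mulLin a b p).length = p.length + 1 := by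
  simp only [MBC.mulLin, axpy_length, List.length_cons, List.length_nil]
  omega

theorem un_zero (R : Raw) (t : List ℤ) (m : ℕ) (h : t.length < m) : R.un t m = 0 := by
  unfold un
  apply List.getD_eq_default
  rw [mulLin_length]
  omega

theorem bk_natDegree (R : Raw) (hN : 0 < R.N) (hQ : 0 < R.Q) (ρ κ : ℝ) (t : List ℤ) (ht : t.length ≤ 6) :
    (R.bk ρ κ t).natDegree < 8 := by
  apply Nat.lt_succ_of_le
  rw [Polynomial.natDegree_le_iff_coeff_eq_zero]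
  intro m hm
  have h1 : ¬ m = 0 := by omega
  have h2 : ¬ m - 1 = 0 := by omega
  rw [bk_coeff R hN hQ, un_zero R t m (by omega), un_zero R t (m - 1) (by omega), if_neg h1,
    if_neg h1, if_neg h2]
  simp

theorem coeff_err (R : Raw) (hN : 0 < R.N) (hQ : 0 < R.Q) {ρ κ : ℝ} (hρ : 1 < ρ) {A' C : ℕ}
    {X1 K1 : ℤ}
    {dX dK : ℕ} (hX : |2 ^ A' * (1 / ρ) - X1| ≤ dX) (hK : |2 ^ A' * κ - K1| ≤ dK)
    (t : List ℤ) (m : ℕ) {PM : ℕ} (hP : (R.pn A' K1 t m).natAbs ≤ PM) {eps : ℝ}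
    (heps : 1 / 2 ^ C + dX * PM / (R.N * R.Q * 2 ^ (2 * A')) + 2 * (dK / 2 ^ A') ≤ eps) :
    |(R.bk ρ κ t).coeff m - (R.an A' C X1 K1 t m : ℝ) / 2 ^ C| ≤ eps := by
  have hNr : (0:ℝ) < R.N := by exact_mod_cast hN
  have hQr : (0:ℝ) < R.Q := by exact_mod_cast hQ
  have hA' : (0:ℝ) < 2 ^ A' := by positivity
  have hA : (0:ℝ) < 2 ^ C := by positivity
  set x1 := 1 / ρ with hx1
  have hx10 : 0 ≤ x1 := by rw [hx1]; positivity
  have hx11 : x1 ≤ 1 := by
    rw [hx1, div_le_one (by linarith)]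
    linarith
  -- the exact numerators
  have hpn : ∀ m, (R.pn A' K1 t m : ℝ) / (R.N * R.Q * 2 ^ A') =
      (if m = 0 then (K1:ℝ) / 2 ^ A' else 0) + (R.N:ℝ) ^ m * (R.un t m : ℝ) / (R.N * R.Q) := by
    intro m
    have e1 : R.pn A' K1 t m = (if m = 0 then (R.N : ℤ) * (R.Q : ℤ) * K1 else 0) +
        ((2 ^ A' * R.N ^ m : ℕ) : ℤ) * R.un t m := by
      cases m <;> rfl
    rw [e1]
    split_ifs with h
    · subst h
      push_cast
      field_simp
    · push_cast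
      field_simp
      ring
  set a : ℝ := (X1:ℝ) / 2 ^ A' * ((R.pn A' K1 t m : ℝ) / (R.N * R.Q * 2 ^ A')) -
    (if m = 0 then 0 else (R.pn A' K1 t (m - 1) : ℝ) / (R.N * R.Q * 2 ^ A')) with ha
  have h1 : |a - (R.an A' C X1 K1 t m : ℝ) / 2 ^ C| ≤ 1 / 2 ^ C := by
    have hpos : 0 < R.N * R.Q * 2 ^ (2 * A') := by positivity
    have h := ediv_err' ((X1 * R.pn A' K1 t m - ((2 ^ A' : ℕ) : ℤ) * R.qn A' K1 t m) *
      ((2 ^ C : ℕ) : ℤ)) hpos
    have e2 : R.an A' C X1 K1 t m = ((X1 * R.pn A' K1 t m - ((2 ^ A' : ℕ) : ℤ) *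
        R.qn A' K1 t m) * ((2 ^ C : ℕ) : ℤ)) / ((R.N * R.Q * 2 ^ (2 * A') : ℕ) : ℤ) := rfl
    rw [← e2] at h
    have e3 : a - (R.an A' C X1 K1 t m : ℝ) / 2 ^ C =
        ((((X1 * R.pn A' K1 t m - ((2 ^ A' : ℕ) : ℤ) * R.qn A' K1 t m) *
          ((2 ^ C : ℕ) : ℤ) : ℤ) : ℝ) /
          ((R.N * R.Q * 2 ^ (2 * A') : ℕ) : ℝ) - (R.an A' C X1 K1 t m : ℝ)) / 2 ^ C := by
      rw [sub_div]
      congr 1
      rw [ha]
      have e4 : (if m = 0 then (0:ℝ) else (R.pn A' K1 t (m - 1) : ℝ) /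
          (R.N * R.Q * 2 ^ A')) = (R.qn A' K1 t m : ℝ) / (R.N * R.Q * 2 ^ A') := by
        cases m with
        | zero => simp [qn]
        | succ m => simp [qn]
      rw [e4]
      push_cast
      rw [two_mul, pow_add]
      field_simp
    rw [e3, abs_div, abs_of_pos hA]
    exact div_le_div_of_nonneg_right h hA.le
  have h2 : |(R.bk ρ κ t).coeff m - a| ≤ dX * PM / (R.N * R.Q * 2 ^ (2 * A')) +
      2 * (dK / 2 ^ A') := by
    have hδ : |x1 - X1 / 2 ^ A'| ≤ dX / 2 ^ A' := by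
      have : x1 - X1 / 2 ^ A' = (2 ^ A' * x1 - X1) / 2 ^ A' := by field_simp
      rw [this, abs_div, abs_of_pos hA']
      exact div_le_div_of_nonneg_right hX hA'.le
    have hκ : ∀ m : ℕ, |(if m = 0 then κ else 0) - (if m = 0 then (K1:ℝ) / 2 ^ A' else 0)| ≤
        dK / 2 ^ A' := by
      intro m
      split_ifs
      · have : κ - K1 / 2 ^ A' = (2 ^ A' * κ - K1) / 2 ^ A' := by field_simp
        rw [this, abs_div, abs_of_pos hA']
        exact div_le_div_of_nonneg_right hK hA'.le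
      · simp only [sub_self, abs_zero]
        positivity
    have hPr : |(R.pn A' K1 t m : ℝ) / (R.N * R.Q * 2 ^ A')| ≤ PM / (R.N * R.Q * 2 ^ A') := by
      rw [abs_div, abs_of_pos (by positivity : (0:ℝ) < R.N * R.Q * 2 ^ A')]
      apply div_le_div_of_nonneg_right _ (by positivity)
      rw [← Int.cast_abs]
      have : |R.pn A' K1 t m| ≤ (PM : ℤ) := by
        rw [Int.abs_eq_natAbs]
        exact_mod_cast hP
      exact_mod_cast this
    rw [bk_coeff R hN hQ, ha]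
    set u : ℝ := (R.N:ℝ) ^ m * (R.un t m : ℝ) / (R.N * R.Q) with hu
    set v : ℝ := (R.N:ℝ) ^ (m - 1) * (R.un t (m - 1) : ℝ) / (R.N * R.Q) with hv
    have e5 := hpn m
    have e6 := hpn (m - 1)
    rw [← hu] at e5
    rw [← hv] at e6
    have hk1 := hκ m
    have hk2 := hκ (m - 1)
    set c1 : ℝ := if m = 0 then κ else 0 with hc1
    set c1' : ℝ := if m = 0 then (K1:ℝ) / 2 ^ A' else 0 with hc1'
    set c2 : ℝ := if m - 1 = 0 then κ else 0 with hc2
    set c2' : ℝ := if m - 1 = 0 then (K1:ℝ) / 2 ^ A' else 0 with hc2'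
    rw [e5] at hPr
    rw [e5, e6]
    have e7 : x1 * (c1 + u) - (if m = 0 then 0 else (c2 + v)) -
        (X1 / 2 ^ A' * (c1' + u) - (if m = 0 then 0 else (c2' + v))) =
        (x1 - X1 / 2 ^ A') * (c1' + u) + x1 * (c1 - c1') -
          (if m = 0 then 0 else (c2 - c2')) := by
      split_ifs <;> ring
    rw [e7]
    have b1 : |(x1 - X1 / 2 ^ A') * (c1' + u)| ≤ dX / 2 ^ A' * (PM / (R.N * R.Q * 2 ^ A')) :=
      abs_mul_le hδ hPr
    have b2 : |x1 * (c1 - c1')| ≤ 1 * (dK / 2 ^ A') := by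
      apply abs_mul_le _ hk1
      rw [abs_of_nonneg hx10]
      exact hx11
    have b3 : |(if m = 0 then 0 else (c2 - c2'))| ≤ dK / 2 ^ A' := by
      split_ifs
      · simp only [abs_zero]
        positivity
      · exact hk2
    have b4 : dX / 2 ^ A' * (PM / (R.N * R.Q * 2 ^ A')) =
        (dX:ℝ) * PM / (R.N * R.Q * 2 ^ (2 * A')) := by
      rw [two_mul, pow_add]
      field_simp
    rw [b4] at b1
    have b5 := abs_add_le ((x1 - X1 / 2 ^ A') * (c1' + u)) (x1 * (c1 - c1'))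
    have b6 := abs_sub ((x1 - X1 / 2 ^ A') * (c1' + u) + x1 * (c1 - c1'))
      (if m = 0 then 0 else (c2 - c2'))
    linarith
  have h3 := abs_sub_le ((R.bk ρ κ t).coeff m) a ((R.an A' C X1 K1 t m : ℝ) / 2 ^ C)
  linarith

/-- bound of the numerators -/
def pmax (R : Raw) (A' : ℕ) (K1 : ℤ) (t : List ℤ) : ℕ → ℕ
  | 0 => 0
  | m + 1 => Nat.add (R.pn A' K1 t m).natAbs (pmax R A' K1 t m)

theorem pn_le_pmax (R : Raw) (A' : ℕ) (K1 : ℤ) (t : List ℤ) (n m : ℕ) (h : m < n) :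
    (R.pn A' K1 t m).natAbs ≤ R.pmax A' K1 t n := by
  induction n with
  | zero => omega
  | succ n ih =>
    have e : R.pmax A' K1 t (n + 1) = (R.pn A' K1 t n).natAbs + R.pmax A' K1 t n := rfl
    rcases Nat.lt_succ_iff_lt_or_eq.mp h with h1 | h1
    · have := ih h1
      omega
    · subst h1
      omega

/-- **The approximation.** -/
theorem apx (R : Raw) (hN : 0 < R.N) (hQ : 0 < R.Q) {ρ : ℝ} (hρ : 1 < ρ) {A' C : ℕ} {X1 K1 : ℤ}
    {dX dK : ℕ} (hX : |2 ^ A' * (1 / ρ) - X1| ≤ dX) (hK : |2 ^ A' * R.kap ρ - K1| ≤ dK)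
    (h0 : R.t0.length ≤ 6) (h2 : R.t2.length ≤ 6) (h3 : R.t3.length ≤ 6) (h4 : R.t4.length ≤ 6)
    {PM : ℕ} (hPM : Nat.ble (Nat.add (R.pmax A' K1 R.t0 8) (Nat.add (R.pmax A' 0 R.t2 8)
      (Nat.add (R.pmax A' 0 R.t3 8) (R.pmax A' 0 R.t4 8)))) PM = true) {eps : ℝ}
    (heps : 1 / 2 ^ C + dX * PM / (R.N * R.Q * 2 ^ (2 * A')) + 2 * (dK / 2 ^ A') ≤ eps) :
    MBC.Apx (R.dat ρ) (R.L A' C X1 K1) C eps := by
  have hPM' : R.pmax A' K1 R.t0 8 + (R.pmax A' 0 R.t2 8 + (R.pmax A' 0 R.t3 8 +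
    R.pmax A' 0 R.t4 8)) ≤ PM := Nat.le_of_ble_eq_true hPM
  have hNr : (0:ℝ) < R.N := by exact_mod_cast hN
  have hQr : (0:ℝ) < R.Q := by exact_mod_cast hQ
  have hK0 : |2 ^ A' * (0:ℝ) - ((0:ℤ) : ℝ)| ≤ (dK:ℝ) := by simp
  refine ⟨⟨bk_natDegree R hN hQ _ _ _ h0, bk_natDegree R hN hQ _ _ _ h2,
    bk_natDegree R hN hQ _ _ _ h3, bk_natDegree R hN hQ _ _ _ h4⟩, by simp [L], ?_, le_trans (by positivity) heps, ?_⟩
  · intro r hr
    simp only [L, List.mem_cons, List.not_mem_nil, or_false] at hr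
    rcases hr with rfl | rfl | rfl | rfl | rfl <;> simp [mk_length]
  · intro k hk m hm
    have key : ∀ (κ : ℝ) (K : ℤ) (t : List ℤ), |2 ^ A' * κ - K| ≤ dK →
        R.pmax A' K t 8 ≤ PM →
        |(R.bk ρ κ t).coeff m - ((((MBC.mk (R.an A' C X1 K t) 8 0).getD m 0 : ℤ)) : ℝ) / 2 ^ C| ≤
          eps := by
      intro κ K t hK1 hP
      rw [mk_getD _ _ _ _ _ hm, zero_add]
      exact coeff_err R hN hQ hρ hX hK1 t m ((pn_le_pmax R A' K t 8 m hm).trans hP) heps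
    interval_cases k
    · exact key _ _ _ hK (by omega)
    · have e1 : MBC.cf (R.dat ρ) 1 m = 0 := rfl
      have e2 : MBC.gc (R.L A' C X1 K1) 1 m = 0 := rfl
      rw [e1, e2]
      simp only [Int.cast_zero, zero_div, sub_zero, abs_zero]
      exact le_trans (by positivity) heps
    · exact key _ _ _ hK0 (by omega)
    · exact key _ _ _ hK0 (by omega)
    · exact key _ _ _ hK0 (by omega)

/-- the conditions on the data from `c2` -/
theorem ok (R : Raw) {ρ : ℝ} (hρ : 1 < ρ) (h1L : 1 / ρ < R.xL) (hrB : 0 < R.rB)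
    (hc2 : ∀ x w : ℝ, -R.xL ≤ x → x ≤ -(1 / ρ) → 0 ≤ w → w ≤ (R.dat ρ).W x →
      Real.log (ρ * (-x)) ≤ (R.dat ρ).b x w) : (R.dat ρ).Ok := by
  have h0 : 0 < 1 / ρ := by positivity
  refine ⟨hρ, h1L, hrB, ?_, ?_, ?_, ?_, ?_, ?_, ?_, ?_, hc2⟩
  · show (R.bk ρ (R.kap ρ) R.t0).eval (1 / ρ) = 0
    rw [bk_eval]; ring
  · show (R.bk ρ 0 R.t2).eval (1 / ρ) = 0
    rw [bk_eval]; ring
  · show (R.bk ρ 0 R.t3).eval (1 / ρ) = 0
    rw [bk_eval]; ring
  · show (R.bk ρ 0 R.t4).eval (1 / ρ) = 0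
    rw [bk_eval]; ring
  · show (R.bk ρ (R.kap ρ) R.t0).eval (-R.xL) = Real.log (ρ * R.xL)
    rw [bk_eval, kap]
    have : 1 / ρ + R.xL ≠ 0 := by linarith
    have e : 1 / ρ - -R.xL = 1 / ρ + R.xL := by ring
    rw [e, neg_add_cancel, zero_mul, add_zero]
    generalize 1 / ρ + R.xL = u at this
    field_simp
  · show (R.bk ρ 0 R.t2).eval (-R.xL) = 0
    rw [bk_eval]; ring
  · show (R.bk ρ 0 R.t3).eval (-R.xL) = 0
    rw [bk_eval]; ring
  · show (R.bk ρ 0 R.t4).eval (-R.xL) = 0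
    rw [bk_eval]; ring

end Raw

end Pool.Agent.H44.Shore
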