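import Mathlib

/-!
Certified enclosures of `arctan` and `log` at rationals, evaluable by the kernel.
All enclosures are pairs of integers at the scale `2 ^ 60`.
-/

open Real Set

namespace Pool.Agent.H44.Shore.Num

/-! ### Partial sums -/

/-- partial sums of the arctangent series -/
noncomputable def atP (n : ℕ) (u : ℝ) : ℝ :=
  ∑ k ∈ Finset.range n, (-1 : ℝ) ^ k * u ^ (2 * k + 1) / (2 * k + 1)

/-- partial sums of the artanh series -/
noncomputable def thP (n : ℕ) (u : ℝ) : ℝ :=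
  ∑ k ∈ Finset.range n, u ^ (2 * k + 1) / (2 * k + 1)

theorem hasDerivAt_term (k : ℕ) (u : ℝ) :
    HasDerivAt (fun u : ℝ => u ^ (2 * k + 1) / (2 * k + 1)) (u ^ (2 * k)) u := by
  have h1 := (hasDerivAt_pow (2 * k + 1) u).div_const (2 * (k:ℝ) + 1)
  refine h1.congr_deriv ?_
  have : (2 * (k:ℝ) + 1) ≠ 0 := by positivity
  push_cast
  field_simp

theorem hasDerivAt_atP (n : ℕ) (u : ℝ) :
    HasDerivAt (atP n) (∑ k ∈ Finset.range n, (-(u ^ 2)) ^ k) u := by
  have h : HasDerivAt (fun u : ℝ => ∑ k ∈ Finset.range n,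
      (-1 : ℝ) ^ k * (u ^ (2 * k + 1) / (2 * k + 1)))
      (∑ k ∈ Finset.range n, (-1 : ℝ) ^ k * u ^ (2 * k)) u := by
    apply HasDerivAt.fun_sum
    intro k _
    exact (hasDerivAt_term k u).const_mul _
  have e1 : atP n = fun u : ℝ => ∑ k ∈ Finset.range n,
      (-1 : ℝ) ^ k * (u ^ (2 * k + 1) / (2 * k + 1)) := by
    funext u
    unfold atP
    exact Finset.sum_congr rfl fun k _ => by ring
  rw [e1]
  refine h.congr_deriv ?_
  apply Finset.sum_congr rfl
  intro k _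
  rw [neg_pow (u ^ 2), ← pow_mul]

theorem hasDerivAt_thP (n : ℕ) (u : ℝ) :
    HasDerivAt (thP n) (∑ k ∈ Finset.range n, (u ^ 2) ^ k) u := by
  have h : HasDerivAt (fun u : ℝ => ∑ k ∈ Finset.range n,
      (u ^ (2 * k + 1) / (2 * k + 1))) (∑ k ∈ Finset.range n, u ^ (2 * k)) u := by
    apply HasDerivAt.fun_sum
    intro k _
    exact hasDerivAt_term k u
  refine h.congr_deriv ?_
  apply Finset.sum_congr rfl
  intro k _
  rw [← pow_mul]

theorem geom_at (n : ℕ) (u : ℝ) :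
    (∑ k ∈ Finset.range n, (-(u ^ 2)) ^ k) = (1 - (-(u ^ 2)) ^ n) / (1 + u ^ 2) := by
  have h := mul_neg_geom_sum (-(u ^ 2)) n
  have : (1 + u ^ 2) ≠ 0 := by positivity
  rw [eq_div_iff this]
  linarith

theorem arctan_sub_atP (n : ℕ) {u : ℝ} (hu : 0 ≤ u) :
    |arctan u - atP n u| ≤ u ^ (2 * n + 1) / (2 * n + 1) := by
  -- both differences are monotone
  have key : ∀ ε : ℝ, (ε = 1 ∨ ε = -1) →
      0 ≤ u ^ (2 * n + 1) / (2 * n + 1) + ε * (arctan u - atP n u) := by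
    intro ε hε
    set f : ℝ → ℝ := fun u => u ^ (2 * n + 1) / (2 * n + 1) + ε * (arctan u - atP n u) with hf
    have hd : ∀ x : ℝ, HasDerivAt f (x ^ (2 * n) + ε * (1 / (1 + x ^ 2) -
        ∑ k ∈ Finset.range n, (-(x ^ 2)) ^ k)) x := fun x =>
      (hasDerivAt_term n x).add (((hasDerivAt_arctan x).sub (hasDerivAt_atP n x)).const_mul ε)
    have hmono : MonotoneOn f (Ici 0) := by
      apply monotoneOn_of_deriv_nonneg (convex_Ici 0)
      · exact fun x _ => (hd x).continuousAt.continuousWithinAt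
      · exact fun x _ => (hd x).differentiableAt.differentiableWithinAt
      · intro x _
        rw [(hd x).deriv, geom_at]
        have hx : 0 < 1 + x ^ 2 := by positivity
        have e : 1 / (1 + x ^ 2) - (1 - (-(x ^ 2)) ^ n) / (1 + x ^ 2) =
            (-(x ^ 2)) ^ n / (1 + x ^ 2) := by
          field_simp
          ring
        rw [e]
        have h1 : |(-(x ^ 2)) ^ n / (1 + x ^ 2)| ≤ x ^ (2 * n) := by
          have e2 : x ^ (2 * n) = (x ^ 2) ^ n := pow_mul x 2 n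
          rw [abs_div, abs_of_pos hx, abs_pow, abs_neg, abs_of_nonneg (sq_nonneg x), e2]
          apply div_le_self (by positivity)
          nlinarith [sq_nonneg x]
        have h2 := abs_le.mp h1
        rcases hε with rfl | rfl
        · linarith [h2.1]
        · linarith [h2.2]
    have h0 : f 0 = 0 := by
      simp [hf, atP]
    have := hmono (mem_Ici.mpr le_rfl) (mem_Ici.mpr hu) hu
    rw [h0] at this
    exact this
  rw [abs_le]
  have h1 := key 1 (Or.inl rfl)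
  have h2 := key (-1) (Or.inr rfl)
  constructor <;> linarith

theorem log_sub_thP (n : ℕ) {u : ℝ} (hu : 0 ≤ u) (hu2 : u ≤ 1 / 3) :
    thP n u ≤ (log (1 + u) - log (1 - u)) / 2 ∧
      (log (1 + u) - log (1 - u)) / 2 ≤ thP n u + 9 / 8 * (u ^ (2 * n + 1) / (2 * n + 1)) := by
  set F : ℝ → ℝ := fun u => (log (1 + u) - log (1 - u)) / 2 with hF
  have hdF : ∀ x : ℝ, 0 ≤ x → x ≤ 1 / 3 → HasDerivAt F (1 / (1 - x ^ 2)) x := by
    intro x h0 h1
    have a1 : HasDerivAt (fun x : ℝ => log (1 + x)) (1 / (1 + x)) x := by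
      have := ((hasDerivAt_id x).const_add 1).log (by simp; linarith)
      simpa using this
    have a2 : HasDerivAt (fun x : ℝ => log (1 - x)) (-1 / (1 - x)) x := by
      have := ((hasDerivAt_id x).const_sub 1).log (by simp; linarith)
      simpa using this
    refine ((a1.sub a2).div_const 2).congr_deriv ?_
    have b1 : 1 + x ≠ 0 := by linarith
    have b2 : 1 - x ≠ 0 := by linarith
    have b3 : 1 - x ^ 2 ≠ 0 := by
      have : 1 - x ^ 2 = (1 + x) * (1 - x) := by ring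
      rw [this]
      exact mul_ne_zero b1 b2
    field_simp
    ring
  have hgeo : ∀ x : ℝ, 0 ≤ x → x ≤ 1 / 3 → 1 / (1 - x ^ 2) - ∑ k ∈ Finset.range n, (x ^ 2) ^ k =
      (x ^ 2) ^ n / (1 - x ^ 2) := by
    intro x h0 h1
    have h := mul_neg_geom_sum (x ^ 2) n
    have b3 : 0 < 1 - x ^ 2 := by nlinarith
    rw [eq_div_iff b3.ne', sub_mul, one_div, inv_mul_cancel₀ b3.ne']
    linarith
  have hconv : Convex ℝ (Icc (0:ℝ) (1 / 3)) := convex_Icc _ _
  have hFu : (log (1 + u) - log (1 - u)) / 2 = F u := rfl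
  rw [hFu]
  constructor
  · have hd : ∀ x : ℝ, 0 ≤ x → x ≤ 1 / 3 → HasDerivAt (fun x => F x - thP n x)
        (1 / (1 - x ^ 2) - ∑ k ∈ Finset.range n, (x ^ 2) ^ k) x :=
      fun x h0 h1 => (hdF x h0 h1).sub (hasDerivAt_thP n x)
    have hmono : MonotoneOn (fun x => F x - thP n x) (Icc 0 (1 / 3)) := by
      apply monotoneOn_of_deriv_nonneg hconv
      · intro x hx
        exact (hd x hx.1 hx.2).continuousAt.continuousWithinAt
      · intro x hx
        rw [interior_Icc] at hx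
        exact (hd x hx.1.le hx.2.le).differentiableAt.differentiableWithinAt
      · intro x hx
        rw [interior_Icc] at hx
        rw [(hd x hx.1.le hx.2.le).deriv, hgeo x hx.1.le hx.2.le]
        have : 0 < 1 - x ^ 2 := by nlinarith [hx.1, hx.2]
        positivity
    have := hmono ⟨le_rfl, by norm_num⟩ ⟨hu, hu2⟩ hu
    simp only at this
    have e0 : F 0 - thP n 0 = 0 := by simp [hF, thP]
    linarith
  · have hd : ∀ x : ℝ, 0 ≤ x → x ≤ 1 / 3 →
        HasDerivAt (fun x => thP n x + 9 / 8 * (x ^ (2 * n + 1) / (2 * n + 1)) - F x)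
        (∑ k ∈ Finset.range n, (x ^ 2) ^ k + 9 / 8 * x ^ (2 * n) - 1 / (1 - x ^ 2)) x :=
      fun x h0 h1 => ((hasDerivAt_thP n x).add ((hasDerivAt_term n x).const_mul (9 / 8))).sub
        (hdF x h0 h1)
    have hmono : MonotoneOn (fun x => thP n x + 9 / 8 * (x ^ (2 * n + 1) / (2 * n + 1)) - F x)
        (Icc 0 (1 / 3)) := by
      apply monotoneOn_of_deriv_nonneg hconv
      · intro x hx
        exact (hd x hx.1 hx.2).continuousAt.continuousWithinAt
      · intro x hx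
        rw [interior_Icc] at hx
        exact (hd x hx.1.le hx.2.le).differentiableAt.differentiableWithinAt
      · intro x hx
        rw [interior_Icc] at hx
        rw [(hd x hx.1.le hx.2.le).deriv]
        have h1 := hgeo x hx.1.le hx.2.le
        have h2 : (x ^ 2) ^ n / (1 - x ^ 2) ≤ 9 / 8 * x ^ (2 * n) := by
          have : 0 < 1 - x ^ 2 := by nlinarith [hx.1, hx.2]
          rw [← pow_mul, div_le_iff₀ this]
          have h3 : 0 ≤ x ^ (2 * n) := by
            rw [pow_mul]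
            positivity
          have h4 : x ^ 2 ≤ 1 / 9 := by nlinarith [hx.1, hx.2]
          nlinarith
        linarith
    have := hmono ⟨le_rfl, by norm_num⟩ ⟨hu, hu2⟩ hu
    simp only at this
    have e0 : thP n 0 + 9 / 8 * ((0:ℝ) ^ (2 * n + 1) / (2 * n + 1)) - F 0 = 0 := by
      simp [hF, thP]
    linarith

/-! ### Integer evaluators -/

/-- the scale -/
def S : ℕ := 1152921504606846976

/-- `I` encloses `x` -/
def Enc (I : ℤ × ℤ) (x : ℝ) : Prop := (I.1 : ℝ) ≤ x * S ∧ x * S ≤ (I.2 : ℝ)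

/-- arctangent series -/
def atAux (a b : ℕ) : ℕ → ℕ → ℕ → ℕ → ℤ → ℤ → ℤ × ℤ
  | 0, _, _, Q, lo, hi => (lo - Q, hi + Q)
  | n + 1, k, P, Q, lo, hi =>
    bif Nat.beq (k % 2) 0 then
      atAux a b n (k + 1) (P * a / S) (Q * b / S + 1) (lo + ((P / (2 * k + 1) : ℕ) : ℤ))
        (hi + ((Q / (2 * k + 1) + 1 : ℕ) : ℤ))
    else
      atAux a b n (k + 1) (P * a / S) (Q * b / S + 1) (lo - ((Q / (2 * k + 1) + 1 : ℕ) : ℤ))
        (hi - ((P / (2 * k + 1) : ℕ) : ℤ))

/-- artanh series -/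
def thAux (a b : ℕ) : ℕ → ℕ → ℕ → ℕ → ℕ → ℕ → ℕ × ℕ
  | 0, _, _, Q, lo, hi => (lo, hi + 2 * Q)
  | n + 1, k, P, Q, lo, hi =>
      thAux a b n (k + 1) (P * a / S) (Q * b / S + 1) (lo + P / (2 * k + 1))
        (hi + (Q / (2 * k + 1) + 1))

theorem S_pos : (0:ℝ) < (S : ℝ) := by
  have : 0 < S := by decide
  exact_mod_cast this

theorem floor_mul {P a : ℕ} {x y : ℝ} (hx : 0 ≤ x) (hP : (P:ℝ) ≤ x * S) (ha : (a:ℝ) ≤ y * S) :
    ((P * a / S : ℕ) : ℝ) ≤ (x * y) * S := by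
  have h1 : ((P * a / S : ℕ) : ℝ) ≤ ((P * a : ℕ) : ℝ) / S := Nat.cast_div_le
  have h2 : ((P * a : ℕ) : ℝ) ≤ (x * S) * (y * S) := by
    push_cast
    have : (0:ℝ) ≤ a := Nat.cast_nonneg a
    have h3 : 0 ≤ x * S := mul_nonneg hx S_pos.le
    exact mul_le_mul hP ha this h3
  have h3 : ((P * a : ℕ) : ℝ) / S ≤ (x * S) * (y * S) / S := by
    gcongr
  have h4 : (x * S) * (y * S) / S = (x * y) * S := by
    have := S_pos.ne'
    field_simp
  linarith

theorem ceil_mul {Q b : ℕ} {x y : ℝ} (hy : 0 ≤ y) (hQ : x * S ≤ Q) (hb : y * S ≤ b) :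
    (x * y) * S ≤ ((Q * b / S + 1 : ℕ) : ℝ) := by
  have h1 : ((Q * b : ℕ) : ℝ) / S ≤ ((Q * b / S + 1 : ℕ) : ℝ) := by
    rw [div_le_iff₀ S_pos]
    have h0 : Q * b < S * (Q * b / S + 1) := by
      have := Nat.lt_mul_div_succ (Q * b) (show 0 < S by decide)
      exact this
    have h2 : ((Q * b : ℕ) : ℝ) ≤ ((S * (Q * b / S + 1) : ℕ) : ℝ) := by exact_mod_cast h0.le
    rw [Nat.cast_mul S] at h2
    linarith
  have h2 : (x * S) * (y * S) ≤ ((Q * b : ℕ) : ℝ) := by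
    push_cast
    have h3 : 0 ≤ y * S := mul_nonneg hy S_pos.le
    exact mul_le_mul hQ hb h3 (Nat.cast_nonneg Q)
  have h3 : (x * S) * (y * S) / S ≤ ((Q * b : ℕ) : ℝ) / S := by
    gcongr
  have h4 : (x * S) * (y * S) / S = (x * y) * S := by
    have := S_pos.ne'
    field_simp
  linarith

theorem floor_div {P : ℕ} {x : ℝ} (hP : (P:ℝ) ≤ x * S) (k : ℕ) :
    ((P / (2 * k + 1) : ℕ) : ℝ) ≤ x / (2 * k + 1) * S := by
  have h1 : ((P / (2 * k + 1) : ℕ) : ℝ) ≤ (P : ℝ) / ((2 * k + 1 : ℕ) : ℝ) := Nat.cast_div_le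
  have h2 : (P : ℝ) / ((2 * k + 1 : ℕ) : ℝ) ≤ x * S / ((2 * k + 1 : ℕ) : ℝ) := by
    gcongr
  have h3 : x * S / ((2 * k + 1 : ℕ) : ℝ) = x / (2 * k + 1) * S := by
    push_cast
    ring
  linarith

theorem ceil_div {Q : ℕ} {x : ℝ} (hQ : x * S ≤ Q) (k : ℕ) :
    x / (2 * k + 1) * S ≤ ((Q / (2 * k + 1) + 1 : ℕ) : ℝ) := by
  have h1 : (Q : ℝ) / ((2 * k + 1 : ℕ) : ℝ) ≤ ((Q / (2 * k + 1) + 1 : ℕ) : ℝ) := by
    rw [div_le_iff₀ (by positivity)]
    have h0 : Q < (2 * k + 1) * (Q / (2 * k + 1) + 1) :=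
      Nat.lt_mul_div_succ Q (show 0 < 2 * k + 1 by omega)
    have h2 : (Q : ℝ) ≤ (((2 * k + 1) * (Q / (2 * k + 1) + 1) : ℕ) : ℝ) := by exact_mod_cast h0.le
    rw [Nat.cast_mul (2 * k + 1)] at h2
    linarith
  have h2 : x * S / ((2 * k + 1 : ℕ) : ℝ) ≤ (Q : ℝ) / ((2 * k + 1 : ℕ) : ℝ) := by
    gcongr
  have h3 : x * S / ((2 * k + 1 : ℕ) : ℝ) = x / (2 * k + 1) * S := by
    push_cast
    ring
  linarith

theorem atAux_sound (a b : ℕ) {u : ℝ} (hu : 0 ≤ u) (ha : (a:ℝ) ≤ u ^ 2 * S)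
    (hb : u ^ 2 * S ≤ b) : ∀ (n k P Q : ℕ) (lo hi : ℤ), (P:ℝ) ≤ u ^ (2 * k + 1) * S →
      u ^ (2 * k + 1) * S ≤ Q → (lo : ℝ) ≤ atP k u * S → atP k u * S ≤ hi →
      Enc (atAux a b n k P Q lo hi) (arctan u) := by
  intro n
  induction n with
  | zero =>
    intro k P Q lo hi hP hQ hlo hhi
    have h1 := arctan_sub_atP k hu
    have h2 : u ^ (2 * k + 1) / (2 * k + 1) ≤ u ^ (2 * k + 1) := by
      apply div_le_self (by positivity)
      have : (0:ℝ) ≤ k := Nat.cast_nonneg k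
      linarith
    have h3 := abs_le.mp (h1.trans h2)
    have hS := S_pos
    unfold atAux Enc
    push_cast
    constructor
    · nlinarith [mul_le_mul_of_nonneg_right h3.1 hS.le]
    · nlinarith [mul_le_mul_of_nonneg_right h3.2 hS.le]
  | succ n ih =>
    intro k P Q lo hi hP hQ hlo hhi
    have e1 : u ^ (2 * (k + 1) + 1) = u ^ (2 * k + 1) * u ^ 2 := by ring
    have hP' : ((P * a / S : ℕ) : ℝ) ≤ u ^ (2 * (k + 1) + 1) * S := by
      rw [e1]
      exact floor_mul (by positivity) hP ha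
    have hQ' : u ^ (2 * (k + 1) + 1) * S ≤ ((Q * b / S + 1 : ℕ) : ℝ) := by
      rw [e1]
      exact ceil_mul (by positivity) hQ hb
    have ht1 := floor_div hP k
    have ht2 := ceil_div hQ k
    have es : atP (k + 1) u = atP k u + (-1 : ℝ) ^ k * u ^ (2 * k + 1) / (2 * k + 1) := by
      unfold atP
      rw [Finset.sum_range_succ]
    unfold atAux
    rcases Nat.even_or_odd k with hk | hk
    · have e2 : k % 2 = 0 := Nat.even_iff.mp hk
      have e3 : Nat.beq (k % 2) 0 = true := by rw [e2]; rfl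
      rw [e3, cond_true]
      apply ih _ _ _ _ _ hP' hQ'
      · rw [es, hk.neg_one_pow, Int.cast_add, Int.cast_natCast, one_mul, add_mul]
        linarith
      · rw [es, hk.neg_one_pow, Int.cast_add, Int.cast_natCast, one_mul, add_mul]
        linarith
    · have e2 : k % 2 = 1 := Nat.odd_iff.mp hk
      have e3 : Nat.beq (k % 2) 0 = false := by rw [e2]; rfl
      have e4 : (atP k u + -1 * u ^ (2 * k + 1) / (2 * k + 1)) * S =
          atP k u * S - u ^ (2 * k + 1) / (2 * k + 1) * S := by ring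
      rw [e3, cond_false]
      apply ih _ _ _ _ _ hP' hQ'
      · rw [es, hk.neg_one_pow, Int.cast_sub, Int.cast_natCast, e4]
        linarith
      · rw [es, hk.neg_one_pow, Int.cast_sub, Int.cast_natCast, e4]
        linarith

theorem thAux_sound (a b : ℕ) {u : ℝ} (hu : 0 ≤ u) (hu2 : u ≤ 1 / 3) (ha : (a:ℝ) ≤ u ^ 2 * S)
    (hb : u ^ 2 * S ≤ b) : ∀ (n k P Q : ℕ) (lo hi : ℕ), (P:ℝ) ≤ u ^ (2 * k + 1) * S →
      u ^ (2 * k + 1) * S ≤ Q → (lo : ℝ) ≤ thP k u * S → thP k u * S ≤ hi →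
      ((thAux a b n k P Q lo hi).1 : ℝ) ≤ (log (1 + u) - log (1 - u)) / 2 * S ∧
      (log (1 + u) - log (1 - u)) / 2 * S ≤ ((thAux a b n k P Q lo hi).2 : ℝ) := by
  intro n
  induction n with
  | zero =>
    intro k P Q lo hi hP hQ hlo hhi
    have h1 := log_sub_thP k hu hu2
    have h2 : u ^ (2 * k + 1) / (2 * k + 1) ≤ u ^ (2 * k + 1) := by
      apply div_le_self (by positivity)
      have : (0:ℝ) ≤ k := Nat.cast_nonneg k
      linarith
    have h0 : 0 ≤ u ^ (2 * k + 1) / (2 * k + 1) := by positivity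
    have hS := S_pos
    unfold thAux
    push_cast
    constructor
    · nlinarith [mul_le_mul_of_nonneg_right h1.1 hS.le]
    · have h3 : (log (1 + u) - log (1 - u)) / 2 ≤ thP k u + 2 * u ^ (2 * k + 1) := by linarith
      nlinarith [mul_le_mul_of_nonneg_right h3 hS.le]
  | succ n ih =>
    intro k P Q lo hi hP hQ hlo hhi
    have e1 : u ^ (2 * (k + 1) + 1) = u ^ (2 * k + 1) * u ^ 2 := by ring
    have hP' : ((P * a / S : ℕ) : ℝ) ≤ u ^ (2 * (k + 1) + 1) * S := by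
      rw [e1]
      exact floor_mul (by positivity) hP ha
    have hQ' : u ^ (2 * (k + 1) + 1) * S ≤ ((Q * b / S + 1 : ℕ) : ℝ) := by
      rw [e1]
      exact ceil_mul (by positivity) hQ hb
    have ht1 := floor_div hP k
    have ht2 := ceil_div hQ k
    have es : thP (k + 1) u = thP k u + u ^ (2 * k + 1) / (2 * k + 1) := by
      unfold thP
      rw [Finset.sum_range_succ]
    unfold thAux
    apply ih _ _ _ _ _ hP' hQ'
    · rw [es]
      push_cast at ht1 ⊢
      linarith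
    · rw [es]
      push_cast at ht2 ⊢
      linarith

/-- enclosure of `arctan (p / q)` for `2 p ≤ q` -/
def atSer (p q : ℕ) : ℤ × ℤ :=
  atAux ((p * S / q) * (p * S / q) / S) ((p * S / q + 1) * (p * S / q + 1) / S + 1) 16 0
    (p * S / q) (p * S / q + 1) 0 0

theorem floor_frac {p q : ℕ} : ((p * S / q : ℕ) : ℝ) ≤ (p:ℝ) / q * S := by
  have h1 : ((p * S / q : ℕ) : ℝ) ≤ ((p * S : ℕ) : ℝ) / q := Nat.cast_div_le
  have h2 : ((p * S : ℕ) : ℝ) / q = (p:ℝ) / q * S := by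
    push_cast
    ring
  linarith

theorem ceil_frac {p q : ℕ} (hq : 0 < q) : (p:ℝ) / q * S ≤ ((p * S / q + 1 : ℕ) : ℝ) := by
  have hq' : (0:ℝ) < q := by exact_mod_cast hq
  have h1 : ((p * S : ℕ) : ℝ) / q ≤ ((p * S / q + 1 : ℕ) : ℝ) := by
    rw [div_le_iff₀ hq']
    have h0 : p * S < q * (p * S / q + 1) := Nat.lt_mul_div_succ (p * S) hq
    have h2 : ((p * S : ℕ) : ℝ) ≤ ((q * (p * S / q + 1) : ℕ) : ℝ) := by exact_mod_cast h0.le
    rw [Nat.cast_mul q] at h2
    linarith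
  have h2 : ((p * S : ℕ) : ℝ) / q = (p:ℝ) / q * S := by
    push_cast
    ring
  linarith

theorem atSer_sound {p q : ℕ} (hq : 0 < q) : Enc (atSer p q) (arctan ((p:ℝ) / q)) := by
  have h0 : (0:ℝ) ≤ (p:ℝ) / q := by positivity
  have hP : ((p * S / q : ℕ) : ℝ) ≤ (p:ℝ) / q * S := floor_frac
  have hQ := ceil_frac (p := p) hq
  unfold atSer
  apply atAux_sound _ _ h0
  · rw [sq]
    exact floor_mul h0 hP hP
  · rw [sq]
    exact ceil_mul h0 hQ hQ
  · simpa using hP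
  · simpa using hQ
  · simp [atP]
  · simp [atP]

/-- enclosure of `log (p / q)` for `q ≤ p ≤ 2 q` -/
def lgSer (p q : ℕ) : ℤ × ℤ :=
  let P := (p - q) * S / (p + q)
  let r := thAux (P * P / S) ((P + 1) * (P + 1) / S + 1) 16 0 P (P + 1) 0 0
  (2 * (r.1 : ℤ), 2 * (r.2 : ℤ))

theorem lgSer_sound {p q : ℕ} (hq : 0 < q) (h1 : q ≤ p) (h2 : p ≤ 2 * q) :
    Enc (lgSer p q) (log ((p:ℝ) / q)) := by
  have hq' : (0:ℝ) < q := by exact_mod_cast hq
  have h1' : (q:ℝ) ≤ p := by exact_mod_cast h1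
  have h2' : (p:ℝ) ≤ 2 * q := by exact_mod_cast h2
  have hpq : (0:ℝ) < p + q := by linarith
  set u : ℝ := ((p - q : ℕ) : ℝ) / ((p + q : ℕ) : ℝ) with hu
  have hu0 : 0 ≤ u := by positivity
  have hu1 : u ≤ 1 / 3 := by
    rw [hu, div_le_iff₀ (by push_cast; exact hpq)]
    rw [Nat.cast_sub h1]
    push_cast
    linarith
  have hlog : (log (1 + u) - log (1 - u)) / 2 = log ((p:ℝ) / q) / 2 := by
    congr 1
    rw [← log_div (by linarith) (by linarith)]
    congr 1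
    have hne : (1 - u) ≠ 0 := by linarith
    rw [div_eq_div_iff hne hq'.ne', hu, Nat.cast_sub h1]
    push_cast
    field_simp
    ring
  have hP : ((((p - q) * S / (p + q)) : ℕ) : ℝ) ≤ u * S := floor_frac
  have hQ := ceil_frac (p := p - q) (show 0 < p + q by omega)
  rw [← hu] at hQ
  have k1 := floor_mul hu0 hP hP
  have k2 := ceil_mul hu0 hQ hQ
  have e2 : u * u = u ^ 2 := (sq u).symm
  rw [e2] at k1 k2
  have hP1 : ((((p - q) * S / (p + q)) : ℕ) : ℝ) ≤ u ^ (2 * 0 + 1) * S := by simpa using hP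
  have hQ1 : u ^ (2 * 0 + 1) * S ≤ ((((p - q) * S / (p + q)) + 1 : ℕ) : ℝ) := by simpa using hQ
  have key := thAux_sound _ _ hu0 hu1 k1 k2 16 0 _ _ 0 0 hP1 hQ1
      (by simp [thP]) (by simp [thP])
  rw [hlog] at key
  unfold Enc lgSer
  push_cast
  constructor <;> linarith [key.1, key.2]

end Pool.Agent.H44.Shore.Num
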