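import Mathlib
import Pool.Agent.H4.Shore.Final
import Pool.Agent.H44.Shore.Coef
import Pool.Agent.H44.Shore.Num
import Pool.Agent.H81.Shore.ApxS

/-!
Shoreline search: the exact certificate (numerical data of helper81), its constants, and the
conditions `Dat.Ok`.
-/

open Set Polynomial Real

namespace Pool.Agent.H44.Shore

/-- the integer data of the exact certificate -/
def RX : Raw where
  N := 250
  nL := 49
  rb := 325059
  rc := 1048576
  Q := 15625000000
  t0 := [-118687500000, 10478125000, 36500000, -6650000]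
  t2 := [-365843750000, -91778125000, 456500000, 91340000]
  t3 := [1130375000000, 147446875000, -1964250000, -195360000]
  t4 := [-757812500000, -66768750000, 1509500000, 114410000]

/-- the exact certificate -/
noncomputable def DX (α ω : ℝ) : Dat := RX.dat (1 / (sin α * cos ω))

theorem RX_xL : RX.xL = 196 / 1000 := by
  norm_num [Raw.xL, RX]

theorem RX_rB : RX.rB = 325059 / 1048576 := by
  norm_num [Raw.rB, RX]

/-- plain form of the coefficients -/
theorem RX_plain (x w : ℝ) : MBC.ev2 RX.T (RX.N * x) w / RX.Q =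
    (-7.596 + 167.65 * x + 146 * x ^ 2 - 6650 * x ^ 3) +
    w ^ 2 * (-23.414 - 1468.45 * x + 1826 * x ^ 2 + 91340 * x ^ 3) +
    w ^ 3 * (72.344 + 2359.15 * x - 7857 * x ^ 2 - 195360 * x ^ 3) +
    w ^ 4 * (-48.5 - 1068.3 * x + 6038 * x ^ 2 + 114410 * x ^ 3) := by
  simp only [RX, Raw.T, MBC.ev2, MBC.ev]
  push_cast
  ring

open Pool.Agent.H4.Shore in
theorem x1_bounds {α ω : ℝ} (h : Consts α ω) :
    0.072405344455075 ≤ sin α * cos ω ∧ sin α * cos ω ≤ 0.072405344457316 := by
  have h1 := h.sal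
  have h2 := h.sau
  have h3 := h.cwl
  have h4 := h.cwu
  constructor
  · calc (0.072405344455075:ℝ) ≤ 0.2078302662956544 * 0.34838691084614861 := by norm_num
      _ ≤ _ := mul_le_mul h1 h3 (by norm_num) (by linarith)
  · calc sin α * cos ω ≤ 0.20783026629761079 * 0.3483869108536475 :=
          mul_le_mul h2 h4 (by linarith) (by norm_num)
      _ ≤ _ := by norm_num

theorem lg_lower {p q : ℕ} (hq : 0 < q) (h1 : q ≤ p) (h2 : p ≤ 2 * q) {a : ℤ}
    (h : decide (a ≤ (Num.lgSer p q).1) = true) : (a:ℝ) / Num.S ≤ log ((p:ℝ) / q) := by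
  have h3 := (Num.lgSer_sound hq h1 h2).1
  have h4 : a ≤ (Num.lgSer p q).1 := of_decide_eq_true h
  have h5 : (a:ℝ) ≤ ((Num.lgSer p q).1 : ℝ) := by exact_mod_cast h4
  rw [div_le_iff₀ Num.S_pos]
  linarith

theorem lg_upper {p q : ℕ} (hq : 0 < q) (h1 : q ≤ p) (h2 : p ≤ 2 * q) {a : ℤ}
    (h : decide ((Num.lgSer p q).2 ≤ a) = true) : log ((p:ℝ) / q) ≤ (a:ℝ) / Num.S := by
  have h3 := (Num.lgSer_sound hq h1 h2).2
  have h4 : (Num.lgSer p q).2 ≤ a := of_decide_eq_true h
  have h5 : ((Num.lgSer p q).2 : ℝ) ≤ (a:ℝ) := by exact_mod_cast h4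
  rw [le_div_iff₀ Num.S_pos]
  linarith

/-! ### The constants -/

section consts

open Pool.Agent.H4.Shore

variable {α ω : ℝ}

theorem inv_rho (α ω : ℝ) : 1 / (1 / (sin α * cos ω)) = sin α * cos ω := one_div_one_div _

theorem hρX (h : Consts α ω) : 1 < 1 / (sin α * cos ω) := by
  have h1 := h.rho_bounds
  linarith [h1.1]

theorem hXX (h : Consts α ω) :
    |2 ^ 48 * (1 / (1 / (sin α * cos ω))) - ((20380292644535 : ℤ) : ℝ)| ≤ ((400 : ℕ) : ℝ) := by
  obtain ⟨h1, h2⟩ := x1_bounds h
  rw [inv_rho]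
  push_cast
  rw [abs_le]
  constructor <;> linarith

theorem log_bounds (h : Consts α ω) :
    (799144290325165978 + 348974770588867348 - 1000) / (1152921504606846976 : ℝ) ≤
      log (1 / (sin α * cos ω) * RX.xL) ∧
    log (1 / (sin α * cos ω) * RX.xL) ≤
      (799144290325165978 + 348974770624643496 + 2000) / (1152921504606846976 : ℝ) := by
  obtain ⟨h1, h2⟩ := x1_bounds h
  have hS : ((Num.S : ℕ) : ℝ) = 1152921504606846976 := by norm_num [Num.S]
  have hpos : 0 < sin α * cos ω := by linarith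
  have a1 := lg_lower (p := 2) (q := 1) (by norm_num) (by norm_num) (by norm_num)
    (a := 799144290325165978 - 500) (by decide +kernel)
  have a2 := lg_upper (p := 2) (q := 1) (by norm_num) (by norm_num) (by norm_num)
    (a := 799144290325165978 + 1500) (by decide +kernel)
  have b1 := lg_lower (p := 13534912475662) (q := 10 ^ 13) (by norm_num) (by norm_num)
    (by norm_num) (a := 348974770588867348 - 500) (by decide +kernel)
  have b2 := lg_upper (p := 13534912476082) (q := 10 ^ 13) (by norm_num) (by norm_num)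
    (by norm_num) (a := 348974770624643496 + 500) (by decide +kernel)
  rw [hS] at a1 a2 b1 b2
  rw [RX_xL]
  have e : 1 / (sin α * cos ω) * (196 / 1000) = 0.196 / (sin α * cos ω) := by ring
  rw [e]
  have l1 : ((2:ℕ):ℝ) / ((1:ℕ):ℝ) * (((13534912475662 : ℕ) : ℝ) / ((10 ^ 13 : ℕ) : ℝ)) ≤
      0.196 / (sin α * cos ω) := by
    rw [le_div_iff₀ hpos]
    push_cast
    nlinarith
  have l2 : 0.196 / (sin α * cos ω) ≤
      ((2:ℕ):ℝ) / ((1:ℕ):ℝ) * (((13534912476082 : ℕ) : ℝ) / ((10 ^ 13 : ℕ) : ℝ)) := by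
    rw [div_le_iff₀ hpos]
    push_cast
    nlinarith
  have c1 := log_le_log (by positivity) l1
  have c2 := log_le_log (by positivity) l2
  rw [log_mul (by positivity) (by positivity)] at c1 c2
  constructor
  · refine le_trans ?_ c1
    refine le_trans (le_of_eq ?_) (add_le_add a1 b1)
    push_cast
    norm_num
  · refine c2.trans ?_
    refine le_trans (add_le_add a2 b2) (le_of_eq ?_)
    push_cast
    norm_num

theorem kap_bounds (h : Consts α ω) :
    3.71018895359 ≤ RX.kap (1 / (sin α * cos ω)) ∧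
      RX.kap (1 / (sin α * cos ω)) ≤ 3.71018895375 := by
  obtain ⟨h1, h2⟩ := x1_bounds h
  obtain ⟨l1, l2⟩ := log_bounds h
  unfold Raw.kap
  rw [inv_rho]
  rw [RX_xL] at l1 l2 ⊢
  have hpos : 0 < sin α * cos ω + 196 / 1000 := by linarith
  constructor
  · rw [le_div_iff₀ hpos]
    refine le_trans ?_ l1
    have : sin α * cos ω + 196 / 1000 ≤ 0.268405344457316 := by linarith
    refine (mul_le_mul_of_nonneg_left this (by norm_num)).trans ?_
    norm_num
  · rw [div_le_iff₀ hpos]
    refine l2.trans ?_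
    have : 0.268405344455075 ≤ sin α * cos ω + 196 / 1000 := by linarith
    refine le_trans ?_ (mul_le_mul_of_nonneg_left this (by norm_num))
    norm_num

theorem hKX (h : Consts α ω) :
    |2 ^ 48 * RX.kap (1 / (sin α * cos ω)) - ((1044325349326561 : ℤ) : ℝ)| ≤
      ((30000 : ℕ) : ℝ) := by
  obtain ⟨h1, h2⟩ := kap_bounds h
  push_cast
  rw [abs_le]
  constructor <;> linarith

theorem chk_c2a : MBC.apx 32 32 (2 ^ 134) 5 (MBC.rs2 5 9 7 4
    (RX.c2P 48 8 20380292644535 1044325349362989)) 0 0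
    [6, 6, 6] = true := by decide +kernel

theorem chk_c2b : MBC.apx 32 32 (2 ^ 134) 5 (MBC.rs2 5 9 7 4
    (RX.c2P 48 8 20380292644535 1044325349362989)) 0 192
    [6, 6, 7] = true := by decide +kernel

theorem chk_c2c : MBC.apx 32 32 (2 ^ 134) 5 (MBC.rs2 5 9 7 4
    (RX.c2P 48 8 20380292644535 1044325349362989)) 0 384
    [7, 7, 7] = true := by decide +kernel

theorem chk_c2d : MBC.apx 32 32 (2 ^ 134) 5 (MBC.rs2 5 9 7 4
    (RX.c2P 48 8 20380292644535 1044325349362989)) 0 576
    [7, 8, 8] = true := by decide +kernel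

theorem chk_c2e : MBC.apx 32 32 (2 ^ 134) 5 (MBC.rs2 5 9 7 4
    (RX.c2P 48 8 20380292644535 1044325349362989)) 0 768
    [8, 8] = true := by decide +kernel

theorem chk_c2f : MBC.apx 32 32 (2 ^ 134) 5 (MBC.rs2 5 9 7 4
    (RX.c2P 48 8 20380292644535 1044325349362989)) 0 896
    [8, 8] = true := by decide +kernel

theorem chk_c2 : MBC.apx 32 32 (2 ^ 134) 5 (MBC.rs2 5 9 7 4
    (RX.c2P 48 8 20380292644535 1044325349362989)) 0 0
    [6, 6, 6, 6, 6, 7, 7, 7, 7, 7, 8, 8, 8, 8, 8, 8] = true :=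
  MBC.apx_split (ns := [6, 6, 6]) 192 (by norm_num) chk_c2a
    (MBC.apx_split (ns := [6, 6, 7]) 384 (by norm_num) chk_c2b
      (MBC.apx_split (ns := [7, 7, 7]) 576 (by norm_num) chk_c2c
        (MBC.apx_split (ns := [7, 8, 8]) 768 (by norm_num) chk_c2d
          (MBC.apx_split (ns := [8, 8]) 896 (by norm_num) chk_c2e chk_c2f))))

/-- **The conditions on the exact certificate.** -/
theorem okX (h : Consts α ω) : (DX α ω).Ok := by
  have hx := x1_bounds h
  have hk := kap_bounds h
  have h1L : 1 / (1 / (sin α * cos ω)) < RX.xL := by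
    rw [inv_rho, RX_xL]
    linarith [hx.2]
  refine Raw.ok RX (hρX h) h1L (by rw [RX_rB]; norm_num) ?_
  refine Raw.c2_of_check RX (hρX h) (by decide) (by decide) (by decide) (by decide) (by decide)
    h1L (A' := 48) (n := 8) (X1 := 20380292644535) (K1 := 1044325349362989) (dX := 400) (hXX h)
    ?_ (s := 5) (q := 9) (K := 7) (H := 32) (G := 32) (M := 2 ^ 134) (d := 5)
    (ns := [6, 6, 6, 6, 6, 7, 7, 7, 7, 7, 8, 8, 8, 8, 8, 8]) (by decide) (by decide +kernel)
    (by decide +kernel) chk_c2 (by decide) ?_ ?_ (by decide +kernel)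
  · push_cast
    linarith [hk.2]
  · rw [inv_rho]
    have : ((RX.nL : ℕ) : ℝ) = 49 := by norm_num [RX]
    rw [this]
    have : ((RX.N : ℕ) : ℝ) = 250 := by norm_num [RX]
    rw [this]
    simp only [List.length_cons, List.length_nil]
    push_cast
    linarith [hx.1]
  · intro k hk
    have e1 : ((RX.nL : ℕ) : ℝ) = 49 := by norm_num [RX]
    have e2 : ((RX.N : ℕ) : ℝ) = 250 := by norm_num [RX]
    rw [e1, e2, RX_rB]
    simp only [List.length_cons, List.length_nil] at hk
    interval_cases k <;> norm_num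

/-- integer matrix of the coefficients, denominator `2 ^ 60` -/
def LX : List (List ℤ) := RX.L 48 60 20380292644535 1044325349326561

/-- **The coefficients of the exact certificate.** -/
theorem apxX (h : Consts α ω) : MBC.Apx (DX α ω) LX 60 (1 / 10 ^ 6) := by
  refine Raw.apx RX (by decide) (by decide) (hρX h) (hXX h) (hKX h) (by decide) (by decide)
    (by decide) (by decide) (PM := 2 ^ 109) (by decide +kernel) ?_
  have e1 : ((RX.N : ℕ) : ℝ) = 250 := by norm_num [RX]
  have e2 : ((RX.Q : ℕ) : ℝ) = 15625000000 := by norm_num [RX]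
  rw [e1, e2]
  push_cast
  norm_num

end consts

end Pool.Agent.H44.Shore
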