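import Mathlib
import Pool.Agent.H44.Shore.Lip
import Pool.Agent.H44.Shore.Ad
import Pool.Agent.H44.Shore.Cone
import Pool.Agent.H65.Shore.Close
import Pool.Agent.H4.Shore.Simd

/-!
Shoreline search: bounds of the partial derivatives of the strip function on a rectangle from the
values at the points of a grid.
-/

open Set Polynomial

namespace Pool.Agent.H44.Shore

/-- two sided chord bound -/
theorem C2.bounds {f f1 f2 : ℝ → ℝ} (hf : C2 f f1 f2) {a b K lo hi : ℝ} (hab : a < b)
    (hK : ∀ t ∈ Icc a b, |f2 t| ≤ K) (ha : lo ≤ f a) (ha' : f a ≤ hi) (hb : lo ≤ f b)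
    (hb' : f b ≤ hi) : ∀ t ∈ Icc a b, lo - K * (b - a) ^ 2 / 8 ≤ f t ∧
      f t ≤ hi + K * (b - a) ^ 2 / 8 := by
  have key : ∀ {f f1 f2 : ℝ → ℝ} {hi : ℝ}, C2 f f1 f2 → (∀ t ∈ Icc a b, |f2 t| ≤ K) →
      f a ≤ hi → f b ≤ hi → ∀ t ∈ Icc a b, f t ≤ hi + K * (b - a) ^ 2 / 8 := by
    intro f f1 f2 hi hf hK ha hb t ht
    have hK0 : 0 ≤ K := (abs_nonneg _).trans (hK a (left_mem_Icc.mpr hab.le))
    have h := chord_bound hab (hf.semiconvex hK) ht
    have hba : 0 < b - a := by linarith
    rw [le_div_iff₀ hba] at h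
    have h1 : 0 ≤ b - t := by linarith [ht.2]
    have h2 : 0 ≤ t - a := by linarith [ht.1]
    have h3 : (b - t) * f a ≤ (b - t) * hi := by gcongr
    have h4 : (t - a) * f b ≤ (t - a) * hi := by gcongr
    have h5 : f t * (b - a) ≤ hi * (b - a) + K / 2 * ((t - a) * (b - t)) * (b - a) := by
      nlinarith
    have h6 : (t - a) * (b - t) ≤ (b - a) ^ 2 / 4 := by nlinarith [sq_nonneg (a + b - 2 * t)]
    have h7 : f t ≤ hi + K / 2 * ((t - a) * (b - t)) := by
      have : f t * (b - a) ≤ (hi + K / 2 * ((t - a) * (b - t))) * (b - a) := by linarith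
      exact le_of_mul_le_mul_right this hba
    have h8 : K / 2 * ((t - a) * (b - t)) ≤ K / 2 * ((b - a) ^ 2 / 4) := by gcongr
    linarith
  intro t ht
  constructor
  · have h := key (f := fun t => -f t) (hi := -lo) hf.neg (fun t ht => by
      rw [abs_neg]; exact hK t ht) (by simpa using ha) (by simpa using hb) t ht
    linarith
  · exact key hf hK ha' hb' t ht

theorem C2_bdx (D : Dat) (i j : ℕ) (w : ℝ) : C2 (fun t => D.bd i j t w)
    (fun t => D.bd (i + 1) j t w) (fun t => D.bd (i + 2) j t w) := by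
  have h := D.C2_bd i j (C2.line 0 1) (C2.const w)
  simp only [mul_one, zero_add, mul_zero, add_zero, one_pow, zero_pow (two_ne_zero)] at h
  exact h

theorem C2_bdw (D : Dat) (i j : ℕ) (x : ℝ) : C2 (fun t => D.bd i j x t)
    (fun t => D.bd i (j + 1) x t) (fun t => D.bd i (j + 2) x t) := by
  have h := D.C2_bd i j (C2.const x) (C2.line 0 1)
  simp only [mul_one, zero_add, mul_zero, add_zero, one_pow, zero_pow (two_ne_zero)] at h
  exact h

/-- bounds on an interval from a grid -/
theorem C2.grid {f f1 f2 : ℝ → ℝ} (hf : C2 f f1 f2) {xa h K lo hi : ℝ} {n : ℕ} (hn : 0 < n)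
    (hh : 0 < h) (hK : ∀ t ∈ Icc xa (xa + n * h), |f2 t| ≤ K)
    (hg : ∀ k ≤ n, lo ≤ f (xa + k * h) ∧ f (xa + k * h) ≤ hi) :
    ∀ t ∈ Icc xa (xa + n * h), lo - K * h ^ 2 / 8 ≤ f t ∧ f t ≤ hi + K * h ^ 2 / 8 := by
  intro t ht
  obtain ⟨i, hi, h0, h1⟩ := exists_row (ρ := fun k => xa + k * h) hn (r := t)
    (by simpa using ht.1) ht.2
  have e : xa + ((i + 1 : ℕ) : ℝ) * h - (xa + i * h) = h := by
    push_cast
    ring
  have g0 := hg i (by omega)
  have g1 := hg (i + 1) (by omega)
  have hlt : xa + (i:ℝ) * h < xa + ((i + 1 : ℕ) : ℝ) * h := by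
    push_cast
    linarith
  have hk := hf.bounds hlt (K := K) (by
    intro s hs
    apply hK
    have hi' : (i:ℝ) + 1 ≤ n := by exact_mod_cast hi
    constructor
    · refine le_trans ?_ hs.1
      have : 0 ≤ (i:ℝ) * h := by positivity
      linarith
    · refine hs.2.trans ?_
      push_cast
      have : ((i:ℝ) + 1) * h ≤ n * h := by gcongr
      linarith) g0.1 g0.2 g1.1 g1.2 t ⟨h0, h1⟩
  rw [e] at hk
  exact hk

/-- **Bounds on a rectangle from a grid.** -/
theorem bd_grid {D : Dat} {i j : ℕ} {xa hx wa hw Kx Kw lo hi : ℝ} {n m : ℕ} (hn : 0 < n)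
    (hm : 0 < m) (hhx : 0 < hx) (hhw : 0 < hw)
    (hKx : ∀ x ∈ Icc xa (xa + n * hx), ∀ w ∈ Icc wa (wa + m * hw), |D.bd (i + 2) j x w| ≤ Kx)
    (hKw : ∀ x ∈ Icc xa (xa + n * hx), ∀ w ∈ Icc wa (wa + m * hw), |D.bd i (j + 2) x w| ≤ Kw)
    (hg : ∀ k ≤ n, ∀ l ≤ m, lo ≤ D.bd i j (xa + k * hx) (wa + l * hw) ∧
      D.bd i j (xa + k * hx) (wa + l * hw) ≤ hi) :
    ∀ x ∈ Icc xa (xa + n * hx), ∀ w ∈ Icc wa (wa + m * hw),
      lo - (Kx * hx ^ 2 + Kw * hw ^ 2) / 8 ≤ D.bd i j x w ∧
      D.bd i j x w ≤ hi + (Kx * hx ^ 2 + Kw * hw ^ 2) / 8 := by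
  intro x hxm w hwm
  have h1 : ∀ l ≤ m, lo - Kx * hx ^ 2 / 8 ≤ D.bd i j x (wa + l * hw) ∧
      D.bd i j x (wa + l * hw) ≤ hi + Kx * hx ^ 2 / 8 := by
    intro l hl
    have hl' : (l:ℝ) ≤ m := by exact_mod_cast hl
    have hmem : wa + l * hw ∈ Icc wa (wa + m * hw) := by
      constructor
      · have : 0 ≤ (l:ℝ) * hw := by positivity
        linarith
      · have : (l:ℝ) * hw ≤ m * hw := by gcongr
        linarith
    exact (C2_bdx D i j (wa + l * hw)).grid hn hhx (fun t ht => hKx t ht _ hmem)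
      (fun k hk => hg k hk l hl) x hxm
  have h2 := (C2_bdw D i j x).grid hm hhw (fun t ht => hKw x hxm t ht) h1 w hwm
  constructor
  · linarith [h2.1]
  · linarith [h2.2]

namespace MBC

/-- integer evaluation -/
def evI : List ℤ → ℤ → ℤ
  | [], _ => 0
  | c :: q, y => Int.add c (Int.mul y (evI q y))

theorem evI_cast (p : List ℤ) (y : ℤ) : ((evI p y : ℤ) : ℝ) = ev p (y : ℝ) := by
  induction p with
  | nil => simp [evI, ev]
  | cons c q ih =>
    have e : evI (c :: q) y = c + y * evI q y := rfl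
    rw [e, ev, ← ih]
    push_cast
    ring

/-- partial evaluation in the second variable -/
def colz (z : ℤ) : List (List ℤ) → List ℤ
  | [] => []
  | p :: Q => axpy z (colz z Q) p

theorem ev_colz (z : ℤ) (P : List (List ℤ)) (y : ℝ) : ev (colz z P) y = ev2 P y z := by
  induction P with
  | nil => rfl
  | cons p Q ih =>
    rw [colz, ev_axpy, ih, ev2]
    ring

def tcons (c : ℤ) (q : List ℤ) : List ℤ :=
  match q with
  | [] => match c with
    | Int.ofNat n => match n with
      | 0 => []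
      | k + 1 => [Int.ofNat (k + 1)]
    | Int.negSucc n => [Int.negSucc n]
  | d :: r => c :: d :: r

theorem ev_tcons (c : ℤ) (q : List ℤ) (y : ℝ) : ev (tcons c q) y = c + y * ev q y := by
  cases q with
  | nil =>
    cases c with
    | ofNat n =>
      cases n with
      | zero => simp [tcons, ev]
      | succ k => simp only [tcons, ev]
    | negSucc n => simp only [tcons, ev]
  | cons d r => simp only [tcons, ev]

/-- removal of trailing zeros -/
def trim : List ℤ → List ℤ
  | [] => []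
  | c :: q => tcons c (trim q)

theorem ev_trim (p : List ℤ) (y : ℝ) : ev (trim p) y = ev p y := by
  induction p with
  | nil => rfl
  | cons c q ih => rw [trim, ev_tcons, ih, ev]

def nn : ℤ → Bool
  | Int.ofNat _ => true
  | Int.negSucc _ => false

theorem nn_sound {a : ℤ} (h : nn a = true) : 0 ≤ a := by
  cases a with
  | ofNat n => exact Int.natCast_nonneg n
  | negSucc n => exact absurd h (by simp [nn])

/-- check of the values on a line -/
def chkL (p : List ℤ) (lo hi : ℤ) (st : ℕ) : ℕ → ℤ → Bool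
  | 0, _ => true
  | n + 1, y =>
    seqI (evI p y) fun v =>
    match nn (Int.sub v lo) with
    | false => false
    | true => match nn (Int.sub hi v) with
      | false => false
      | true => seqI (Int.add y (st : ℤ)) fun y' => chkL p lo hi st n y'

theorem chkL_sound {p : List ℤ} {lo hi : ℤ} {st : ℕ} (n : ℕ) : ∀ {y : ℤ},
    chkL p lo hi st n y = true → ∀ k, k < n → (lo:ℝ) ≤ ev p (y + k * st) ∧
      ev p (y + k * st) ≤ (hi:ℝ) := by
  induction n with
  | zero => intro y _ k hk; omega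
  | succ n ih =>
    intro y h k hk
    rw [chkL] at h
    simp only [seqI_eq] at h
    cases h1 : nn (Int.sub (evI p y) lo) with
    | false => rw [h1] at h; exact absurd h (by simp)
    | true =>
    cases h2 : nn (Int.sub hi (evI p y)) with
    | false => rw [h1, h2] at h; exact absurd h (by simp)
    | true =>
    rw [h1, h2] at h
    have g1 : 0 ≤ evI p y - lo := nn_sound h1
    have g2 : 0 ≤ hi - evI p y := nn_sound h2
    cases k with
    | zero =>
      rw [show (y:ℝ) + ((0:ℕ):ℝ) * st = y by simp, ← evI_cast]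
      exact ⟨by exact_mod_cast (by linarith : lo ≤ evI p y),
        by exact_mod_cast (by linarith : evI p y ≤ hi)⟩
    | succ k =>
      have e : Int.add y (st : ℤ) = y + (st : ℤ) := rfl
      rw [e] at h
      have h3 := ih h k (by omega)
      have e1 : ((y + (st:ℤ) : ℤ) : ℝ) + (k:ℝ) * st = (y:ℝ) + ((k + 1 : ℕ) : ℝ) * st := by
        push_cast
        ring
      rw [e1] at h3
      exact h3

/-- check of the values on a grid, all points at once -/
def chkG (P : List (List ℤ)) (lo hi : ℤ) (st : ℕ) (ys : ℤ) (n g m : ℕ) (z : ℤ) : Bool :=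
  Pool.Agent.H4.Shore.Simd.chkS P lo hi st ys n g m z

theorem chkG_sound {P : List (List ℤ)} {lo hi : ℤ} {st : ℕ} {ys : ℤ} {n g : ℕ} (m : ℕ) :
    ∀ {z : ℤ}, chkG P lo hi st ys n g m z = true → ∀ k, k < n → ∀ l, l < m →
      (lo:ℝ) ≤ ev2 P (ys + k * st) (z + l * g) ∧ ev2 P (ys + k * st) (z + l * g) ≤ (hi:ℝ) :=
  fun h => Pool.Agent.H4.Shore.Simd.chkS_sound h


/-- the double sum for all orders -/
theorem bd_sum' {D : Dat} (h : Deg D) (i j : ℕ) (x w : ℝ) :
    D.bd i j x w = ∑ n ∈ Finset.range 5, w ^ n * (((n + j).descFactorial j : ℝ) *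
      ∑ m ∈ Finset.range 8, ((m + i).descFactorial i : ℝ) * cf D (n + j) (m + i) * x ^ m) := by
  by_cases hj : j ≤ 3
  · exact bd_sum h i j hj x w
  · have hz : ∀ k, 5 ≤ k → ∑ m ∈ Finset.range 8, ((m + i).descFactorial i : ℝ) *
        cf D k (m + i) * x ^ m = 0 := by
      intro k hk
      apply Finset.sum_eq_zero
      intro m _
      rw [cf_zero h (Or.inl hk)]
      ring
    by_cases hj4 : j = 4
    · subst hj4
      rw [Finset.sum_eq_single 0]
      · unfold Dat.bd
        rw [eval_der _ h.d4]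
        simp [Nat.descFactorial, cf]
      · intro n _ hn
        rw [hz (n + 4) (by omega)]
        ring
      · simp
    · have h5 : 5 ≤ j := by omega
      rw [Finset.sum_eq_zero (fun n _ => by rw [hz (n + j) (by omega)]; ring)]
      unfold Dat.bd
      rw [if_neg (by omega), Nat.descFactorial_of_lt (show 2 < j by omega),
        Nat.descFactorial_of_lt (show 3 < j by omega),
        Nat.descFactorial_of_lt (show 4 < j by omega)]
      simp

/-- exact evaluation for the rational certificate -/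
theorem bd_exact {D : Dat} {L : List (List ℤ)} {C : ℕ} (hA : Apx D L C 0) (s q i j : ℕ)
    (x w : ℝ) : D.bd i j x w = ev2 (gen L s q i j) (2 ^ s * x) (2 ^ q * w) /
      2 ^ (C + (7 * s + 4 * q)) := by
  rw [bd_sum' hA.deg, ev2_gen, pow_add (2:ℝ) C]
  have hc : ∀ k m, cf D k m = (gc L k m : ℝ) / 2 ^ C := by
    intro k m
    have := abs_nonpos_iff.mp (hA.all k m)
    linarith
  have e : ∀ S : ℝ, 2 ^ (7 * s + 4 * q) * S / (2 ^ C * 2 ^ (7 * s + 4 * q)) = S / 2 ^ C := by
    intro S
    field_simp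
  rw [e, Finset.sum_div]
  apply Finset.sum_congr rfl
  intro n _
  rw [mul_div_assoc, mul_div_assoc, Finset.sum_div]
  congr 2
  apply Finset.sum_congr rfl
  intro m _
  rw [hc]
  ring

end MBC

end Pool.Agent.H44.Shore
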