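import Mathlib
import Pool.Agent.H44.Shore.Sup
import Pool.Agent.H65.Shore.PairC

/-!
Shoreline search: kernel check of the constants of a region of radii.
-/

open Set Polynomial

namespace Pool.Agent.H44.Shore

open Pool.Agent.H65.Shore (Dq apx_q RegOk Reg)

namespace MBC

theorem quarter_pow (m : ℕ) (hm : m < 8) : (1 / 4 : ℝ) ^ m = (4:ℝ) ^ (7 - m) / 4 ^ 7 := by
  interval_cases m <;> norm_num

theorem sum_fac5 (a b : ℕ → ℝ) (c e : ℝ) : ∑ n ∈ Finset.range 5, a n * (b n / c * e) =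
    (∑ n ∈ Finset.range 5, a n * b n) / c * e := by
  rw [Finset.sum_div, Finset.sum_mul]
  apply Finset.sum_congr rfl
  intro n _
  ring

/-- the derivatives of the certificate and of its rational approximation are close -/
theorem bd_close {D : Dat} {L : List (List ℤ)} {C : ℕ} {eps : ℝ} (hA : Apx D L C eps)
    (h1 : L.getD 1 [] = []) (i j : ℕ) {E : ℕ}
    (hE : ∑ n ∈ Finset.range 5, ((n + j).descFactorial j *
      ∑ m ∈ Finset.range 8, (m + i).descFactorial i * 4 ^ (7 - m)) ≤ E * 4 ^ 7)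
    {x w : ℝ} (hx : |x| ≤ 1 / 4) (hw : |w| ≤ 1) :
    |D.bd i j x w - (Dq D L C).bd i j x w| ≤ E * eps := by
  have hq := apx_q D hA.l5 hA.l8 h1 (C := C)
  rw [bd_sum' hA.deg, bd_sum' hq.deg, ← Finset.sum_sub_distrib]
  have e2 : ∀ n ∈ Finset.range 5, |w ^ n * (((n + j).descFactorial j : ℝ) *
      ∑ m ∈ Finset.range 8, ((m + i).descFactorial i : ℝ) * cf D (n + j) (m + i) * x ^ m) -
      w ^ n * (((n + j).descFactorial j : ℝ) *
      ∑ m ∈ Finset.range 8, ((m + i).descFactorial i : ℝ) * cf (Dq D L C) (n + j) (m + i) *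
        x ^ m)| ≤ ((n + j).descFactorial j : ℝ) *
        ((∑ m ∈ Finset.range 8, ((m + i).descFactorial i : ℝ) * 4 ^ (7 - m)) / 4 ^ 7 * eps) := by
    intro n _
    rw [← mul_sub, ← mul_sub, ← Finset.sum_sub_distrib]
    have f1 : |∑ m ∈ Finset.range 8, (((m + i).descFactorial i : ℝ) * cf D (n + j) (m + i) *
        x ^ m - ((m + i).descFactorial i : ℝ) * cf (Dq D L C) (n + j) (m + i) * x ^ m)| ≤
        (∑ m ∈ Finset.range 8, ((m + i).descFactorial i : ℝ) * 4 ^ (7 - m)) / 4 ^ 7 * eps := by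
      refine (Finset.abs_sum_le_sum_abs _ _).trans ?_
      rw [Finset.sum_div, Finset.sum_mul]
      apply Finset.sum_le_sum
      intro m hm
      have g1 := hA.all (n + j) (m + i)
      have g0 := abs_nonpos_iff.mp (hq.all (n + j) (m + i))
      have g0' : cf (Dq D L C) (n + j) (m + i) = (gc L (n + j) (m + i) : ℝ) / 2 ^ C := by
        linarith
      have g2 : |x ^ m| ≤ (1 / 4) ^ m := by
        rw [abs_pow]
        exact pow_le_pow_left₀ (abs_nonneg _) hx m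
      rw [quarter_pow m (Finset.mem_range.mp hm)] at g2
      have g3 : |((m + i).descFactorial i : ℝ)| ≤ ((m + i).descFactorial i : ℝ) := by
        rw [abs_of_nonneg (Nat.cast_nonneg _)]
      have g4 := abs_mul_le (abs_mul_le g3 g1) g2
      rw [g0']
      have e : ((m + i).descFactorial i : ℝ) * cf D (n + j) (m + i) * x ^ m -
          ((m + i).descFactorial i : ℝ) * ((gc L (n + j) (m + i) : ℝ) / 2 ^ C) * x ^ m =
          ((m + i).descFactorial i : ℝ) * (cf D (n + j) (m + i) -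
            (gc L (n + j) (m + i) : ℝ) / 2 ^ C) * x ^ m := by ring
      rw [e]
      refine g4.trans (le_of_eq (by ring))
    have g2 : |w ^ n| ≤ 1 := by
      rw [abs_pow]
      exact pow_le_one₀ (abs_nonneg _) hw
    have g3 : |((n + j).descFactorial j : ℝ)| ≤ ((n + j).descFactorial j : ℝ) := by
      rw [abs_of_nonneg (Nat.cast_nonneg _)]
    have g4 := abs_mul_le g2 (abs_mul_le g3 f1)
    rwa [one_mul] at g4
  refine (Finset.abs_sum_le_sum_abs _ _).trans ((Finset.sum_le_sum e2).trans ?_)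
  have e3 : ∑ n ∈ Finset.range 5, ((n + j).descFactorial j : ℝ) *
      ((∑ m ∈ Finset.range 8, ((m + i).descFactorial i : ℝ) * 4 ^ (7 - m)) / 4 ^ 7 * eps) =
      ((∑ n ∈ Finset.range 5, ((n + j).descFactorial j *
      ∑ m ∈ Finset.range 8, (m + i).descFactorial i * 4 ^ (7 - m)) : ℕ) : ℝ) / 4 ^ 7 * eps := by
    push_cast
    exact sum_fac5 (fun n => ((n + j).descFactorial j : ℝ))
      (fun _ => ∑ m ∈ Finset.range 8, ((m + i).descFactorial i : ℝ) * 4 ^ (7 - m)) (4 ^ 7) eps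
  rw [e3]
  have e4 : ((∑ n ∈ Finset.range 5, ((n + j).descFactorial j *
      ∑ m ∈ Finset.range 8, (m + i).descFactorial i * 4 ^ (7 - m)) : ℕ) : ℝ) / 4 ^ 7 ≤ E := by
    rw [div_le_iff₀ (by positivity)]
    exact_mod_cast hE
  exact mul_le_mul_of_nonneg_right e4 hA.eps0

/-- bound from the grid check, exact coefficients -/
theorem sup_chk {D : Dat} {L : List (List ℤ)} {C : ℕ} (hA : Apx D L C 0) {i j s q st g n m : ℕ}
    {ks zs lo hi : ℤ} {H G KX KW : ℕ} (hn : 0 < n) (hm : 0 < m) (hst : 0 < st) (hg : 0 < g)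
    (hchk : chkG (gen L s q i j) lo hi st ks (n + 1) g (m + 1) zs = true)
    (hH0 : -(H:ℤ) ≤ ks) (hH1 : ks + n * st ≤ H) (hG0 : -(G:ℤ) ≤ zs) (hG1 : zs + m * g ≤ G)
    (hKX : bnd2 H G (gen L s q (i + 2) j) ≤ KX) (hKW : bnd2 H G (gen L s q i (j + 2)) ≤ KW) :
    ∀ x ∈ Icc ((ks:ℝ) / 2 ^ s) ((ks + n * st) / 2 ^ s), ∀ w ∈ Icc ((zs:ℝ) / 2 ^ q)
      ((zs + m * g) / 2 ^ q),
      (lo - (KX * st ^ 2 / 4 ^ s + KW * g ^ 2 / 4 ^ q) / 8) / 2 ^ (C + (7 * s + 4 * q)) ≤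
        D.bd i j x w ∧ D.bd i j x w ≤
      (hi + (KX * st ^ 2 / 4 ^ s + KW * g ^ 2 / 4 ^ q) / 8) / 2 ^ (C + (7 * s + 4 * q)) := by
  have h2s : (0:ℝ) < 2 ^ s := by positivity
  have h2q : (0:ℝ) < 2 ^ q := by positivity
  have hS : (0:ℝ) < 2 ^ (C + (7 * s + 4 * q)) := by positivity
  have hstr : (0:ℝ) < st := by exact_mod_cast hst
  have hgr : (0:ℝ) < g := by exact_mod_cast hg
  have eX : (ks:ℝ) / 2 ^ s + n * (st / 2 ^ s) = (ks + n * st) / 2 ^ s := by ring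
  have eW : (zs:ℝ) / 2 ^ q + m * (g / 2 ^ q) = (zs + m * g) / 2 ^ q := by ring
  have hH0' : -(H:ℝ) ≤ ks := by exact_mod_cast hH0
  have hH1' : (ks:ℝ) + n * st ≤ H := by exact_mod_cast hH1
  have hG0' : -(G:ℝ) ≤ zs := by exact_mod_cast hG0
  have hG1' : (zs:ℝ) + m * g ≤ G := by exact_mod_cast hG1
  have hcrude : ∀ i j K : ℕ, bnd2 H G (gen L s q i j) ≤ K →
      ∀ x ∈ Icc ((ks:ℝ) / 2 ^ s) ((ks:ℝ) / 2 ^ s + n * (st / 2 ^ s)),
      ∀ w ∈ Icc ((zs:ℝ) / 2 ^ q) ((zs:ℝ) / 2 ^ q + m * (g / 2 ^ q)),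
      |D.bd i j x w| ≤ (K:ℝ) / 2 ^ (C + (7 * s + 4 * q)) := by
    intro i j K hK x hx w hw
    rw [eX] at hx
    rw [eW] at hw
    rw [bd_exact hA s q, abs_div, abs_of_pos hS]
    apply div_le_div_of_nonneg_right _ hS.le
    have hx0 := (div_le_iff₀ h2s).mp hx.1
    have hx1 := (le_div_iff₀ h2s).mp hx.2
    have hw0 := (div_le_iff₀ h2q).mp hw.1
    have hw1 := (le_div_iff₀ h2q).mp hw.2
    have h := abs_ev2_le H G (gen L s q i j) (y := 2 ^ s * x) (z := 2 ^ q * w)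
      (abs_le.mpr ⟨by linarith, by linarith⟩) (abs_le.mpr ⟨by linarith, by linarith⟩)
    exact h.trans (by exact_mod_cast hK)
  have key := bd_grid (D := D) (i := i) (j := j) (xa := (ks:ℝ) / 2 ^ s) (hx := st / 2 ^ s)
    (wa := (zs:ℝ) / 2 ^ q) (hw := g / 2 ^ q) (n := n) (m := m)
    (lo := (lo:ℝ) / 2 ^ (C + (7 * s + 4 * q))) (hi := (hi:ℝ) / 2 ^ (C + (7 * s + 4 * q))) hn hm
    (by positivity) (by positivity) (hcrude (i + 2) j KX hKX) (hcrude i (j + 2) KW hKW) (by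
      intro k hk l hl
      have h := chkG_sound (m + 1) hchk k (by omega) l (by omega)
      rw [bd_exact hA s q]
      have e1 : (2:ℝ) ^ s * ((ks:ℝ) / 2 ^ s + k * (st / 2 ^ s)) = ks + k * st := by
        field_simp
      have e2 : (2:ℝ) ^ q * ((zs:ℝ) / 2 ^ q + l * (g / 2 ^ q)) = zs + l * g := by
        field_simp
      rw [e1, e2]
      exact ⟨div_le_div_of_nonneg_right h.1 hS.le, div_le_div_of_nonneg_right h.2 hS.le⟩)
  intro x hx w hw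
  rw [← eX] at hx
  rw [← eW] at hw
  have h := key x hx w hw
  have e3 : (((KX:ℝ) / 2 ^ (C + (7 * s + 4 * q))) * (st / 2 ^ s) ^ 2 +
      (KW / 2 ^ (C + (7 * s + 4 * q))) * (g / 2 ^ q) ^ 2) / 8 =
      ((KX * st ^ 2 / 4 ^ s + KW * g ^ 2 / 4 ^ q) / 8) / 2 ^ (C + (7 * s + 4 * q)) := by
    have e4 : (4:ℝ) ^ s = 2 ^ s * 2 ^ s := by rw [← mul_pow]; norm_num
    have e5 : (4:ℝ) ^ q = 2 ^ q * 2 ^ q := by rw [← mul_pow]; norm_num
    rw [e4, e5]
    field_simp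
  rw [e3] at h
  constructor
  · rw [sub_div]; exact h.1
  · rw [add_div]; exact h.2

/-- a grid of points in the `(x, w)` plane: `x = (ks + k st) / 2 ^ s`, `w = (zs + l g) / 2 ^ q` -/
structure Bx where
  s : ℕ
  q : ℕ
  ks : ℤ
  st : ℕ
  n : ℕ
  zs : ℕ
  g : ℕ
  m : ℕ
  H : ℕ
  G : ℕ

/-- validity of the grid -/
def Bx.ok (b : Bx) : Bool :=
  Nat.ble 1 b.n && (Nat.ble 1 b.m && (Nat.ble 1 b.st && (Nat.ble 1 b.g &&
  (nn (Int.add b.ks (b.H : ℤ)) && (nn (Int.sub (b.H : ℤ) (Int.add b.ks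
    ((Nat.mul b.n b.st : ℕ) : ℤ))) && (Nat.ble (Nat.add b.zs (Nat.mul b.m b.g)) b.G &&
  (Nat.ble (Nat.mul 4 b.H) (Nat.pow 2 b.s) && Nat.ble b.G (Nat.pow 2 b.q))))))))

/-- range check of one derivative, unit `2 ^ (-30)` -/
def rngC (L : List (List ℤ)) (epsN : ℕ) (b : Bx) (i j E : ℕ) (LO HI : ℤ) : Bool :=
  seqN (bnd2 b.H b.G (gen L b.s b.q (i + 2) j)) fun KX =>
  seqN (bnd2 b.H b.G (gen L b.s b.q i (j + 2))) fun KW =>
  seqN (Nat.pow 2 (Nat.add (Nat.mul 7 b.s) (Nat.mul 4 b.q))) fun P =>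
  seqN (Nat.add (Nat.add (Nat.add (Nat.div (Nat.mul KX (Nat.mul b.st b.st))
      (Nat.mul 8 (Nat.pow 4 b.s))) (Nat.div (Nat.mul KW (Nat.mul b.g b.g))
      (Nat.mul 8 (Nat.pow 4 b.q)))) 2) (Nat.mul (Nat.mul E epsN) P)) fun cr =>
  seqI (Int.add (Int.mul LO ((Nat.mul 1073741824 P : ℕ) : ℤ)) (cr : ℤ)) fun lo =>
  seqI (Int.sub (Int.mul HI ((Nat.mul 1073741824 P : ℕ) : ℤ)) (cr : ℤ)) fun hi =>
  seqLL (gen L b.s b.q i j) fun Q =>
  chkG Q lo hi b.st b.ks (b.n + 1) b.g (b.m + 1) (b.zs : ℤ)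

theorem div_ceil (a b : ℕ) (hb : 0 < b) : (a:ℝ) / b ≤ ((a / b : ℕ) : ℝ) + 1 := by
  have hb' : (0:ℝ) < b := by exact_mod_cast hb
  rw [div_le_iff₀ hb']
  have h := Nat.lt_div_mul_add (a := a) (b := b) hb
  have h2 : (a:ℝ) < ((a / b * b + b : ℕ) : ℝ) := by exact_mod_cast h
  push_cast at h2 ⊢
  linarith

theorem rngC_sound {D : Dat} {L : List (List ℤ)} {epsN : ℕ}
    (hA : Apx D L 60 ((epsN:ℝ) / 2 ^ 60)) (h1 : L.getD 1 [] = []) {b : Bx} (hb : b.ok = true)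
    {i j E : ℕ} (hE : ∑ n ∈ Finset.range 5, ((n + j).descFactorial j *
      ∑ m ∈ Finset.range 8, (m + i).descFactorial i * 4 ^ (7 - m)) ≤ E * 4 ^ 7) {LO HI : ℤ}
    (h : rngC L epsN b i j E LO HI = true) :
    ∀ x ∈ Icc ((b.ks:ℝ) / 2 ^ b.s) ((b.ks + b.n * b.st) / 2 ^ b.s),
      ∀ w ∈ Icc ((b.zs:ℝ) / 2 ^ b.q) ((b.zs + b.m * b.g) / 2 ^ b.q),
      (LO:ℝ) / 2 ^ 30 ≤ D.bd i j x w ∧ D.bd i j x w ≤ (HI:ℝ) / 2 ^ 30 := by
  obtain ⟨s, q, ks, st, n, zs, g, m, H, G⟩ := b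
  unfold Bx.ok at hb
  simp only [Bool.and_eq_true] at hb
  obtain ⟨hn, hm, hst, hg, hH0, hH1, hG1, hs4, hq1⟩ := hb
  have hn : 1 ≤ n := Nat.le_of_ble_eq_true hn
  have hm : 1 ≤ m := Nat.le_of_ble_eq_true hm
  have hst : 1 ≤ st := Nat.le_of_ble_eq_true hst
  have hg : 1 ≤ g := Nat.le_of_ble_eq_true hg
  have hH0 : 0 ≤ ks + (H:ℤ) := nn_sound hH0
  have hH1 : 0 ≤ (H:ℤ) - (ks + ((n * st : ℕ) : ℤ)) := nn_sound hH1
  have hG1 : zs + m * g ≤ G := Nat.le_of_ble_eq_true hG1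
  have hs4 : 4 * H ≤ 2 ^ s := Nat.le_of_ble_eq_true hs4
  have hq1 : G ≤ 2 ^ q := Nat.le_of_ble_eq_true hq1
  unfold rngC at h
  simp only [seqN_eq, seqI_eq, seqLL_eq] at h
  have hq := apx_q D hA.l5 hA.l8 h1 (C := 60)
  have hsup := sup_chk hq (i := i) (j := j) (s := s) (q := q) hn hm hst hg h (H := H) (G := G)
    (by omega) (by push_cast at hH1; linarith) (by omega) (by exact_mod_cast hG1) le_rfl le_rfl
  intro x hx w hw
  have hk := hsup x hx w (by simpa using hw)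
  simp only at hx hw
  clear hsup h
  have h2s : (0:ℝ) < 2 ^ s := by positivity
  have h2q : (0:ℝ) < 2 ^ q := by positivity
  have hs4' : (4:ℝ) * H ≤ 2 ^ s := by exact_mod_cast hs4
  have hq1' : (G:ℝ) ≤ 2 ^ q := by exact_mod_cast hq1
  have hH0' : (0:ℝ) ≤ ks + H := by exact_mod_cast hH0
  have hH1' : (0:ℝ) ≤ H - (ks + n * st) := by exact_mod_cast hH1
  have hG1' : (zs:ℝ) + m * g ≤ G := by exact_mod_cast hG1
  have hx4 : |x| ≤ 1 / 4 := by
    have a1 := (div_le_iff₀ h2s).mp hx.1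
    have a2 := (le_div_iff₀ h2s).mp hx.2
    rw [abs_le]
    constructor
    · have : -(1 / 4) * (2:ℝ) ^ s ≤ x * 2 ^ s := by linarith
      exact le_of_mul_le_mul_right this h2s
    · have : x * 2 ^ s ≤ 1 / 4 * (2:ℝ) ^ s := by linarith
      exact le_of_mul_le_mul_right this h2s
  have hw1 : |w| ≤ 1 := by
    have a1 := (div_le_iff₀ h2q).mp hw.1
    have a2 := (le_div_iff₀ h2q).mp hw.2
    have a3 : (0:ℝ) ≤ zs := Nat.cast_nonneg _
    rw [abs_le]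
    constructor
    · have : -1 * (2:ℝ) ^ q ≤ w * 2 ^ q := by linarith
      exact le_of_mul_le_mul_right this h2q
    · have : w * 2 ^ q ≤ 1 * (2:ℝ) ^ q := by linarith
      exact le_of_mul_le_mul_right this h2q
  have hcl := bd_close hA h1 i j hE hx4 hw1
  set KX := bnd2 H G (gen L s q (i + 2) j) with hKX
  set KW := bnd2 H G (gen L s q i (j + 2)) with hKW
  -- the correction
  have c1 := div_ceil (KX * (st * st)) (8 * 4 ^ s) (by positivity)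
  have c2 := div_ceil (KW * (g * g)) (8 * 4 ^ q) (by positivity)
  have eN : Nat.add (Nat.add (Nat.add (Nat.div (Nat.mul KX (Nat.mul st st))
      (Nat.mul 8 (Nat.pow 4 s))) (Nat.div (Nat.mul KW (Nat.mul g g))
      (Nat.mul 8 (Nat.pow 4 q)))) 2) (Nat.mul (Nat.mul E epsN) (Nat.pow 2 (Nat.add (Nat.mul 7 s)
      (Nat.mul 4 q)))) = KX * (st * st) / (8 * 4 ^ s) + KW * (g * g) / (8 * 4 ^ q) + 2 +
        E * epsN * 2 ^ (7 * s + 4 * q) := rfl
  have eP : Nat.mul 1073741824 (Nat.pow 2 (Nat.add (Nat.mul 7 s) (Nat.mul 4 q))) =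
    1073741824 * 2 ^ (7 * s + 4 * q) := rfl
  rw [eN, eP] at hk
  set cr : ℕ := KX * (st * st) / (8 * 4 ^ s) + KW * (g * g) / (8 * 4 ^ q) + 2 +
        E * epsN * 2 ^ (7 * s + 4 * q) with hcr
  have eLo : Int.add (Int.mul LO ((1073741824 * 2 ^ (7 * s + 4 * q) : ℕ) : ℤ)) (cr : ℤ) =
    LO * ((1073741824 * 2 ^ (7 * s + 4 * q) : ℕ) : ℤ) + (cr : ℤ) := rfl
  have eHi : Int.sub (Int.mul HI ((1073741824 * 2 ^ (7 * s + 4 * q) : ℕ) : ℤ)) (cr : ℤ) =
    HI * ((1073741824 * 2 ^ (7 * s + 4 * q) : ℕ) : ℤ) - (cr : ℤ) := rfl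
  rw [eLo, eHi] at hk
  have hcrR : (KX * st ^ 2 / 4 ^ s + KW * g ^ 2 / 4 ^ q) / 8 +
      E * epsN * 2 ^ (7 * s + 4 * q) ≤ (cr:ℝ) := by
    rw [hcr]
    push_cast at c1 c2 ⊢
    have e1 : (KX:ℝ) * (st * st) / (8 * 4 ^ s) = KX * st ^ 2 / 4 ^ s / 8 := by
      field_simp
    have e2 : (KW:ℝ) * (g * g) / (8 * 4 ^ q) = KW * g ^ 2 / 4 ^ q / 8 := by
      field_simp
    rw [e1] at c1
    rw [e2] at c2
    linarith
  have hS : (0:ℝ) < 2 ^ (60 + (7 * s + 4 * q)) := by positivity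
  have hP : (0:ℝ) < 2 ^ (7 * s + 4 * q) := by positivity
  have hSP : (2:ℝ) ^ (60 + (7 * s + 4 * q)) = 2 ^ 60 * 2 ^ (7 * s + 4 * q) := pow_add _ _ _
  have hE' : (E:ℝ) * (epsN / 2 ^ 60) = E * epsN * 2 ^ (7 * s + 4 * q) /
      2 ^ (60 + (7 * s + 4 * q)) := by
    rw [hSP]
    field_simp
  rw [hE'] at hcl
  obtain ⟨k1, k2⟩ := hk
  obtain ⟨l1, l2⟩ := abs_le.mp hcl
  push_cast at k1 k2
  constructor
  · have e3 : (LO:ℝ) / 2 ^ 30 = (LO * (1073741824 * 2 ^ (7 * s + 4 * q)) /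
        2 ^ (60 + (7 * s + 4 * q))) := by
      rw [hSP]
      have : (2:ℝ) ^ 60 = 1073741824 * 2 ^ 30 := by norm_num
      rw [this]
      field_simp
    have e4 : (LO:ℝ) * (1073741824 * 2 ^ (7 * s + 4 * q)) / 2 ^ (60 + (7 * s + 4 * q)) +
        E * epsN * 2 ^ (7 * s + 4 * q) / 2 ^ (60 + (7 * s + 4 * q)) ≤
        (LO * (1073741824 * 2 ^ (7 * s + 4 * q)) + cr -
          (KX * st ^ 2 / 4 ^ s + KW * g ^ 2 / 4 ^ q) / 8) / 2 ^ (60 + (7 * s + 4 * q)) := by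
      rw [← add_div]
      apply div_le_div_of_nonneg_right _ hS.le
      linarith
    rw [e3]
    linarith
  · have e3 : (HI:ℝ) / 2 ^ 30 = (HI * (1073741824 * 2 ^ (7 * s + 4 * q)) /
        2 ^ (60 + (7 * s + 4 * q))) := by
      rw [hSP]
      have : (2:ℝ) ^ 60 = 1073741824 * 2 ^ 30 := by norm_num
      rw [this]
      field_simp
    have e4 : (HI * (1073741824 * 2 ^ (7 * s + 4 * q)) - cr +
          (KX * st ^ 2 / 4 ^ s + KW * g ^ 2 / 4 ^ q) / 8) / 2 ^ (60 + (7 * s + 4 * q)) ≤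
        (HI:ℝ) * (1073741824 * 2 ^ (7 * s + 4 * q)) / 2 ^ (60 + (7 * s + 4 * q)) -
        E * epsN * 2 ^ (7 * s + 4 * q) / 2 ^ (60 + (7 * s + 4 * q)) := by
      rw [← sub_div]
      apply div_le_div_of_nonneg_right _ hS.le
      linarith
    rw [e3]
    linarith

end MBC

end Pool.Agent.H44.Shore
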