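import Mathlib
import Pool.Agent.H44.Shore.Reg

/-!
Shoreline search: the constants of a region of radii, from kernel checks.
-/

open Set Polynomial

namespace Pool.Agent.H44.Shore

open Pool.Agent.H65.Shore (Dq apx_q RegOk Reg)
open MBC

/-! ### Upper bounds in fixed point arithmetic -/

/-- `a` is an upper bound of the nonnegative number `x` in units `2 ^ (-30)` -/
def UB (x : ℝ) (a : ℕ) : Prop := 0 ≤ x ∧ x * 2 ^ 30 ≤ a

def mU (a b : ℕ) : ℕ := Nat.add (Nat.div (Nat.mul a b) 1073741824) 1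

theorem UB.add {x y : ℝ} {a b : ℕ} (hx : UB x a) (hy : UB y b) : UB (x + y) (Nat.add a b) := by
  refine ⟨add_nonneg hx.1 hy.1, ?_⟩
  have e : ((Nat.add a b : ℕ) : ℝ) = a + b := by
    show ((a + b : ℕ) : ℝ) = _
    push_cast
    ring
  rw [e]
  linarith [hx.2, hy.2]

theorem UB.mul {x y : ℝ} {a b : ℕ} (hx : UB x a) (hy : UB y b) : UB (x * y) (mU a b) := by
  refine ⟨mul_nonneg hx.1 hy.1, ?_⟩
  have h := div_ceil (a * b) 1073741824 (by norm_num)
  have e : ((mU a b : ℕ) : ℝ) = ((a * b / 1073741824 : ℕ) : ℝ) + 1 := by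
    show ((a * b / 1073741824 + 1 : ℕ) : ℝ) = _
    push_cast
    ring
  rw [e]
  refine le_trans ?_ h
  rw [le_div_iff₀ (by norm_num)]
  push_cast
  have h1 : x * 2 ^ 30 * (y * 2 ^ 30) ≤ a * b :=
    mul_le_mul hx.2 hy.2 (mul_nonneg hy.1 (by positivity)) (Nat.cast_nonneg _)
  have h2 : x * y * 2 ^ 30 * 1073741824 = x * 2 ^ 30 * (y * 2 ^ 30) := by ring
  rw [h2]
  exact h1

theorem UB.two {x : ℝ} {a : ℕ} (hx : UB x a) : UB (2 * x) (Nat.mul 2 a) := by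
  refine ⟨mul_nonneg (by norm_num) hx.1, ?_⟩
  have e : ((Nat.mul 2 a : ℕ) : ℝ) = 2 * a := by
    show ((2 * a : ℕ) : ℝ) = _
    push_cast
    ring
  rw [e]
  linarith [hx.2]

theorem UB.le {x : ℝ} {a K : ℕ} (hx : UB x a) (h : Nat.ble a (Nat.mul K 1073741824) = true) :
    x ≤ K := by
  have h1 : a ≤ K * 1073741824 := Nat.le_of_ble_eq_true h
  have h2 : (a:ℝ) ≤ K * 1073741824 := by exact_mod_cast h1
  have h3 := hx.2
  norm_num at h3
  linarith

theorem UB.of_nat (a : ℕ) : UB ((a:ℝ) / 2 ^ 30) a := ⟨by positivity, by field_simp; exact le_rfl⟩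

/-- bounds of the nine derivatives, unit `2 ^ (-30)` -/
structure M9 where
  m10 : ℕ
  m20 : ℕ
  m30 : ℕ
  m01 : ℕ
  m11 : ℕ
  m21 : ℕ
  m02 : ℕ
  m12 : ℕ
  m03 : ℕ

/-- second derivative constants inside the radius `rB` -/
def kb10 (I r V : ℕ) (M : M9) : ℕ :=
  seqN (mU (Nat.mul 2 r) I) fun W1 =>
  seqN (Nat.add r V) fun U0 =>
  Nat.add (Nat.add (mU (Nat.add (Nat.add (Nat.add M.m30 (Nat.mul 2 (mU M.m21 W1)))
      (mU M.m12 (mU W1 W1))) (mU M.m11 (Nat.mul 2 I))) U0)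
      (Nat.mul 2 (Nat.add M.m20 (mU M.m11 W1))))
    (Nat.add (Nat.add (mU (Nat.mul 2 (Nat.mul 2 I)) M.m01)
      (Nat.mul 2 (mU (mU (Nat.mul 2 I) (Nat.add V (Nat.mul 2 r)))
        (Nat.add M.m11 (mU M.m02 W1)))))
      (mU (mU W1 U0) (Nat.add (Nat.add (Nat.add M.m21 (Nat.mul 2 (mU M.m12 W1)))
        (mU M.m03 (mU W1 W1))) (mU M.m02 (Nat.mul 2 I)))))

theorem kb10_sound {rB V rb : ℝ} {I r Vn : ℕ} {M : M9} (hI : UB (1 / rB ^ 2) I) (hr : UB rb r)
    (hV : UB V Vn) : UB (KB rB ((M.m10:ℝ) / 2 ^ 30) ((M.m20:ℝ) / 2 ^ 30) ((M.m30:ℝ) / 2 ^ 30)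
      ((M.m01:ℝ) / 2 ^ 30) ((M.m11:ℝ) / 2 ^ 30) ((M.m21:ℝ) / 2 ^ 30) ((M.m02:ℝ) / 2 ^ 30)
      ((M.m12:ℝ) / 2 ^ 30) ((M.m03:ℝ) / 2 ^ 30) V rb 1 0) (kb10 I r Vn M) := by
  have n := UB.of_nat
  have W1 := hr.two.mul hI
  have U0 := hr.add hV
  have key := (((((((n M.m30).add ((n M.m21).mul W1).two).add ((n M.m12).mul (W1.mul W1))).add
      ((n M.m11).mul hI.two))).mul U0).add ((n M.m20).add ((n M.m11).mul W1)).two).add
    (((hI.two.two.mul (n M.m01)).add ((hI.two.mul (hV.add hr.two)).mul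
      ((n M.m11).add ((n M.m02).mul W1))).two).add ((W1.mul U0).mul
      ((((n M.m21).add ((n M.m12).mul W1).two).add ((n M.m03).mul (W1.mul W1))).add
      ((n M.m02).mul hI.two))))
  unfold kb10
  simp only [seqN_eq]
  convert key using 1
  unfold KB
  ring

def kb01 (I r V : ℕ) (M : M9) : ℕ :=
  seqN (mU (Nat.mul 2 r) I) fun W1 =>
  seqN (Nat.add r V) fun U0 =>
  Nat.add (Nat.add (Nat.add (mU (Nat.add (mU M.m30 (mU r r)) (mU M.m20 r)) U0)
      (Nat.mul 2 (mU (mU M.m20 r) U0))) (mU M.m10 U0))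
    (mU (mU W1 U0) (Nat.add (mU M.m21 (mU r r)) (mU M.m11 r)))

theorem kb01_sound {rB V rb : ℝ} {I r Vn : ℕ} {M : M9} (hI : UB (1 / rB ^ 2) I) (hr : UB rb r)
    (hV : UB V Vn) : UB (KB rB ((M.m10:ℝ) / 2 ^ 30) ((M.m20:ℝ) / 2 ^ 30) ((M.m30:ℝ) / 2 ^ 30)
      ((M.m01:ℝ) / 2 ^ 30) ((M.m11:ℝ) / 2 ^ 30) ((M.m21:ℝ) / 2 ^ 30) ((M.m02:ℝ) / 2 ^ 30)
      ((M.m12:ℝ) / 2 ^ 30) ((M.m03:ℝ) / 2 ^ 30) V rb 0 1) (kb01 I r Vn M) := by
  have n := UB.of_nat
  have W1 := hr.two.mul hI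
  have U0 := hr.add hV
  have key := ((((((n M.m30).mul (hr.mul hr)).add ((n M.m20).mul hr)).mul U0).add
      (((n M.m20).mul hr).mul U0).two).add ((n M.m10).mul U0)).add
    ((W1.mul U0).mul (((n M.m21).mul (hr.mul hr)).add ((n M.m11).mul hr)))
  unfold kb01
  simp only [seqN_eq]
  convert key using 1
  unfold KB
  ring

def lb10 (I r V : ℕ) (M : M9) : ℕ :=
  seqN (mU (Nat.mul 2 r) I) fun W1 =>
  seqN (Nat.add r V) fun U0 =>
  Nat.add (Nat.add (mU (Nat.add M.m20 (mU M.m11 W1)) U0) M.m10)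
    (Nat.add (mU (mU (Nat.mul 2 I) (Nat.add V (Nat.mul 2 r))) M.m01)
      (mU (mU W1 U0) (Nat.add M.m11 (mU M.m02 W1))))

theorem lb10_sound {rB V rb : ℝ} {I r Vn : ℕ} {M : M9} (hI : UB (1 / rB ^ 2) I) (hr : UB rb r)
    (hV : UB V Vn) : UB (LB rB ((M.m10:ℝ) / 2 ^ 30) ((M.m20:ℝ) / 2 ^ 30)
      ((M.m01:ℝ) / 2 ^ 30) ((M.m11:ℝ) / 2 ^ 30) ((M.m02:ℝ) / 2 ^ 30) V rb 1 0)
      (lb10 I r Vn M) := by
  have n := UB.of_nat
  have W1 := hr.two.mul hI
  have U0 := hr.add hV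
  have key := ((((n M.m20).add ((n M.m11).mul W1)).mul U0).add (n M.m10)).add
    (((hI.two.mul (hV.add hr.two)).mul (n M.m01)).add ((W1.mul U0).mul
      ((n M.m11).add ((n M.m02).mul W1))))
  unfold lb10
  simp only [seqN_eq]
  convert key using 1
  unfold LB
  ring

def lb01 (I r V : ℕ) (M : M9) : ℕ :=
  seqN (mU (Nat.mul 2 r) I) fun W1 =>
  seqN (Nat.add r V) fun U0 =>
  Nat.add (Nat.add (mU (mU M.m20 r) U0) (mU M.m10 U0)) (mU (mU W1 U0) (mU M.m11 r))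

theorem lb01_sound {rB V rb : ℝ} {I r Vn : ℕ} {M : M9} (hI : UB (1 / rB ^ 2) I) (hr : UB rb r)
    (hV : UB V Vn) : UB (LB rB ((M.m10:ℝ) / 2 ^ 30) ((M.m20:ℝ) / 2 ^ 30)
      ((M.m01:ℝ) / 2 ^ 30) ((M.m11:ℝ) / 2 ^ 30) ((M.m02:ℝ) / 2 ^ 30) V rb 0 1)
      (lb01 I r Vn M) := by
  have n := UB.of_nat
  have W1 := hr.two.mul hI
  have U0 := hr.add hV
  have key := ((((n M.m20).mul hr).mul U0).add ((n M.m10).mul U0)).add
    ((W1.mul U0).mul ((n M.m11).mul hr))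
  unfold lb01
  simp only [seqN_eq]
  convert key using 1
  unfold LB
  ring

theorem LB_lin (rB M10 M20 M01 M11 M02 V rb a e : ℝ) : LB rB M10 M20 M01 M11 M02 V rb a e =
    LB rB M10 M20 M01 M11 M02 V rb 1 0 * a + LB rB M10 M20 M01 M11 M02 V rb 0 1 * e := by
  unfold LB
  ring

/-! outside the radius `rB` -/

def ko10 (r V : ℕ) (M : M9) : ℕ := Nat.add (mU M.m30 (Nat.add r V)) (Nat.mul 2 M.m20)

theorem ko10_sound {V rb : ℝ} {r Vn : ℕ} {M : M9} (hr : UB rb r) (hV : UB V Vn) :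
    UB (KO ((M.m10:ℝ) / 2 ^ 30) ((M.m20:ℝ) / 2 ^ 30) ((M.m30:ℝ) / 2 ^ 30) V rb 1 0)
      (ko10 r Vn M) := by
  have n := UB.of_nat
  have key := ((n M.m30).mul (hr.add hV)).add (n M.m20).two
  unfold ko10
  convert key using 1
  unfold KO
  ring

def ko01 (r V : ℕ) (M : M9) : ℕ :=
  seqN (Nat.add r V) fun U0 =>
  Nat.add (Nat.add (mU (Nat.add (mU M.m30 (mU r r)) (mU M.m20 r)) U0)
      (Nat.mul 2 (mU (mU M.m20 r) U0))) (mU M.m10 U0)

theorem ko01_sound {V rb : ℝ} {r Vn : ℕ} {M : M9} (hr : UB rb r) (hV : UB V Vn) :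
    UB (KO ((M.m10:ℝ) / 2 ^ 30) ((M.m20:ℝ) / 2 ^ 30) ((M.m30:ℝ) / 2 ^ 30) V rb 0 1)
      (ko01 r Vn M) := by
  have n := UB.of_nat
  have U0 := hr.add hV
  have key := (((((n M.m30).mul (hr.mul hr)).add ((n M.m20).mul hr)).mul U0).add
      (((n M.m20).mul hr).mul U0).two).add ((n M.m10).mul U0)
  unfold ko01
  simp only [seqN_eq]
  convert key using 1
  unfold KO
  ring

def lo10 (r V : ℕ) (M : M9) : ℕ := Nat.add (mU M.m20 (Nat.add r V)) M.m10

theorem lo10_sound {V rb : ℝ} {r Vn : ℕ} {M : M9} (hr : UB rb r) (hV : UB V Vn) :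
    UB (LO ((M.m10:ℝ) / 2 ^ 30) ((M.m20:ℝ) / 2 ^ 30) V rb 1 0) (lo10 r Vn M) := by
  have n := UB.of_nat
  have key := ((n M.m20).mul (hr.add hV)).add (n M.m10)
  unfold lo10
  convert key using 1
  unfold LO
  ring

def lo01 (r V : ℕ) (M : M9) : ℕ :=
  Nat.add (mU (mU M.m20 r) (Nat.add r V)) (mU M.m10 (Nat.add r V))

theorem lo01_sound {V rb : ℝ} {r Vn : ℕ} {M : M9} (hr : UB rb r) (hV : UB V Vn) :
    UB (LO ((M.m10:ℝ) / 2 ^ 30) ((M.m20:ℝ) / 2 ^ 30) V rb 0 1) (lo01 r Vn M) := by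
  have n := UB.of_nat
  have key := (((n M.m20).mul hr).mul (hr.add hV)).add ((n M.m10).mul (hr.add hV))
  unfold lo01
  convert key using 1
  unfold LO
  ring

theorem LO_lin (M10 M20 V rb a e : ℝ) : LO M10 M20 V rb a e =
    LO M10 M20 V rb 1 0 * a + LO M10 M20 V rb 0 1 * e := by
  unfold LO
  ring

/-! ### The sliver -/

theorem sliver_gen {D : Dat} {V eps s0 q0 b1 sl : ℝ} (hrB : 0 < D.rB) (hV : 0 ≤ V)
    (hs0 : 0 ≤ s0) (hb1 : 0 ≤ b1) (hq0 : b1 * V + q0 ≤ 1) (heps : eps < D.xL) (hsl0 : 0 ≤ sl)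
    (hsl : q0 ≤ s0 * (D.xL - eps) + sl) {r θ vr u : ℝ} (hr : 0 < r)
    (h1 : D.xL - eps ≤ r * Real.cos θ) (hv : vr ^ 2 + u ^ 2 ≤ V ^ 2)
    (a1 : 1 / (-(r * Real.cos θ)) + s0 ≤ D.bx (-(r * Real.cos θ)) (D.W r))
    (a2 : D.bx (-(r * Real.cos θ)) (D.W r) ≤ b1)
    (a3 : 2 * (V + D.rB) / D.rB * |D.bw (-(r * Real.cos θ)) (D.W r)| ≤ q0) :
    max 0 (D.gs r vr u (Real.cos θ) (Real.sin θ)) ≤
      max 0 ((-vr + u * Real.tan θ) / r) + sl := by
  set c := Real.cos θ with hc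
  set s := Real.sin θ with hs
  have hy : 0 < r * c := by linarith
  have hc0 : 0 < c := by
    by_contra hcon
    have := mul_nonpos_of_nonneg_of_nonpos hr.le (not_lt.mp hcon)
    linarith
  have hc1 : c ≤ 1 := Real.cos_le_one θ
  set y := r * c with hydef
  have hvr : |vr| ≤ V := abs_le_of_sq_le_sq (by nlinarith [sq_nonneg u]) hV
  have hQ : |2 * r / D.rB ^ 2 * (vr - r) * D.bw (-y) (D.W r)| ≤
      2 * (V + D.rB) / D.rB * |D.bw (-y) (D.W r)| := by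
    rcases le_or_gt r D.rB with h | h
    · rw [abs_mul]
      apply mul_le_mul_of_nonneg_right _ (abs_nonneg _)
      rw [abs_mul, abs_of_nonneg (by positivity : 0 ≤ 2 * r / D.rB ^ 2)]
      have e1 : |vr - r| ≤ V + D.rB := by
        refine (abs_sub_le' hvr (le_of_eq (abs_of_pos hr))).trans ?_
        linarith
      have e2 : 2 * r / D.rB ^ 2 ≤ 2 * D.rB / D.rB ^ 2 := by gcongr
      have e3 : 2 * D.rB / D.rB ^ 2 * (V + D.rB) = 2 * (V + D.rB) / D.rB := by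
        field_simp
      rw [← e3]
      exact mul_le_mul e2 e1 (abs_nonneg _) (by positivity)
    · have hW : D.W r = 0 := by
        unfold Dat.W
        apply max_eq_left
        rw [sub_nonpos, one_le_div (by positivity)]
        have := h.le
        gcongr
      rw [hW, bw_zero]
      simp
  set Vx := -(vr * c) + u * s with hVx
  have hVxV : |Vx| ≤ V := by
    have : Vx = (-vr) * c + u * s := by rw [hVx]; ring
    rw [this]
    exact abs_cs _ _ _ _ hV (by rw [neg_sq]; exact hv)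
  have hgs : D.gs r vr u c s = -1 - D.bx (-y) (D.W r) * (Vx + y) +
      2 * r / D.rB ^ 2 * (vr - r) * D.bw (-y) (D.W r) := by
    unfold Dat.gs
    rw [hVx, hydef]
  have hgL : (-vr + u * Real.tan θ) / r = Vx / y := by
    rw [Real.tan_eq_sin_div_cos, ← hc, ← hs, hVx, hydef]
    field_simp
  rw [hgs, hgL]
  set bxv := D.bx (-y) (D.W r)
  set T := 2 * r / D.rB ^ 2 * (vr - r) * D.bw (-y) (D.W r) with hT
  have hT1 : T ≤ q0 := (le_abs_self _).trans (hQ.trans a3)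
  have hlo : -(1 / y) + s0 ≤ bxv := by
    have e1 : (1:ℝ) / -y = -(1 / y) := by
      rw [div_neg]
    rw [e1] at a1
    exact a1
  have hsy : s0 * (D.xL - eps) ≤ s0 * y := by gcongr
  rcases le_or_gt 0 Vx with hpos | hneg
  · have g0 : 0 ≤ Vx / y := div_nonneg hpos hy.le
    rw [max_eq_right g0]
    apply max_le
    · linarith
    · have e1 : (-(1 / y) + s0) * (Vx + y) ≤ bxv * (Vx + y) := by
        apply mul_le_mul_of_nonneg_right hlo
        linarith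
      have e2 : (-(1 / y) + s0) * (Vx + y) = -(Vx / y) - 1 + s0 * (Vx + y) := by
        field_simp
        ring
      have e3 : s0 * y ≤ s0 * (Vx + y) := by
        apply mul_le_mul_of_nonneg_left _ hs0
        linarith
      linarith
  · have h0 : -1 - bxv * (Vx + y) + T ≤ sl := by
      rcases le_or_gt 0 (Vx + y) with h3 | h3
      · have e1 : (-(1 / y) + s0) * (Vx + y) ≤ bxv * (Vx + y) :=
          mul_le_mul_of_nonneg_right hlo h3
        have e2 : (-(1 / y) + s0) * (Vx + y) = -(Vx / y) - 1 + s0 * (Vx + y) := by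
          field_simp
          ring
        have e5 : 0 ≤ s0 * (Vx + y) := mul_nonneg hs0 h3
        have e6 : s0 * (Vx + y) - (Vx / y) = s0 * y + (-Vx) * (1 / y - s0) := by
          field_simp
          ring
        rcases le_or_gt s0 (1 / y) with h7 | h7
        · have e7 : 0 ≤ (-Vx) * (1 / y - s0) := mul_nonneg (by linarith) (by linarith)
          linarith
        · have e9 : q0 ≤ 1 := by
            have := mul_nonneg hb1 hV
            linarith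
          have e10 : 0 ≤ bxv * (Vx + y) := mul_nonneg (by linarith) h3
          linarith
      · have e1 : -(bxv * (Vx + y)) ≤ b1 * V := by
          have e2 : -(bxv * (Vx + y)) = bxv * (-(Vx + y)) := by ring
          have e3 : 0 ≤ -(Vx + y) := by linarith
          have e4 : -(Vx + y) ≤ V := by linarith [(abs_le.mp hVxV).1]
          rw [e2]
          calc bxv * (-(Vx + y)) ≤ b1 * (-(Vx + y)) := mul_le_mul_of_nonneg_right a2 e3
            _ ≤ b1 * V := mul_le_mul_of_nonneg_left e4 hb1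
        linarith
    have g1 := le_max_left 0 (Vx / y)
    apply max_le
    · linarith
    · linarith

end Pool.Agent.H44.Shore
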