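import Mathlib
import Pool.Agent.H44.Shore.Reg2

/-!
Shoreline search: the kernel check of a region of radii and its soundness.
-/

open Set Polynomial

namespace Pool.Agent.H44.Shore

open Pool.Agent.H65.Shore (Dq apx_q RegOk Reg)
open MBC

/-- constants of the certificate -/
structure RC where
  L : List (List ℤ)
  epsN : ℕ
  rbn : ℕ
  nL : ℕ
  N : ℕ

structure RCOk (D : Dat) (K : RC) : Prop where
  apx : Apx D K.L 60 ((K.epsN:ℝ) / 2 ^ 60)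
  l1 : K.L.getD 1 [] = []
  hrbn : 0 < K.rbn
  hrB : D.rB = (K.rbn:ℝ) / 2 ^ 20
  hN : 0 < K.N
  hnL : 0 < K.nL
  hxL : D.xL = (K.nL:ℝ) / K.N

/-- upper bound of `1 / rB ^ 2` -/
def iB (rbn : ℕ) : ℕ := Nat.add (Nat.div (Nat.pow 2 70) (Nat.mul rbn rbn)) 1

theorem iB_sound {rbn : ℕ} (h : 0 < rbn) : UB (1 / ((rbn:ℝ) / 2 ^ 20) ^ 2) (iB rbn) := by
  have hr : (0:ℝ) < rbn := by exact_mod_cast h
  refine ⟨by positivity, ?_⟩
  have h1 := div_ceil (2 ^ 70) (rbn * rbn) (by positivity)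
  have e : ((iB rbn : ℕ) : ℝ) = ((2 ^ 70 / (rbn * rbn) : ℕ) : ℝ) + 1 := by
    show ((2 ^ 70 / (rbn * rbn) + 1 : ℕ) : ℝ) = _
    push_cast
    ring
  rw [e]
  refine le_trans (le_of_eq ?_) h1
  push_cast
  field_simp
  norm_num

theorem V_sound : UB (51 / 50) 1095216661 := ⟨by norm_num, by norm_num⟩

theorem r_sound (r : ℕ) : UB ((r:ℝ) / 2 ^ 20) (Nat.mul 1024 r) := by
  refine ⟨by positivity, ?_⟩
  have e : ((Nat.mul 1024 r : ℕ) : ℝ) = 1024 * r := by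
    show ((1024 * r : ℕ) : ℝ) = _
    push_cast
    ring
  rw [e]
  have : (r:ℝ) / 2 ^ 20 * 2 ^ 30 = 1024 * r := by
    field_simp
    norm_num
  rw [this]

/-- the grid covers `[-xL, xb]` -/
def coverX (K : RC) (b : Bx) (xb : ℕ) : Bool :=
  nn (Int.sub (Int.neg ((Nat.mul K.nL (Nat.pow 2 b.s) : ℕ) : ℤ)) (Int.mul b.ks (K.N : ℤ))) &&
  nn (Int.sub (Int.mul (Int.add b.ks ((Nat.mul b.n b.st : ℕ) : ℤ)) ((Nat.pow 2 20 : ℕ) : ℤ))
    ((Nat.mul xb (Nat.pow 2 b.s) : ℕ) : ℤ))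

theorem coverX_sound {D : Dat} {K : RC} (hK : RCOk D K) {b : Bx} {xb : ℕ}
    (h : coverX K b xb = true) :
    (b.ks:ℝ) / 2 ^ b.s ≤ -D.xL ∧ (xb:ℝ) / 2 ^ 20 ≤ (b.ks + b.n * b.st) / 2 ^ b.s := by
  unfold coverX at h
  rw [Bool.and_eq_true] at h
  have h1 : 0 ≤ -((K.nL * 2 ^ b.s : ℕ) : ℤ) - b.ks * (K.N : ℤ) := nn_sound h.1
  have h2 : 0 ≤ (b.ks + ((b.n * b.st : ℕ) : ℤ)) * ((2 ^ 20 : ℕ) : ℤ) -
    ((xb * 2 ^ b.s : ℕ) : ℤ) := nn_sound h.2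
  have hN : (0:ℝ) < K.N := by exact_mod_cast hK.hN
  have hs : (0:ℝ) < 2 ^ b.s := by positivity
  constructor
  · rw [hK.hxL, ← neg_div, div_le_div_iff₀ hs hN]
    have : (0:ℝ) ≤ -((K.nL:ℝ) * 2 ^ b.s) - b.ks * K.N := by exact_mod_cast h1
    linarith
  · rw [div_le_div_iff₀ (by positivity) hs]
    have : (0:ℝ) ≤ (b.ks + (b.n:ℝ) * b.st) * 2 ^ 20 - xb * 2 ^ b.s := by exact_mod_cast h2
    linarith

/-- the grid covers the values of `W` for radii between `r1` and `rb` -/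
def coverW (rbn : ℕ) (b : Bx) (r1 rb : ℕ) : Bool :=
  (Nat.beq b.zs 0 || Nat.ble (Nat.add (Nat.mul b.zs (Nat.mul rbn rbn)) (Nat.mul (Nat.pow 2 b.q)
    (Nat.mul rb rb))) (Nat.mul (Nat.pow 2 b.q) (Nat.mul rbn rbn))) &&
  Nat.ble (Nat.mul (Nat.pow 2 b.q) (Nat.mul rbn rbn)) (Nat.add (Nat.mul (Nat.add b.zs
    (Nat.mul b.m b.g)) (Nat.mul rbn rbn)) (Nat.mul (Nat.pow 2 b.q) (Nat.mul r1 r1)))

theorem coverW_sound {rbn : ℕ} (hr : 0 < rbn) {b : Bx} {r1 rb : ℕ}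
    (h : coverW rbn b r1 rb = true) :
    ((b.zs:ℝ) / 2 ^ b.q ≤ 0 ∨ (b.zs:ℝ) / 2 ^ b.q ≤
      1 - ((rb:ℝ) / 2 ^ 20) ^ 2 / ((rbn:ℝ) / 2 ^ 20) ^ 2) ∧
    1 - ((r1:ℝ) / 2 ^ 20) ^ 2 / ((rbn:ℝ) / 2 ^ 20) ^ 2 ≤ (b.zs + b.m * b.g) / 2 ^ b.q := by
  unfold coverW at h
  rw [Bool.and_eq_true, Bool.or_eq_true] at h
  obtain ⟨h1, h2⟩ := h
  have h2 : 2 ^ b.q * (rbn * rbn) ≤ (b.zs + b.m * b.g) * (rbn * rbn) + 2 ^ b.q * (r1 * r1) :=
    Nat.le_of_ble_eq_true h2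
  have hrr : (0:ℝ) < rbn := by exact_mod_cast hr
  have hq : (0:ℝ) < 2 ^ b.q := by positivity
  have e : ∀ r : ℝ, 1 - (r / 2 ^ 20) ^ 2 / ((rbn:ℝ) / 2 ^ 20) ^ 2 =
      ((rbn:ℝ) * rbn - r * r) / (rbn * rbn) := by
    intro r
    field_simp
  constructor
  · rcases h1 with h1 | h1
    · left
      have : b.zs = 0 := Nat.eq_of_beq_eq_true h1
      rw [this]
      simp
    · right
      have h1 : b.zs * (rbn * rbn) + 2 ^ b.q * (rb * rb) ≤ 2 ^ b.q * (rbn * rbn) :=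
        Nat.le_of_ble_eq_true h1
      have h3 : (b.zs:ℝ) * (rbn * rbn) + 2 ^ b.q * (rb * rb) ≤ 2 ^ b.q * (rbn * rbn) := by
        exact_mod_cast h1
      rw [e, div_le_div_iff₀ hq (by positivity)]
      linarith
  · have h3 : (2:ℝ) ^ b.q * (rbn * rbn) ≤ (b.zs + b.m * b.g) * (rbn * rbn) +
        2 ^ b.q * (r1 * r1) := by exact_mod_cast h2
    rw [e, div_le_div_iff₀ (by positivity) hq]
    linarith

def nineC (K : RC) (b : Bx) (M : M9) : Bool :=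
  rngC K.L K.epsN b 1 0 9 (Int.neg (M.m10 : ℤ)) (M.m10 : ℤ) &&
  (rngC K.L K.epsN b 2 0 24 (Int.neg (M.m20 : ℤ)) (M.m20 : ℤ) &&
  (rngC K.L K.epsN b 3 0 95 (Int.neg (M.m30 : ℤ)) (M.m30 : ℤ) &&
  (rngC K.L K.epsN b 0 1 20 (Int.neg (M.m01 : ℤ)) (M.m01 : ℤ) &&
  (rngC K.L K.epsN b 1 1 27 (Int.neg (M.m11 : ℤ)) (M.m11 : ℤ) &&
  (rngC K.L K.epsN b 2 1 72 (Int.neg (M.m21 : ℤ)) (M.m21 : ℤ) &&
  (rngC K.L K.epsN b 0 2 94 (Int.neg (M.m02 : ℤ)) (M.m02 : ℤ) &&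
  (rngC K.L K.epsN b 1 2 125 (Int.neg (M.m12 : ℤ)) (M.m12 : ℤ) &&
  rngC K.L K.epsN b 0 3 560 (Int.neg (M.m03 : ℤ)) (M.m03 : ℤ))))))))

theorem rng_abs {D : Dat} {K : RC} (hK : RCOk D K) {b : Bx} (hb : b.ok = true) {i j E : ℕ}
    (hE : ∑ n ∈ Finset.range 5, ((n + j).descFactorial j *
      ∑ m ∈ Finset.range 8, (m + i).descFactorial i * 4 ^ (7 - m)) ≤ E * 4 ^ 7) {M : ℕ}
    (h : rngC K.L K.epsN b i j E (Int.neg (M : ℤ)) (M : ℤ) = true) {xa xb wa wb : ℝ}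
    (hxa : (b.ks:ℝ) / 2 ^ b.s ≤ xa) (hxb : xb ≤ (b.ks + b.n * b.st) / 2 ^ b.s)
    (hwa : (b.zs:ℝ) / 2 ^ b.q ≤ wa) (hwb : wb ≤ (b.zs + b.m * b.g) / 2 ^ b.q) :
    ∀ x ∈ Icc xa xb, ∀ w ∈ Icc wa wb, |D.bd i j x w| ≤ (M:ℝ) / 2 ^ 30 := by
  intro x hx w hw
  have h1 := rngC_sound hK.apx hK.l1 hb hE h x ⟨hxa.trans hx.1, hx.2.trans hxb⟩ w
    ⟨hwa.trans hw.1, hw.2.trans hwb⟩
  have e : ((Int.neg (M : ℤ) : ℤ) : ℝ) = -(M:ℝ) := by
    show ((-(M : ℤ) : ℤ) : ℝ) = _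
    push_cast
    ring
  rw [e, neg_div] at h1
  rw [abs_le]
  refine ⟨h1.1, ?_⟩
  simpa using h1.2

theorem nineC_sound {D : Dat} {K : RC} (hK : RCOk D K) {b : Bx} (hb : b.ok = true) {M : M9}
    (h : nineC K b M = true) {xa xb wa wb : ℝ}
    (hxa : (b.ks:ℝ) / 2 ^ b.s ≤ xa) (hxb : xb ≤ (b.ks + b.n * b.st) / 2 ^ b.s)
    (hwa : (b.zs:ℝ) / 2 ^ b.q ≤ wa) (hwb : wb ≤ (b.zs + b.m * b.g) / 2 ^ b.q) :
    MB D xa xb wa wb ((M.m10:ℝ) / 2 ^ 30) ((M.m20:ℝ) / 2 ^ 30) ((M.m30:ℝ) / 2 ^ 30)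
      ((M.m01:ℝ) / 2 ^ 30) ((M.m11:ℝ) / 2 ^ 30) ((M.m21:ℝ) / 2 ^ 30) ((M.m02:ℝ) / 2 ^ 30)
      ((M.m12:ℝ) / 2 ^ 30) ((M.m03:ℝ) / 2 ^ 30) := by
  unfold nineC at h
  simp only [Bool.and_eq_true] at h
  obtain ⟨h1, h2, h3, h4, h5, h6, h7, h8, h9⟩ := h
  exact ⟨rng_abs hK hb (by decide +kernel) h1 hxa hxb hwa hwb,
    rng_abs hK hb (by decide +kernel) h2 hxa hxb hwa hwb,
    rng_abs hK hb (by decide +kernel) h3 hxa hxb hwa hwb,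
    rng_abs hK hb (by decide +kernel) h4 hxa hxb hwa hwb,
    rng_abs hK hb (by decide +kernel) h5 hxa hxb hwa hwb,
    rng_abs hK hb (by decide +kernel) h6 hxa hxb hwa hwb,
    rng_abs hK hb (by decide +kernel) h7 hxa hxb hwa hwb,
    rng_abs hK hb (by decide +kernel) h8 hxa hxb hwa hwb,
    rng_abs hK hb (by decide +kernel) h9 hxa hxb hwa hwb⟩

/-- data of the sliver -/
structure Sv where
  b : Bx
  r1 : ℕ
  LO : ℤ
  HI : ℤ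
  B : ℕ

/-- upper bound of `2 (V + rB) / rB` -/
def cB (rbn : ℕ) : ℕ :=
  Nat.add (Nat.div (Nat.mul 102 (Nat.pow 2 50)) (Nat.mul 50 rbn)) 2147483649

theorem cB_sound {rbn : ℕ} (h : 0 < rbn) :
    UB (2 * (51 / 50 + (rbn:ℝ) / 2 ^ 20) / ((rbn:ℝ) / 2 ^ 20)) (cB rbn) := by
  have hr : (0:ℝ) < rbn := by exact_mod_cast h
  refine ⟨by positivity, ?_⟩
  have h1 := div_ceil (102 * 2 ^ 50) (50 * rbn) (by positivity)
  have e : ((cB rbn : ℕ) : ℝ) = ((102 * 2 ^ 50 / (50 * rbn) : ℕ) : ℝ) + 1 + 2147483648 := by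
    show ((102 * 2 ^ 50 / (50 * rbn) + 2147483649 : ℕ) : ℝ) = _
    push_cast
    ring
  rw [e]
  have e2 : 2 * (51 / 50 + (rbn:ℝ) / 2 ^ 20) / ((rbn:ℝ) / 2 ^ 20) * 2 ^ 30 =
      ((102 * 2 ^ 50 : ℕ) : ℝ) / ((50 * rbn : ℕ) : ℝ) + 2147483648 := by
    push_cast
    field_simp
    ring
  rw [e2]
  linarith

theorem c30 : ((1073741824 : ℕ) : ℝ) = 2 ^ 30 := by norm_num

theorem cpow (k : ℕ) : ((Nat.pow 2 k : ℕ) : ℝ) = 2 ^ k := by
  show ((2 ^ k : ℕ) : ℝ) = _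
  push_cast
  ring

theorem cast_nn {n : ℤ} (h : 0 ≤ n) : (0:ℝ) ≤ (n:ℝ) := by exact_mod_cast h

/-- final inequality of the sliver check -/
def slA (nL N ep SL q : ℕ) (LO : ℤ) : Bool :=
  nn (Int.sub (Int.add ((Nat.mul (Nat.mul SL 1073741824) (Nat.mul nL N) : ℕ) : ℤ)
    (Int.mul (Int.add (Int.mul LO (nL : ℤ)) ((Nat.mul N 1073741824 : ℕ) : ℤ))
      (Int.sub ((Nat.mul nL (Nat.pow 2 40) : ℕ) : ℤ) ((Nat.mul ep N : ℕ) : ℤ))))
    ((Nat.mul q (Nat.mul (Nat.mul nL N) (Nat.pow 2 40)) : ℕ) : ℤ))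

theorem frac_le {a b A : ℝ} (hb : 0 < b) (h : a * b ≤ A) : a / 2 ^ 30 ≤ A / (2 ^ 30 * b) := by
  rw [div_le_div_iff₀ (by positivity) (by positivity)]
  have h1 := mul_le_mul_of_nonneg_right h (by positivity : (0:ℝ) ≤ 2 ^ 30)
  calc a * (2 ^ 30 * b) = a * b * 2 ^ 30 := by ring
    _ ≤ A * 2 ^ 30 := h1

theorem slA_aux {nL N ep SL q a b : ℕ} {LO : ℤ} (h1 : 0 ≤
      ((SL * a * (nL * N) : ℕ) : ℤ) + (LO * (nL : ℤ) + ((N * a : ℕ) : ℤ)) *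
      (((nL * b : ℕ) : ℤ) - ((ep * N : ℕ) : ℤ)) - ((q * (nL * N * b) : ℕ) : ℤ)) :
    (0:ℝ) ≤ (SL:ℝ) * a * (nL * N) + (LO * nL + N * a) * (nL * b - ep * N) -
      (q:ℝ) * (nL * N * b) := by
  have h2 := cast_nn h1
  push_cast at h2
  exact h2

theorem slA_real {nL N ep SL q : ℕ} {LO : ℤ} (h : slA nL N ep SL q LO = true) :
    (0:ℝ) ≤ (SL:ℝ) * 2 ^ 30 * (nL * N) + (LO * nL + N * 2 ^ 30) * (nL * 2 ^ 40 - ep * N) -
      (q:ℝ) * (nL * N * 2 ^ 40) := by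
  have h2 := slA_aux (nL := nL) (N := N) (ep := ep) (SL := SL) (q := q) (LO := LO)
    (a := 1073741824) (b := Nat.pow 2 40) (nn_sound h)
  rw [c30, cpow] at h2
  exact h2

theorem slA_sound {nL N ep SL q : ℕ} {LO : ℤ} (hnL : 0 < nL) (hN : 0 < N)
    (h : slA nL N ep SL q LO = true) : (q:ℝ) / 2 ^ 30 ≤ ((LO:ℝ) / 2 ^ 30 + N / nL) *
      ((nL:ℝ) / N - (ep:ℝ) / 2 ^ 40) + (SL:ℝ) / 2 ^ 40 := by
  have hN' : (0:ℝ) < N := by exact_mod_cast hN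
  have hnL' : (0:ℝ) < nL := by exact_mod_cast hnL
  have h1 := slA_real h
  have hb : (0:ℝ) < 2 ^ 40 := by positivity
  have e : ((LO:ℝ) / 2 ^ 30 + N / nL) * ((nL:ℝ) / N - (ep:ℝ) / 2 ^ 40) + (SL:ℝ) / 2 ^ 40 =
      ((SL:ℝ) * 2 ^ 30 * (nL * N) + (LO * nL + N * 2 ^ 30) * (nL * 2 ^ 40 - ep * N)) /
        (2 ^ 30 * (nL * N * 2 ^ 40)) := by
    have ha : (0:ℝ) < 2 ^ 30 := by positivity
    generalize (2:ℝ) ^ 40 = b at hb
    generalize (2:ℝ) ^ 30 = a at ha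
    field_simp
    ring
  rw [e]
  exact frac_le (by positivity) (by linarith)

/-- `rb / 2 ^ 20 < xL - ep / 2 ^ 40` -/
def slF (nL N ep rb : ℕ) : Bool :=
  Nat.ble (Nat.add (Nat.add (Nat.mul rb (Nat.mul N (Nat.pow 2 20))) (Nat.mul ep N)) 1)
    (Nat.mul nL (Nat.pow 2 40))

theorem slF_aux {nL N ep rb a b : ℕ} (h : rb * (N * a) + ep * N + 1 ≤ nL * b) :
    (rb:ℝ) * (N * a) + ep * N + 1 ≤ nL * b := by exact_mod_cast h

theorem slF_sound {nL N ep rb : ℕ} (hN : 0 < N) (h : slF nL N ep rb = true) :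
    (rb:ℝ) / 2 ^ 20 < (nL:ℝ) / N - (ep:ℝ) / 2 ^ 40 := by
  have hN' : (0:ℝ) < N := by exact_mod_cast hN
  have h2 := slF_aux (a := Nat.pow 2 20) (b := Nat.pow 2 40) (Nat.le_of_ble_eq_true h)
  rw [cpow, cpow] at h2
  have e40 : (2:ℝ) ^ 40 = 2 ^ 20 * 2 ^ 20 := by norm_num
  have ha : (0:ℝ) < 2 ^ 20 := by positivity
  rw [e40] at h2 ⊢
  generalize (2:ℝ) ^ 20 = a at ha h2
  have e : (nL:ℝ) / N - (ep:ℝ) / (a * a) = (nL * (a * a) - ep * N) / (N * (a * a)) := by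
    field_simp
  rw [e, div_lt_div_iff₀ ha (by positivity)]
  have h3 := mul_lt_mul_of_pos_right (by linarith : (rb:ℝ) * (N * a) <
    nL * (a * a) - ep * N) ha
  calc (rb:ℝ) * (N * (a * a)) = rb * (N * a) * a := by ring
    _ < _ := h3

/-- upper end of the range of the abscissa -/
def slX (nL N ep s : ℕ) (y : ℤ) : Bool :=
  nn (Int.sub (Int.mul (Int.mul y (N : ℤ)) ((Nat.pow 2 40 : ℕ) : ℤ))
    (Int.mul (Int.sub ((Nat.mul ep N : ℕ) : ℤ) ((Nat.mul nL (Nat.pow 2 40) : ℕ) : ℤ))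
      ((Nat.pow 2 s : ℕ) : ℤ)))

theorem slX_aux {nL N ep b d : ℕ} {y : ℤ} (h1 : 0 ≤ y * (N : ℤ) * (b : ℤ) -
    (((ep * N : ℕ) : ℤ) - ((nL * b : ℕ) : ℤ)) * (d : ℤ)) :
    (0:ℝ) ≤ y * N * b - ((ep:ℝ) * N - nL * b) * d := by
  have h2 := cast_nn h1
  push_cast at h2
  exact h2

theorem slX_sound {nL N ep s : ℕ} {y : ℤ} (hN : 0 < N) (h : slX nL N ep s y = true) :
    -((nL:ℝ) / N) + (ep:ℝ) / 2 ^ 40 ≤ y / 2 ^ s := by
  have hN' : (0:ℝ) < N := by exact_mod_cast hN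
  have h2 := slX_aux (nL := nL) (N := N) (ep := ep) (b := Nat.pow 2 40) (d := Nat.pow 2 s)
    (y := y) (nn_sound h)
  rw [cpow, cpow] at h2
  have hb : (0:ℝ) < 2 ^ 40 := by positivity
  have hd : (0:ℝ) < 2 ^ s := by positivity
  generalize (2:ℝ) ^ 40 = b at hb h2
  generalize (2:ℝ) ^ s = d at hd h2
  rw [le_div_iff₀ hd]
  have e : (-((nL:ℝ) / N) + (ep:ℝ) / b) * d = ((ep:ℝ) * N - nL * b) * d / (N * b) := by
    field_simp
    ring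
  rw [e, div_le_iff₀ (by positivity)]
  linarith

def slS (nL N : ℕ) (LO : ℤ) : Bool :=
  nn (Int.add (Int.mul LO (nL : ℤ)) ((Nat.mul N 1073741824 : ℕ) : ℤ))

theorem slS_aux {nL N a : ℕ} {LO : ℤ} (h1 : 0 ≤ LO * (nL : ℤ) + ((N * a : ℕ) : ℤ)) :
    (0:ℝ) ≤ LO * nL + N * a := by
  have h2 := cast_nn h1
  push_cast at h2
  exact h2

theorem slS_sound {nL N : ℕ} {LO : ℤ} (hnL : 0 < nL) (h : slS nL N LO = true) :
    (0:ℝ) ≤ (LO:ℝ) / 2 ^ 30 + N / nL := by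
  have hnL' : (0:ℝ) < nL := by exact_mod_cast hnL
  have h2 := slS_aux (nL := nL) (N := N) (LO := LO) (a := 1073741824) (nn_sound h)
  rw [c30] at h2
  have ha : (0:ℝ) < 2 ^ 30 := by positivity
  generalize (2:ℝ) ^ 30 = a at ha h2
  have e : (LO:ℝ) / a + N / nL = (LO * nL + N * a) / (a * nL) := by
    field_simp
  rw [e]
  positivity

def slQ (u v : ℕ) : Bool := Nat.ble (Nat.add u v) 1073741824

theorem slQ_aux {u v a : ℕ} (h : u + v ≤ a) : (u:ℝ) + v ≤ a := by exact_mod_cast h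

theorem slQ_sound {u v : ℕ} (h : slQ u v = true) : (u:ℝ) + v ≤ 2 ^ 30 := by
  have h2 := slQ_aux (a := 1073741824) (Nat.le_of_ble_eq_true h)
  rwa [c30] at h2

def slK (nL N s : ℕ) (ks : ℤ) : Bool :=
  nn (Int.sub (Int.neg ((Nat.mul nL (Nat.pow 2 s) : ℕ) : ℤ)) (Int.mul ks (N : ℤ)))

theorem slK_aux {nL N d : ℕ} {ks : ℤ} (h1 : 0 ≤ -((nL * d : ℕ) : ℤ) - ks * (N : ℤ)) :
    (0:ℝ) ≤ -((nL:ℝ) * d) - ks * N := by
  have h2 := cast_nn h1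
  push_cast at h2
  exact h2

theorem slK_sound {nL N s : ℕ} {ks : ℤ} (hN : 0 < N) (h : slK nL N s ks = true) :
    (ks:ℝ) / 2 ^ s ≤ -((nL:ℝ) / N) := by
  have hN' : (0:ℝ) < N := by exact_mod_cast hN
  have h2 := slK_aux (nL := nL) (N := N) (ks := ks) (d := Nat.pow 2 s) (nn_sound h)
  rw [cpow] at h2
  have hd : (0:ℝ) < 2 ^ s := by positivity
  generalize (2:ℝ) ^ s = d at hd h2
  rw [← neg_div, div_le_div_iff₀ hd hN']
  linarith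

def slivC (K : RC) (g : Reg) (v : Sv) : Bool :=
  slF K.nL K.N g.ep g.rb ||
  (v.b.ok && (coverW K.rbn v.b v.r1 g.rb &&
  ((Nat.ble v.r1 g.ra || slF K.nL K.N g.ep v.r1) &&
  (slK K.nL K.N v.b.s v.b.ks &&
  (slX K.nL K.N g.ep v.b.s (Int.add v.b.ks ((Nat.mul v.b.n v.b.st : ℕ) : ℤ)) &&
  (rngC K.L K.epsN v.b 1 0 9 v.LO v.HI &&
  (rngC K.L K.epsN v.b 0 1 20 (Int.neg (v.B : ℤ)) (v.B : ℤ) &&
  (slQ (mU v.HI.toNat 1095216661) (mU (cB K.rbn) v.B) &&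
  (slS K.nL K.N v.LO && (slF K.nL K.N g.ep 0 &&
  slA K.nL K.N g.ep g.SL (mU (cB K.rbn) v.B) v.LO))))))))))

theorem slivC_sound {D : Dat} {K : RC} (hK : RCOk D K) {g : Reg} {v : Sv}
    (h : slivC K g v = true) :
    ∀ r ∈ Icc ((g.ra:ℝ) / 2 ^ 20) ((g.rb:ℝ) / 2 ^ 20), 0 < r → ∀ vr u : ℝ,
    vr ^ 2 + u ^ 2 ≤ (51 / 50) ^ 2 → ∀ θ ∈ Icc 0 (Real.pi / 2),
    D.xL - (g.ep:ℝ) / 2 ^ 40 ≤ r * Real.cos θ → r * Real.cos θ ≤ D.xL →
    max 0 (D.gs r vr u (Real.cos θ) (Real.sin θ)) ≤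
      max 0 ((-vr + u * Real.tan θ) / r) + (g.SL:ℝ) / 2 ^ 40 := by
  intro r hr hr0 vr u hv θ _ hθ1 hθ2
  have hN : (0:ℝ) < K.N := by exact_mod_cast hK.hN
  have hnL : (0:ℝ) < K.nL := by exact_mod_cast hK.hnL
  have hrbn : (0:ℝ) < K.rbn := by exact_mod_cast hK.hrbn
  have hcle : r * Real.cos θ ≤ r := by
    have := mul_le_mul_of_nonneg_left (Real.cos_le_one θ) hr0.le
    simpa using this
  have hrB0 : 0 < D.rB := by
    rw [hK.hrB]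
    positivity
  unfold slivC at h
  rw [Bool.or_eq_true] at h
  rcases h with h | h
  · exfalso
    have h1 := slF_sound hK.hN h
    rw [← hK.hxL] at h1
    linarith [hr.2]
  · simp only [Bool.and_eq_true] at h
    obtain ⟨k1, k2, k3, k4, k5, k6, k7, k8, k9, k10, k11⟩ := h
    -- range of the abscissa
    have x1 : (v.b.ks:ℝ) / 2 ^ v.b.s ≤ -(r * Real.cos θ) := by
      have h3 := slK_sound hK.hN k4
      rw [← hK.hxL] at h3
      linarith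
    have x2 : -(r * Real.cos θ) ≤ (v.b.ks + v.b.n * v.b.st) / 2 ^ v.b.s := by
      have h3 := slX_sound hK.hN k5
      rw [← hK.hxL] at h3
      have e : ((Int.add v.b.ks ((Nat.mul v.b.n v.b.st : ℕ) : ℤ) : ℤ) : ℝ) =
          v.b.ks + v.b.n * v.b.st := by
        show ((v.b.ks + ((v.b.n * v.b.st : ℕ) : ℤ) : ℤ) : ℝ) = _
        push_cast
        ring
      rw [e] at h3
      linarith
    -- range of the bump
    obtain ⟨w1, w2⟩ := coverW_sound hK.hrbn k2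
    have hWr : D.W r = max 0 (1 - r ^ 2 / ((K.rbn:ℝ) / 2 ^ 20) ^ 2) := by
      unfold Dat.W
      rw [hK.hrB]
    have hr1 : (v.r1:ℝ) / 2 ^ 20 ≤ r := by
      rw [Bool.or_eq_true] at k3
      rcases k3 with k3 | k3
      · have h1 : v.r1 ≤ g.ra := Nat.le_of_ble_eq_true k3
        have h2 : (v.r1:ℝ) ≤ g.ra := by exact_mod_cast h1
        refine le_trans ?_ hr.1
        exact div_le_div_of_nonneg_right h2 (by positivity)
      · have h1 := slF_sound hK.hN k3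
        rw [← hK.hxL] at h1
        linarith
    have hW1 : (v.b.zs:ℝ) / 2 ^ v.b.q ≤ D.W r := by
      rw [hWr]
      rcases w1 with w1 | w1
      · exact w1.trans (le_max_left _ _)
      · refine w1.trans (le_trans ?_ (le_max_right _ _))
        have h1 : r ^ 2 / ((K.rbn:ℝ) / 2 ^ 20) ^ 2 ≤
            ((g.rb:ℝ) / 2 ^ 20) ^ 2 / ((K.rbn:ℝ) / 2 ^ 20) ^ 2 := by
          have := hr.2
          gcongr
        linarith
    have hW2 : D.W r ≤ (v.b.zs + v.b.m * v.b.g) / 2 ^ v.b.q := by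
      rw [hWr]
      apply max_le
      · positivity
      · refine le_trans ?_ w2
        have h1 : ((v.r1:ℝ) / 2 ^ 20) ^ 2 / ((K.rbn:ℝ) / 2 ^ 20) ^ 2 ≤
            r ^ 2 / ((K.rbn:ℝ) / 2 ^ 20) ^ 2 := by
          gcongr
        linarith
    -- the derivatives
    have d1 := rngC_sound hK.apx hK.l1 k1 (by decide +kernel) k6 _ ⟨x1, x2⟩ _ ⟨hW1, hW2⟩
    have d2 := rng_abs hK k1 (by decide +kernel) k7 le_rfl le_rfl le_rfl le_rfl _ ⟨x1, x2⟩ _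
      ⟨hW1, hW2⟩
    rw [← Dat.bx_eq] at d1
    rw [← Dat.bw_eq] at d2
    have h8 := slQ_sound k8
    have h9 := slS_sound hK.hnL k9
    have h10 := slF_sound hK.hN k10
    rw [Nat.cast_zero, zero_div, ← hK.hxL] at h10
    have h11 := slA_sound hK.hnL hK.hN k11
    rw [← hK.hxL] at h11
    clear k1 k2 k3 k4 k5 k6 k7 k8 k9 k10 k11 w1 w2 x1 x2 hW1 hW2 hr1 hWr
    have h30 : (0:ℝ) < 2 ^ 30 := by positivity
    -- the constants
    have hq0 : UB (2 * (51 / 50 + D.rB) / D.rB * |D.bw (-(r * Real.cos θ)) (D.W r)|)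
        (mU (cB K.rbn) v.B) := by
      have h1 := cB_sound hK.hrbn
      rw [← hK.hrB] at h1
      refine h1.mul ⟨abs_nonneg _, ?_⟩
      rw [le_div_iff₀ h30] at d2
      exact d2
    have hHI : UB (max 0 ((v.HI:ℝ) / 2 ^ 30)) v.HI.toNat := by
      refine ⟨le_max_left _ _, ?_⟩
      rw [max_mul_of_nonneg _ _ h30.le, zero_mul]
      have e : (v.HI:ℝ) / 2 ^ 30 * 2 ^ 30 = v.HI := by field_simp
      rw [e]
      apply max_le (Nat.cast_nonneg _)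
      have : v.HI ≤ (v.HI.toNat : ℤ) := Int.self_le_toNat _
      exact_mod_cast this
    have hHV := (hHI.mul V_sound).2
    generalize mU (cB K.rbn) v.B = q at h8 h11 hq0
    generalize mU v.HI.toNat 1095216661 = p at h8 hHV
    refine sliver_gen (s0 := (v.LO:ℝ) / 2 ^ 30 + K.N / K.nL) (q0 := (q:ℝ) / 2 ^ 30)
      (b1 := max 0 ((v.HI:ℝ) / 2 ^ 30)) hrB0 (by norm_num) h9 (le_max_left _ _) ?_ (by linarith)
      (by positivity) h11 hr0 hθ1 hv ?_ (d1.2.trans (le_max_right _ _)) ?_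
    · generalize (2:ℝ) ^ 30 = a at *
      have e : (q:ℝ) / a = 1 - (a - q) / a := by
        field_simp
        ring
      rw [e]
      have h12 : max 0 ((v.HI:ℝ) / a) * (51 / 50) ≤ (a - q) / a := by
        rw [le_div_iff₀ h30]
        linarith
      linarith
    · have hy : 0 < r * Real.cos θ := by linarith
      have h12 : 1 / (-(r * Real.cos θ)) ≤ -((K.N:ℝ) / K.nL) := by
        rw [div_neg, neg_le_neg_iff]
        have e : (K.N:ℝ) / K.nL = 1 / D.xL := by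
          rw [hK.hxL]
          field_simp
        rw [e]
        exact one_div_le_one_div_of_le hy hθ2
      linarith [d1.1]
    · rw [le_div_iff₀ h30]
      exact hq0.2

/-- the check of a region inside the radius `rB` -/
def regIn (K : RC) (g : Reg) (b : Bx) (M : M9) (v : Sv) : Bool :=
  b.ok && (coverX K b g.xb && (coverW K.rbn b g.ra g.rb && (Nat.ble g.rb K.rbn &&
  (nineC K b M && (Nat.ble (kb10 (iB K.rbn) (Nat.mul 1024 g.rb) 1095216661 M)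
    (Nat.mul g.KR 1073741824) &&
  (Nat.ble (kb01 (iB K.rbn) (Nat.mul 1024 g.rb) 1095216661 M) (Nat.mul g.KT 1073741824) &&
  (Nat.ble (lb10 (iB K.rbn) (Nat.mul 1024 g.rb) 1095216661 M) (Nat.mul g.LA 1073741824) &&
  (Nat.ble (lb01 (iB K.rbn) (Nat.mul 1024 g.rb) 1095216661 M) (Nat.mul g.LE 1073741824) &&
  (Nat.ble (Nat.mul 100 g.xb) (Nat.mul 21 (Nat.pow 2 20)) && slivC K g v)))))))))

theorem xb_aux {a b : ℕ} (h : 100 * a ≤ 21 * b) (hb : 0 < (b:ℝ)) : (a:ℝ) / b ≤ 21 / 100 := by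
  rw [div_le_div_iff₀ hb (by norm_num)]
  have : (100:ℝ) * a ≤ 21 * b := by exact_mod_cast h
  linarith

theorem ble_cast {a b : ℕ} (h : Nat.ble a b = true) : (a:ℝ) / 2 ^ 20 ≤ (b:ℝ) / 2 ^ 20 := by
  have h1 : a ≤ b := Nat.le_of_ble_eq_true h
  have h2 : (a:ℝ) ≤ b := by exact_mod_cast h1
  exact div_le_div_of_nonneg_right h2 (by positivity)

/-- **Soundness of the check of a region.** -/
theorem regIn_sound {D : Dat} {K : RC} (hK : RCOk D K) {g : Reg} {b : Bx} {M : M9} {v : Sv}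
    (h : regIn K g b M v = true) : RegOk D (51 / 50) g := by
  unfold regIn at h
  simp only [Bool.and_eq_true] at h
  obtain ⟨h1, h2, h3, h4, h5, h6, h7, h8, h9, h10, h11⟩ := h
  have hrbn : (0:ℝ) < K.rbn := by exact_mod_cast hK.hrbn
  have hrB0 : 0 < D.rB := by
    rw [hK.hrB]
    positivity
  obtain ⟨x1, x2⟩ := coverX_sound hK h2
  obtain ⟨w1, w2⟩ := coverW_sound hK.hrbn h3
  have hrb := ble_cast h4
  rw [← hK.hrB] at hrb w1 w2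
  have w1' : (b.zs:ℝ) / 2 ^ b.q ≤ 1 - ((g.rb:ℝ) / 2 ^ 20) ^ 2 / D.rB ^ 2 := by
    rcases w1 with w1 | w1
    · refine w1.trans ?_
      rw [sub_nonneg, div_le_one (by positivity)]
      gcongr
    · exact w1
  have hM := nineC_sound hK h1 h5 (xa := -D.xL) (xb := (g.xb:ℝ) / 2 ^ 20)
    (wa := 1 - ((g.rb:ℝ) / 2 ^ 20) ^ 2 / D.rB ^ 2)
    (wb := 1 - ((g.ra:ℝ) / 2 ^ 20) ^ 2 / D.rB ^ 2) x1 x2 w1' w2
  have hI := iB_sound hK.hrbn
  rw [← hK.hrB] at hI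
  have hr := r_sound g.rb
  refine ⟨⟨_, semiC_in hM hrB0 (by norm_num) (by positivity) hrb le_rfl le_rfl,
    (kb10_sound hI hr V_sound).le h6, (kb01_sound hI hr V_sound).le h7⟩,
    ⟨_, lipC_in hM hrB0 (by norm_num) (by positivity) hrb le_rfl le_rfl, ?_⟩, ?_,
    slivC_sound hK h11⟩
  · intro a e ha he
    rw [LB_lin]
    exact add_le_add (mul_le_mul_of_nonneg_right ((lb10_sound hI hr V_sound).le h8) ha)
      (mul_le_mul_of_nonneg_right ((lb01_sound hI hr V_sound).le h9) he)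
  · have := xb_aux (Nat.le_of_ble_eq_true h10) (by rw [cpow]; positivity)
    rwa [cpow] at this

def threeC (K : RC) (b : Bx) (M : M9) : Bool :=
  rngC K.L K.epsN b 1 0 9 (Int.neg (M.m10 : ℤ)) (M.m10 : ℤ) &&
  (rngC K.L K.epsN b 2 0 24 (Int.neg (M.m20 : ℤ)) (M.m20 : ℤ) &&
  rngC K.L K.epsN b 3 0 95 (Int.neg (M.m30 : ℤ)) (M.m30 : ℤ))

/-- the check of a region outside the radius `rB` -/
def regOut (K : RC) (g : Reg) (b : Bx) (M : M9) (v : Sv) : Bool :=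
  b.ok && (coverX K b g.xb && (Nat.beq b.zs 0 && (Nat.ble K.rbn g.ra && (Nat.ble 1 g.rb &&
  (threeC K b M && (Nat.ble (ko10 (Nat.mul 1024 g.rb) 1095216661 M)
    (Nat.mul g.KR 1073741824) &&
  (Nat.ble (ko01 (Nat.mul 1024 g.rb) 1095216661 M) (Nat.mul g.KT 1073741824) &&
  (Nat.ble (lo10 (Nat.mul 1024 g.rb) 1095216661 M) (Nat.mul g.LA 1073741824) &&
  (Nat.ble (lo01 (Nat.mul 1024 g.rb) 1095216661 M) (Nat.mul g.LE 1073741824) &&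
  (Nat.ble (Nat.mul 100 g.xb) (Nat.mul 21 (Nat.pow 2 20)) && slivC K g v))))))))))

/-- **Soundness of the check of a region.** -/
theorem regOut_sound {D : Dat} {K : RC} (hK : RCOk D K) {g : Reg} {b : Bx} {M : M9} {v : Sv}
    (h : regOut K g b M v = true) : RegOk D (51 / 50) g := by
  unfold regOut at h
  simp only [Bool.and_eq_true] at h
  obtain ⟨h1, h2, h3, h4, h0, h5, h6, h7, h8, h9, h10, h11⟩ := h
  have hrbn : (0:ℝ) < K.rbn := by exact_mod_cast hK.hrbn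
  have hrB0 : 0 < D.rB := by
    rw [hK.hrB]
    positivity
  obtain ⟨x1, x2⟩ := coverX_sound hK h2
  have hra := ble_cast h4
  rw [← hK.hrB] at hra
  have hzs : b.zs = 0 := Nat.eq_of_beq_eq_true h3
  have hrb1 : 1 ≤ g.rb := Nat.le_of_ble_eq_true h0
  have hrb0 : (0:ℝ) < (g.rb:ℝ) / 2 ^ 20 := by
    have : (1:ℝ) ≤ g.rb := by exact_mod_cast hrb1
    positivity
  have w1 : (b.zs:ℝ) / 2 ^ b.q ≤ 0 := by
    rw [hzs]
    simp
  have w2 : (0:ℝ) ≤ (b.zs + b.m * b.g) / 2 ^ b.q := by positivity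
  unfold threeC at h5
  simp only [Bool.and_eq_true] at h5
  obtain ⟨a1, a2, a3⟩ := h5
  have m1 : ∀ x ∈ Icc (-D.xL) ((g.xb:ℝ) / 2 ^ 20), |D.bd 1 0 x 0| ≤ (M.m10:ℝ) / 2 ^ 30 :=
    fun x hx => rng_abs hK h1 (by decide +kernel) a1 x1 x2 w1 w2 x hx 0 ⟨le_rfl, le_rfl⟩
  have m2 : ∀ x ∈ Icc (-D.xL) ((g.xb:ℝ) / 2 ^ 20), |D.bd 2 0 x 0| ≤ (M.m20:ℝ) / 2 ^ 30 :=
    fun x hx => rng_abs hK h1 (by decide +kernel) a2 x1 x2 w1 w2 x hx 0 ⟨le_rfl, le_rfl⟩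
  have m3 : ∀ x ∈ Icc (-D.xL) ((g.xb:ℝ) / 2 ^ 20), |D.bd 3 0 x 0| ≤ (M.m30:ℝ) / 2 ^ 30 :=
    fun x hx => rng_abs hK h1 (by decide +kernel) a3 x1 x2 w1 w2 x hx 0 ⟨le_rfl, le_rfl⟩
  have hr := r_sound g.rb
  refine ⟨⟨_, semiC_out m1 m2 m3 hrB0 (by norm_num) hra hrb0,
    (ko10_sound hr V_sound).le h6, (ko01_sound hr V_sound).le h7⟩,
    ⟨_, lipC_out m1 m2 m3 hrB0 (by norm_num) hra hrb0, ?_⟩, ?_,
    slivC_sound hK h11⟩
  · intro a e ha he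
    rw [LO_lin]
    exact add_le_add (mul_le_mul_of_nonneg_right ((lo10_sound hr V_sound).le h8) ha)
      (mul_le_mul_of_nonneg_right ((lo01_sound hr V_sound).le h9) he)
  · have := xb_aux (Nat.le_of_ble_eq_true h10) (by rw [cpow]; positivity)
    rwa [cpow] at this

end Pool.Agent.H44.Shore
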