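import Mathlib
import Pool.Agent.H44.Shore.Cert

/-!
Shoreline search: the stage one certificate for `27 / 2` (numerical data of helper81).
-/

open Set Polynomial Real

namespace Pool.Agent.H44.Shore

/-- the integer data of the stage one certificate -/
def R1 : Raw where
  N := 100
  nL := 21
  rb := 314573
  rc := 1048576
  Q := 2000
  t0 := [-26100, -900]
  t2 := [58400, 2480]
  t3 := [-46900, -1820]
  t4 := []

/-- the stage one certificate -/
noncomputable def D1 : Dat := R1.dat (27 / 2)

theorem R1_xL : R1.xL = 21 / 100 := by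
  norm_num [Raw.xL, R1]

theorem R1_rB : R1.rB = 314573 / 1048576 := by
  norm_num [Raw.rB, R1]

/-- plain form of the coefficients -/
theorem R1_plain (x w : ℝ) : MBC.ev2 R1.T (R1.N * x) w / R1.Q =
    (-13.05 - 45 * x) + w ^ 2 * (29.2 + 124 * x) + w ^ 3 * (-23.45 - 91 * x) := by
  simp only [R1, Raw.T, MBC.ev2, MBC.ev]
  push_cast
  ring

theorem log_bounds1 :
    (799144290325165978 + 402248267751505009 - 1000) / (1152921504606846976 : ℝ) ≤
      log (27 / 2 * R1.xL) ∧
    log (27 / 2 * R1.xL) ≤
      (799144290325165978 + 402248267751505009 + 2000) / (1152921504606846976 : ℝ) := by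
  have hS : ((Num.S : ℕ) : ℝ) = 1152921504606846976 := by norm_num [Num.S]
  have a1 := lg_lower (p := 2) (q := 1) (by norm_num) (by norm_num) (by norm_num)
    (a := 799144290325165978 - 500) (by decide +kernel)
  have a2 := lg_upper (p := 2) (q := 1) (by norm_num) (by norm_num) (by norm_num)
    (a := 799144290325165978 + 1500) (by decide +kernel)
  have b1 := lg_lower (p := 14175) (q := 10000) (by norm_num) (by norm_num)
    (by norm_num) (a := 402248267751505009 - 500) (by decide +kernel)
  have b2 := lg_upper (p := 14175) (q := 10000) (by norm_num) (by norm_num)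
    (by norm_num) (a := 402248267751505009 + 500) (by decide +kernel)
  rw [hS] at a1 a2 b1 b2
  rw [R1_xL]
  have e : (27:ℝ) / 2 * (21 / 100) = ((2:ℕ):ℝ) / ((1:ℕ):ℝ) * (((14175 : ℕ) : ℝ) /
    ((10000 : ℕ) : ℝ)) := by norm_num
  rw [e, log_mul (by norm_num) (by norm_num)]
  constructor
  · refine le_trans (le_of_eq ?_) (add_le_add a1 b1)
    push_cast
    norm_num
  · refine le_trans (add_le_add a2 b2) (le_of_eq ?_)
    push_cast
    norm_num

theorem kap_bounds1 : |2 ^ 48 * R1.kap (27 / 2) - ((1032507915251376 : ℤ) : ℝ)| ≤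
      ((10 : ℕ) : ℝ) := by
  obtain ⟨l1, l2⟩ := log_bounds1
  unfold Raw.kap
  rw [R1_xL] at l1 l2 ⊢
  have e : (1:ℝ) / (27 / 2) + 21 / 100 = 767 / 2700 := by norm_num
  rw [e]
  push_cast
  rw [abs_le]
  constructor
  · have : (2:ℝ) ^ 48 * (log (27 / 2 * (21 / 100)) / (767 / 2700)) =
        log (27 / 2 * (21 / 100)) * (2 ^ 48 * 2700 / 767) := by ring
    rw [this]
    linarith
  · have : (2:ℝ) ^ 48 * (log (27 / 2 * (21 / 100)) / (767 / 2700)) =
        log (27 / 2 * (21 / 100)) * (2 ^ 48 * 2700 / 767) := by ring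
    rw [this]
    linarith

theorem hX1 : |2 ^ 48 * (1 / (27 / 2)) - ((20849998274863 : ℤ) : ℝ)| ≤ ((1 : ℕ) : ℝ) := by
  push_cast
  rw [abs_le]
  constructor <;> norm_num

/-- **The conditions on the stage one certificate.** -/
theorem ok1 : D1.Ok := by
  have hk := abs_le.mp kap_bounds1
  have h1L : 1 / (27 / 2) < R1.xL := by
    rw [R1_xL]
    norm_num
  refine Raw.ok R1 (by norm_num) h1L (by rw [R1_rB]; norm_num) ?_
  refine Raw.c2_of_check R1 (by norm_num) (by decide) (by decide) (by decide) (by decide)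
    (by decide) h1L (A' := 48) (n := 6) (X1 := 20849998274863) (K1 := 1032507915251658) (dX := 1)
    hX1 ?_ (s := 3) (q := 6) (K := 5) (H := 8) (G := 8) (M := 2 ^ 65) (d := 4)
    (ns := [3, 3, 4, 4, 4, 4, 4]) (by decide) (by decide +kernel)
    (by decide +kernel) (by decide +kernel) (by decide) ?_ ?_ (by decide +kernel)
  · push_cast at hk ⊢
    linarith [hk.2]
  · have : ((R1.nL : ℕ) : ℝ) = 21 := by norm_num [R1]
    rw [this]
    have : ((R1.N : ℕ) : ℝ) = 100 := by norm_num [R1]
    rw [this]
    simp only [List.length_cons, List.length_nil]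
    push_cast
    norm_num
  · intro k hk
    have e1 : ((R1.nL : ℕ) : ℝ) = 21 := by norm_num [R1]
    have e2 : ((R1.N : ℕ) : ℝ) = 100 := by norm_num [R1]
    rw [e1, e2, R1_rB]
    simp only [List.length_cons, List.length_nil] at hk
    interval_cases k <;> norm_num

/-- integer matrix of the coefficients, denominator `2 ^ 60` -/
def L1 : List (List ℤ) := R1.L 48 60 20849998274863 1032507915251376

/-- **The coefficients of the stage one certificate.** -/
theorem apx1 : MBC.Apx D1 L1 60 (1 / 10 ^ 9) := by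
  refine Raw.apx R1 (by decide) (by decide) (by norm_num) hX1 kap_bounds1 (by decide)
    (by decide) (by decide) (by decide) (PM := 2 ^ 77) (by decide +kernel) ?_
  have e1 : ((R1.N : ℕ) : ℝ) = 100 := by norm_num [R1]
  have e2 : ((R1.Q : ℕ) : ℝ) = 2000 := by norm_num [R1]
  rw [e1, e2]
  push_cast
  norm_num

end Pool.Agent.H44.Shore
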